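import Pool.Agent.Work.MP_4c3a42_al.HtSpec

open MvPolynomial

namespace Pool.Agent.Tyz

/-- `|det A|` is at most the product of the `ℓ¹`-norms of the rows. -/
theorem abs_det_le_prod_l1 {n : ℕ} (A : Matrix (Fin n) (Fin n) ℝ) :
    |A.det| ≤ ∏ i, ∑ j, |A i j| := by
  classical
  rw [← Matrix.det_transpose, Matrix.det_apply', Finset.prod_univ_sum, Fintype.piFinset_univ]
  calc |∑ σ : Equiv.Perm (Fin n), ((Equiv.Perm.sign σ : ℤ) : ℝ) * ∏ i, A.transpose (σ i) i|
      ≤ ∑ σ : Equiv.Perm (Fin n), |((Equiv.Perm.sign σ : ℤ) : ℝ) * ∏ i, A.transpose (σ i) i| :=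
        Finset.abs_sum_le_sum_abs _ _
    _ = ∑ σ : Equiv.Perm (Fin n), ∏ i, |A i (σ i)| := by
        refine Finset.sum_congr rfl fun σ _ => ?_
        rw [abs_mul, Finset.abs_prod]
        rcases Int.units_eq_one_or (Equiv.Perm.sign σ) with h | h <;> simp [h]
    _ = ∑ f ∈ Finset.image (fun σ : Equiv.Perm (Fin n) => (⇑σ : Fin n → Fin n)) Finset.univ,
          ∏ i, |A i (f i)| := by
        rw [Finset.sum_image]
        intro a _ b _ hab
        exact DFunLike.coe_injective hab
    _ ≤ ∑ f : Fin n → Fin n, ∏ i, |A i (f i)| := by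
        refine Finset.sum_le_sum_of_subset_of_nonneg (Finset.subset_univ _) fun f _ _ => ?_
        exact Finset.prod_nonneg fun i _ => abs_nonneg _

/-- Integer vectors of bounded `ℓ¹`-norm have bounded height. -/
theorem ht_le_of_int {E U J : Type} [Finite E] [Fintype J] [AddCommGroup U] [Module ℚ U]
    (v : E → U) (Ψ : U →ₗ[ℚ] (J → ℚ))
    (hinj : ∀ y ∈ Submodule.span ℚ (Set.range v), Ψ y = 0 → y = 0)
    (hint : ∀ e j, ∃ n : ℤ, Ψ (v e) j = n) (C : ℝ) (hC : ∀ e, ∑ j, |((Ψ (v e) j : ℚ) : ℝ)| ≤ C) :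
    ht v ≤ C ^ rk v := by
  classical
  have hfd : Module.Finite ℚ (Submodule.span ℚ (Set.range v)) :=
    FiniteDimensional.span_of_finite ℚ (Set.finite_range v)
  obtain ⟨f, hf, hfs, hfi⟩ := Submodule.exists_fun_fin_finrank_span_eq ℚ (Set.range v)
  choose σ hσ using hf
  change Fin (rk v) → E at σ
  -- the matrix
  let A : Matrix (Fin (rk v)) J ℚ := fun i j => Ψ (v (σ i)) j
  have hrow : LinearIndependent ℚ A.row := by
    have h1 : LinearIndependent ℚ (fun i => Ψ (f i)) := by
      rw [Fintype.linearIndependent_iff] at hfi ⊢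
      intro g hg
      apply hfi
      apply hinj
      · refine Submodule.sum_mem _ fun i _ => Submodule.smul_mem _ _ ?_
        rw [← hfs]
        exact Submodule.subset_span ⟨i, rfl⟩
      · rw [map_sum]
        simpa using hg
    have h2 : A.row = fun i => Ψ (f i) := by
      funext i
      change Ψ (v (σ i)) = Ψ (f i)
      rw [hσ i]
    rw [h2]
    exact h1
  have hrank : A.rank = rk v := by
    rw [hrow.rank_matrix, Fintype.card_fin]
  have hfin : Module.finrank ℚ (Submodule.span ℚ (Set.range A.col)) = rk v := by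
    rw [← Matrix.rank_eq_finrank_span_cols, hrank]
  obtain ⟨g, hg, -, hgi⟩ := Submodule.exists_fun_fin_finrank_span_eq ℚ (Set.range A.col)
  choose c0 hc0 using hg
  let c : Fin (rk v) → J := fun i => c0 (Fin.cast hfin.symm i)
  let B : Matrix (Fin (rk v)) (Fin (rk v)) ℚ := fun i k => A i (c k)
  have hBcol : LinearIndependent ℚ B.col := by
    have h1 : B.col = g ∘ (Fin.cast hfin.symm) := by
      funext k
      change (fun i => A i (c0 (Fin.cast hfin.symm k))) = g (Fin.cast hfin.symm k)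
      rw [← hc0 (Fin.cast hfin.symm k)]
      rfl
    rw [h1]
    exact hgi.comp _ (Fin.cast_injective _)
  have hBu : IsUnit B := Matrix.linearIndependent_cols_iff_isUnit.1 hBcol
  have hBdet : B.det ≠ 0 := by
    have := (Matrix.isUnit_iff_isUnit_det B).1 hBu
    exact this.ne_zero
  have hcinj : Function.Injective c := by
    intro a b hab
    have h1 : B.col a = B.col b := by
      funext i
      change A i (c a) = A i (c b)
      rw [hab]
    exact hBcol.injective h1
  let Ω : U [⋀^Fin (rk v)]→ₗ[ℚ] ℚ :=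
    (Matrix.detRowAlternating (n := Fin (rk v)) (R := ℚ)).compLinearMap
      ((LinearMap.funLeft ℚ ℚ c).comp Ψ)
  have hΩ : ∀ y : Fin (rk v) → U, Ω y = Matrix.det (fun i k => Ψ (y i) (c k)) := fun y => rfl
  choose z hz using hint
  refine ht_le_of_form v Ω ?_ ?_ ?_
  · intro τ
    refine ⟨Matrix.det (fun i k => z (τ i) (c k)), ?_⟩
    rw [hΩ, Int.cast_det]
    congr 1
    ext i k
    simp [hz]
  · refine ⟨σ, ?_⟩
    rw [hΩ]
    exact hBdet
  · intro τ
    rw [hΩ]
    have h1 : ((Matrix.det (fun i k => Ψ (v (τ i)) (c k)) : ℚ) : ℝ)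
        = Matrix.det (fun i k => ((Ψ (v (τ i)) (c k) : ℚ) : ℝ)) := by
      exact RingHom.map_det (Rat.castHom ℝ) (fun i k => Ψ (v (τ i)) (c k))
    rw [h1]
    refine (abs_det_le_prod_l1 _).trans ?_
    have h2 : ∀ i : Fin (rk v), ∑ k, |((Ψ (v (τ i)) (c k) : ℚ) : ℝ)| ≤ C := by
      intro i
      refine le_trans ?_ (hC (τ i))
      rw [← Finset.sum_image (f := fun j => |((Ψ (v (τ i)) j : ℚ) : ℝ)|) (g := c)
        (s := Finset.univ) (fun a _ b _ hab => hcinj hab)]
      exact Finset.sum_le_sum_of_subset_of_nonneg (Finset.subset_univ _)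
        fun _ _ _ => abs_nonneg _
    calc ∏ i : Fin (rk v), ∑ k, |((Ψ (v (τ i)) (c k) : ℚ) : ℝ)|
        ≤ ∏ _i : Fin (rk v), C :=
          Finset.prod_le_prod (fun i _ => Finset.sum_nonneg fun _ _ => abs_nonneg _)
            fun i _ => h2 i
      _ = C ^ rk v := by simp

end Pool.Agent.Tyz
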