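import Pool.Agent.Work.MP_4c3a42_al.BaseP
import Pool.Agent.Work.MP_4c3a42_al.HtInt

open MvPolynomial

namespace Pool.Agent.Tyz

variable {ι : Type} [Fintype ι] [DecidableEq ι]

theorem psi_monomial_lh (x : ι → ℂ) {o : ι} (d : LatData x o) (m : ι →₀ ℕ) :
    psi x d (monomial m 1) =
      AddMonoidAlgebra.single (∑ i, (m i : ℤ) • d.Γ i) (∏ i, x i ^ (m i)) := by
  have key : ∀ s : Finset ι, ∏ i ∈ s, (AddMonoidAlgebra.single (d.Γ i) (x i) :
      AddMonoidAlgebra ℂ (Fin (d.u + 1) → ℤ)) ^ (m i) =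
      AddMonoidAlgebra.single (∑ i ∈ s, (m i : ℤ) • d.Γ i) (∏ i ∈ s, x i ^ (m i)) := by
    intro s
    induction s using Finset.induction_on with
    | empty => simp [AddMonoidAlgebra.one_def]
    | insert a s ha ih =>
      rw [Finset.prod_insert ha, Finset.sum_insert ha, Finset.prod_insert ha, ih,
        AddMonoidAlgebra.single_pow, AddMonoidAlgebra.single_mul_single]
      congr 2
  unfold psi
  rw [aeval_monomial, map_one, one_mul, Finsupp.prod_fintype _ _ (by simp)]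
  exact key _

/-- coefficient functional -/
noncomputable def cfl {u : ℕ} (c : Fin (u + 1) → ℤ) :
    AddMonoidAlgebra ℂ (Fin (u + 1) → ℤ) →ₗ[ℚ] ℂ where
  toFun f := f.coeff c
  map_add' f g := by simp
  map_smul' q f := by simp

theorem ht_nonneg_lh {E U : Type} [AddCommGroup U] [Module ℚ U] (v : E → U) : 0 ≤ ht v :=
  Real.sInf_nonneg fun _ h => h.1

/-- The arithmetic Hilbert function of the toric ideal is of lower order. -/
theorem P0_lh (x : ι → ℂ) {o : ι} (d : LatData x o) (hx0 : ∀ i, x i ≠ 0) (hxo : x o = 1) :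
    ∃ C : ℝ, 0 ≤ C ∧ ∀ D, lh (P0 x d) D ≤ C * hf (P0 x d) D := by
  classical
  obtain ⟨r, hr, htors⟩ := d.tors hx0 hxo
  set Z : Finset ℂ := Polynomial.nthRootsFinset r (1 : ℂ) with hZ
  have hZmem : ∀ z : ℂ, z ^ r = 1 → z ∈ Z := fun z hz =>
    (Polynomial.mem_nthRootsFinset hr 1).2 hz
  set W : Submodule ℚ ℂ := Submodule.span ℚ (Z : Set ℂ) with hW
  have hWfd : Module.Finite ℚ W := FiniteDimensional.span_finset ℚ Z
  set s := Module.finrank ℚ W with hs
  let b : Module.Basis (Fin s) ℚ W := Module.finBasis ℚ W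
  obtain ⟨L, hL⟩ := LinearMap.exists_extend (b.equivFun : W →ₗ[ℚ] (Fin s → ℚ))
  have hL' : ∀ z : ℂ, z ∈ W → L z = 0 → z = 0 := by
    intro z hz h0
    have h1 : b.equivFun ⟨z, hz⟩ = 0 := by
      have := congrArg (fun f : W →ₗ[ℚ] (Fin s → ℚ) => f ⟨z, hz⟩) hL
      have h2 : L z = b.equivFun ⟨z, hz⟩ := this
      rw [← h2, h0]
    have h2 : (⟨z, hz⟩ : W) = 0 := by
      rwa [LinearEquiv.map_eq_zero_iff] at h1
    exact congrArg Subtype.val h2
  obtain ⟨M, hM, nn, hn⟩ := LatExAux.common_den (fun p : Z × Fin s => L (p.1 : ℂ) p.2)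
  have hM0 : (M : ℚ) ≠ 0 := by exact_mod_cast hM.ne'
  set C0 : ℝ := 1 + ∑ p : Z × Fin s, |(((M : ℚ) * L (p.1 : ℂ) p.2 : ℚ) : ℝ)| with hC0
  have hC1 : 1 ≤ C0 := by
    have : 0 ≤ ∑ p : Z × Fin s, |(((M : ℚ) * L (p.1 : ℂ) p.2 : ℚ) : ℝ)| :=
      Finset.sum_nonneg fun _ _ => abs_nonneg _
    linarith
  refine ⟨Real.log C0, Real.log_nonneg hC1, fun D => ?_⟩
  let G : Mon ι D → (Fin (d.u + 1) → ℤ) := fun m => ∑ i, (m.1 i : ℤ) • d.Γ i
  let xm : Mon ι D → ℂ := fun m => ∏ i, x i ^ (m.1 i)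
  have hxm : ∀ m, xm m ≠ 0 := fun m => Finset.prod_ne_zero_iff.2 fun i _ => pow_ne_zero _ (hx0 i)
  let y : (Fin (d.u + 1) → ℤ) → ℂ := fun c => if h : ∃ m, G m = c then xm h.choose else 1
  have hy : ∀ m : Mon ι D, (y (G m))⁻¹ * xm m ∈ Z := by
    intro m
    have hex : ∃ m', G m' = G m := ⟨m, rfl⟩
    have hy1 : y (G m) = xm hex.choose := dif_pos hex
    have hG : G hex.choose = G m := hex.choose_spec
    set m' := hex.choose with hm'
    rw [hy1]
    refine hZmem _ ?_
    have h1 := htors (fun i => (m.1 i : ℤ) - (m'.1 i : ℤ)) (by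
      have : ∑ i, ((m.1 i : ℤ) - (m'.1 i : ℤ)) • d.Γ i = G m - G m' := by
        simp only [G, sub_smul, Finset.sum_sub_distrib]
      rw [this, hG, sub_self])
    have h2 : ∏ i, x i ^ ((m.1 i : ℤ) - (m'.1 i : ℤ)) = (xm m')⁻¹ * xm m := by
      simp only [xm]
      rw [← Finset.prod_inv_distrib, ← Finset.prod_mul_distrib]
      refine Finset.prod_congr rfl fun i _ => ?_
      rw [zpow_sub₀ (hx0 i), zpow_natCast, zpow_natCast, div_eq_mul_inv, mul_comm]
    rw [h2] at h1
    exact h1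
  have hy0 : ∀ c, y c ≠ 0 := by
    intro c
    by_cases h : ∃ m, G m = c
    · have : y c = xm h.choose := dif_pos h
      rw [this]
      exact hxm _
    · have : y c = 1 := dif_neg h
      rw [this]
      exact one_ne_zero
  let J : Type := {c // c ∈ Finset.univ.image G} × Fin s
  let Φ : (MvPolynomial ι ℚ ⧸ P0 x d) →ₐ[ℚ] AddMonoidAlgebra ℂ (Fin (d.u + 1) → ℤ) :=
    Ideal.kerLiftAlg (psi x d)
  have hΦinj : Function.Injective Φ := Ideal.kerLiftAlg_injective (psi x d)
  have hΦ : ∀ m : Mon ι D, Φ (mv (P0 x d) D m) = AddMonoidAlgebra.single (G m) (xm m) := by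
    intro m
    show psi x d (monomial m.1 1) = _
    rw [psi_monomial_lh]
  let Ψ : (MvPolynomial ι ℚ ⧸ P0 x d) →ₗ[ℚ] (J → ℚ) := LinearMap.pi fun p =>
    (M : ℚ) • ((LinearMap.proj p.2 : (Fin s → ℚ) →ₗ[ℚ] ℚ) ∘ₗ L ∘ₗ
      (LinearMap.mulLeft ℚ (y p.1.1)⁻¹) ∘ₗ (cfl p.1.1) ∘ₗ Φ.toLinearMap)
  have hΨ : ∀ f p, Ψ f p = (M : ℚ) * L ((y p.1.1)⁻¹ * (Φ f).coeff p.1.1) p.2 := fun f p => rfl
  have hΨm : ∀ m p, Ψ (mv (P0 x d) D m) p =
      if G m = p.1.1 then (M : ℚ) * L ((y (G m))⁻¹ * xm m) p.2 else 0 := by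
    intro m p
    rw [hΨ, hΦ, AddMonoidAlgebra.coeff_single, Finsupp.single_apply]
    split_ifs with h
    · rw [h]
    · rw [mul_zero, map_zero, Pi.zero_apply, mul_zero]
  have hmain := ht_le_of_int (mv (P0 x d) D) Ψ (J := J) ?_ ?_ C0 ?_
  · show Real.log (ht (mv (P0 x d) D)) ≤ Real.log C0 * (rk (mv (P0 x d) D) : ℝ)
    rcases (ht_nonneg_lh (mv (P0 x d) D)).eq_or_lt' with h0 | h0
    · rw [h0, Real.log_zero]
      exact mul_nonneg (Real.log_nonneg hC1) (Nat.cast_nonneg _)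
    · have h1 := Real.log_le_log h0 hmain
      rw [Real.log_pow] at h1
      rw [mul_comm]
      exact h1
  · intro f hf h0
    have hclaim : ∀ f ∈ Submodule.span ℚ (Set.range (mv (P0 x d) D)),
        ∀ c, (y c)⁻¹ * (Φ f).coeff c ∈ W ∧ (c ∉ Finset.univ.image G → (Φ f).coeff c = 0) := by
      intro f hf
      induction hf using Submodule.span_induction with
      | mem f hf =>
        obtain ⟨m, rfl⟩ := hf
        intro c
        rw [hΦ, AddMonoidAlgebra.coeff_single, Finsupp.single_apply]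
        constructor
        · split_ifs with h
          · rw [← h]
            exact Submodule.subset_span (hy m)
          · rw [mul_zero]
            exact Submodule.zero_mem _
        · intro hc
          rw [if_neg]
          rintro rfl
          exact hc (Finset.mem_image_of_mem _ (Finset.mem_univ m))
      | zero =>
        intro c
        rw [map_zero, AddMonoidAlgebra.coeff_zero, Finsupp.zero_apply, mul_zero]
        exact ⟨Submodule.zero_mem _, fun _ => rfl⟩
      | add f g _ _ ih1 ih2 =>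
        intro c
        rw [map_add, AddMonoidAlgebra.coeff_add, Finsupp.add_apply, mul_add]
        exact ⟨Submodule.add_mem _ (ih1 c).1 (ih2 c).1, fun hc => by
          rw [(ih1 c).2 hc, (ih2 c).2 hc, add_zero]⟩
      | smul q f _ ih =>
        intro c
        rw [map_smul, AddMonoidAlgebra.coeff_smul, Finsupp.smul_apply, mul_smul_comm]
        exact ⟨Submodule.smul_mem _ _ (ih c).1, fun hc => by rw [(ih c).2 hc, smul_zero]⟩
    have h1 : Φ f = 0 := by
      have h2 : ∀ c, (Φ f).coeff c = 0 := by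
        intro c
        by_cases hc : c ∈ Finset.univ.image G
        · have h3 : L ((y c)⁻¹ * (Φ f).coeff c) = 0 := by
            funext j
            have := congrFun h0 (⟨c, hc⟩, j)
            rw [hΨ] at this
            exact (mul_eq_zero.1 this).resolve_left hM0
          have h4 := hL' _ (hclaim f hf c).1 h3
          exact (mul_eq_zero.1 h4).resolve_left (inv_ne_zero (hy0 c))
        · exact (hclaim f hf c).2 hc
      ext c
      rw [h2]
      rfl
    exact hΦinj (h1.trans (map_zero Φ).symm)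
  · intro m p
    rw [hΨm]
    split_ifs with h
    · exact ⟨nn (⟨_, hy m⟩, p.2), hn (⟨_, hy m⟩, p.2)⟩
    · exact ⟨0, by simp⟩
  · intro m
    rw [Fintype.sum_prod_type]
    rw [Finset.sum_eq_single (⟨G m, Finset.mem_image_of_mem _ (Finset.mem_univ m)⟩ :
      {c // c ∈ Finset.univ.image G})]
    · have h1 : ∑ j : Fin s, |((Ψ (mv (P0 x d) D m)
          (⟨G m, Finset.mem_image_of_mem _ (Finset.mem_univ m)⟩, j) : ℚ) : ℝ)| =
          ∑ j : Fin s, |(((M : ℚ) * L ((y (G m))⁻¹ * xm m) j : ℚ) : ℝ)| := by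
        refine Finset.sum_congr rfl fun j _ => ?_
        rw [hΨm, if_pos rfl]
      rw [h1, hC0, Fintype.sum_prod_type]
      have h2 := Finset.single_le_sum (f := fun z : Z =>
        ∑ j : Fin s, |(((M : ℚ) * L (z : ℂ) j : ℚ) : ℝ)|)
        (fun _ _ => Finset.sum_nonneg fun _ _ => abs_nonneg _)
        (Finset.mem_univ (⟨_, hy m⟩ : Z))
      have h3 : ∑ j : Fin s, |(((M : ℚ) * L ((y (G m))⁻¹ * xm m) j : ℚ) : ℝ)| ≤
        ∑ z : Z, ∑ j : Fin s, |(((M : ℚ) * L (z : ℂ) j : ℚ) : ℝ)| := h2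
      linarith
    · intro c _ hc
      refine Finset.sum_eq_zero fun j _ => ?_
      rw [hΨm, if_neg]
      · simp
      · intro h
        exact hc (Subtype.ext h.symm)
    · intro h
      exact absurd (Finset.mem_univ _) h

end Pool.Agent.Tyz
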