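import Pool.Agent.Work.MP_4c3a42_al.LatEx

open MvPolynomial

namespace Pool.Agent.Tyz

section General

variable {κ : Type} [Fintype κ] {n : ℕ}

theorem basep_aeval_monomial (G : κ → Fin n → ℤ) (y : κ → ℂ) (m : κ →₀ ℕ) (a : ℚ) :
    aeval (fun i => (AddMonoidAlgebra.single (G i) (y i) : AddMonoidAlgebra ℂ (Fin n → ℤ)))
      (monomial m a : MvPolynomial κ ℚ) =
    AddMonoidAlgebra.single (∑ i, (m i : ℤ) • G i) ((a : ℂ) * ∏ i, y i ^ (m i)) := by
  rw [aeval_monomial]
  have h1 : ∀ s : Finset κ, (∏ i ∈ s, (AddMonoidAlgebra.single (G i) (y i) :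
      AddMonoidAlgebra ℂ (Fin n → ℤ)) ^ (m i)) =
      AddMonoidAlgebra.single (∑ i ∈ s, (m i : ℤ) • G i) (∏ i ∈ s, y i ^ (m i)) := by
    classical
    intro s
    induction s using Finset.induction_on with
    | empty => simp [AddMonoidAlgebra.one_def]
    | insert a s ha ih =>
      rw [Finset.prod_insert ha, Finset.sum_insert ha, Finset.prod_insert ha, ih,
        AddMonoidAlgebra.single_pow, AddMonoidAlgebra.single_mul_single]
      simp
  have h2 : (m.prod fun i k => (AddMonoidAlgebra.single (G i) (y i) :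
      AddMonoidAlgebra ℂ (Fin n → ℤ)) ^ k) =
      ∏ i, (AddMonoidAlgebra.single (G i) (y i) : AddMonoidAlgebra ℂ (Fin n → ℤ)) ^ (m i) :=
    Finsupp.prod_fintype _ _ (by intro i; simp)
  rw [h2, h1]
  have h3 : (algebraMap ℚ (AddMonoidAlgebra ℂ (Fin n → ℤ))) a =
      AddMonoidAlgebra.single 0 ((a : ℚ) : ℂ) := by
    rw [Algebra.algebraMap_eq_smul_one, AddMonoidAlgebra.one_def, AddMonoidAlgebra.smul_single]
    simp [Algebra.smul_def]
  rw [h3, AddMonoidAlgebra.single_mul_single]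
  simp

theorem basep_coeff (G : κ → Fin n → ℤ) (y : κ → ℂ) (F : MvPolynomial κ ℚ) (c : Fin n → ℤ) :
    (aeval (fun i => (AddMonoidAlgebra.single (G i) (y i) : AddMonoidAlgebra ℂ (Fin n → ℤ)))
      F).coeff c =
    ∑ m ∈ F.support with (∑ i, (m i : ℤ) • G i) = c,
      ((F.coeff m : ℚ) : ℂ) * ∏ i, y i ^ (m i) := by
  classical
  conv_lhs => rw [F.as_sum]
  rw [map_sum, AddMonoidAlgebra.coeff_sum, Finsupp.finsetSum_apply, Finset.sum_filter]
  refine Finset.sum_congr rfl fun m _ => ?_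
  rw [basep_aeval_monomial, AddMonoidAlgebra.coeff_single, Finsupp.single_apply]

theorem basep_mem_iff (G : κ → Fin n → ℤ) (y : κ → ℂ) (F : MvPolynomial κ ℚ) :
    aeval (fun i => (AddMonoidAlgebra.single (G i) (y i) : AddMonoidAlgebra ℂ (Fin n → ℤ)))
      F = 0 ↔ ∀ c : Fin n → ℤ,
    ∑ m ∈ F.support with (∑ i, (m i : ℤ) • G i) = c,
      ((F.coeff m : ℚ) : ℂ) * ∏ i, y i ^ (m i) = 0 := by
  constructor
  · intro h c
    rw [← basep_coeff, h]
    rfl
  · intro h
    ext c
    rw [basep_coeff, h c]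
    rfl

end General

variable {ι : Type} [Fintype ι] [DecidableEq ι]

theorem mx_prime (x : ι → ℂ) : (mx x).IsPrime := by
  unfold mx
  exact RingHom.ker_isPrime _

theorem X_notMem_mx (x : ι → ℂ) (i : ι) (hx : x i ≠ 0) : (X i : MvPolynomial ι ℚ) ∉ mx x := by
  unfold mx
  rw [RingHom.mem_ker, aeval_X]
  exact mul_ne_zero (by simpa using hx) Polynomial.X_ne_zero

theorem P0_prime (x : ι → ℂ) {o : ι} (d : LatData x o) : (P0 x d).IsPrime := by
  unfold P0
  exact RingHom.ker_isPrime _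

/-- A polynomial is in `P0` iff on every fibre of `Γ` the weighted sum of its coefficients
vanishes. -/
theorem mem_P0_iff (x : ι → ℂ) {o : ι} (d : LatData x o) (F : MvPolynomial ι ℚ) :
    F ∈ P0 x d ↔ ∀ c : Fin (d.u + 1) → ℤ,
      ∑ m ∈ F.support with (∑ i, (m i : ℤ) • d.Γ i) = c,
        ((F.coeff m : ℚ) : ℂ) * ∏ i, x i ^ (m i) = 0 := by
  unfold P0 psi
  rw [RingHom.mem_ker]
  exact basep_mem_iff d.Γ x F

/-- Relations have degree zero. -/
theorem basep_rel_deg (x : ι → ℂ) {o : ι} (w : ι → ℤ) (h : IsRel x o w) : ∑ i, w i = 0 := by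
  rcases h with ⟨i, j, -, rfl⟩ | ⟨i, j, k, -, rfl⟩
  · simp [Finset.sum_sub_distrib, Finset.sum_pi_single']
  · simp [Finset.sum_sub_distrib, Finset.sum_add_distrib, Finset.sum_pi_single']

theorem basep_span_deg (x : ι → ℂ) {o : ι} (d : LatData x o) (v : ι → ℚ)
    (h : v ∈ Submodule.span ℚ (Set.range fun a => vq (d.rel a))) : ∑ i, v i = 0 := by
  induction h using Submodule.span_induction with
  | mem y hy =>
    obtain ⟨a, rfl⟩ := hy
    have := basep_rel_deg x _ (d.isRel a)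
    have h2 : ((∑ i, d.rel a i : ℤ) : ℚ) = 0 := by rw [this]; simp
    simpa [vq] using h2
  | zero => simp
  | add y z _ _ h1 h2 => simp [Finset.sum_add_distrib, h1, h2]
  | smul c y _ h1 => simp [← Finset.mul_sum, h1]

theorem basep_fibre_deg (x : ι → ℂ) {o : ι} (d : LatData x o) (m m' : ι →₀ ℕ)
    (h : ∑ i, (m i : ℤ) • d.Γ i = ∑ i, (m' i : ℤ) • d.Γ i) : m.degree = m'.degree := by
  have h1 : ∑ i, ((m i : ℤ) - (m' i : ℤ)) • d.Γ i = 0 := by
    simp only [sub_smul, Finset.sum_sub_distrib]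
    rw [h, sub_self]
  have h2 := (d.ker fun i => (m i : ℤ) - (m' i : ℤ)).1 h1
  have h3 := basep_span_deg x d _ h2
  have h4 : (∑ i, (m i : ℚ)) - ∑ i, (m' i : ℚ) = 0 := by
    rw [← Finset.sum_sub_distrib]
    simpa [vq] using h3
  have h5 : (∑ i, m i : ℕ) = ∑ i, m' i := by
    have : ((∑ i, m i : ℕ) : ℚ) = ((∑ i, m' i : ℕ) : ℚ) := by
      push_cast
      linarith
    exact_mod_cast this
  rw [Finsupp.degree_eq_sum, Finsupp.degree_eq_sum]
  exact h5

theorem P0_HI (x : ι → ℂ) {o : ι} (d : LatData x o) : HI (P0 x d) := by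
  intro F hF n
  rw [mem_P0_iff] at hF ⊢
  intro c
  have hsupp : (homogeneousComponent n F).support = F.support.filter fun m => m.degree = n := by
    ext m
    simp only [mem_support_iff, coeff_homogeneousComponent, Finset.mem_filter]
    constructor
    · intro h
      split_ifs at h with h1
      · exact ⟨h, h1⟩
      · exact absurd rfl h
    · rintro ⟨h1, h2⟩
      rw [if_pos h2]
      exact h1
  rw [hsupp, Finset.filter_filter]
  by_cases hex : ∃ m ∈ F.support, m.degree = n ∧ (∑ i, (m i : ℤ) • d.Γ i) = c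
  · obtain ⟨m0, hm0, hdeg, hc⟩ := hex
    have h1 : (F.support.filter fun m => m.degree = n ∧ (∑ i, (m i : ℤ) • d.Γ i) = c) =
        F.support.filter fun m => (∑ i, (m i : ℤ) • d.Γ i) = c := by
      apply Finset.filter_congr
      intro m _
      constructor
      · exact fun h => h.2
      · intro h
        refine ⟨?_, h⟩
        rw [← hdeg]
        exact basep_fibre_deg x d _ _ (by rw [h, hc])
    rw [h1, ← hF c]
    refine Finset.sum_congr rfl fun m hm => ?_
    rw [Finset.mem_filter] at hm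
    have : m.degree = n := by
      rw [← hdeg]
      exact basep_fibre_deg x d _ _ (by rw [hm.2, hc])
    rw [coeff_homogeneousComponent, if_pos this]
  · rw [Finset.filter_false_of_mem]
    · simp
    · intro m hm h
      exact hex ⟨m, hm, h⟩

theorem P0_le_mx (x : ι → ℂ) {o : ι} (d : LatData x o) : P0 x d ≤ mx x := by
  intro F hF
  have hH := P0_HI x d F hF
  unfold mx
  rw [RingHom.mem_ker]
  ext n
  have h1 : ∀ (m : ι →₀ ℕ) (a : ℚ),
      (aeval (fun i => Polynomial.C (x i) * Polynomial.X) (monomial m a : MvPolynomial ι ℚ) :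
        Polynomial ℂ) = Polynomial.C ((a : ℂ) * ∏ i, x i ^ (m i)) * Polynomial.X ^ m.degree := by
    intro m a
    rw [aeval_monomial, Finsupp.prod_fintype _ _ (by intro i; simp), Finsupp.degree_eq_sum]
    simp only [mul_pow, Finset.prod_mul_distrib, Finset.prod_pow_eq_pow_sum, map_mul, map_prod,
      map_pow]
    have : (algebraMap ℚ (Polynomial ℂ)) a = Polynomial.C ((a : ℚ) : ℂ) := by
      rw [Polynomial.algebraMap_apply]
      simp
    rw [this]
    ring
  have h2 : (aeval (fun i => Polynomial.C (x i) * Polynomial.X) F : Polynomial ℂ).coeff n =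
      ∑ m ∈ F.support with m.degree = n, ((F.coeff m : ℚ) : ℂ) * ∏ i, x i ^ (m i) := by
    conv_lhs => rw [F.as_sum]
    rw [map_sum, Polynomial.finsetSum_coeff, Finset.sum_filter]
    refine Finset.sum_congr rfl fun m _ => ?_
    rw [h1, Polynomial.coeff_C_mul, Polynomial.coeff_X_pow]
    by_cases h : m.degree = n
    · rw [if_pos h, if_pos h.symm, mul_one]
    · rw [if_neg h, if_neg (Ne.symm h), mul_zero]
  rw [h2, Polynomial.coeff_zero]
  have h3 := (mem_P0_iff x d F).1 hF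
  have h4 : ∀ s : Finset (ι →₀ ℕ), (s = F.support.filter fun m => m.degree = n) →
      ∑ m ∈ s, ((F.coeff m : ℚ) : ℂ) * ∏ i, x i ^ (m i) =
      ∑ c ∈ s.image (fun m => ∑ i, (m i : ℤ) • d.Γ i), ∑ m ∈ s with
        (∑ i, (m i : ℤ) • d.Γ i) = c, ((F.coeff m : ℚ) : ℂ) * ∏ i, x i ^ (m i) := by
    intro s _
    rw [Finset.sum_fiberwise_of_maps_to]
    intro m hm
    exact Finset.mem_image_of_mem _ hm
  rw [h4 _ rfl]
  refine Finset.sum_eq_zero fun c hc => ?_
  rw [Finset.mem_image] at hc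
  obtain ⟨m0, hm0, hc0⟩ := hc
  rw [Finset.mem_filter] at hm0
  rw [← h3 c]
  refine Finset.sum_congr ?_ fun _ _ => rfl
  rw [Finset.filter_filter]
  apply Finset.filter_congr
  intro m _
  constructor
  · exact fun h => h.2
  · intro h
    refine ⟨?_, h⟩
    rw [← hm0.2]
    exact basep_fibre_deg x d _ _ (by rw [h, hc0])

theorem basep_rel_ker (x : ι → ℂ) {o : ι} (d : LatData x o) (w : ι → ℤ) (h : IsRel x o w) :
    ∑ i, w i • d.Γ i = 0 :=
  (d.ker w).2 (d.all w h)

theorem P0_eq (x : ι → ℂ) {o : ι} (d : LatData x o) (i j : ι) (h : x i = x j) :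
    (X i - X j : MvPolynomial ι ℚ) ∈ P0 x d := by
  have h1 := basep_rel_ker x d _ (Or.inl ⟨i, j, h, rfl⟩)
  have h2 : d.Γ i = d.Γ j := by
    simp only [Pi.sub_apply, sub_smul, Finset.sum_sub_distrib, Pi.single_apply, ite_smul,
      one_smul, zero_smul, Finset.sum_ite_eq', Finset.mem_univ, if_true] at h1
    exact sub_eq_zero.1 h1
  unfold P0 psi
  rw [RingHom.mem_ker]
  simp [h2, h]

theorem P0_mul (x : ι → ℂ) {o : ι} (d : LatData x o) (hxo : x o = 1) (i j k : ι)
    (h : x i * x j = x k) :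
    (X i * X j - X k * X o : MvPolynomial ι ℚ) ∈ P0 x d := by
  have h1 := basep_rel_ker x d _ (Or.inr ⟨i, j, k, h, rfl⟩)
  have h2 : d.Γ i + d.Γ j = d.Γ k + d.Γ o := by
    simp only [Pi.sub_apply, Pi.add_apply, sub_smul, add_smul, Finset.sum_sub_distrib,
      Finset.sum_add_distrib, Pi.single_apply, ite_smul,
      one_smul, zero_smul, Finset.sum_ite_eq', Finset.mem_univ, if_true] at h1
    have h3 : d.Γ i + d.Γ j - (d.Γ k + d.Γ o) = 0 := by
      rw [← h1]
      abel
    exact sub_eq_zero.1 h3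
  unfold P0 psi
  rw [RingHom.mem_ker]
  simp [AddMonoidAlgebra.single_mul_single, h2, h, hxo]

theorem P0_tr (x : ι → ℂ) {o : ι} (d : LatData x o) (hx0 : ∀ i, x i ≠ 0) :
    ∃ f : Fin (d.u + 1) → MvPolynomial ι ℚ ⧸ P0 x d, AlgebraicIndependent ℚ f := by
  obtain ⟨κ, a, ha, hsp, hli⟩ := exists_linearIndependent' ℚ
    (fun i => (fun b => ((d.Γ i b : ℤ) : ℚ)))
  rw [d.spanΓ] at hsp
  have b := Module.Basis.mk hli (le_of_eq hsp.symm)
  have : Finite κ := Finite.of_injective a ha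
  have : Fintype κ := Fintype.ofFinite κ
  have hcard : Fintype.card κ = d.u + 1 := by
    rw [← Module.finrank_eq_card_basis b]
    simp
  have e : Fin (d.u + 1) ≃ κ := (Fintype.equivFinOfCardEq hcard).symm
  set i0 : Fin (d.u + 1) → ι := fun q => a (e q) with hi0
  have hli2 : LinearIndependent ℚ (fun q : Fin (d.u + 1) => (fun b => ((d.Γ (i0 q) b : ℤ) : ℚ))) :=
    hli.comp e e.injective
  refine ⟨fun q => Ideal.Quotient.mk _ (X (i0 q)), ?_⟩
  have hinj : ∀ m m' : Fin (d.u + 1) →₀ ℕ, ∑ q, (m q : ℤ) • d.Γ (i0 q) =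
      ∑ q, (m' q : ℤ) • d.Γ (i0 q) → m = m' := by
    intro m m' h
    have h1 : ∑ q, (((m q : ℚ)) - (m' q : ℚ)) • (fun b => ((d.Γ (i0 q) b : ℤ) : ℚ)) = 0 := by
      funext b
      have h2 := congrArg (fun z : Fin (d.u + 1) → ℤ => ((z b : ℤ) : ℚ)) h
      simp only [Finset.sum_apply, Pi.smul_apply, smul_eq_mul, Int.cast_sum, Int.cast_mul,
        Int.cast_natCast] at h2
      simp only [Finset.sum_apply, Pi.smul_apply, smul_eq_mul, sub_mul, Finset.sum_sub_distrib,
        Pi.zero_apply]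
      rw [h2, sub_self]
    have h2 := Fintype.linearIndependent_iff.1 hli2 _ h1
    ext q
    have h3 := h2 q
    have h4 : (m q : ℚ) = (m' q : ℚ) := by linarith
    exact_mod_cast h4
  let Φ : (MvPolynomial ι ℚ ⧸ P0 x d) →ₐ[ℚ] AddMonoidAlgebra ℂ (Fin (d.u + 1) → ℤ) :=
    Ideal.Quotient.liftₐ (P0 x d) (psi x d) (fun F hF => (RingHom.mem_ker).1 hF)
  apply AlgebraicIndependent.of_comp Φ
  rw [algebraicIndependent_iff]
  intro p hp
  have hcomp : (⇑Φ ∘ fun q => (Ideal.Quotient.mk (P0 x d)) (X (i0 q))) =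
      fun q => AddMonoidAlgebra.single (d.Γ (i0 q)) (x (i0 q)) := by
    funext q
    have h5 : Φ ((Ideal.Quotient.mk (P0 x d)) (X (i0 q))) = psi x d (X (i0 q)) := rfl
    rw [Function.comp, h5]
    simp [psi]
  rw [hcomp, basep_mem_iff] at hp
  ext m
  rw [coeff_zero]
  by_contra hne
  have h1 := hp (∑ q, (m q : ℤ) • d.Γ (i0 q))
  have h2 : (p.support.filter fun m' => (∑ q, (m' q : ℤ) • d.Γ (i0 q)) =
      ∑ q, (m q : ℤ) • d.Γ (i0 q)) = {m} := by
    ext m'
    simp only [Finset.mem_filter, Finset.mem_singleton, mem_support_iff]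
    constructor
    · rintro ⟨-, h⟩
      exact hinj _ _ h
    · rintro rfl
      exact ⟨hne, rfl⟩
  rw [h2, Finset.sum_singleton] at h1
  rcases mul_eq_zero.1 h1 with h3 | h3
  · exact hne (by exact_mod_cast h3)
  · rw [Finset.prod_eq_zero_iff] at h3
    obtain ⟨q, -, hq⟩ := h3
    exact hx0 _ (eq_zero_of_pow_eq_zero hq)

end Pool.Agent.Tyz
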