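import Pool.Agent.Work.MP_4c3a42_al.Defs

open MvPolynomial

namespace Pool.Agent.Tyz

/-- A nonconstant polynomial involves a variable; the other variables are algebraically
independent modulo it. -/
theorem dimDrop_indep {d : ℕ} {T : Type} [CommRing T] [Algebra ℚ T]
    (ψ : MvPolynomial (Fin d) ℚ →ₐ[ℚ] T) (g : MvPolynomial (Fin d) ℚ) (hg : g ≠ 0)
    (hgu : ¬ IsUnit g) (hker : ∀ h, ψ h = 0 → g ∣ h) :
    ∃ j : Fin d, AlgebraicIndependent ℚ (fun i : {i : Fin d // i ≠ j} => ψ (X i.1)) := by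
  obtain ⟨j, hj⟩ : ∃ j, j ∈ g.vars := by
    by_contra hcon
    push Not at hcon
    have h1 : g.vars = ∅ := Finset.eq_empty_of_forall_notMem hcon
    rw [vars_eq_empty_iff_eq_C] at h1
    apply hgu
    rw [h1]
    have h2 : g.coeff 0 ≠ 0 := fun h0 => hg (by rw [h1, h0, C_0])
    exact (isUnit_iff_ne_zero.2 h2).map C
  refine ⟨j, (algebraicIndependent_iff ..).2 fun p hp => ?_⟩
  have h1 : ψ (rename Subtype.val p) = 0 := by
    rw [← hp]
    have h2 : (ψ.comp (rename (Subtype.val : {i : Fin d // i ≠ j} → Fin d))) =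
        aeval (fun i : {i : Fin d // i ≠ j} => ψ (X i.1)) := by
      refine algHom_ext fun i => ?_
      simp
    exact congrArg (fun f => f p) h2
  obtain ⟨k, hk⟩ := hker _ h1
  by_contra hp0
  have h3 : rename (Subtype.val : {i : Fin d // i ≠ j} → Fin d) p ≠ 0 := fun h0 =>
    hp0 (rename_injective _ Subtype.val_injective (by rw [h0, map_zero]))
  have hk0 : k ≠ 0 := by
    rintro rfl
    exact h3 (by rw [hk, mul_zero])
  have h4 : j ∈ (rename (Subtype.val : {i : Fin d // i ≠ j} → Fin d) p).vars := by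
    rw [mem_vars_iff_degreeOf_ne_zero, hk, degreeOf_mul_eq hg hk0]
    rw [mem_vars_iff_degreeOf_ne_zero] at hj
    omega
  have h5 := vars_rename (Subtype.val : {i : Fin d // i ≠ j} → Fin d) p h4
  rw [Finset.mem_image] at h5
  obtain ⟨a, -, ha⟩ := h5
  exact a.2 ha

theorem dimDrop_main {A T : Type} [CommRing A] [IsDomain A] [Algebra ℚ A] [Algebra.FiniteType ℚ A]
    [CommRing T] [Algebra ℚ T] (π : A →ₐ[ℚ] T) (hT : IsDomain T)
    (hh : (RingHom.ker π).height ≤ 1) (n : ℕ)
    (h : ∃ f : Fin (n + 1) → A, AlgebraicIndependent ℚ f) :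
    ∃ f : Fin n → T, AlgebraicIndependent ℚ f := by
  obtain ⟨d, g, hinj, hint⟩ := exists_integral_inj_algHom_of_fg ℚ A
  have hd : n + 1 ≤ d := by
    obtain ⟨f, hf⟩ := h
    have h1 := hf.cardinalMk_le_trdeg
    letI := g.toRingHom.toAlgebra
    have : IsScalarTower ℚ (MvPolynomial (Fin d) ℚ) A := IsScalarTower.of_algebraMap_eq' g.comp_algebraMap.symm
    have : Algebra.IsIntegral (MvPolynomial (Fin d) ℚ) A := ⟨fun x => hint x⟩
    have hb := (IsTranscendenceBasis.mvPolynomial (Fin d) ℚ)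
    have hb2 : IsTranscendenceBasis ℚ (algebraMap (MvPolynomial (Fin d) ℚ) A ∘ X) := by
      have : FaithfulSMul (MvPolynomial (Fin d) ℚ) A :=
        (faithfulSMul_iff_algebraMap_injective _ _).2 hinj
      exact hb.algebraMap_comp
    have h2 := hb2.cardinalMk_eq_trdeg
    rw [← h2] at h1
    simpa using h1
  letI := g.toRingHom.toAlgebra
  have hst : IsScalarTower ℚ (MvPolynomial (Fin d) ℚ) A :=
    IsScalarTower.of_algebraMap_eq' g.comp_algebraMap.symm
  have hI : Algebra.IsIntegral (MvPolynomial (Fin d) ℚ) A := ⟨fun x => hint x⟩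
  have hF : FaithfulSMul (MvPolynomial (Fin d) ℚ) A :=
    (faithfulSMul_iff_algebraMap_injective _ _).2 hinj
  have hN : IsNoetherianRing A := Algebra.FiniteType.isNoetherianRing ℚ A
  have hQ : (RingHom.ker π).IsPrime := RingHom.ker_isPrime _
  set p : Ideal (MvPolynomial (Fin d) ℚ) := (RingHom.ker π).under _ with hp
  have hpP : p.IsPrime := inferInstance
  have hlo : (RingHom.ker π).LiesOver p := ⟨rfl⟩
  have hle : p.height ≤ 1 := by
    have h1 := Ideal.height_eq_height_add_of_liesOver_of_hasGoingDown p (RingHom.ker π)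
    refine le_trans ?_ hh
    rw [h1]
    exact le_self_add
  have hker : ∀ x, (π.comp g) x = 0 → x ∈ p := fun x hx => hx
  by_cases hp0 : p = ⊥
  · have hinj' : Function.Injective (π.comp g) := by
      rw [injective_iff_map_eq_zero]
      intro x hx
      have := hker x hx
      rwa [hp0] at this
    have h1 : AlgebraicIndependent ℚ (fun i : Fin d => (π.comp g) (X i)) := by
      have h2 := (MvPolynomial.algebraicIndependent_X (Fin d) ℚ).map' (f := π.comp g) hinj'
      exact h2
    exact ⟨_, h1.comp (Fin.castLE (by omega)) (Fin.castLE_injective _)⟩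
  · obtain ⟨q, hq, hqp⟩ := Ideal.IsPrime.exists_mem_prime_of_ne_bot hpP hp0
    have h1 : p.height = 1 := by
      refine le_antisymm hle ?_
      rw [Order.one_le_iff_pos, pos_iff_ne_zero]
      intro h0
      exact hp0 (Ideal.height_eq_zero_iff_eq_bot.1 h0)
    have h2 := p.eq_span_singleton_of_height_eq_one h1 hq hqp
    obtain ⟨j, hj⟩ := dimDrop_indep (π.comp g) q hqp.ne_zero hqp.not_isUnit (fun x hx => by
      have := hker x hx
      rw [h2] at this
      exact Ideal.mem_span_singleton.1 this)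
    have hcard : Fintype.card (Fin n) ≤ Fintype.card {i : Fin d // i ≠ j} := by
      rw [Fintype.card_fin, Fintype.card_subtype_compl, Fintype.card_fin, Fintype.card_unique]
      omega
    obtain ⟨e⟩ := Function.Embedding.nonempty_of_card_le hcard
    exact ⟨_, hj.comp e e.injective⟩

variable {ι : Type} [Fintype ι] [DecidableEq ι]

/-- Cutting by one equation drops the transcendence degree by at most one. -/
theorem dim_drop (P : Ideal (MvPolynomial ι ℚ)) (hP : P.IsPrime) (F : MvPolynomial ι ℚ)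
    (hF : F ∉ P) (P' : Ideal (MvPolynomial ι ℚ))
    (hP' : P' ∈ (P ⊔ Ideal.span {F}).minimalPrimes) (n : ℕ)
    (h : ∃ f : Fin (n + 1) → MvPolynomial ι ℚ ⧸ P, AlgebraicIndependent ℚ f) :
    ∃ f : Fin n → MvPolynomial ι ℚ ⧸ P', AlgebraicIndependent ℚ f := by
  have hp' : P'.IsPrime := hP'.isPrime
  have hle : P ≤ P' := le_sup_left.trans hP'.le
  have hd : IsDomain (MvPolynomial ι ℚ ⧸ P') := Ideal.Quotient.isDomain P'
  have hker : RingHom.ker (Ideal.Quotient.factorₐ ℚ hle) = P'.map (Ideal.Quotient.mk P) := by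
    ext x
    obtain ⟨y, rfl⟩ := Ideal.Quotient.mk_surjective x
    rw [RingHom.mem_ker, Ideal.mem_map_iff_of_surjective _ Ideal.Quotient.mk_surjective]
    constructor
    · intro hx
      have h1 : Ideal.Quotient.mk P' y = 0 := hx
      exact ⟨y, Ideal.Quotient.eq_zero_iff_mem.1 h1, rfl⟩
    · rintro ⟨z, hz, hzy⟩
      rw [← hzy]
      have h1 : Ideal.Quotient.mk P' z = 0 := Ideal.Quotient.eq_zero_iff_mem.2 hz
      exact h1
  refine dimDrop_main (Ideal.Quotient.factorₐ ℚ hle) hd ?_ n h
  rw [hker]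
  exact Ideal.map_height_le_one_of_mem_minimalPrimes hP'

end Pool.Agent.Tyz
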