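import Pool.Agent.Work.MP_4c3a42_al.Defs

open MvPolynomial

namespace Pool.Agent.Tyz

variable {ι : Type} [Fintype ι] [DecidableEq ι]

/-- Independent vectors inside the family bound the rank from below. -/
theorem hl_card_le_rk {E U κ : Type} [Finite E] [Fintype κ] [AddCommGroup U] [Module ℚ U]
    (v : E → U) (w : κ → U) (hw : LinearIndependent ℚ w) (hm : ∀ k, w k ∈ Set.range v) :
    Fintype.card κ ≤ rk v := by
  have hfin : FiniteDimensional ℚ (Submodule.span ℚ (Set.range v)) :=
    FiniteDimensional.span_of_finite ℚ (Set.finite_range v)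
  have h1 : Submodule.span ℚ (Set.range w) ≤ Submodule.span ℚ (Set.range v) :=
    Submodule.span_mono (by rintro _ ⟨k, rfl⟩; exact hm k)
  rw [← finrank_span_eq_card hw]
  exact Submodule.finrank_mono h1

omit [Fintype ι] [DecidableEq ι] in
theorem hl_mk_eq (P : Ideal (MvPolynomial ι ℚ)) (p : MvPolynomial ι ℚ) :
    Ideal.Quotient.mk P p = aeval (fun i => Ideal.Quotient.mk P (X i)) p := by
  have := MvPolynomial.aeval_unique (Ideal.Quotient.mkₐ ℚ P)
  have h2 := congrArg (fun f => f p) this
  exact h2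

/-- The Hilbert function of a prime of transcendence degree `≥ t + 1`. -/
theorem choose_le_hf (P : Ideal (MvPolynomial ι ℚ)) (hP : P.IsPrime) (t : ℕ)
    (f : Fin (t + 1) → MvPolynomial ι ℚ ⧸ P) (hf' : AlgebraicIndependent ℚ f) (D : ℕ) :
    (D + t).choose t ≤ hf P D := by
  classical
  have hdom : IsDomain (MvPolynomial ι ℚ ⧸ P) := Ideal.Quotient.isDomain P
  let x : ι → MvPolynomial ι ℚ ⧸ P := fun i => Ideal.Quotient.mk P (X i)
  have hadj : Algebra.adjoin ℚ (Set.range x) = ⊤ := by
    rw [eq_top_iff]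
    intro a _
    obtain ⟨p, rfl⟩ := Ideal.Quotient.mk_surjective a
    rw [hl_mk_eq, Algebra.adjoin_range_eq_range_aeval]
    exact ⟨p, rfl⟩
  have halg : Algebra.IsAlgebraic (Algebra.adjoin ℚ (Set.range x)) (MvPolynomial ι ℚ ⧸ P) := by
    refine ⟨fun a => ?_⟩
    have ha : a ∈ Algebra.adjoin ℚ (Set.range x) := by rw [hadj]; trivial
    exact isAlgebraic_algebraMap (⟨a, ha⟩ : Algebra.adjoin ℚ (Set.range x))
  obtain ⟨s, hs, hb⟩ := exists_isTranscendenceBasis_subset (R := ℚ) (Set.range x)
  have hcard := hb.cardinalMk_eq_trdeg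
  have h1 := hf'.lift_cardinalMk_le_trdeg
  have hsfin : s.Finite := (Set.finite_range x).subset hs
  have hfs : Fintype s := hsfin.fintype
  have h2 : t + 1 ≤ Fintype.card s := by
    rw [← hcard] at h1
    simpa using h1
  obtain ⟨e⟩ : Nonempty (Fin (t + 1) ↪ s) := by
    apply Function.Embedding.nonempty_of_card_le
    simpa using h2
  have hch : ∀ a : s, ∃ i : ι, x i = a.1 := fun a => hs a.2
  choose c hc using hch
  let g : Fin (t + 1) → ι := fun a => c (e a)
  have hxg : AlgebraicIndependent ℚ (fun a => x (g a)) := by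
    have h3 : AlgebraicIndependent ℚ (fun a : Fin (t + 1) => ((e a : s) : MvPolynomial ι ℚ ⧸ P)) :=
      hb.1.comp e e.injective
    have h4 : (fun a => x (g a)) = (fun a : Fin (t + 1) => ((e a : s) : MvPolynomial ι ℚ ⧸ P)) := by
      funext a
      exact hc (e a)
    rw [h4]
    exact h3
  -- the independent family
  let w : Mon (Fin (t + 1)) D → MvPolynomial ι ℚ ⧸ P := fun m =>
    aeval (fun a => x (g a)) (monomial m.1 (1 : ℚ))
  have hw : LinearIndependent ℚ w := by
    have h5 : LinearIndependent ℚ (fun m : Mon (Fin (t + 1)) D =>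
        (monomial m.1 (1 : ℚ) : MvPolynomial (Fin (t + 1)) ℚ)) := by
      have h6 := (basisMonomials (Fin (t + 1)) ℚ).linearIndependent
      rw [coe_basisMonomials] at h6
      exact h6.comp (fun m : Mon (Fin (t + 1)) D => m.1) Subtype.val_injective
    exact h5.map' (aeval (fun a => x (g a)) : MvPolynomial (Fin (t + 1)) ℚ →ₐ[ℚ] _).toLinearMap
      (LinearMap.ker_eq_bot.2 hxg)
  have hm : ∀ m, w m ∈ Set.range (mv P D) := by
    intro m
    have hmem : m.1.mapDomain g ∈ (Finset.univ : Finset ι).finsuppAntidiag D := by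
      rw [Finset.mem_finsuppAntidiag']
      refine ⟨?_, Finset.subset_univ _⟩
      rw [Finsupp.sum_mapDomain_index (by simp) (by simp)]
      exact (Finset.mem_finsuppAntidiag'.1 m.2).1
    refine ⟨⟨m.1.mapDomain g, hmem⟩, ?_⟩
    change Ideal.Quotient.mk P (monomial (m.1.mapDomain g) 1) = _
    rw [hl_mk_eq, ← rename_monomial, aeval_rename]
    rfl
  have h8 := hl_card_le_rk (mv P D) w hw hm
  have h9 : Fintype.card (Mon (Fin (t + 1)) D) = (D + t).choose t := by
    rw [Fintype.card_coe, Finset.card_finsuppAntidiag_nat_eq_choose, Finset.card_univ,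
      Fintype.card_fin]
    have : t + 1 + D - 1 = D + t := by omega
    rw [this]
    exact Nat.choose_symm_of_eq_add (by omega)
  rw [h9] at h8
  exact h8

/-- Ideals of irrational points have Hilbert function at least two. -/
theorem two_le_hf (x : ι → ℂ) (P : Ideal (MvPolynomial ι ℚ)) (hP : P ≤ mx x) (o i : ι)
    (hxo : x o = 1) (hi : ∀ q : ℚ, x i ≠ q) (D : ℕ) : 2 ≤ hf P (D + 1) := by
  classical
  have hio : i ≠ o := by
    rintro rfl
    exact hi 1 (by rw [hxo]; simp)
  let p : Fin 2 → MvPolynomial ι ℚ := ![monomial (Finsupp.single o (D + 1)) 1,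
    monomial (Finsupp.single o D + Finsupp.single i 1) 1]
  let w : Fin 2 → MvPolynomial ι ℚ ⧸ P := fun a => Ideal.Quotient.mk P (p a)
  have hw : LinearIndependent ℚ w := by
    rw [Fintype.linearIndependent_iff]
    intro g hg
    rw [Fin.sum_univ_two] at hg
    have h1 : g 0 • p 0 + g 1 • p 1 ∈ P := by
      rw [← Ideal.Quotient.eq_zero_iff_mem, map_add]
      exact hg
    have h2 := hP h1
    rw [mx, RingHom.mem_ker] at h2
    have h3 : (aeval (fun i => Polynomial.C (x i) * Polynomial.X) :
        MvPolynomial ι ℚ →ₐ[ℚ] Polynomial ℂ) (g 0 • p 0 + g 1 • p 1) =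
        Polynomial.C ((g 0 : ℂ) + (g 1 : ℂ) * x i) * Polynomial.X ^ (D + 1) := by
      simp only [p, map_add, map_smul, Matrix.cons_val_zero, Matrix.cons_val_one, aeval_monomial,
        map_one, one_mul]
      rw [Finsupp.prod_add_index' (by simp) (by intro a b c; exact pow_add _ _ _)]
      simp only [Finsupp.prod_single_index, pow_zero, hxo, pow_one, map_one, one_mul]
      simp only [Algebra.smul_def, Polynomial.algebraMap_apply, eq_ratCast, Polynomial.C_mul,
        pow_succ]
      ring
    have h4 : (g 0 : ℂ) + (g 1 : ℂ) * x i = 0 := by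
      have h5 := h3.symm.trans h2
      have h6 := congrArg (fun q => q.coeff (D + 1)) h5
      simp only [Polynomial.coeff_C_mul_X_pow, if_true, Polynomial.coeff_zero] at h6
      exact h6
    have hg1 : g 1 = 0 := by
      by_contra hne
      have hne' : (g 1 : ℂ) ≠ 0 := by exact_mod_cast hne
      apply hi (-(g 0) / g 1)
      push_cast
      rw [eq_div_iff hne']
      linear_combination h4
    have hg0 : g 0 = 0 := by
      rw [hg1] at h4
      simpa using h4
    intro a
    fin_cases a
    · exact hg0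
    · exact hg1
  have hm : ∀ a, w a ∈ Set.range (mv P (D + 1)) := by
    intro a
    fin_cases a
    · refine ⟨⟨Finsupp.single o (D + 1), ?_⟩, rfl⟩
      rw [Finset.mem_finsuppAntidiag']
      exact ⟨Finsupp.sum_single_index rfl, Finset.subset_univ _⟩
    · refine ⟨⟨Finsupp.single o D + Finsupp.single i 1, ?_⟩, rfl⟩
      rw [Finset.mem_finsuppAntidiag']
      refine ⟨?_, Finset.subset_univ _⟩
      rw [Finsupp.sum_add_index' (fun _ => rfl) (fun _ _ _ => rfl), Finsupp.sum_single_index rfl,
        Finsupp.sum_single_index rfl]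
  have h8 := hl_card_le_rk (mv P (D + 1)) w hw hm
  rw [Fintype.card_fin] at h8
  exact h8

end Pool.Agent.Tyz
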