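import Mathlib

open MvPolynomial

namespace Pool.Agent.Tyz

/-- a character of a commutative algebra below a submultiplicative seminorm -/
theorem exists_char {A : Type} [CommRing A] [Algebra ℂ A] (N : A → ℝ) (h0 : N 0 = 0)
    (hneg : ∀ a, N (-a) = N a) (hadd : ∀ a b, N (a + b) ≤ N a + N b)
    (hmul : ∀ a b, N (a * b) ≤ N a * N b) (hsmul : ∀ (c : ℂ) (a : A), N (c • a) ≤ ‖c‖ * N a)
    (h1 : N 1 ≤ 1) (I : Ideal A) (hI : ∀ F ∈ I, 1 ≤ N (1 - F)) :
    ∃ χ : A →+* ℂ, (∀ c : ℂ, χ (algebraMap ℂ A c) = c) ∧ (∀ a, ‖χ a‖ ≤ N a) ∧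
      ∀ F ∈ I, χ F = 0 := by
  let p : RingSeminorm A :=
    { toFun := N
      map_zero' := h0
      add_le' := hadd
      neg' := hneg
      mul_le' := hmul }
  let i1 : SeminormedCommRing A := { p.toSeminormedRing with mul_comm := mul_comm }
  let i2 : NormedAlgebra ℂ A := { (inferInstance : Algebra ℂ A) with norm_smul_le := hsmul }
  have hnorm : ∀ a : A, ‖a‖ = N a := fun a => rfl
  let B := UniformSpace.Completion (A ⧸ I)
  let ι : A →+* B := (UniformSpace.Completion.coeRingHom : (A ⧸ I) →+* B).comp (Ideal.Quotient.mk I)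
  have hι : ∀ a, ‖ι a‖ = ‖(Ideal.Quotient.mk I a : A ⧸ I)‖ := fun a =>
    UniformSpace.Completion.norm_coe _
  have hle : ∀ a, ‖ι a‖ ≤ N a := fun a => by
    rw [hι]
    exact Ideal.Quotient.norm_mk_le I a
  have hone : ‖(1 : B)‖ = 1 := by
    rw [← map_one ι]
    refine le_antisymm ((hle 1).trans h1) ?_
    rw [hι]
    refine le_of_forall_pos_le_add fun ε hε => ?_
    obtain ⟨m, hm, hlt⟩ := Ideal.Quotient.norm_mk_lt (Ideal.Quotient.mk I (1 : A)) hε
    have h2 : 1 - m ∈ I := Ideal.Quotient.eq.1 hm.symm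
    have h3 := hI _ h2
    rw [sub_sub_cancel] at h3
    exact h3.trans hlt.le
  have hnt : Nontrivial B := by
    refine ⟨1, 0, fun h => ?_⟩
    rw [h, norm_zero] at hone
    exact zero_ne_one hone
  have hno : NormOneClass B := ⟨hone⟩
  obtain ⟨f, -⟩ := WeakDual.CharacterSpace.exists_apply_eq_zero (A := B) (a := 0) not_isUnit_zero
  let g : B →ₐ[ℂ] ℂ := WeakDual.CharacterSpace.toAlgHom f
  refine ⟨(g : B →+* ℂ).comp ι, ?_, ?_, ?_⟩
  · intro c
    have : ι (algebraMap ℂ A c) = algebraMap ℂ B c := rfl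
    show g (ι (algebraMap ℂ A c)) = c
    rw [this, AlgHom.commutes]
    rfl
  · intro a
    exact (AlgHom.norm_apply_le_self g (ι a)).trans (hle a)
  · intro F hF
    show g (ι F) = 0
    have : ι F = 0 := by
      show (UniformSpace.Completion.coeRingHom : (A ⧸ I) →+* B) (Ideal.Quotient.mk I F) = 0
      rw [Ideal.Quotient.eq_zero_iff_mem.2 hF, map_zero]
    rw [this, map_zero]

/-- weighted `ℓ¹` norm -/
noncomputable def nw {σ : Type} [Fintype σ] (w : σ → ℝ) (F : MvPolynomial σ ℂ) : ℝ :=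
  ∑ m ∈ F.support, ‖F.coeff m‖ * ∏ i, w i ^ (m i)

section

variable {σ : Type} [Fintype σ] {w : σ → ℝ} (hw : ∀ i, 0 < w i)

include hw

omit hw in
theorem nw_eq {s : Finset (σ →₀ ℕ)} {F : MvPolynomial σ ℂ} (hs : F.support ⊆ s) :
    nw w F = ∑ m ∈ s, ‖F.coeff m‖ * ∏ i, w i ^ (m i) := by
  refine Finset.sum_subset hs fun m _ hm => ?_
  rw [MvPolynomial.notMem_support_iff.1 hm, norm_zero, zero_mul]

theorem nw_add (F G : MvPolynomial σ ℂ) : nw w (F + G) ≤ nw w F + nw w G := by
  classical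
  rw [nw_eq (s := F.support ∪ G.support) MvPolynomial.support_add,
    nw_eq (F := F) (s := F.support ∪ G.support) Finset.subset_union_left,
    nw_eq (F := G) (s := F.support ∪ G.support) Finset.subset_union_right,
    ← Finset.sum_add_distrib]
  refine Finset.sum_le_sum fun m _ => ?_
  rw [← add_mul, MvPolynomial.coeff_add]
  exact mul_le_mul_of_nonneg_right (norm_add_le _ _)
    (Finset.prod_nonneg fun i _ => pow_nonneg (hw i).le _)

omit hw in
theorem nw_zero : nw w (0 : MvPolynomial σ ℂ) = 0 := by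
  simp [nw]

theorem nw_sum {τ : Type} (s : Finset τ) (F : τ → MvPolynomial σ ℂ) :
    nw w (∑ i ∈ s, F i) ≤ ∑ i ∈ s, nw w (F i) := by
  classical
  induction s using Finset.induction_on with
  | empty => simp [nw_zero]
  | insert a s ha ih =>
    rw [Finset.sum_insert ha, Finset.sum_insert ha]
    exact (nw_add hw _ _).trans (by linarith)

omit hw in
theorem nw_monomial (m : σ →₀ ℕ) (c : ℂ) :
    nw w (monomial m c) = ‖c‖ * ∏ i, w i ^ (m i) := by
  classical
  rw [nw_eq (s := {m}) MvPolynomial.support_monomial_subset, Finset.sum_singleton,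
    MvPolynomial.coeff_monomial, if_pos rfl]

omit hw in
theorem nw_neg (F : MvPolynomial σ ℂ) : nw w (-F) = nw w F := by
  simp [nw, MvPolynomial.support_neg]

theorem nw_mul (F G : MvPolynomial σ ℂ) : nw w (F * G) ≤ nw w F * nw w G := by
  classical
  have h1 : F * G = ∑ a ∈ F.support, ∑ b ∈ G.support,
      monomial (a + b) (F.coeff a * G.coeff b) := by
    conv_lhs => rw [F.as_sum, G.as_sum, Finset.sum_mul_sum]
    exact Finset.sum_congr rfl fun a _ => Finset.sum_congr rfl fun b _ => by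
      rw [MvPolynomial.monomial_mul]
  rw [h1]
  refine (nw_sum hw _ _).trans ?_
  rw [nw, nw, Finset.sum_mul_sum]
  refine Finset.sum_le_sum fun a _ => (nw_sum hw _ _).trans (Finset.sum_le_sum fun b _ => ?_)
  rw [nw_monomial, norm_mul]
  refine le_of_eq ?_
  have h2 : ∏ i, w i ^ ((a + b) i) = (∏ i, w i ^ (a i)) * ∏ i, w i ^ (b i) := by
    rw [← Finset.prod_mul_distrib]
    exact Finset.prod_congr rfl fun i _ => by rw [Finsupp.add_apply, pow_add]
  rw [h2]
  ring

theorem nw_smul (c : ℂ) (F : MvPolynomial σ ℂ) : nw w (c • F) ≤ ‖c‖ * nw w F := by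
  have h1 : c • F = C c * F := by rw [MvPolynomial.smul_eq_C_mul]
  rw [h1]
  refine (nw_mul hw _ _).trans (le_of_eq ?_)
  congr 1
  rw [← MvPolynomial.monomial_zero', nw_monomial]
  simp

omit hw in
theorem nw_one : nw w (1 : MvPolynomial σ ℂ) = 1 := by
  have : (1 : MvPolynomial σ ℂ) = monomial 0 1 := rfl
  rw [this, nw_monomial]
  simp

omit hw in
theorem nw_X (i : σ) : nw w (X i : MvPolynomial σ ℂ) = w i := by
  classical
  rw [X, nw_monomial, norm_one, one_mul, Finset.prod_eq_single i]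
  · simp
  · intro j _ hj
    simp [hj.symm]
  · intro h
    exact absurd (Finset.mem_univ i) h

end

/-- Nullstellensatz on a polydisc: an ideal without a common zero in the closed polydisc with
radii `w` contains an element `F` with `‖1 - F‖_w < 1`. -/
theorem null {σ : Type} [Fintype σ] (w : σ → ℝ) (hw : ∀ i, 0 < w i)
    (I : Ideal (MvPolynomial σ ℂ))
    (h : ¬ ∃ z : σ → ℂ, (∀ i, ‖z i‖ ≤ w i) ∧ ∀ F ∈ I, eval z F = 0) :
    ∃ F ∈ I, ∑ m ∈ (1 - F).support, ‖(1 - F).coeff m‖ * ∏ i, w i ^ (m i) < 1 := by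
  by_contra hcon
  push Not at hcon
  obtain ⟨χ, hc, hle, hz⟩ := exists_char (nw w) nw_zero nw_neg (nw_add hw) (nw_mul hw)
    (nw_smul hw) nw_one.le I hcon
  apply h
  have hχ : ∀ F, χ F = eval (fun i => χ (X i)) F := by
    intro F
    have : χ = (eval (fun i => χ (X i)) : MvPolynomial σ ℂ →+* ℂ) := by
      refine MvPolynomial.ringHom_ext (fun c => ?_) fun i => ?_
      · rw [MvPolynomial.eval_C]
        exact hc c
      · rw [MvPolynomial.eval_X]
    exact congrArg (fun f : MvPolynomial σ ℂ →+* ℂ => f F) this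
  refine ⟨fun i => χ (X i), fun i => ?_, fun F hF => ?_⟩
  · exact (hle _).trans (nw_X i).le
  · rw [← hχ]
    exact hz F hF

end Pool.Agent.Tyz
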