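import Pool.Agent.Work.MP_4c3a42_al.HtLow
import Pool.Agent.Work.MP_4c3a42_al.Null

open MvPolynomial

namespace Pool.Agent.Tyz

variable {ι : Type} [Fintype ι] [DecidableEq ι]

namespace LhLow

theorem mem_mon {D : ℕ} {m : ι →₀ ℕ} :
    m ∈ (Finset.univ : Finset ι).finsuppAntidiag D ↔ m.degree = D := by
  rw [Finset.mem_finsuppAntidiag, Finsupp.degree_eq_sum]
  simp

/-- The exponent obtained by homogenising with the variable `o`. -/
noncomputable def ex (o : ι) (a : ι →₀ ℕ) (δ : ℕ) (m : ι →₀ ℕ) : ι →₀ ℕ :=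
  a + m + Finsupp.single o (δ - m.degree)

variable (P : Ideal (MvPolynomial ι ℚ)) (o : ι)

/-- The `ℂ`-linear extension of `ℓ` composed with homogenisation and multiplication by `X^a`. -/
noncomputable def LL (ℓ : (MvPolynomial ι ℚ ⧸ P) →ₗ[ℚ] ℂ) (a : ι →₀ ℕ) (δ : ℕ) :
    MvPolynomial ι ℂ →ₗ[ℂ] ℂ :=
  (basisMonomials ι ℂ).constr ℂ
    (fun m => ℓ (Ideal.Quotient.mk P (monomial (ex o a δ m) 1)))

omit [Fintype ι] [DecidableEq ι] in
theorem LL_monomial (ℓ : (MvPolynomial ι ℚ ⧸ P) →ₗ[ℚ] ℂ) (a : ι →₀ ℕ) (δ : ℕ) (m : ι →₀ ℕ)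
    (c : ℂ) : LL P o ℓ a δ (monomial m c) =
      c * ℓ (Ideal.Quotient.mk P (monomial (ex o a δ m) 1)) := by
  have h1 : monomial m c = c • (basisMonomials ι ℂ) m := by
    rw [coe_basisMonomials, smul_monomial, smul_eq_mul, mul_one]
  rw [h1, map_smul, LL, Module.Basis.constr_basis, smul_eq_mul]

omit [Fintype ι] [DecidableEq ι] in
theorem LL_eq_sum (ℓ : (MvPolynomial ι ℚ ⧸ P) →ₗ[ℚ] ℂ) (a : ι →₀ ℕ) (δ : ℕ)
    (f : MvPolynomial ι ℂ) : LL P o ℓ a δ f =
      ∑ m ∈ f.support, f.coeff m * ℓ (Ideal.Quotient.mk P (monomial (ex o a δ m) 1)) := by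
  conv_lhs => rw [f.as_sum, map_sum]
  exact Finset.sum_congr rfl fun m _ => LL_monomial P o ℓ a δ m _

omit [Fintype ι] [DecidableEq ι] in
theorem LL_mul_monomial (ℓ : (MvPolynomial ι ℚ ⧸ P) →ₗ[ℚ] ℂ) (a b : ι →₀ ℕ) (c : ℂ) (δ : ℕ)
    (f : MvPolynomial ι ℂ) : LL P o ℓ a δ (monomial b c * f) =
      c * LL P o ℓ (a + b) (δ - b.degree) f := by
  induction f using MvPolynomial.induction_on' with
  | monomial m d =>
    rw [monomial_mul, LL_monomial, LL_monomial]
    have h1 : ex o a δ (b + m) = ex o (a + b) (δ - b.degree) m := by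
      unfold ex
      rw [map_add, Nat.sub_sub]
      abel
    rw [h1]
    ring
  | add p q hp hq => rw [mul_add, map_add, map_add, hp, hq, mul_add]

/-- The ideal of the polynomials killed by all the functionals `LL`, for large `δ`. -/
noncomputable def QQ : Ideal (MvPolynomial ι ℂ) where
  carrier := {f | ∃ δ₀ : ℕ, ∀ δ ≥ δ₀, ∀ a ℓ, LL P o ℓ a δ f = 0}
  zero_mem' := ⟨0, fun _ _ _ _ => map_zero _⟩
  add_mem' := by
    rintro f g ⟨d1, h1⟩ ⟨d2, h2⟩
    refine ⟨max d1 d2, fun δ hδ a ℓ => ?_⟩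
    rw [map_add, h1 δ ((le_max_left _ _).trans hδ), h2 δ ((le_max_right _ _).trans hδ), add_zero]
  smul_mem' := by
    rintro r f ⟨d, h⟩
    rw [smul_eq_mul]
    induction r using MvPolynomial.induction_on' with
    | monomial b c =>
      refine ⟨d + b.degree, fun δ hδ a ℓ => ?_⟩
      rw [LL_mul_monomial, h _ (by omega), mul_zero]
    | add p q hp hq =>
      obtain ⟨d1, h1⟩ := hp
      obtain ⟨d2, h2⟩ := hq
      refine ⟨max d1 d2, fun δ hδ a ℓ => ?_⟩
      rw [add_mul, map_add, h1 δ ((le_max_left _ _).trans hδ), h2 δ ((le_max_right _ _).trans hδ),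
        add_zero]

omit [Fintype ι] [DecidableEq ι] in
theorem mem_QQ {f : MvPolynomial ι ℂ} :
    f ∈ QQ P o ↔ ∃ δ₀ : ℕ, ∀ δ ≥ δ₀, ∀ a ℓ, LL P o ℓ a δ f = 0 := Iff.rfl

omit [Fintype ι] [DecidableEq ι] in
theorem X_sub_one_mem : (X o - 1 : MvPolynomial ι ℂ) ∈ QQ P o := by
  refine ⟨1, fun δ hδ a ℓ => ?_⟩
  have h1 : (X o : MvPolynomial ι ℂ) = monomial (Finsupp.single o 1) 1 := rfl
  have h2 : (1 : MvPolynomial ι ℂ) = monomial 0 1 := rfl
  rw [map_sub, h1, h2, LL_monomial, LL_monomial]
  have h3 : ex o a δ (Finsupp.single o 1) = ex o a δ 0 := by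
    unfold ex
    rw [Finsupp.degree_single, map_zero, add_zero, add_assoc, ← Finsupp.single_add]
    congr 2
    omega
  rw [h3, sub_self]

omit [Fintype ι] [DecidableEq ι] in
theorem map_mem (hH : HI P) {F : MvPolynomial ι ℚ} (hF : F ∈ P) :
    MvPolynomial.map (algebraMap ℚ ℂ) F ∈ QQ P o := by
  rw [← sum_homogeneousComponent F, map_sum]
  refine Ideal.sum_mem _ fun k _ => ?_
  have hk := hH F hF k
  have hkh : (homogeneousComponent k F).IsHomogeneous k := homogeneousComponent_isHomogeneous _ _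
  generalize homogeneousComponent k F = G at hk hkh
  refine ⟨k, fun δ hδ a ℓ => ?_⟩
  have h1 : ∀ m ∈ G.support, m.degree = k := by
    intro m hm
    by_contra hne
    exact (mem_support_iff.1 hm) (hkh.coeff_eq_zero hne)
  have h2 : LL P o ℓ a δ (MvPolynomial.map (algebraMap ℚ ℂ) G) =
      ∑ m ∈ G.support, ((G.coeff m : ℚ) : ℂ) *
        ℓ (Ideal.Quotient.mk P (monomial (ex o a δ m) 1)) := by
    conv_lhs => rw [G.as_sum, map_sum, map_sum]
    refine Finset.sum_congr rfl fun m _ => ?_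
    rw [map_monomial, LL_monomial]
    rfl
  rw [h2]
  have h3 : ∑ m ∈ G.support, ((G.coeff m : ℚ) : ℂ) *
        ℓ (Ideal.Quotient.mk P (monomial (ex o a δ m) 1)) =
      ℓ (Ideal.Quotient.mk P (monomial (a + Finsupp.single o (δ - k)) 1 * G)) := by
    conv_rhs => rw [G.as_sum, Finset.mul_sum, map_sum, map_sum]
    refine Finset.sum_congr rfl fun m hm => ?_
    have h4 : monomial (a + Finsupp.single o (δ - k)) (1 : ℚ) * monomial m (G.coeff m) =
        G.coeff m • monomial (ex o a δ m) (1 : ℚ) := by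
      rw [monomial_mul, smul_monomial, one_mul, smul_eq_mul, mul_one]
      congr 1
      unfold ex
      rw [h1 m hm, add_right_comm]
    rw [h4]
    have h5 : Ideal.Quotient.mk P (G.coeff m • monomial (ex o a δ m) (1 : ℚ)) =
        G.coeff m • Ideal.Quotient.mk P (monomial (ex o a δ m) (1 : ℚ)) := rfl
    rw [h5, map_smul, Rat.smul_def]
  rw [h3, (Ideal.Quotient.eq_zero_iff_mem (I := P)).2 (Ideal.mul_mem_left _ _ hk), map_zero]

/-- The rank of the part of small affine degree. -/
theorem hf_le_rk (hP : P.IsPrime) (ho : X o ∉ P) {j D : ℕ} (hj : j ≤ D) :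
    hf P j ≤ rk (fun e : {e : Mon ι D // D - e.1 o ≤ j} => mv P D e) := by
  let μ : (MvPolynomial ι ℚ ⧸ P) →ₗ[ℚ] (MvPolynomial ι ℚ ⧸ P) :=
    LinearMap.mulLeft ℚ (Ideal.Quotient.mk P (X o ^ (D - j)))
  have hdom : IsDomain (MvPolynomial ι ℚ ⧸ P) := Ideal.Quotient.isDomain P
  have hne : Ideal.Quotient.mk P (X o ^ (D - j)) ≠ 0 := by
    rw [map_pow]
    refine pow_ne_zero _ fun h => ho ?_
    exact Ideal.Quotient.eq_zero_iff_mem.1 h
  have hμ : Function.Injective μ := by
    intro x y hxy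
    exact mul_left_cancel₀ hne hxy
  have h1 : (Submodule.span ℚ (Set.range (mv P j))).map μ ≤
      Submodule.span ℚ (Set.range fun e : {e : Mon ι D // D - e.1 o ≤ j} => mv P D e) := by
    rw [Submodule.map_span, Submodule.span_le]
    rintro _ ⟨_, ⟨m, rfl⟩, rfl⟩
    apply Submodule.subset_span
    have hm := mem_mon.1 m.2
    have hdeg : (m.1 + Finsupp.single o (D - j)).degree = D := by
      rw [map_add, Finsupp.degree_single, hm]
      omega
    refine ⟨⟨⟨m.1 + Finsupp.single o (D - j), mem_mon.2 hdeg⟩, ?_⟩, ?_⟩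
    · simp only [Finsupp.add_apply, Finsupp.single_eq_same]
      omega
    · change Ideal.Quotient.mk P (monomial (m.1 + Finsupp.single o (D - j)) 1) =
        Ideal.Quotient.mk P (X o ^ (D - j)) * Ideal.Quotient.mk P (monomial m.1 1)
      rw [← map_mul, X_pow_eq_monomial, monomial_mul, mul_one, add_comm]
  have h2 : Module.finrank ℚ ((Submodule.span ℚ (Set.range (mv P j))).map μ) = hf P j :=
    (Submodule.equivMapOfInjective μ hμ _).finrank_eq.symm
  rw [← h2]
  have : FiniteDimensional ℚ (Submodule.span ℚ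
      (Set.range fun e : {e : Mon ι D // D - e.1 o ≤ j} => mv P D e)) :=
    FiniteDimensional.span_of_finite ℚ (Set.finite_range _)
  exact Submodule.finrank_mono h1

end LhLow

open LhLow in
/-- Arithmetic Hilbert function of a homogeneous prime without zeros in the polydisc. -/
theorem lh_lower (P : Ideal (MvPolynomial ι ℚ)) (hP : P.IsPrime) (hH : HI P) (o : ι)
    (ho : X o ∉ P) (ρ : ℝ) (hρ : 1 ≤ ρ)
    (hz : ¬ ∃ z : ι → ℂ, z o = 1 ∧ (∀ i, ‖z i‖ ≤ ρ) ∧ ∀ F ∈ P, aeval z F = 0) :
    ∃ δ : ℕ, ∀ D, Real.log ρ * ((∑ j ∈ Finset.range D, (hf P j : ℝ)) - δ * hf P D) ≤ lh P D := by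
  classical
  have hρ0 : 0 < ρ := zero_lt_one.trans_le hρ
  set w : ι → ℝ := fun i => if i = o then 1 else ρ with hw
  have hw0 : ∀ i, 0 < w i := fun i => by
    simp only [hw]
    split_ifs <;> positivity
  set I : Ideal (MvPolynomial ι ℂ) :=
    P.map (MvPolynomial.map (algebraMap ℚ ℂ)) ⊔ Ideal.span {X o - 1} with hI
  obtain ⟨F, hFI, hF⟩ := null w hw0 I (by
    rintro ⟨z, hzw, hzI⟩
    apply hz
    refine ⟨z, ?_, fun i => ?_, fun G hG => ?_⟩
    · have h1 := hzI (X o - 1) (Ideal.mem_sup_right (Ideal.subset_span rfl))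
      simpa [sub_eq_zero] using h1
    · refine (hzw i).trans ?_
      simp only [hw]
      split_ifs <;> linarith
    · have h1 := hzI (MvPolynomial.map (algebraMap ℚ ℂ) G)
        (Ideal.mem_sup_left (Ideal.mem_map_of_mem _ hG))
      rw [eval_map] at h1
      exact h1)
  have hIQ : I ≤ QQ P o := by
    rw [hI, sup_le_iff]
    constructor
    · rw [Ideal.map_le_iff_le_comap]
      intro G hG
      exact map_mem P o hH hG
    · rw [Ideal.span_le, Set.singleton_subset_iff]
      exact X_sub_one_mem P o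
  obtain ⟨δ₀, hδ₀⟩ := (mem_QQ P o).1 (hIQ hFI)
  set q : MvPolynomial ι ℂ := 1 - F with hq
  set δ : ℕ := max δ₀ q.totalDegree with hδ
  have hδ1 : δ₀ ≤ δ := le_max_left _ _
  have hδ2 : ∀ n ∈ q.support, n.degree ≤ δ := by
    intro n hn
    have h1 : n.sum (fun _ e => e) ≤ q.totalDegree := le_totalDegree hn
    exact le_trans h1 (le_max_right _ _)
  have hprod : ∀ n : ι →₀ ℕ, ∏ i, w i ^ (n i) = ρ ^ (n.degree - n o) := by
    intro n
    rw [Finsupp.degree_eq_sum, ← Finset.add_sum_erase _ _ (Finset.mem_univ o), add_tsub_cancel_left,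
      ← Finset.mul_prod_erase _ _ (Finset.mem_univ o), ← Finset.prod_pow_eq_pow_sum]
    simp only [hw, if_true, one_pow, one_mul]
    refine Finset.prod_congr rfl fun i hi => ?_
    rw [if_neg (Finset.ne_of_mem_erase hi)]
  refine ⟨δ, fun D => ?_⟩
  -- application of `ht_lower`
  have key := ht_lower (mv P D) (fun m => D - m.1 o) D δ (fun m => Nat.sub_le _ _) ρ hρ (by
    intro m hm
    have hmd := mem_mon.1 m.2
    have hmo : m.1 o ≤ D := by
      refine le_trans ?_ hmd.le
      rw [Finsupp.degree_eq_sum]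
      exact Finset.single_le_sum (f := fun i => m.1 i) (fun _ _ => Nat.zero_le _)
        (Finset.mem_univ o)
    have hmδ : δ ≤ m.1 o := by omega
    set a : ι →₀ ℕ := m.1 - Finsupp.single o δ with ha
    have hle : Finsupp.single o δ ≤ m.1 := by
      rw [Finsupp.single_le_iff]
      exact hmδ
    have ham : a + Finsupp.single o δ = m.1 := tsub_add_cancel_of_le hle
    have had : a.degree + δ = D := by
      rw [← hmd, ← ham, map_add, Finsupp.degree_single]
    have hao : a o + δ = m.1 o := by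
      rw [← ham, Finsupp.add_apply, Finsupp.single_eq_same]
    -- the target of an exponent
    let T : (ι →₀ ℕ) → Mon ι D := fun n =>
      if h : (ex o a δ n).degree = D then ⟨ex o a δ n, mem_mon.2 h⟩ else m
    have hTdeg : ∀ n ∈ q.support, (ex o a δ n).degree = D := by
      intro n hn
      have := hδ2 n hn
      unfold ex
      rw [map_add, map_add, Finsupp.degree_single]
      omega
    have hT : ∀ n ∈ q.support, (T n).1 = ex o a δ n := by
      intro n hn
      simp only [T, dif_pos (hTdeg n hn)]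
    refine ⟨fun e' => ∑ n ∈ q.support.filter (fun n => T n = e'), q.coeff n, ?_, ?_⟩
    · intro ℓ
      have h1 := hδ₀ δ hδ1 a ℓ
      have h2 : F = 1 - q := by rw [hq]; ring
      rw [h2, map_sub, sub_eq_zero] at h1
      have h3 : LL P o ℓ a δ 1 = ℓ (mv P D m) := by
        have h4 : (1 : MvPolynomial ι ℂ) = monomial 0 1 := rfl
        rw [h4, LL_monomial, one_mul]
        have h5 : ex o a δ 0 = m.1 := by
          unfold ex
          rw [map_zero, add_zero, Nat.sub_zero, ham]
        rw [h5]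
        rfl
      rw [← h3, h1, LL_eq_sum]
      have h6 : ∀ e' : Mon ι D, (∑ n ∈ q.support.filter (fun n => T n = e'), q.coeff n) *
          ℓ (mv P D e') = ∑ n ∈ q.support.filter (fun n => T n = e'),
            q.coeff n * ℓ (Ideal.Quotient.mk P (monomial (ex o a δ n) 1)) := by
        intro e'
        rw [Finset.sum_mul]
        refine Finset.sum_congr rfl fun n hn => ?_
        obtain ⟨hn1, hn2⟩ := Finset.mem_filter.1 hn
        rw [← hT n hn1, hn2]
        rfl
      rw [Finset.sum_congr rfl fun e' _ => h6 e']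
      exact (Finset.sum_fiberwise_of_maps_to (fun n _ => Finset.mem_univ (T n)) _).symm
    · have hwt : ∀ n ∈ q.support, D - (T n).1 o = (D - m.1 o) + (n.degree - n o) := by
        intro n hn
        rw [hT n hn]
        have h1 : ex o a δ n o = a o + n o + (δ - n.degree) := by
          unfold ex
          simp [Finsupp.add_apply]
        have h2 := hδ2 n hn
        have h3 : n o ≤ n.degree := by
          rw [Finsupp.degree_eq_sum]
          exact Finset.single_le_sum (f := fun i => n i) (fun _ _ => Nat.zero_le _)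
            (Finset.mem_univ o)
        have h4 : ex o a δ n o ≤ D := by
          rw [← hTdeg n hn, Finsupp.degree_eq_sum]
          exact Finset.single_le_sum (f := fun i => ex o a δ n i) (fun _ _ => Nat.zero_le _)
            (Finset.mem_univ o)
        omega
      calc ∑ e' : Mon ι D, ‖∑ n ∈ q.support.filter (fun n => T n = e'), q.coeff n‖ *
            ρ ^ (D - e'.1 o)
          ≤ ∑ e' : Mon ι D, ∑ n ∈ q.support.filter (fun n => T n = e'),
              ‖q.coeff n‖ * ρ ^ ((D - m.1 o) + (n.degree - n o)) := by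
            refine Finset.sum_le_sum fun e' _ => ?_
            refine (mul_le_mul_of_nonneg_right (norm_sum_le _ _) (by positivity)).trans ?_
            rw [Finset.sum_mul]
            refine Finset.sum_le_sum fun n hn => ?_
            obtain ⟨hn1, hn2⟩ := Finset.mem_filter.1 hn
            rw [← hwt n hn1, hn2]
        _ = ∑ n ∈ q.support, ‖q.coeff n‖ * ρ ^ ((D - m.1 o) + (n.degree - n o)) :=
            Finset.sum_fiberwise_of_maps_to (fun n _ => Finset.mem_univ (T n)) _
        _ = ρ ^ (D - m.1 o) * ∑ n ∈ q.support, ‖q.coeff n‖ * ∏ i, w i ^ (n i) := by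
            rw [Finset.mul_sum]
            refine Finset.sum_congr rfl fun n _ => ?_
            rw [hprod, pow_add]
            ring
        _ < ρ ^ (D - m.1 o) * 1 := by
            exact mul_lt_mul_of_pos_left hF (by positivity)
        _ = ρ ^ (D - m.1 o) := mul_one _)
  refine le_trans ?_ key
  refine mul_le_mul_of_nonneg_left ?_ (Real.log_nonneg hρ)
  have h1 : ∑ j ∈ Finset.range D, (hf P j : ℝ) ≤ ∑ j ∈ Finset.range D,
      (rk (fun e : {e : Mon ι D // D - e.1 o ≤ j} => mv P D e) : ℝ) := by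
    refine Finset.sum_le_sum fun j hj => ?_
    exact_mod_cast hf_le_rk P o hP ho (Finset.mem_range.1 hj).le
  have h2 : (hf P D : ℝ) = rk (mv P D) := rfl
  rw [h2]
  linarith

end Pool.Agent.Tyz
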