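import Pool.Agent.Work.MP_4c3a42_al.Defs

open MvPolynomial

namespace Pool.Agent.Tyz

theorem sl_mono {f g : ℕ → ℝ} (h : ∀ D, f D ≤ g D) (D : ℕ) : SS f D ≤ SS g D :=
  Finset.sum_le_sum fun i _ => h i

theorem sl_imono (s : ℕ) {f g : ℕ → ℝ} (h : ∀ D, f D ≤ g D) : ∀ D, SS^[s] f D ≤ SS^[s] g D := by
  induction s with
  | zero => exact h
  | succ s ih =>
    intro D
    rw [Function.iterate_succ_apply', Function.iterate_succ_apply']
    exact sl_mono ih D

theorem sl_inonneg (s : ℕ) {f : ℕ → ℝ} (h : ∀ D, 0 ≤ f D) : ∀ D, 0 ≤ SS^[s] f D := by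
  induction s with
  | zero => exact h
  | succ s ih =>
    intro D
    rw [Function.iterate_succ_apply']
    exact Finset.sum_nonneg fun i _ => ih i

theorem sl_shift {f : ℕ → ℝ} (h : ∀ D, 0 ≤ f D) (a D : ℕ) :
    SS (fun j => f (j + a)) D ≤ SS f (D + a) := by
  unfold SS
  have h1 : D + a + 1 = a + (D + 1) := by ring
  have h2 : ∑ x ∈ Finset.range (D + 1), f (a + x) = ∑ x ∈ Finset.range (D + 1), f (x + a) :=
    Finset.sum_congr rfl fun i _ => by rw [add_comm]
  rw [h1, Finset.sum_range_add f a (D + 1), h2]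
  have h3 : 0 ≤ ∑ x ∈ Finset.range a, f x := Finset.sum_nonneg fun i _ => h i
  linarith

theorem sl_ishift (s : ℕ) {f : ℕ → ℝ} (h : ∀ D, 0 ≤ f D) (a : ℕ) :
    ∀ D, SS^[s] (fun j => f (j + a)) D ≤ SS^[s] f (D + a) := by
  induction s with
  | zero => intro D; exact le_rfl
  | succ s ih =>
    intro D
    rw [Function.iterate_succ_apply', Function.iterate_succ_apply']
    exact (sl_mono ih D).trans (sl_shift (sl_inonneg s h) a D)

theorem sl_iadd (s : ℕ) (f g : ℕ → ℝ) :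
    ∀ D, SS^[s] (fun j => f j + g j) D = SS^[s] f D + SS^[s] g D := by
  induction s with
  | zero => intro D; rfl
  | succ s ih =>
    intro D
    rw [Function.iterate_succ_apply', Function.iterate_succ_apply', Function.iterate_succ_apply']
    unfold SS at ih ⊢
    rw [← Finset.sum_add_distrib]
    exact Finset.sum_congr rfl fun i _ => ih i

theorem sl_ismul (s : ℕ) (a : ℝ) (f : ℕ → ℝ) :
    ∀ D, SS^[s] (fun j => a * f j) D = a * SS^[s] f D := by
  induction s with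
  | zero => intro D; rfl
  | succ s ih =>
    intro D
    rw [Function.iterate_succ_apply', Function.iterate_succ_apply']
    unfold SS at ih ⊢
    rw [Finset.mul_sum]
    exact Finset.sum_congr rfl fun i _ => ih i

/-- `SS` applied to a binomial coefficient. -/
theorem SS_choose (a D : ℕ) :
    SS (fun j => ((j + a).choose a : ℝ)) D = (D + (a + 1)).choose (a + 1) := by
  induction D with
  | zero => simp [SS]
  | succ D ih =>
    have h1 : SS (fun j => ((j + a).choose a : ℝ)) (D + 1) =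
        SS (fun j => ((j + a).choose a : ℝ)) D + ((D + 1 + a).choose a : ℝ) := by
      unfold SS
      rw [Finset.sum_range_succ]
    rw [h1, ih]
    have h2 : D + 1 + (a + 1) = (D + (a + 1)) + 1 := by ring
    have h3 : D + 1 + a = D + (a + 1) := by ring
    rw [h2, Nat.choose_succ_succ (D + (a + 1)) a, h3]
    push_cast
    ring

theorem sl_ichoose (s a : ℕ) (D : ℕ) :
    SS^[s] (fun j => ((j + a).choose a : ℝ)) D = (D + (a + s)).choose (a + s) := by
  induction s generalizing D with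
  | zero => simp
  | succ s ih =>
    rw [Function.iterate_succ_apply']
    have : SS^[s] (fun j => ((j + a).choose a : ℝ)) =
        fun j => ((j + (a + s)).choose (a + s) : ℝ) := by
      funext j
      exact ih j
    rw [this, SS_choose]
    rfl

/-- growth from below, with offset two -/
theorem sl_lower (s a : ℕ) (η : ℝ) {f : ℕ → ℝ} (hf : ∀ D, 0 ≤ f D)
    (h : ∀ D, η * ((D + a).choose a : ℝ) ≤ f (D + 2)) (D : ℕ) :
    η * ((D + (a + s)).choose (a + s) : ℝ) ≤ SS^[s] f (D + 2) := by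
  rw [← sl_ichoose s a D, ← sl_ismul]
  exact (sl_imono s h D).trans (sl_ishift s hf 2 D)

/-- The common upper bound. -/
theorem sl_up (k s δ : ℕ) {h h0 : ℕ → ℝ} (hh0 : ∀ D, 0 ≤ h0 D)
    (ha : ∀ D, SS^[s] h D ≤ h0 (D + δ)) (D : ℕ) :
    SS^[k] (SS^[s] h) D ≤ SS^[k] h0 (D + δ) :=
  (sl_imono k ha D).trans (sl_ishift k hh0 δ D)

/-- limit argument -/
theorem sl_limit (N e : ℕ) (A B K : ℝ) (hB : 0 ≤ B) (hK : 0 ≤ K)
    (h : ∀ D : ℕ, A * ((D + (N + 1)).choose (N + 1) : ℝ) ≤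
      B * ((D + e + (N + 1)).choose (N + 1) : ℝ) + K * ((D + e + N).choose N : ℝ)) (hA : 0 ≤ A) :
    A ≤ B := by
  set E : ℝ := (e : ℝ) + N with hE
  have key : ∀ D : ℕ, A ≤ B * (1 + E / ((D : ℝ) + 1)) ^ (N + 1) +
      K * (N + 1) * (1 + E / ((D : ℝ) + 1)) ^ N * (1 / ((D : ℝ) + 1)) := by
    intro D
    have hD : (0 : ℝ) < (D : ℝ) + 1 := by positivity
    have h1 : (((D + 1 : ℕ) : ℝ)) ^ (N + 1) / ((N + 1).factorial : ℝ) ≤
        ((D + (N + 1)).choose (N + 1) : ℝ) := by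
      have := Nat.pow_le_choose (α := ℝ) (N + 1) (D + (N + 1))
      have e1 : D + (N + 1) + 1 - (N + 1) = D + 1 := by omega
      rw [e1] at this
      exact this
    have h2 : ((D + e + (N + 1)).choose (N + 1) : ℝ) ≤
        ((D + e + (N + 1) : ℕ) : ℝ) ^ (N + 1) / ((N + 1).factorial : ℝ) :=
      Nat.choose_le_pow_div (N + 1) (D + e + (N + 1))
    have h3 : ((D + e + N).choose N : ℝ) ≤
        ((D + e + N : ℕ) : ℝ) ^ N / (N.factorial : ℝ) :=
      Nat.choose_le_pow_div N (D + e + N)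
    have h4 : ((D + e + N : ℕ) : ℝ) ^ N ≤ ((D + e + (N + 1) : ℕ) : ℝ) ^ N := by
      apply pow_le_pow_left₀ (by positivity)
      push_cast
      linarith
    have hfac : ((N + 1).factorial : ℝ) = (N + 1) * (N.factorial : ℝ) := by
      rw [Nat.factorial_succ]
      push_cast
      ring
    have hfp : (0 : ℝ) < (N.factorial : ℝ) := by positivity
    have hfp1 : (0 : ℝ) < ((N + 1).factorial : ℝ) := by positivity
    have h5 := h D
    have h6 : A * ((((D + 1 : ℕ) : ℝ)) ^ (N + 1) / ((N + 1).factorial : ℝ)) ≤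
        B * (((D + e + (N + 1) : ℕ) : ℝ) ^ (N + 1) / ((N + 1).factorial : ℝ)) +
        K * (((D + e + (N + 1) : ℕ) : ℝ) ^ N / (N.factorial : ℝ)) := by
      refine (mul_le_mul_of_nonneg_left h1 hA).trans (h5.trans (add_le_add ?_ ?_))
      · exact mul_le_mul_of_nonneg_left h2 hB
      · refine mul_le_mul_of_nonneg_left (h3.trans ?_) hK
        exact div_le_div_of_nonneg_right h4 hfp.le
    have e2 : ((D + e + (N + 1) : ℕ) : ℝ) = ((D : ℝ) + 1) * (1 + E / ((D : ℝ) + 1)) := by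
      rw [hE]
      push_cast
      field_simp
      ring
    rw [e2, mul_pow, mul_pow, hfac] at h6
    push_cast at h6
    have h7 : ((N : ℝ) + 1) * (N.factorial : ℝ) * (1 / ((D : ℝ) + 1) ^ (N + 1)) *
        (A * (((D : ℝ) + 1) ^ (N + 1) / (((N : ℝ) + 1) * (N.factorial : ℝ)))) ≤
        ((N : ℝ) + 1) * (N.factorial : ℝ) * (1 / ((D : ℝ) + 1) ^ (N + 1)) *
        (B * (((D : ℝ) + 1) ^ (N + 1) * (1 + E / ((D : ℝ) + 1)) ^ (N + 1) /
          (((N : ℝ) + 1) * (N.factorial : ℝ))) +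
        K * (((D : ℝ) + 1) ^ N * (1 + E / ((D : ℝ) + 1)) ^ N / (N.factorial : ℝ))) :=
      mul_le_mul_of_nonneg_left h6 (by positivity)
    have e3 : ((N : ℝ) + 1) * (N.factorial : ℝ) * (1 / ((D : ℝ) + 1) ^ (N + 1)) *
        (A * (((D : ℝ) + 1) ^ (N + 1) / (((N : ℝ) + 1) * (N.factorial : ℝ)))) = A := by
      field_simp
    have e4 : ((N : ℝ) + 1) * (N.factorial : ℝ) * (1 / ((D : ℝ) + 1) ^ (N + 1)) *
        (B * (((D : ℝ) + 1) ^ (N + 1) * (1 + E / ((D : ℝ) + 1)) ^ (N + 1) /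
          (((N : ℝ) + 1) * (N.factorial : ℝ))) +
        K * (((D : ℝ) + 1) ^ N * (1 + E / ((D : ℝ) + 1)) ^ N / (N.factorial : ℝ))) =
        B * (1 + E / ((D : ℝ) + 1)) ^ (N + 1) +
        K * (N + 1) * (1 + E / ((D : ℝ) + 1)) ^ N * (1 / ((D : ℝ) + 1)) := by
      generalize (1 + E / ((D : ℝ) + 1)) = z
      have hDne : ((D : ℝ) + 1) ≠ 0 := hD.ne'
      rw [pow_succ ((D : ℝ) + 1) N]
      field_simp
    rw [e3, e4] at h7
    exact h7
  have hlim0 : Filter.Tendsto (fun D : ℕ => (1 : ℝ) / ((D : ℝ) + 1)) Filter.atTop (nhds 0) :=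
    tendsto_one_div_add_atTop_nhds_zero_nat
  have hlim1 : Filter.Tendsto (fun D : ℕ => 1 + E / ((D : ℝ) + 1)) Filter.atTop (nhds 1) := by
    have : Filter.Tendsto (fun D : ℕ => 1 + E * ((1 : ℝ) / ((D : ℝ) + 1))) Filter.atTop
        (nhds (1 + E * 0)) := (hlim0.const_mul E).const_add 1
    rw [mul_zero, add_zero] at this
    refine this.congr fun D => ?_
    ring
  have hlim : Filter.Tendsto (fun D : ℕ => B * (1 + E / ((D : ℝ) + 1)) ^ (N + 1) +
      K * (N + 1) * (1 + E / ((D : ℝ) + 1)) ^ N * (1 / ((D : ℝ) + 1))) Filter.atTop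
      (nhds (B * 1 ^ (N + 1) + K * (N + 1) * 1 ^ N * 0)) :=
    ((hlim1.pow (N + 1)).const_mul B).add ((((hlim1.pow N).const_mul (K * (N + 1))).mul hlim0))
  have := ge_of_tendsto' hlim key
  simpa using this

/-- The final comparison of growth. -/
theorem final_seq (k s t N δ : ℕ) (hN : s + t + k = N) (h h0 L : ℕ → ℝ)
    (hh : ∀ D, 0 ≤ h D) (hh0 : ∀ D, 0 ≤ h0 D) (η c C lr δq : ℝ) (hη : 0 ≤ η) (hc : 0 ≤ c)
    (hC : 0 ≤ C) (hlr : 0 ≤ lr) (hδq : 0 ≤ δq)
    (ha : ∀ D, SS^[s] h D ≤ h0 (D + δ))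
    (hb : ∀ D, SS^[s] L D ≤ c * SS h0 (D + δ) + C * h0 (D + δ))
    (hcc : ∀ D, lr * ((∑ j ∈ Finset.range D, h j) - δq * h D) ≤ L D)
    (hd : ∀ D, η * ((D + t).choose t : ℝ) ≤ h (D + 1))
    (he : ∀ D, SS^[k] h0 D ≤ 2 ^ k * ((D + N).choose N : ℝ)) :
    η * lr ≤ c * 2 ^ k := by
  set T : ℕ → ℝ := fun D => ∑ j ∈ Finset.range D, h j with hT
  have hT0 : ∀ D, 0 ≤ T D := fun D => Finset.sum_nonneg fun i _ => hh i
  -- lower bound for T
  have hT2 : ∀ D, η * ((D + (t + 1)).choose (t + 1) : ℝ) ≤ T (D + 2) := by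
    intro D
    rw [← SS_choose]
    have h1 : SS (fun j => η * ((j + t).choose t : ℝ)) D ≤ SS (fun j => h (j + 1)) D :=
      sl_mono hd D
    have h2 : SS (fun j => η * ((j + t).choose t : ℝ)) D =
        η * SS (fun j => ((j + t).choose t : ℝ)) D := by
      unfold SS
      rw [Finset.mul_sum]
    rw [← h2]
    refine h1.trans ?_
    have h3 := sl_shift hh 1 D
    exact h3
  have hlow := sl_lower (s + k) (t + 1) η hT0 hT2
  -- upper bound
  have hcc' : ∀ D, lr * T D ≤ L D + (lr * δq) * h D := by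
    intro D
    have := hcc D
    simp only [hT]
    linarith
  have hs : ∀ D, lr * SS^[s] T D ≤ c * SS h0 (D + δ) + (C + lr * δq) * h0 (D + δ) := by
    intro D
    have h1 := sl_imono s hcc' D
    rw [sl_ismul, sl_iadd, sl_ismul] at h1
    have h2 := mul_le_mul_of_nonneg_left (ha D) (mul_nonneg hlr hδq)
    have h3 := hb D
    linarith
  have hSS0 : ∀ D, 0 ≤ SS h0 D := fun D => Finset.sum_nonneg fun i _ => hh0 i
  have hk : ∀ D, lr * SS^[k] (SS^[s] T) D ≤ (c * 2 ^ k) * ((D + δ + (N + 1)).choose (N + 1) : ℝ) +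
      ((C + lr * δq) * 2 ^ k) * ((D + δ + N).choose N : ℝ) := by
    intro D
    have h1 := sl_imono k hs D
    rw [sl_ismul, sl_iadd, sl_ismul, sl_ismul] at h1
    have h2 : SS^[k] (fun j => SS h0 (j + δ)) D ≤ 2 ^ k * ((D + δ + (N + 1)).choose (N + 1) : ℝ) := by
      refine (sl_ishift k hSS0 δ D).trans ?_
      rw [← Function.iterate_succ_apply, Function.iterate_succ_apply', ← SS_choose]
      have h3 := sl_mono he (D + δ)
      have h4 : SS (fun D => 2 ^ k * ((D + N).choose N : ℝ)) (D + δ) =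
          2 ^ k * SS (fun j => ((j + N).choose N : ℝ)) (D + δ) := by
        unfold SS
        rw [Finset.mul_sum]
      rw [h4] at h3
      exact h3
    have h3 : SS^[k] (fun j => h0 (j + δ)) D ≤ 2 ^ k * ((D + δ + N).choose N : ℝ) :=
      (sl_ishift k hh0 δ D).trans (he (D + δ))
    have h4 := mul_le_mul_of_nonneg_left h2 hc
    have h5 := mul_le_mul_of_nonneg_left h3 (add_nonneg hC (mul_nonneg hlr hδq))
    linarith
  refine sl_limit N (2 + δ) (η * lr) (c * 2 ^ k) ((C + lr * δq) * 2 ^ k) (by positivity)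
    (by positivity) ?_ (by positivity)
  intro D
  have h1 := hk (D + 2)
  have h2 := hlow D
  have e1 : t + 1 + (s + k) = N + 1 := by omega
  rw [e1] at h2
  have e2 : SS^[s + k] T (D + 2) = SS^[k] (SS^[s] T) (D + 2) := by
    rw [add_comm s k, Function.iterate_add_apply]
  rw [e2] at h2
  have h3 := mul_le_mul_of_nonneg_left h2 hlr
  have e3 : D + 2 + δ = D + (2 + δ) := by ring
  rw [e3] at h1
  linarith

/-- The number of steps is bounded. -/
theorem growth_seq (k s N δ : ℕ) (h h0 : ℕ → ℝ) (hh : ∀ D, 1 ≤ h D) (hh0 : ∀ D, 0 ≤ h0 D)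
    (ha : ∀ D, SS^[s] h D ≤ h0 (D + δ))
    (he : ∀ D, SS^[k] h0 D ≤ 2 ^ k * ((D + N).choose N : ℝ)) :
    s + k ≤ N := by
  by_contra hcon
  push Not at hcon
  have h1 : ∀ D : ℕ, ((D + (N + 1)).choose (N + 1) : ℝ) ≤ 2 ^ k * ((D + δ + N).choose N : ℝ) := by
    intro D
    have h2 : SS^[k] (SS^[s] h) D ≤ 2 ^ k * ((D + δ + N).choose N : ℝ) :=
      (sl_up k s δ hh0 ha D).trans (he (D + δ))
    have h3 : SS^[k + s] (fun j => ((j + 0).choose 0 : ℝ)) D ≤ SS^[k + s] h D :=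
      sl_imono (k + s) (fun D => by simpa using hh D) D
    rw [sl_ichoose, Function.iterate_add_apply] at h3
    have h4 : ((D + (N + 1)).choose (N + 1) : ℝ) ≤ ((D + (0 + (k + s))).choose (0 + (k + s)) : ℝ) := by
      have h5 : (D + (N + 1)).choose (N + 1) ≤ (D + (0 + (k + s))).choose (0 + (k + s)) := by
        have e1 : (D + (N + 1)).choose (N + 1) = (D + (N + 1)).choose D :=
          (Nat.choose_symm_add (a := D) (b := N + 1)).symm
        have e2 : (D + (0 + (k + s))).choose (0 + (k + s)) = (D + (0 + (k + s))).choose D :=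
          (Nat.choose_symm_add (a := D) (b := 0 + (k + s))).symm
        rw [e1, e2]
        exact Nat.choose_le_choose D (by omega)
      exact_mod_cast h5
    exact h4.trans (h3.trans h2)
  have h2 := sl_limit N δ 1 0 (2 ^ k) le_rfl (by positivity)
    (by intro D; rw [one_mul, zero_mul, zero_add]; exact h1 D) zero_le_one
  linarith

/-- telescoping -/
theorem sl_tel (f : ℕ → ℝ) (e D : ℕ) :
    ∑ j ∈ Finset.range (D + 1), (f (j + e + 1) - f (j + e)) = f (D + e + 1) - f e := by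
  have := Finset.sum_range_sub (fun j => f (j + e)) (D + 1)
  simp only [zero_add] at this
  have e1 : D + 1 + e = D + e + 1 := by ring
  rw [e1] at this
  rw [← this]
  refine Finset.sum_congr rfl fun j _ => ?_
  have e2 : j + 1 + e = j + e + 1 := by ring
  rw [e2]

theorem sl_tele (e : ℕ) {hP hP' : ℕ → ℝ} (h1 : ∀ D, 0 ≤ hP D)
    (hh : ∀ D, hP' D + hP (D + e) ≤ hP (D + e + 1)) (D : ℕ) : SS hP' D ≤ hP (D + (e + 1)) := by
  have h2 : SS hP' D ≤ ∑ j ∈ Finset.range (D + 1), (hP (j + e + 1) - hP (j + e)) :=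
    Finset.sum_le_sum fun j _ => by linarith [hh j]
  rw [sl_tel] at h2
  have := h1 e
  have e1 : D + (e + 1) = D + e + 1 := by ring
  rw [e1]
  linarith

/-- The induction step for Hilbert functions. -/
theorem step_seq_h (s e δ : ℕ) (hP hP' h0 : ℕ → ℝ) (h1 : ∀ D, 0 ≤ hP D) (h2 : ∀ D, 0 ≤ hP' D)
    (hh : ∀ D, hP' D + hP (D + e) ≤ hP (D + e + 1))
    (ha : ∀ D, SS^[s] hP D ≤ h0 (D + δ)) :
    ∀ D, SS^[s + 1] hP' D ≤ h0 (D + (δ + e + 1)) := by
  intro D
  rw [Function.iterate_succ_apply]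
  refine (sl_imono s (sl_tele e h1 hh) D).trans ((sl_ishift s h1 (e + 1) D).trans ?_)
  have := ha (D + (e + 1))
  have e1 : D + (δ + e + 1) = D + (e + 1) + δ := by ring
  rw [e1]
  exact this

/-- The induction step for arithmetic Hilbert functions. -/
theorem step_seq_l (s e δ : ℕ) (hP hP' h0 LP LP' : ℕ → ℝ) (c C cst C' : ℝ)
    (h1 : ∀ D, 0 ≤ hP D) (h2 : ∀ D, 0 ≤ hP' D) (h3 : ∀ D, 0 ≤ LP D) (h4 : ∀ D, 0 ≤ h0 D)
    (h5 : ∀ D, 0 ≤ LP' D)
    (hc : 0 ≤ c) (hC : 0 ≤ C) (hcst : 0 ≤ cst) (hC' : 0 ≤ C')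
    (hh : ∀ D, hP' D + hP (D + e) ≤ hP (D + e + 1))
    (hl : ∀ D, LP' D + LP (D + e) ≤ LP (D + e + 1) + cst * hP (D + e) + C' * hP' D)
    (ha : ∀ D, SS^[s] hP D ≤ h0 (D + δ))
    (hb : ∀ D, SS^[s] LP D ≤ c * SS h0 (D + δ) + C * h0 (D + δ)) :
    ∀ D, SS^[s + 1] LP' D ≤
      (c + cst) * SS h0 (D + (δ + e + 1)) + (C + C') * h0 (D + (δ + e + 1)) := by
  intro D
  rw [Function.iterate_succ_apply]
  have hSSP : ∀ D, 0 ≤ SS hP D := fun D => Finset.sum_nonneg fun i _ => h1 i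
  have k1 : ∀ D, SS LP' D ≤ (LP (D + (e + 1)) + cst * SS hP (D + e)) + C' * hP (D + (e + 1)) := by
    intro D
    have a1 : SS LP' D ≤ ∑ j ∈ Finset.range (D + 1),
        ((LP (j + e + 1) - LP (j + e)) + (cst * hP (j + e) + C' * hP' j)) :=
      Finset.sum_le_sum fun j _ => by linarith [hl j]
    rw [Finset.sum_add_distrib, sl_tel, Finset.sum_add_distrib, ← Finset.mul_sum,
      ← Finset.mul_sum] at a1
    have a2 : ∑ j ∈ Finset.range (D + 1), hP (j + e) ≤ SS hP (D + e) := sl_shift h1 e D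
    have a3 : ∑ j ∈ Finset.range (D + 1), hP' j ≤ hP (D + (e + 1)) := sl_tele e h1 hh D
    have a4 := mul_le_mul_of_nonneg_left a2 hcst
    have a5 := mul_le_mul_of_nonneg_left a3 hC'
    have a6 := h3 e
    have e1 : D + (e + 1) = D + e + 1 := by ring
    rw [e1] at a5 ⊢
    linarith
  have k2 := sl_imono s k1 D
  rw [sl_iadd, sl_iadd, sl_ismul, sl_ismul] at k2
  have e1 : D + (δ + e + 1) = D + (e + 1) + δ := by ring
  have k3 : SS^[s] (fun j => LP (j + (e + 1))) D ≤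
      c * SS h0 (D + (e + 1) + δ) + C * h0 (D + (e + 1) + δ) :=
    (sl_ishift s h3 (e + 1) D).trans (hb (D + (e + 1)))
  have k4 : SS^[s] (fun j => hP (j + (e + 1))) D ≤ h0 (D + (e + 1) + δ) :=
    (sl_ishift s h1 (e + 1) D).trans (ha (D + (e + 1)))
  have k5 : SS^[s] (fun j => SS hP (j + e)) D ≤ SS h0 (D + (e + 1) + δ) := by
    refine (sl_ishift s hSSP e D).trans ?_
    rw [← Function.iterate_succ_apply, Function.iterate_succ_apply']
    refine (sl_mono ha (D + e)).trans ((sl_shift h4 δ (D + e)).trans ?_)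
    unfold SS
    refine Finset.sum_le_sum_of_subset_of_nonneg ?_ fun i _ _ => h4 i
    intro i hi
    rw [Finset.mem_range] at hi ⊢
    omega
  have k6 := mul_le_mul_of_nonneg_left k5 hcst
  have k7 := mul_le_mul_of_nonneg_left k4 hC'
  rw [e1]
  nlinarith [k2, k3, k6, k7]

end Pool.Agent.Tyz
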