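import Pool.Agent.Work.MP_4c3a42_al.Defs

open MvPolynomial

namespace Pool.Agent.Tyz

variable {ι : Type} [Fintype ι] [DecidableEq ι]

attribute [local instance] MvPolynomial.gradedAlgebra

omit [Fintype ι] [DecidableEq ι] in
theorem theta_decompose (r : MvPolynomial ι ℚ) (i : ℕ) :
    ((DirectSum.decompose (homogeneousSubmodule ι ℚ) r i : homogeneousSubmodule ι ℚ i) :
      MvPolynomial ι ℚ) = homogeneousComponent i r :=
  decomposition.decompose'_apply r i

omit [Fintype ι] [DecidableEq ι] in
theorem theta_HI_iff {P : Ideal (MvPolynomial ι ℚ)} :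
    (∀ F ∈ P, ∀ n : ℕ, homogeneousComponent n F ∈ P) ↔
      P.IsHomogeneous (homogeneousSubmodule ι ℚ) := by
  constructor
  · intro h i r hr
    rw [theta_decompose]
    exact h r hr i
  · intro h F hF n
    exact homogeneousComponent_mem_of_mem h hF n

theorem HI_sup {P : Ideal (MvPolynomial ι ℚ)} (hP : HI P) (θ : MvPolynomial ι ℤ) (e : ℕ)
    (hθ : θ.IsHomogeneous e) : HI (P ⊔ Ideal.span {toQ θ}) := by
  refine theta_HI_iff.2 ((theta_HI_iff.1 hP).sup (Ideal.homogeneous_span _ _ ?_))
  intro x hx
  rw [Set.mem_singleton_iff] at hx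
  subst hx
  exact ⟨e, (mem_homogeneousSubmodule _ _).2 (hθ.map _)⟩

omit [Fintype ι] [DecidableEq ι] in
/-- clearing denominators -/
theorem theta_clear (p : MvPolynomial ι ℚ) :
    ∃ (c : ℤ) (θ : MvPolynomial ι ℤ), c ≠ 0 ∧
      MvPolynomial.map (Int.castRingHom ℚ) θ = C (c : ℚ) * p := by
  classical
  obtain ⟨b, hb⟩ := IsLocalization.exist_integer_multiples (nonZeroDivisors ℤ) p.support
    (fun m => p.coeff m)
  choose f hf using hb
  refine ⟨b, ∑ m ∈ p.support.attach, monomial m.1 (f m.1 m.2), nonZeroDivisors.coe_ne_zero b, ?_⟩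
  rw [map_sum]
  have h1 : C (((b : ℤ) : ℚ)) * p = ∑ m ∈ p.support.attach,
      C (((b : ℤ) : ℚ)) * monomial m.1 (p.coeff m.1) := by
    rw [← Finset.mul_sum]
    congr 1
    conv_lhs => rw [← p.support_sum_monomial_coeff]
    exact (Finset.sum_attach p.support (fun m => monomial m (p.coeff m))).symm
  rw [h1]
  refine Finset.sum_congr rfl fun m _ => ?_
  rw [map_monomial, C_mul_monomial]
  congr 1
  have := hf m.1 m.2
  rw [algebraMap_int_eq] at this
  rw [this, zsmul_eq_mul]

/-- A minimal prime of a homogeneous ideal is homogeneous and is the annihilator of an integral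
homogeneous polynomial of positive degree. -/
theorem exists_theta (J : Ideal (MvPolynomial ι ℚ)) (hJ : HI J) (P' : Ideal (MvPolynomial ι ℚ))
    (hP' : P' ∈ J.minimalPrimes) (o : ι) (ho : X o ∉ P') :
    HI P' ∧ ∃ (e : ℕ) (θ : MvPolynomial ι ℤ), θ.IsHomogeneous (e + 1) ∧
      ∀ g, g * toQ θ ∈ J ↔ g ∈ P' := by
  have hprime : P'.IsPrime := hP'.1.1
  have hJP : J ≤ P' := hP'.1.2
  -- homogeneity
  have hhom : P'.IsHomogeneous (homogeneousSubmodule ι ℚ) := by
    have h1 : (P'.homogeneousCore (homogeneousSubmodule ι ℚ)).toIdeal.IsPrime :=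
      hprime.homogeneousCore
    have h2 : J ≤ (P'.homogeneousCore (homogeneousSubmodule ι ℚ)).toIdeal := by
      have := (theta_HI_iff.1 hJ).toIdeal_homogeneousCore_eq_self
      rw [← this]
      exact Ideal.homogeneousCore_mono _ hJP
    have h3 := hP'.2 ⟨h1, h2⟩ (Ideal.toIdeal_homogeneousCore_le _ _)
    have h4 : P' = (P'.homogeneousCore (homogeneousSubmodule ι ℚ)).toIdeal :=
      le_antisymm h3 (Ideal.toIdeal_homogeneousCore_le _ _)
    rw [h4]
    exact (P'.homogeneousCore (homogeneousSubmodule ι ℚ)).isHomogeneous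
  have hHI : HI P' := theta_HI_iff.2 hhom
  refine ⟨hHI, ?_⟩
  obtain ⟨θ0, hθ0⟩ : ∃ θ0 : MvPolynomial ι ℚ, P' = Submodule.colon J {θ0} := by
    refine Submodule.exists_eq_colon_of_mem_minimalPrimes (N := J) (x := 1) ?_
    have : Submodule.colon J {(1 : MvPolynomial ι ℚ)} = J := by
      ext a
      rw [Submodule.mem_colon_singleton, smul_eq_mul, mul_one]
    rw [this]
    exact hP'
  have hmem : ∀ a, a ∈ P' ↔ a * θ0 ∈ J := by
    intro a
    rw [hθ0, Submodule.mem_colon_singleton, smul_eq_mul]
  -- components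
  have hcomp : ∀ n f, f ∈ P' → f * homogeneousComponent n θ0 ∈ J := by
    intro n f hf
    have hf2 : ∀ m, homogeneousComponent m f * homogeneousComponent n θ0 ∈ J := by
      intro m
      have h1 : homogeneousComponent m f ∈ P' := hHI f hf m
      have h2 := hJ _ ((hmem _).1 h1) (m + n)
      rw [← theta_decompose, DirectSum.coe_decompose_mul_add_of_left_mem
        (homogeneousSubmodule ι ℚ) (homogeneousComponent_mem m f), theta_decompose] at h2
      exact h2
    rw [← sum_homogeneousComponent f, Finset.sum_mul]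
    exact Ideal.sum_mem _ fun m _ => hf2 m
  have hex : ∃ n, ∀ g, g * homogeneousComponent n θ0 ∈ J → g ∈ P' := by
    by_contra hcon
    push Not at hcon
    choose g hg hgP using hcon
    have hprod : (∏ n ∈ Finset.range (θ0.totalDegree + 1), g n) ∈ P' := by
      rw [hmem]
      have e1 : (∏ n ∈ Finset.range (θ0.totalDegree + 1), g n) * θ0 =
          ∑ i ∈ Finset.range (θ0.totalDegree + 1),
            (∏ n ∈ Finset.range (θ0.totalDegree + 1), g n) * homogeneousComponent i θ0 := by
        rw [← Finset.mul_sum, sum_homogeneousComponent]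
      rw [e1]
      refine Ideal.sum_mem _ fun n hn => ?_
      rw [← Finset.prod_erase_mul _ _ hn, mul_assoc]
      exact Ideal.mul_mem_left _ _ (hg n)
    obtain ⟨n, _, hn⟩ := (hprime.prod_mem_iff).1 hprod
    exact hgP n hn
  obtain ⟨n, hn⟩ := hex
  obtain ⟨c, θ, hc, hθ⟩ := theta_clear (X o * homogeneousComponent n θ0)
  refine ⟨n, θ, ?_, ?_⟩
  · have h1 : (MvPolynomial.map (Int.castRingHom ℚ) θ).IsHomogeneous (n + 1) := by
      rw [hθ, add_comm n 1]
      exact ((isHomogeneous_X ℚ o).mul (homogeneousComponent_isHomogeneous n θ0)).C_mul _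
    exact IsHomogeneous.of_map (f := Int.castRingHom ℚ) Int.cast_injective h1
  · intro g
    have hcq : (c : ℚ) ≠ 0 := Int.cast_ne_zero.2 hc
    have hiff : g * toQ θ ∈ J ↔ g * (X o * homogeneousComponent n θ0) ∈ J := by
      unfold toQ
      rw [hθ]
      constructor
      · intro h
        have := Ideal.mul_mem_left J (C ((c : ℚ)⁻¹)) h
        have e : C ((c : ℚ)⁻¹) * (g * (C (c : ℚ) * (X o * homogeneousComponent n θ0))) =
            g * (X o * homogeneousComponent n θ0) := by
          have : C ((c : ℚ)⁻¹) * C (c : ℚ) = (1 : MvPolynomial ι ℚ) := by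
            rw [← C_mul, inv_mul_cancel₀ hcq, C_1]
          linear_combination (g * (X o * homogeneousComponent n θ0)) * this
        rwa [e] at this
      · intro h
        have := Ideal.mul_mem_left J (C (c : ℚ)) h
        have e : C (c : ℚ) * (g * (X o * homogeneousComponent n θ0)) =
            g * (C (c : ℚ) * (X o * homogeneousComponent n θ0)) := by ring
        rwa [e] at this
    rw [hiff]
    constructor
    · intro h
      rw [← mul_assoc] at h
      exact (hprime.mem_or_mem (hn _ h)).resolve_right ho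
    · intro h
      have := hcomp n (g * X o) (Ideal.mul_mem_right _ _ h)
      rwa [mul_assoc] at this

end Pool.Agent.Tyz
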