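import Pool.Agent.Work.MP_4c3a42_al.GrMul
import Pool.Agent.Work.MP_4c3a42_al.Theta
import Pool.Agent.Work.MP_4c3a42_al.DimDrop
import Pool.Agent.Work.MP_4c3a42_al.HilbLow
import Pool.Agent.Work.MP_4c3a42_al.SeqL
import Pool.Agent.Work.MP_4c3a42_al.LhLow

open MvPolynomial

namespace Pool.Agent.Tyz

variable {ι : Type} [Fintype ι] [DecidableEq ι]

theorem one_le_hf (P : Ideal (MvPolynomial ι ℚ)) (hP : P.IsPrime) (o : ι) (ho : X o ∉ P) (D : ℕ) :
    1 ≤ hf P D := by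
  classical
  have hfin : (Set.range (mv P D)).Finite := Set.finite_range _
  haveI : Module.Finite ℚ (Submodule.span ℚ (Set.range (mv P D))) :=
    FiniteDimensional.span_of_finite ℚ hfin
  have hm : (Finsupp.single o D) ∈ (Finset.univ : Finset ι).finsuppAntidiag D := by
    rw [Finset.mem_finsuppAntidiag]
    refine ⟨?_, Finset.subset_univ _⟩
    simp [Finsupp.single_apply]
  have hne : mv P D ⟨_, hm⟩ ≠ 0 := by
    unfold mv
    rw [Ne, Ideal.Quotient.eq_zero_iff_mem]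
    have : (monomial (Finsupp.single o D) (1 : ℚ)) = (X o : MvPolynomial ι ℚ) ^ D := by
      rw [X_pow_eq_monomial]
    rw [this]
    intro h
    exact ho (hP.mem_of_pow_mem D h)
  unfold hf rk
  rw [Nat.one_le_iff_ne_zero, ← Nat.pos_iff_ne_zero, Module.finrank_pos_iff]
  exact ⟨⟨⟨_, Submodule.subset_span ⟨_, rfl⟩⟩, 0, fun h => hne (congrArg Subtype.val h)⟩⟩

theorem l1_nonneg (F : MvPolynomial ι ℤ) : 0 ≤ l1 F :=
  Finset.sum_nonneg fun _ _ => abs_nonneg _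

theorem log_l1_le {F : MvPolynomial ι ℤ} (h : l1 F ≤ 3) : Real.log (l1 F) ≤ Real.log 3 := by
  rcases (l1_nonneg F).eq_or_lt with h0 | h0
  · rw [← h0, Real.log_zero]; exact Real.log_nonneg (by norm_num)
  · exact Real.log_le_log h0 h

/-- Data of one step. -/
theorem step_data (P : Ideal (MvPolynomial ι ℚ)) (hPp : P.IsPrime) (hPH : HI P)
    (F : MvPolynomial ι ℤ) (hF : F.IsHomogeneous 1) (hFP : toQ F ∉ P)
    (P' : Ideal (MvPolynomial ι ℚ)) (hP' : P' ∈ (P ⊔ Ideal.span {toQ F}).minimalPrimes) (o : ι)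
    (ho : X o ∉ P') :
    HI P' ∧ ∃ (e : ℕ) (C' : ℝ), 0 ≤ C' ∧
      (∀ D, (hf (P ⊔ Ideal.span {toQ F}) (D + 1) : ℝ) + hf P D = hf P (D + 1)) ∧
      (∀ D, lh (P ⊔ Ideal.span {toQ F}) (D + 1) + lh P D ≤
        lh P (D + 1) + Real.log (l1 F) * hf P D) ∧
      (∀ D, (hf P' D : ℝ) ≤ hf (P ⊔ Ideal.span {toQ F}) (D + e + 1)) ∧
      (∀ D, lh P' D ≤ lh (P ⊔ Ideal.span {toQ F}) (D + e + 1) + C' * hf P' D) := by
  have hJ := HI_sup hPH F 1 hF
  obtain ⟨hH', e, θ, hθ, hθP⟩ := exists_theta _ hJ P' hP' o ho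
  refine ⟨hH', e, |Real.log (l1 θ)|, abs_nonneg _, fun D => ?_, fun D => ?_, fun D => ?_,
    fun D => ?_⟩
  · have := (mult_step P P hPH F 1 hF (fun g => ⟨fun h => (hPp.mem_or_mem h).resolve_right hFP,
      fun h => P.mul_mem_right _ h⟩) D).1
    exact_mod_cast this
  · have := (mult_step P P hPH F 1 hF (fun g => ⟨fun h => (hPp.mem_or_mem h).resolve_right hFP,
      fun h => P.mul_mem_right _ h⟩) D).2
    linarith [mul_comm (hf P D : ℝ) (Real.log (l1 F))]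
  · have := (mult_step _ P' hJ θ (e + 1) hθ hθP D).1
    have h2 : hf P' D ≤ hf (P ⊔ Ideal.span {toQ F}) (D + e + 1) := by
      rw [add_assoc]; omega
    exact_mod_cast h2
  · have h1 := (mult_step _ P' hJ θ (e + 1) hθ hθP D).2
    have h2 : 0 ≤ lh ((P ⊔ Ideal.span {toQ F}) ⊔ Ideal.span {toQ θ}) (D + (e + 1)) :=
      lh_nonneg _ _
    have h3 : (hf P' D : ℝ) * Real.log (l1 θ) ≤ |Real.log (l1 θ)| * hf P' D := by
      rw [mul_comm]
      exact mul_le_mul_of_nonneg_right (le_abs_self _) (Nat.cast_nonneg _)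
    rw [add_assoc D e 1]
    linarith

/-- One step of the chain. -/
theorem good_step {P₀ m P : Ideal (MvPolynomial ι ℚ)} {u s : ℕ} {c : ℝ}
    (hG : Good P₀ m u s c P) (hm : m.IsPrime) (o : ι) (ho : X o ∉ m)
    (F : MvPolynomial ι ℤ) (hF : SmallForm F) (hFm : toQ F ∈ m) (hFP : toQ F ∉ P) :
    ∃ P', Good P₀ m u (s + 1) (c + Real.log 3) P' ∧ P ≤ P' ∧ toQ F ∈ P' := by
  have hJm : P ⊔ Ideal.span {toQ F} ≤ m :=
    sup_le hG.le ((Ideal.span_singleton_le_iff_mem _).2 hFm)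
  obtain ⟨P', hP', hP'm⟩ := Ideal.exists_minimalPrimes_le hJm
  have hPP' : P ≤ P' := le_sup_left.trans hP'.1.2
  have hFP' : toQ F ∈ P' := (Ideal.span_singleton_le_iff_mem _).1 (le_sup_right.trans hP'.1.2)
  have hoP' : X o ∉ P' := fun h => ho (hP'm h)
  obtain ⟨hH', e, C', hC', hh1, hl1, hh2, hl2⟩ :=
    step_data P hG.prime hG.hom F hF.1 hFP P' hP' o hoP'
  obtain ⟨δ, C, hC, hbd⟩ := hG.bd
  have hlog3 : 0 ≤ Real.log 3 := Real.log_nonneg (by norm_num)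
  have hstep_h : ∀ D, (hf P' D : ℝ) + hf P (D + e) ≤ hf P (D + e + 1) := fun D => by
    have := hh1 (D + e)
    have := hh2 D
    linarith
  refine ⟨P', ⟨hP'.1.1, hH', hG.ge.trans hPP', hP'm, add_nonneg hG.cost hlog3, ?_, ?_⟩,
    hPP', hFP'⟩
  · intro n hn
    exact dim_drop P hG.prime (toQ F) hFP P' hP' n (hG.tr (n + 1) (by omega))
  · refine ⟨δ + e + 1, C + C', add_nonneg hC hC', fun D => ⟨?_, ?_⟩⟩
    · exact step_seq_h s e δ (fun j => (hf P j : ℝ)) (fun j => (hf P' j : ℝ))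
        (fun j => (hf P₀ j : ℝ)) (fun _ => Nat.cast_nonneg _) (fun _ => Nat.cast_nonneg _)
        hstep_h (fun D => (hbd D).1) D
    · refine step_seq_l s e δ (fun j => (hf P j : ℝ)) (fun j => (hf P' j : ℝ))
        (fun j => (hf P₀ j : ℝ)) (lh P) (lh P') c C (Real.log 3) C'
        (fun _ => Nat.cast_nonneg _) (fun _ => Nat.cast_nonneg _) (lh_nonneg P)
        (fun _ => Nat.cast_nonneg _) (lh_nonneg P') hG.cost hC hlog3 hC'
        hstep_h ?_ (fun D => (hbd D).1) (fun D => (hbd D).2) D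
      intro D
      have h1 := hl1 (D + e)
      have h2 := hl2 D
      have h3 : Real.log (l1 F) * hf P (D + e) ≤ Real.log 3 * hf P (D + e) :=
        mul_le_mul_of_nonneg_right (log_l1_le hF.2) (Nat.cast_nonneg _)
      show lh P' D + lh P (D + e) ≤ lh P (D + e + 1) + Real.log 3 * (hf P (D + e) : ℝ)
        + C' * (hf P' D : ℝ)
      linarith

/-- Number of steps. -/
theorem good_steps_le {P₀ m P : Ideal (MvPolynomial ι ℚ)} {u s k : ℕ} {c : ℝ}
    (hG : Good P₀ m u s c P) (o : ι) (ho : X o ∉ m)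
    (hcount : ∀ D, SS^[k] (fun j => (hf P₀ j : ℝ)) D ≤ 2 ^ k * ((D + (k + u)).choose (k + u) : ℝ)) :
    s ≤ u := by
  obtain ⟨δ, C, hC, hbd⟩ := hG.bd
  have := growth_seq k s (k + u) δ (fun j => (hf P j : ℝ)) (fun j => (hf P₀ j : ℝ))
    (fun D => by exact_mod_cast one_le_hf P hG.prime o (fun h => ho (hG.le h)) D)
    (fun _ => Nat.cast_nonneg _) (fun D => (hbd D).1) hcount
  omega

/-- The chain. -/
theorem chain {P₀ m : Ideal (MvPolynomial ι ℚ)} {u k : ℕ} (hm : m.IsPrime) (o : ι) (ho : X o ∉ m)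
    (hcount : ∀ D, SS^[k] (fun j => (hf P₀ j : ℝ)) D ≤ 2 ^ k * ((D + (k + u)).choose (k + u) : ℝ))
    (T : Set (MvPolynomial ι ℤ)) (hT : ∀ F ∈ T, SmallForm F ∧ toQ F ∈ m) :
    ∀ (n s : ℕ) (c : ℝ) (P : Ideal (MvPolynomial ι ℚ)), u ≤ s + n → Good P₀ m u s c P →
      ∃ s' P', s ≤ s' ∧ s' ≤ u ∧ Good P₀ m u s' (c + (s' - s : ℝ) * Real.log 3) P' ∧
        ∀ F ∈ T, toQ F ∈ P' := by
  intro n
  induction n with
  | zero =>
    intro s c P hn hG
    have hs := good_steps_le hG o ho hcount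
    refine ⟨s, P, le_rfl, hs, by simpa using hG, fun F hF => ?_⟩
    by_contra hFP
    obtain ⟨P', hG', -, -⟩ := good_step hG hm o ho F (hT F hF).1 (hT F hF).2 hFP
    have := good_steps_le hG' o ho hcount
    omega
  | succ n ih =>
    intro s c P hn hG
    by_cases hall : ∀ F ∈ T, toQ F ∈ P
    · exact ⟨s, P, le_rfl, good_steps_le hG o ho hcount, by simpa using hG, hall⟩
    · push Not at hall
      obtain ⟨F, hFT, hFP⟩ := hall
      obtain ⟨P', hG', -, -⟩ := good_step hG hm o ho F (hT F hFT).1 (hT F hFT).2 hFP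
      obtain ⟨s', P'', h1, h2, h3, h4⟩ := ih (s + 1) _ P' (by omega) hG'
      refine ⟨s', P'', by omega, h2, ?_, h4⟩
      convert h3 using 1
      push_cast
      ring

/-- End of the machine: a zero of `P` in the polydisc. -/
theorem machine {P₀ m P : Ideal (MvPolynomial ι ℚ)} {u s k : ℕ} {c : ℝ}
    (hG : Good P₀ m u s c P) (hs : s ≤ u) (o : ι) (ho : X o ∉ m)
    (hcount : ∀ D, SS^[k] (fun j => (hf P₀ j : ℝ)) D ≤ 2 ^ k * ((D + (k + u)).choose (k + u) : ℝ))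
    (η ρ : ℝ) (hη : 0 ≤ η) (hρ : 1 ≤ ρ)
    (hd : ∀ D, η * ((D + (u - s)).choose (u - s) : ℝ) ≤ hf P (D + 1))
    (hlt : c * 2 ^ k < η * Real.log ρ) :
    ∃ z : ι → ℂ, z o = 1 ∧ (∀ i, ‖z i‖ ≤ ρ) ∧ ∀ F ∈ P, aeval z F = 0 := by
  by_contra hz
  obtain ⟨δq, hlow⟩ := lh_lower P hG.prime hG.hom o (fun h => ho (hG.le h)) ρ hρ hz
  obtain ⟨δ, C, hC, hbd⟩ := hG.bd
  have := final_seq k s (u - s) (k + u) δ (by omega) (fun j => (hf P j : ℝ))
    (fun j => (hf P₀ j : ℝ)) (lh P) (fun _ => Nat.cast_nonneg _) (fun _ => Nat.cast_nonneg _)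
    η c C (Real.log ρ) δq hη hG.cost hC (Real.log_nonneg hρ) (Nat.cast_nonneg _)
    (fun D => (hbd D).1) (fun D => (hbd D).2) hlow hd hcount
  linarith

end Pool.Agent.Tyz
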