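import Pool.Agent.Work.MP_4c3a42_al.BaseP

open MvPolynomial

namespace Pool.Agent.Tyz

variable {ι : Type} [Fintype ι] [DecidableEq ι]

/-- Number of classes of monomials of degree `D` modulo a subgroup of `ℤ^ι`. -/
noncomputable def ncl (L : AddSubgroup (ι → ℤ)) (D : ℕ) : ℕ :=
  Nat.card (Set.range fun m : Mon ι D => (QuotientAddGroup.mk (fun i => (m.1 i : ℤ)) :
    (ι → ℤ) ⧸ L))

/-- The integer vector of a monomial. -/
def zv {D : ℕ} (m : Mon ι D) : ι → ℤ := fun i => (m.1 i : ℤ)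

/-- The set of classes. -/
def cls (L : AddSubgroup (ι → ℤ)) (D : ℕ) : Set ((ι → ℤ) ⧸ L) :=
  Set.range fun m : Mon ι D => (QuotientAddGroup.mk (zv m) : (ι → ℤ) ⧸ L)

theorem ncl_eq (L : AddSubgroup (ι → ℤ)) (D : ℕ) : ncl L D = (cls L D).ncard :=
  Nat.card_coe_set_eq _

theorem cls_fin (L : AddSubgroup (ι → ℤ)) (D : ℕ) : (cls L D).Finite := Set.finite_range _

/-- Sum of two monomials. -/
noncomputable def addMon {D E : ℕ} (a : Mon ι D) (b : Mon ι E) : Mon ι (D + E) :=
  ⟨a.1 + b.1, by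
    have ha := a.2
    have hb := b.2
    simp only [Finset.mem_finsuppAntidiag] at ha hb ⊢
    refine ⟨?_, Finset.subset_univ _⟩
    simp only [Finsupp.coe_add, Pi.add_apply, Finset.sum_add_distrib]
    rw [ha.1, hb.1]⟩

theorem zv_addMon {D E : ℕ} (a : Mon ι D) (b : Mon ι E) :
    zv (addMon a b) = zv a + zv b := by
  funext i
  simp [zv, addMon]

/-- One relation. -/
theorem ncl_step (L : AddSubgroup (ι → ℤ)) (p q : Mon ι 2) (w : ι → ℤ)
    (hw : w = fun i => (p.1 i : ℤ) - (q.1 i : ℤ)) (hind : ∀ n : ℤ, n • w ∈ L → n = 0) (D : ℕ) :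
    ncl (L ⊔ AddSubgroup.zmultiples w) (D + 2) + ncl L D ≤ ncl L (D + 2) := by
  classical
  have hw' : w = zv p - zv q := by rw [hw]; rfl
  rw [ncl_eq, ncl_eq, ncl_eq]
  set A := cls L (D + 2) with hA
  have hAfin : A.Finite := cls_fin L (D + 2)
  set wb : (ι → ℤ) ⧸ L := QuotientAddGroup.mk w with hwb
  have hord : ∀ n : ℤ, n • wb = 0 → n = 0 := by
    intro n hn
    apply hind n
    rw [hwb, ← QuotientAddGroup.mk_zsmul, QuotientAddGroup.eq_zero_iff] at hn
    exact hn
  set Y : Set ((ι → ℤ) ⧸ L) := {y | y ∈ A ∧ ∀ n : ℕ, 1 ≤ n → y + n • wb ∉ A} with hY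
  set Z : Set ((ι → ℤ) ⧸ L) :=
    (fun b => b + (QuotientAddGroup.mk (zv q) : (ι → ℤ) ⧸ L)) '' cls L D with hZ
  have hZA : Z ⊆ A := by
    rintro _ ⟨b, ⟨m, rfl⟩, rfl⟩
    exact ⟨addMon m q, by simp only [zv_addMon]; rfl⟩
  have hZY : Disjoint Y Z := by
    rw [Set.disjoint_left]
    rintro _ ⟨_, h2⟩ ⟨b, ⟨m, rfl⟩, rfl⟩
    apply h2 1 le_rfl
    refine ⟨addMon m p, ?_⟩
    simp only [zv_addMon, one_smul, hwb, hw']
    rw [← QuotientAddGroup.mk_add, ← QuotientAddGroup.mk_add]
    congr 1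
    abel
  have hZc : Z.ncard = (cls L D).ncard :=
    Set.ncard_image_of_injective _ (fun a b h => by simpa using h)
  have hYA : Y ⊆ A := fun y hy => hy.1
  have hsum : Y.ncard + Z.ncard ≤ A.ncard := by
    rw [← Set.ncard_union_eq hZY (hAfin.subset hYA) (hAfin.subset hZA)]
    exact Set.ncard_le_ncard (Set.union_subset hYA hZA) hAfin
  have hle : L ≤ L ⊔ AddSubgroup.zmultiples w := le_sup_left
  set π : (ι → ℤ) ⧸ L →+ (ι → ℤ) ⧸ (L ⊔ AddSubgroup.zmultiples w) :=
    QuotientAddGroup.map L (L ⊔ AddSubgroup.zmultiples w) (AddMonoidHom.id _)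
      (by intro v hv; exact hle hv) with hπ
  have hπmk : ∀ v : ι → ℤ, π (QuotientAddGroup.mk v) = QuotientAddGroup.mk v := fun v => rfl
  have hπw : π wb = 0 := by
    rw [hwb, hπmk, QuotientAddGroup.eq_zero_iff]
    exact (le_sup_right : AddSubgroup.zmultiples w ≤ L ⊔ AddSubgroup.zmultiples w)
      (AddSubgroup.mem_zmultiples w)
  have hcov : cls (L ⊔ AddSubgroup.zmultiples w) (D + 2) ⊆ π '' Y := by
    rintro _ ⟨m, rfl⟩
    set a : (ι → ℤ) ⧸ L := QuotientAddGroup.mk (zv m) with ha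
    have haA : a ∈ A := ⟨m, rfl⟩
    have hinj : Function.Injective fun n : ℕ => a + n • wb := by
      intro n n' h
      have h1 : n • wb = n' • wb := by simpa using h
      have h2 : ((n : ℤ) - n') • wb = 0 := by
        rw [sub_smul, natCast_zsmul, natCast_zsmul, h1, sub_self]
      have := hord _ h2
      omega
    have hfin : {n : ℕ | a + n • wb ∈ A}.Finite :=
      Set.Finite.preimage (hinj.injOn) hAfin
    have hne : {n : ℕ | a + n • wb ∈ A}.Nonempty := ⟨0, by simpa using haA⟩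
    obtain ⟨N, hN, hmax⟩ := hfin.exists_maximal hne
    refine ⟨a + N • wb, ⟨hN, ?_⟩, ?_⟩
    · intro n hn hmem
      have h1 : N + n ∈ {n : ℕ | a + n • wb ∈ A} := by
        simp only [Set.mem_ofPred_eq, add_smul]
        rw [← add_assoc]
        exact hmem
      have := hmax h1 (by omega)
      omega
    · rw [map_add, map_nsmul, hπw, smul_zero, add_zero, ha, hπmk]
  calc (cls (L ⊔ AddSubgroup.zmultiples w) (D + 2)).ncard + (cls L D).ncard
      ≤ (π '' Y).ncard + Z.ncard := by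
        rw [hZc]
        exact Nat.add_le_add_right
          (Set.ncard_le_ncard hcov ((hAfin.subset hYA).image _)) _
    _ ≤ Y.ncard + Z.ncard :=
        Nat.add_le_add_right (Set.ncard_image_le (hAfin.subset hYA)) _
    _ ≤ A.ncard := hsum

/-- The monomial `X i`. -/
noncomputable def oneMon (i : ι) : Mon ι 1 :=
  ⟨Finsupp.single i 1, by
    simp only [Finset.mem_finsuppAntidiag]
    refine ⟨?_, Finset.subset_univ _⟩
    simp [Finsupp.single_apply]⟩

theorem zv_oneMon (i : ι) : zv (oneMon i) = Pi.single i 1 := by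
  funext j
  simp only [zv, oneMon, Finsupp.single_apply, Pi.single_apply]
  by_cases h : i = j
  · simp [h]
  · simp [h, Ne.symm h]

/-- The monomial `X i * X j`. -/
noncomputable def twoMon (i j : ι) : Mon ι 2 :=
  ⟨Finsupp.single i 1 + Finsupp.single j 1, by
    simp only [Finset.mem_finsuppAntidiag]
    refine ⟨?_, Finset.subset_univ _⟩
    simp only [Finsupp.coe_add, Pi.add_apply, Finset.sum_add_distrib, Finsupp.single_apply]
    simp⟩

theorem twoMon_apply (i j b : ι) :
    (((twoMon i j).1 b : ℕ) : ℤ) = (Pi.single i 1 : ι → ℤ) b + (Pi.single j 1 : ι → ℤ) b := by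
  simp only [twoMon, Finsupp.coe_add, Pi.add_apply, Finsupp.single_apply, Pi.single_apply]
  by_cases h : i = b <;> by_cases h' : j = b
  · simp [h, h']
  · simp [h, h', Ne.symm h']
  · simp [h, h', Ne.symm h]
  · simp [h, h', Ne.symm h', Ne.symm h]

theorem rel_pq (x : ι → ℂ) (o : ι) (w : ι → ℤ) (h : IsRel x o w) :
    ∃ p q : Mon ι 2, w = fun i => (p.1 i : ℤ) - (q.1 i : ℤ) := by
  rcases h with ⟨i, j, -, rfl⟩ | ⟨i, j, k, -, rfl⟩
  · refine ⟨twoMon i o, twoMon j o, ?_⟩
    funext b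
    rw [twoMon_apply, twoMon_apply, Pi.sub_apply]
    ring
  · refine ⟨twoMon i j, twoMon k o, ?_⟩
    funext b
    rw [twoMon_apply, twoMon_apply, Pi.sub_apply, Pi.sub_apply, Pi.add_apply]
    ring

theorem ncl_mono_deg (L : AddSubgroup (ι → ℤ)) (o : ι) (D : ℕ) : ncl L D ≤ ncl L (D + 1) := by
  rw [ncl_eq, ncl_eq]
  have h1 : ((fun b => b + (QuotientAddGroup.mk (zv (oneMon o)) : (ι → ℤ) ⧸ L)) ''
      cls L D).ncard = (cls L D).ncard :=
    Set.ncard_image_of_injective _ (fun a b h => by simpa using h)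
  rw [← h1]
  refine Set.ncard_le_ncard ?_ (cls_fin L (D + 1))
  rintro _ ⟨b, ⟨m, rfl⟩, rfl⟩
  exact ⟨addMon m (oneMon o), by simp only [zv_addMon]; rfl⟩

theorem ncl_anti {L L' : AddSubgroup (ι → ℤ)} (h : L ≤ L') (D : ℕ) : ncl L' D ≤ ncl L D := by
  rw [ncl_eq, ncl_eq]
  set π : (ι → ℤ) ⧸ L →+ (ι → ℤ) ⧸ L' :=
    QuotientAddGroup.map L L' (AddMonoidHom.id _) (by intro v hv; exact h hv) with hπ
  have h1 : cls L' D ⊆ π '' cls L D := by
    rintro _ ⟨m, rfl⟩
    exact ⟨_, ⟨m, rfl⟩, rfl⟩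
  exact (Set.ncard_le_ncard h1 ((cls_fin L D).image _)).trans (Set.ncard_image_le (cls_fin L D))

theorem SS_zero (f : ℕ → ℝ) : SS f 0 = f 0 := by simp [SS]

theorem SS_succ (f : ℕ → ℝ) (D : ℕ) : SS f (D + 1) = SS f D + f (D + 1) := by
  simp [SS, Finset.sum_range_succ]

theorem SS_mono {f g : ℕ → ℝ} (h : ∀ D, f D ≤ g D) (D : ℕ) : SS f D ≤ SS g D :=
  Finset.sum_le_sum fun i _ => h i

theorem SS_smul (c : ℝ) (f : ℕ → ℝ) : SS (fun D => c * f D) = fun D => c * SS f D := by
  funext D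
  simp [SS, Finset.mul_sum]

theorem SS_iter_mono (k : ℕ) : ∀ {f g : ℕ → ℝ}, (∀ D, f D ≤ g D) → ∀ D,
    SS^[k] f D ≤ SS^[k] g D := by
  induction k with
  | zero => intro f g h D; exact h D
  | succ k ih =>
    intro f g h D
    simp only [Function.iterate_succ, Function.comp]
    exact ih (fun D => SS_mono h D) D

theorem SS_iter_smul (k : ℕ) (c : ℝ) : ∀ f : ℕ → ℝ,
    SS^[k] (fun D => c * f D) = fun D => c * SS^[k] f D := by
  induction k with
  | zero => intro f; rfl
  | succ k ih =>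
    intro f
    simp only [Function.iterate_succ, Function.comp]
    rw [SS_smul, ih]

/-- One relation, summed. -/
theorem SS_ncl_step (L : AddSubgroup (ι → ℤ)) (o : ι) (p q : Mon ι 2) (w : ι → ℤ)
    (hw : w = fun i => (p.1 i : ℤ) - (q.1 i : ℤ)) (hind : ∀ n : ℤ, n • w ∈ L → n = 0) (D : ℕ) :
    SS (fun j => (ncl (L ⊔ AddSubgroup.zmultiples w) j : ℝ)) D ≤ 2 * (ncl L D : ℝ) := by
  set a : ℕ → ℝ := fun j => (ncl L j : ℝ) with ha
  set a' : ℕ → ℝ := fun j => (ncl (L ⊔ AddSubgroup.zmultiples w) j : ℝ) with ha'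
  have hanti : ∀ D, a' D ≤ a D := fun D => by
    simp only [ha, ha']
    exact_mod_cast ncl_anti le_sup_left D
  have hmono : ∀ D, a D ≤ a (D + 1) := fun D => by
    simp only [ha]
    exact_mod_cast ncl_mono_deg L o D
  have hstep : ∀ D, a' (D + 2) + a D ≤ a (D + 2) := fun D => by
    simp only [ha, ha']
    exact_mod_cast ncl_step L p q w hw hind D
  have key : ∀ D, SS a' (D + 1) ≤ a (D + 1) + a D := by
    intro D
    induction D with
    | zero =>
      rw [SS_succ, SS_zero]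
      have := hanti 0
      have := hanti 1
      simp only [zero_add]
      linarith
    | succ D ih =>
      rw [SS_succ]
      have := hstep D
      have h2 : a' (D + 1 + 1) = a' (D + 2) := rfl
      have h3 : a (D + 1 + 1) = a (D + 2) := rfl
      rw [h2, h3]
      linarith
  have hnn : 0 ≤ a 0 := Nat.cast_nonneg _
  rcases D with _ | D
  · rw [SS_zero]
    have h0 := hanti 0
    show a' 0 ≤ 2 * a 0
    linarith
  · have := key D
    have := hmono D
    show SS a' (D + 1) ≤ 2 * a (D + 1)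
    linarith

theorem ncl_bot (D : ℕ) {N : ℕ} (hN : N + 1 = Fintype.card ι) :
    ncl (⊥ : AddSubgroup (ι → ℤ)) D ≤ (D + N).choose N := by
  rw [ncl_eq]
  have h1 : (cls (⊥ : AddSubgroup (ι → ℤ)) D).ncard ≤ Nat.card (Mon ι D) := by
    rw [cls, ← Set.image_univ]
    refine (Set.ncard_image_le Set.finite_univ).trans ?_
    rw [Set.ncard_univ]
  refine h1.trans ?_
  rw [Nat.card_eq_fintype_card, Fintype.card_coe, Finset.card_finsuppAntidiag_nat_eq_choose,
    Finset.card_univ, ← hN]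
  have h2 : N + 1 + D - 1 = D + N := by omega
  rw [h2]
  exact le_of_eq (Nat.choose_symm_add)

omit [Fintype ι] [DecidableEq ι] in
theorem vq_add (v w : ι → ℤ) : vq (v + w) = vq v + vq w := by
  funext i; simp [vq]

omit [Fintype ι] [DecidableEq ι] in
theorem vq_neg (v : ι → ℤ) : vq (-v) = -vq v := by
  funext i; simp [vq]

omit [Fintype ι] [DecidableEq ι] in
theorem vq_zero : vq (0 : ι → ℤ) = 0 := by
  funext i; simp [vq]

omit [Fintype ι] [DecidableEq ι] in
theorem vq_zsmul (n : ℤ) (v : ι → ℤ) : vq (n • v) = (n : ℚ) • vq v := by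
  funext i; simp [vq]

/-- Total count. -/
theorem count (x : ι → ℂ) {o : ι} (d : LatData x o) (hx0 : ∀ i, x i ≠ 0) (hxo : x o = 1)
    (D : ℕ) :
    SS^[d.k] (fun j => (hf (P0 x d) j : ℝ)) D ≤
      2 ^ d.k * ((D + (d.k + d.u)).choose (d.k + d.u) : ℝ) := by
  classical
  -- the chain of lattices
  let Lj : ℕ → AddSubgroup (ι → ℤ) := fun j =>
    AddSubgroup.closure {v | ∃ a : Fin d.k, (a : ℕ) < j ∧ v = d.rel a}
  have hL0 : Lj 0 = ⊥ := by
    simp only [Lj, not_lt_zero, false_and, exists_false]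
    exact AddSubgroup.closure_empty
  have hLs : ∀ a : Fin d.k, Lj (a + 1) = Lj a ⊔ AddSubgroup.zmultiples (d.rel a) := by
    intro a
    apply le_antisymm
    · apply (AddSubgroup.closure_le _).2
      rintro v ⟨b, hb, rfl⟩
      rcases Nat.lt_succ_iff_lt_or_eq.1 hb with h | h
      · exact (le_sup_left : Lj a ≤ _) (AddSubgroup.subset_closure ⟨b, h, rfl⟩)
      · have : b = a := Fin.ext h
        rw [this]
        exact (le_sup_right : AddSubgroup.zmultiples (d.rel a) ≤
          Lj a ⊔ AddSubgroup.zmultiples (d.rel a)) (AddSubgroup.mem_zmultiples _)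
    · apply sup_le
      · apply AddSubgroup.closure_mono
        rintro v ⟨b, hb, rfl⟩
        exact ⟨b, by omega, rfl⟩
      · rw [AddSubgroup.zmultiples_le]
        exact AddSubgroup.subset_closure ⟨a, by omega, rfl⟩
  have hspan : ∀ j, ∀ v ∈ Lj j, vq v ∈ Submodule.span ℚ
      ((fun a => vq (d.rel a)) '' {a : Fin d.k | (a : ℕ) < j}) := by
    intro j v hv
    induction hv using AddSubgroup.closure_induction with
    | mem v hv =>
      obtain ⟨a, ha, rfl⟩ := hv
      exact Submodule.subset_span ⟨a, ha, rfl⟩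
    | zero => rw [vq_zero]; exact Submodule.zero_mem _
    | add v w _ _ h1 h2 => rw [vq_add]; exact Submodule.add_mem _ h1 h2
    | neg v _ h => rw [vq_neg]; exact Submodule.neg_mem _ h
  have hind : ∀ a : Fin d.k, ∀ n : ℤ, n • d.rel a ∈ Lj a → n = 0 := by
    intro a n hn
    by_contra hne
    have h1 := hspan a _ hn
    rw [vq_zsmul] at h1
    have hq : (n : ℚ) ≠ 0 := by exact_mod_cast hne
    have h2 := Submodule.smul_mem _ ((n : ℚ)⁻¹) h1
    rw [smul_smul, inv_mul_cancel₀ hq, one_smul] at h2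
    exact d.indep.notMem_span_image (s := {b : Fin d.k | (b : ℕ) < a}) (x := a)
      (by simp) h2
  have hiter : ∀ j ≤ d.k, ∀ D, SS^[j] (fun i => (ncl (Lj j) i : ℝ)) D ≤
      2 ^ j * (ncl (Lj 0) D : ℝ) := by
    intro j
    induction j with
    | zero => intro _ D; simp
    | succ j ih =>
      intro hj D
      have hjk : j < d.k := hj
      obtain ⟨p, q, hpq⟩ := rel_pq x o (d.rel ⟨j, hjk⟩) (d.isRel _)
      have h1 := SS_ncl_step (Lj j) o p q (d.rel ⟨j, hjk⟩) hpq (hind ⟨j, hjk⟩)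
      have h2 := hLs ⟨j, hjk⟩
      simp only at h2
      rw [← h2] at h1
      simp only [Function.iterate_succ, Function.comp]
      calc SS^[j] (SS fun i => (ncl (Lj (j + 1)) i : ℝ)) D
          ≤ SS^[j] (fun i => 2 * (ncl (Lj j) i : ℝ)) D := SS_iter_mono j h1 D
        _ = 2 * SS^[j] (fun i => (ncl (Lj j) i : ℝ)) D := by rw [SS_iter_smul]
        _ ≤ 2 * (2 ^ j * (ncl (Lj 0) D : ℝ)) := by
          have := ih hjk.le D
          linarith
        _ = 2 ^ (j + 1) * (ncl (Lj 0) D : ℝ) := by ring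
  -- the Hilbert function
  have hchi : ∀ v ∈ Lj d.k, ∏ i, x i ^ (v i) = 1 := by
    intro v hv
    induction hv using AddSubgroup.closure_induction with
    | mem v hv =>
      obtain ⟨a, ha, rfl⟩ := hv
      obtain ⟨p, q, hpq⟩ := rel_pq x o (d.rel a) (d.isRel _)
      rcases d.isRel a with ⟨i, j, hij, hw⟩ | ⟨i, j, k, hij, hw⟩
      · rw [hw]
        simp only [Pi.sub_apply, zpow_sub₀ (hx0 _), Finset.prod_div_distrib]
        rw [Finset.prod_eq_single i (by
            intro b _ hb; simp [Pi.single_apply, hb]) (by simp),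
          Finset.prod_eq_single j (by
            intro b _ hb; simp [Pi.single_apply, hb]) (by simp)]
        simp [hij, hx0]
      · rw [hw]
        simp only [Pi.sub_apply, Pi.add_apply, zpow_sub₀ (hx0 _), zpow_add₀ (hx0 _),
          Finset.prod_div_distrib, Finset.prod_mul_distrib]
        have hs : ∀ i, ∏ b, x b ^ ((Pi.single i (1 : ℤ) : ι → ℤ) b) = x i := by
          intro i
          rw [Finset.prod_eq_single i (by
            intro b _ hb; simp [Pi.single_apply, hb]) (by simp)]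
          simp
        rw [hs, hs, hs, hs, hij, hxo, div_one, div_self (hx0 k)]
    | zero => simp
    | add v w _ _ h1 h2 =>
      simp only [Pi.add_apply, zpow_add₀ (hx0 _), Finset.prod_mul_distrib, h1, h2, mul_one]
    | neg v _ h =>
      simp only [Pi.neg_apply, zpow_neg, Finset.prod_inv_distrib, h, inv_one]
  have hpsi : ∀ m : ι →₀ ℕ, psi x d (monomial m 1) =
      AddMonoidAlgebra.single (∑ i, (m i : ℤ) • d.Γ i) (∏ i, x i ^ ((m i : ℤ))) := by
    intro m
    rw [psi, aeval_monomial, map_one, one_mul, Finsupp.prod_fintype _ _ (by simp)]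
    have h1 : ∀ i, (AddMonoidAlgebra.single (d.Γ i) (x i) :
        AddMonoidAlgebra ℂ (Fin (d.u + 1) → ℤ)) ^ (m i) =
        AddMonoidAlgebra.single ((m i : ℤ) • d.Γ i) (x i ^ ((m i : ℤ))) := by
      intro i
      rw [AddMonoidAlgebra.single_pow, natCast_zsmul, zpow_natCast]
    simp only [h1]
    have h2 : ∀ s : Finset ι, ∏ i ∈ s, (AddMonoidAlgebra.single ((m i : ℤ) • d.Γ i)
        (x i ^ ((m i : ℤ))) : AddMonoidAlgebra ℂ (Fin (d.u + 1) → ℤ)) =
        AddMonoidAlgebra.single (∑ i ∈ s, (m i : ℤ) • d.Γ i) (∏ i ∈ s, x i ^ ((m i : ℤ))) := by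
      intro s
      induction s using Finset.induction_on with
      | empty => simp [AddMonoidAlgebra.one_def]
      | insert a s ha ih =>
        rw [Finset.prod_insert ha, Finset.sum_insert ha, Finset.prod_insert ha, ih,
          AddMonoidAlgebra.single_mul_single]
    exact h2 Finset.univ
  have hhf : ∀ D, hf (P0 x d) D ≤ ncl (Lj d.k) D := by
    intro D
    have hfac : Function.FactorsThrough (mv (P0 x d) D)
        (fun m : Mon ι D => (QuotientAddGroup.mk (zv m) : (ι → ℤ) ⧸ Lj d.k)) := by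
      intro m m' hmm
      have h1 : -zv m + zv m' ∈ Lj d.k := QuotientAddGroup.eq.1 hmm
      rw [mv, mv, Ideal.Quotient.mk_eq_mk_iff_sub_mem, P0, RingHom.mem_ker, map_sub, sub_eq_zero]
      have h2 : ∑ i, (-zv m + zv m') i • d.Γ i = 0 := by
        rw [d.ker]
        refine Submodule.span_mono ?_ (hspan _ _ h1)
        rintro _ ⟨a, -, rfl⟩
        exact ⟨a, rfl⟩
      have h3 := hchi _ h1
      have h4 : ∑ i, (m'.1 i : ℤ) • d.Γ i = ∑ i, (m.1 i : ℤ) • d.Γ i := by
        rw [← sub_eq_zero, ← Finset.sum_sub_distrib, ← h2]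
        refine Finset.sum_congr rfl fun i _ => ?_
        rw [← sub_smul]
        congr 1
        simp [zv]; ring
      have h5 : ∏ i, x i ^ ((m'.1 i : ℤ)) = ∏ i, x i ^ ((m.1 i : ℤ)) := by
        have h6 : (∏ i, x i ^ ((m.1 i : ℤ)))⁻¹ * ∏ i, x i ^ ((m'.1 i : ℤ)) = 1 := by
          rw [← Finset.prod_inv_distrib, ← Finset.prod_mul_distrib, ← h3]
          refine Finset.prod_congr rfl fun i _ => ?_
          rw [← zpow_neg, ← zpow_add₀ (hx0 i)]
          rfl
        have h7 : (∏ i, x i ^ ((m.1 i : ℤ))) ≠ 0 :=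
          Finset.prod_ne_zero_iff.2 fun i _ => zpow_ne_zero _ (hx0 i)
        field_simp at h6
        exact h6
      have h8 := hpsi m.1
      have h9 := hpsi m'.1
      rw [h4, h5] at h9
      exact h8.trans h9.symm
    obtain ⟨e, he⟩ := (Function.factorsThrough_iff _).1 hfac
    have h1 : Set.range (mv (P0 x d) D) = e '' cls (Lj d.k) D := by
      rw [he, Set.range_comp]; rfl
    have h2 : (Set.range (mv (P0 x d) D)).Finite := Set.finite_range _
    have : Fintype (Set.range (mv (P0 x d) D)) := h2.fintype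
    have h3 : hf (P0 x d) D ≤ (Set.range (mv (P0 x d) D)).toFinset.card :=
      finrank_span_le_card (Set.range (mv (P0 x d) D))
    rw [← Set.ncard_eq_toFinset_card'] at h3
    rw [h1] at h3
    rw [ncl_eq]
    exact h3.trans (Set.ncard_image_le (cls_fin _ _))
  calc SS^[d.k] (fun j => (hf (P0 x d) j : ℝ)) D
      ≤ SS^[d.k] (fun j => (ncl (Lj d.k) j : ℝ)) D :=
        SS_iter_mono _ (fun D => by exact_mod_cast hhf D) D
    _ ≤ 2 ^ d.k * (ncl (Lj 0) D : ℝ) := hiter d.k le_rfl D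
    _ ≤ 2 ^ d.k * ((D + (d.k + d.u)).choose (d.k + d.u) : ℝ) := by
        refine mul_le_mul_of_nonneg_left ?_ (by positivity)
        rw [hL0]
        exact_mod_cast ncl_bot D d.card

end Pool.Agent.Tyz
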