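import Pool.Agent.Work.MP_4c3a42_al.LatEx

open MvPolynomial

namespace Pool.Agent.Tyz

/-! ### small determinants -/

/-- unit vector or zero -/
def Cram.es {n : Type} [DecidableEq n] (a : Option n) : n → ℤ := a.elim 0 fun i => Pi.single i 1

/-- rows of type `e_i`, `-e_i`, `e_i - e_j`, `0` -/
def Cram.Smp {n : Type} [DecidableEq n] (v : n → ℤ) : Prop :=
  ∃ a b : Option n, v = Cram.es a - Cram.es b

theorem Cram.es_comp {n m : Type} [DecidableEq n] [DecidableEq m] {c : m → n}
    (hc : Function.Injective c) (a : Option n) :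
    ∃ a' : Option m, (fun j => Cram.es a (c j)) = Cram.es a' := by
  rcases a with _ | i
  · exact ⟨none, rfl⟩
  · by_cases h : ∃ j, c j = i
    · obtain ⟨j, rfl⟩ := h
      refine ⟨some j, ?_⟩
      funext l
      simp only [Cram.es, Option.elim, Pi.single_apply]
      by_cases h1 : l = j
      · simp [h1]
      · rw [if_neg (fun h2 => h1 (hc h2)), if_neg h1]
    · refine ⟨none, ?_⟩
      funext l
      simp only [Cram.es, Option.elim, Pi.single_apply, Pi.zero_apply]
      rw [if_neg (fun h2 => h ⟨l, h2⟩)]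

theorem Cram.Smp.comp {n m : Type} [DecidableEq n] [DecidableEq m] {c : m → n}
    (hc : Function.Injective c) {v : n → ℤ} (h : Cram.Smp v) : Cram.Smp fun j => v (c j) := by
  obtain ⟨a, b, rfl⟩ := h
  obtain ⟨a', ha⟩ := Cram.es_comp hc a
  obtain ⟨b', hb⟩ := Cram.es_comp hc b
  refine ⟨a', b', ?_⟩
  rw [← ha, ← hb]
  rfl

theorem Cram.tu_fin : ∀ (N : ℕ) (M : Matrix (Fin N) (Fin N) ℤ), (∀ r, Cram.Smp (M r)) →
    |M.det| ≤ 1 := by
  intro N
  induction N with
  | zero => intro M _; simp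
  | succ N ih =>
    intro M hM
    have key : ∀ (r i : Fin (N + 1)) (ε : ℤ), |ε| = 1 → M r = Pi.single i ε → |M.det| ≤ 1 := by
      intro r i ε hε hr
      rw [Matrix.det_succ_row M r, Finset.sum_eq_single i]
      · rw [abs_mul, abs_mul, abs_pow, abs_neg, abs_one, one_pow, one_mul, hr, Pi.single_eq_same,
          hε, one_mul]
        refine ih _ fun s => ?_
        exact (hM (r.succAbove s)).comp (Fin.succAbove_right_injective (p := i))
      · intro j _ hj
        rw [hr, Pi.single_eq_of_ne hj, mul_zero, zero_mul]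
      · intro h
        exact absurd (Finset.mem_univ i) h
    by_cases h : ∀ r, ∑ i, M r i = 0
    · have h1 : M.det = 0 := by
        rw [← Matrix.exists_mulVec_eq_zero_iff]
        refine ⟨1, one_ne_zero, ?_⟩
        funext r
        simp only [Matrix.mulVec, dotProduct, Pi.one_apply, mul_one, Pi.zero_apply, h r]
      rw [h1]
      norm_num
    · push Not at h
      obtain ⟨r, hr⟩ := h
      obtain ⟨a, b, hab⟩ := hM r
      rcases a with _ | a <;> rcases b with _ | b
      · exact absurd (by rw [hab]; simp [Cram.es]) hr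
      · refine key r b (-1) (by norm_num) ?_
        rw [hab]
        funext l
        by_cases h1 : l = b
        · subst h1; simp [Cram.es]
        · simp [Cram.es, h1]
      · refine key r a 1 (by norm_num) ?_
        rw [hab]
        simp [Cram.es]
      · exact absurd (by rw [hab]; simp [Cram.es, Finset.sum_sub_distrib]) hr

theorem Cram.tu {n : Type} [Fintype n] [DecidableEq n] (M : Matrix n n ℤ)
    (hM : ∀ r, Cram.Smp (M r)) : |M.det| ≤ 1 := by
  let e := Fintype.equivFin n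
  have h := Cram.tu_fin _ (M.submatrix e.symm e.symm) fun r => (hM (e.symm r)).comp e.symm.injective
  rwa [Matrix.det_submatrix_equiv_self] at h

theorem Cram.det_le {n : Type} [Fintype n] [DecidableEq n] (T : Finset n) :
    ∀ (M : Matrix n n ℤ), (∀ r ∈ T, ∃ v w, Cram.Smp v ∧ Cram.Smp w ∧ M r = v + w) →
      (∀ r ∉ T, Cram.Smp (M r)) → |M.det| ≤ 2 ^ T.card := by
  induction T using Finset.induction_on with
  | empty =>
    intro M _ h
    simpa using Cram.tu M fun r => h r (Finset.notMem_empty r)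
  | insert r T hr ih =>
    intro M h1 h2
    obtain ⟨v, w, hv, hw, hvw⟩ := h1 r (Finset.mem_insert_self r T)
    have h3 : M.det = (M.updateRow r v).det + (M.updateRow r w).det := by
      rw [← Matrix.det_updateRow_add, ← hvw, Matrix.updateRow_eq_self]
    have h4 : ∀ z : n → ℤ, Cram.Smp z → |(M.updateRow r z).det| ≤ 2 ^ T.card := by
      intro z hz
      refine ih _ (fun s hs => ?_) fun s hs => ?_
      · have hne : s ≠ r := fun h => hr (h ▸ hs)
        rw [Matrix.updateRow_ne hne]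
        exact h1 s (Finset.mem_insert_of_mem hs)
      · by_cases hsr : s = r
        · subst hsr
          rw [Matrix.updateRow_self]
          exact hz
        · rw [Matrix.updateRow_ne hsr]
          exact h2 s (by simp [hsr, hs])
    rw [h3, Finset.card_insert_of_notMem hr, pow_succ, mul_two]
    exact (abs_add_le _ _).trans (add_le_add (h4 v hv) (h4 w hw))

variable {ι : Type} [Fintype ι] [DecidableEq ι]

/-- Shape of relation vectors. -/
def RelShape (o : ι) (w : ι → ℤ) : Prop :=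
  (∃ i j, w = Pi.single i 1 - Pi.single j 1) ∨
  (∃ i j k, w = Pi.single i 1 + Pi.single j 1 - Pi.single k 1 - Pi.single o 1)

/-- Difference vector. -/
def dv (a b : ι) : ι → ℤ := Pi.single a 1 - Pi.single b 1

theorem Cram.smp_dv (a b : ι) : Cram.Smp (dv a b) := ⟨some a, some b, rfl⟩

theorem Cram.dbl_rel {o : ι} {w : ι → ℤ} (h : RelShape o w) :
    ∃ a b c d : ι, w = dv a b + dv c d := by
  rcases h with ⟨i, j, rfl⟩ | ⟨i, j, k, rfl⟩
  · exact ⟨i, j, o, o, by simp [dv]⟩
  · exact ⟨i, k, j, o, by simp only [dv]; abel⟩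

theorem Cram.sum_dv (a b : ι) : ∑ i, dv a b i = 0 := by
  simp [dv, Finset.sum_sub_distrib]

theorem Cram.sum_rel {o : ι} {w : ι → ℤ} (h : RelShape o w) : ∑ i, w i = 0 := by
  obtain ⟨a, b, c, d, rfl⟩ := Cram.dbl_rel h
  simp only [Pi.add_apply, Finset.sum_add_distrib, Cram.sum_dv, add_zero]

theorem Cram.pair_dv (lam : ι → ℝ) (a b : ι) : ∑ i, (dv a b i : ℝ) * lam i = lam a - lam b := by
  simp [dv, sub_mul, Finset.sum_sub_distrib, Pi.single_apply]

/-- Cramer bound. -/
theorem cramer_bound (o : ι) {k u : ℕ} (hcard : k + u + 1 = Fintype.card ι)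
    (R : Fin k → ι → ℤ) (hR : ∀ a, RelShape o (R a)) (B : Fin u → ι × ι) (lam : ι → ℝ)
    (hlo : lam o = 0) (hRl : ∀ a, ∑ i, (R a i : ℝ) * lam i = 0)
    (hB : ∀ b, |lam (B b).1 - lam (B b).2| ≤ 1)
    (hind : LinearIndependent ℚ
      (Sum.elim (fun a => vq (R a)) (fun b => vq (dv (B b).1 (B b).2)))) :
    ∀ i, |lam i| ≤ u * 2 ^ k := by
  have hc : Fintype.card {i : ι // i ≠ o} = Fintype.card (Fin k ⊕ Fin u) := by
    rw [Fintype.card_subtype_compl, Fintype.card_subtype_eq, Fintype.card_sum, Fintype.card_fin,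
      Fintype.card_fin]
    omega
  let e : (Fin k ⊕ Fin u) ≃ {i : ι // i ≠ o} := (Fintype.equivOfCardEq hc).symm
  let col : Fin k ⊕ Fin u → ι := fun c => (e c).1
  have hcol : Function.Injective col := Subtype.val_injective.comp e.injective
  let row : Fin k ⊕ Fin u → ι → ℤ := Sum.elim R fun b => dv (B b).1 (B b).2
  have hrow0 : ∀ r, ∑ i, row r i = 0 := by
    rintro (a | b)
    · exact Cram.sum_rel (hR a)
    · exact Cram.sum_dv _ _
  let N : Matrix (Fin k ⊕ Fin u) (Fin k ⊕ Fin u) ℤ := fun r c => row r (col c)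
  -- sums over `ι` reduce to sums over the columns
  have hsum : ∀ {K : Type} [AddCommGroup K] (f : ι → K), ∑ i, f i = f o + ∑ c, f (col c) := by
    intro K _ f
    rw [Fintype.sum_eq_add_sum_subtype_ne f o]
    congr 1
    exact (Fintype.sum_equiv e (fun c => f (col c)) (fun i : {i : ι // i ≠ o} => f i.1)
      (fun x => rfl)).symm
  have hdet : N.det ≠ 0 := by
    intro h0
    have h1 : (N.map (Int.castRingHom ℚ)).det = 0 := by
      rw [← RingHom.mapMatrix_apply, ← RingHom.map_det, h0, map_zero]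
    obtain ⟨v, hv0, hv⟩ := Matrix.exists_vecMul_eq_zero_iff.2 h1
    have h2 : ∀ c, ∑ r, v r * (row r (col c) : ℚ) = 0 := fun c => by
      have := congrFun hv c
      simpa [Matrix.vecMul, dotProduct, N] using this
    have h3 : ∀ i, ∑ r, v r * (row r i : ℚ) = 0 := by
      intro i
      by_cases hi : i = o
      · subst hi
        have h4 : ∑ i, ∑ r, v r * (row r i : ℚ) = 0 := by
          rw [Finset.sum_comm]
          refine Finset.sum_eq_zero fun r _ => ?_
          rw [← Finset.mul_sum, ← Int.cast_sum, hrow0 r, Int.cast_zero, mul_zero]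
        rw [hsum] at h4
        rw [Finset.sum_eq_zero (fun c _ => h2 c), add_zero] at h4
        exact h4
      · have h5 : col (e.symm ⟨i, hi⟩) = i := by simp [col]
        rw [← h5]
        exact h2 _
    have h6 := Fintype.linearIndependent_iff.1 hind v (by
      funext i
      have h7 := h3 i
      rw [Fintype.sum_sum_type] at h7
      simp only [Finset.sum_apply, Pi.smul_apply, Fintype.sum_sum_type, Sum.elim_inl, Sum.elim_inr,
        smul_eq_mul, Pi.zero_apply]
      simpa [row, vq] using h7)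
    exact hv0 (funext h6)
  have hdet1 : (1 : ℝ) ≤ |(N.det : ℝ)| := by
    rw [← Int.cast_abs]
    exact_mod_cast Int.one_le_abs hdet
  -- the cofactors
  have hadj : ∀ c b, |((N.adjugate c (Sum.inr b) : ℤ) : ℝ)| ≤ 2 ^ k := by
    intro c b
    rw [Matrix.adjugate_apply]
    have h1 := Cram.det_le (Finset.univ.map (Function.Embedding.inl : Fin k ↪ Fin k ⊕ Fin u))
      (N.updateRow (Sum.inr b) (Pi.single c 1)) (fun r hr => ?_) (fun r hr => ?_)
    · rw [Finset.card_map, Finset.card_univ, Fintype.card_fin] at h1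
      rw [← Int.cast_abs]
      exact_mod_cast h1
    · obtain ⟨a, -, rfl⟩ := Finset.mem_map.1 hr
      rw [Matrix.updateRow_ne (by simp)]
      obtain ⟨p, q, p', q', hpq⟩ := Cram.dbl_rel (hR a)
      refine ⟨fun c => dv p q (col c), fun c => dv p' q' (col c), (Cram.smp_dv _ _).comp hcol,
        (Cram.smp_dv _ _).comp hcol, ?_⟩
      funext c
      change R a (col c) = _
      rw [hpq]
      rfl
    · rcases r with a | b'
      · exact absurd (Finset.mem_map.2 ⟨a, Finset.mem_univ _, rfl⟩) hr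
      · by_cases hb : b' = b
        · subst hb
          rw [Matrix.updateRow_self]
          exact ⟨some c, none, by simp [Cram.es]⟩
        · rw [Matrix.updateRow_ne (by simpa using hb)]
          exact (Cram.smp_dv _ _).comp hcol
  intro i
  by_cases hi : i = o
  · rw [hi, hlo, abs_zero]
    positivity
  set c : Fin k ⊕ Fin u := e.symm ⟨i, hi⟩ with hcd
  have hci : col c = i := by simp [col, hcd]
  have hrhs : ∀ r, ∑ c, (N r c : ℝ) * lam (col c) = ∑ i, (row r i : ℝ) * lam i := by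
    intro r
    rw [hsum (fun i => (row r i : ℝ) * lam i), hlo, mul_zero, zero_add]
  have hcr : (N.det : ℝ) * lam (col c) =
      ∑ b, ((N.adjugate c (Sum.inr b) : ℤ) : ℝ) * (lam (B b).1 - lam (B b).2) := by
    have h1 : ∀ c', ∑ r, ((N.adjugate c r : ℤ) : ℝ) * (N r c' : ℝ) =
        if c = c' then (N.det : ℝ) else 0 := by
      intro c'
      have h2 := congrFun (congrFun (Matrix.adjugate_mul N) c) c'
      rw [Matrix.mul_apply, Matrix.smul_apply, Matrix.one_apply] at h2
      have h3 := congrArg (Int.cast : ℤ → ℝ) h2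
      push_cast at h3
      rw [h3]
      split_ifs <;> simp
    have h4 : ∑ c', (∑ r, ((N.adjugate c r : ℤ) : ℝ) * (N r c' : ℝ)) * lam (col c') =
        (N.det : ℝ) * lam (col c) := by
      simp only [h1, ite_mul, zero_mul, Finset.sum_ite_eq, Finset.mem_univ, if_true]
    rw [← h4]
    simp only [Finset.sum_mul]
    rw [Finset.sum_comm]
    simp only [mul_assoc, ← Finset.mul_sum]
    simp only [hrhs]
    rw [Fintype.sum_sum_type]
    have h5 : ∀ a, ∑ i, (row (Sum.inl a) i : ℝ) * lam i = 0 := fun a => hRl a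
    have h6 : ∀ b, ∑ i, (row (Sum.inr b) i : ℝ) * lam i = lam (B b).1 - lam (B b).2 :=
      fun b => Cram.pair_dv lam _ _
    simp only [h5, h6, mul_zero, Finset.sum_const_zero, zero_add]
  rw [← hci]
  calc |lam (col c)| = 1 * |lam (col c)| := (one_mul _).symm
    _ ≤ |(N.det : ℝ)| * |lam (col c)| := mul_le_mul_of_nonneg_right hdet1 (abs_nonneg _)
    _ = |∑ b, ((N.adjugate c (Sum.inr b) : ℤ) : ℝ) * (lam (B b).1 - lam (B b).2)| := by
        rw [← abs_mul, hcr]
    _ ≤ ∑ b, |((N.adjugate c (Sum.inr b) : ℤ) : ℝ) * (lam (B b).1 - lam (B b).2)| :=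
        Finset.abs_sum_le_sum_abs _ _
    _ ≤ ∑ _b : Fin u, (2 : ℝ) ^ k * 1 := by
        refine Finset.sum_le_sum fun b _ => ?_
        rw [abs_mul]
        exact mul_le_mul (hadj c b) (hB b) (abs_nonneg _) (by positivity)
    _ = u * 2 ^ k := by
        rw [Finset.sum_const, Finset.card_univ, Fintype.card_fin, nsmul_eq_mul, mul_one]

/-- the functional on `ℚ^ι` given by `lam` -/
noncomputable def Cram.fn (lam : ι → ℝ) : (ι → ℚ) →ₗ[ℚ] ℝ :=
  ∑ i, (LinearMap.proj i : (ι → ℚ) →ₗ[ℚ] ℚ).smulRight (lam i)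

theorem Cram.fn_apply (lam : ι → ℝ) (v : ι → ℚ) : Cram.fn lam v = ∑ i, (v i : ℝ) * lam i := by
  simp [Cram.fn, Rat.smul_def]

theorem Cram.fn_vq (lam : ι → ℝ) (w : ι → ℤ) : Cram.fn lam (vq w) = ∑ i, (w i : ℝ) * lam i := by
  rw [Cram.fn_apply]
  simp [vq]

theorem Cram.exists_fn (L : (ι → ℚ) →ₗ[ℚ] ℝ) (o : ι) : ∃ lam : ι → ℝ, lam o = 0 ∧
    ∀ w : ι → ℤ, ∑ i, w i = 0 → ∑ i, (w i : ℝ) * lam i = L (vq w) := by
  refine ⟨fun i => L (vq (dv i o)), ?_, fun w hw => ?_⟩
  · have : vq (dv o o) = 0 := by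
      funext i
      simp [vq, dv]
    simp [this]
  · have h1 : vq w = ∑ i, (w i : ℚ) • vq (dv i o) := by
      funext j
      have h2 : ∑ i, (w i : ℚ) = 0 := by rw [← Int.cast_sum, hw, Int.cast_zero]
      simp only [vq, dv, Finset.sum_apply, Pi.smul_apply, Pi.sub_apply, smul_eq_mul, Int.cast_sub,
        mul_sub, Finset.sum_sub_distrib, ← Finset.sum_mul, h2, zero_mul, sub_zero]
      simp [Pi.single_apply]
    rw [h1, map_sum]
    refine Finset.sum_congr rfl fun i _ => ?_
    rw [map_smul, Rat.smul_def]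
    simp

theorem Cram.indep_dv (o : ι) :
    LinearIndependent ℚ (fun i : {i : ι // i ≠ o} => vq (dv i.1 o)) := by
  rw [Fintype.linearIndependent_iff]
  intro g hg i
  have h1 := congrFun hg i.1
  simp only [Finset.sum_apply, Pi.smul_apply, smul_eq_mul, Pi.zero_apply] at h1
  rw [Finset.sum_eq_single i] at h1
  · simpa [vq, dv, Pi.single_apply, i.2] using h1
  · intro j _ hj
    have h2 : i.1 ≠ j.1 := fun h => hj (Subtype.ext h.symm)
    simp [vq, dv, i.2, h2]
  · intro h
    exact absurd (Finset.mem_univ i) h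

/-- Basic solutions. -/
theorem cramer_exists (o : ι) {k u : ℕ} (hcard : k + u + 1 = Fintype.card ι)
    (R : Fin k → ι → ℤ) (hR : ∀ a, RelShape o (R a))
    (hRi : LinearIndependent ℚ (fun a => vq (R a))) (𝓑 : Set (ι × ι)) (lam : ι → ℝ)
    (hlo : lam o = 0) (hRl : ∀ a, ∑ i, (R a i : ℝ) * lam i = 0)
    (hB : ∀ p ∈ 𝓑, |lam p.1 - lam p.2| ≤ 1) :
    ∃ lam' : ι → ℝ, lam' o = 0 ∧ (∀ a, ∑ i, (R a i : ℝ) * lam' i = 0) ∧
      (∀ p ∈ 𝓑, lam' p.1 - lam' p.2 = lam p.1 - lam p.2) ∧ ∀ i, |lam' i| ≤ u * 2 ^ k := by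
  classical
  set s₀ : Set (ι → ℚ) := Set.range fun a => vq (R a) with hs₀
  set t₁ : Set (ι → ℚ) := (fun p : ι × ι => vq (dv p.1 p.2)) '' 𝓑 with ht₁
  set t₂ : Set (ι → ℚ) := Set.range fun i : {i : ι // i ≠ o} => vq (dv i.1 o) with ht₂
  have hi₀ : LinearIndepOn ℚ id s₀ := (linearIndepOn_id_range_iff hRi.injective).2 hRi
  obtain ⟨b₁, h1b, h1a, h1c, h1d⟩ :=
    exists_linearIndepOn_id_extension hi₀ (Set.subset_union_left : s₀ ⊆ s₀ ∪ t₁)
  obtain ⟨b₂, h2b, h2a, h2c, h2d⟩ :=
    exists_linearIndepOn_id_extension h1d (Set.subset_union_left : b₁ ⊆ b₁ ∪ t₂)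
  -- the functional
  set L₀ : (ι → ℚ) →ₗ[ℚ] ℝ := Cram.fn lam with hL₀
  have hL₀R : ∀ v ∈ s₀, L₀ v = 0 := by
    rintro _ ⟨a, rfl⟩
    rw [hL₀, Cram.fn_vq, hRl]
  obtain ⟨L, hL⟩ : ∃ L : (ι → ℚ) →ₗ[ℚ] ℝ, ∀ v ∈ b₂, L v = if v ∈ b₁ then L₀ v else 0 := by
    let bb := Module.Basis.extend h2d
    refine ⟨bb.constr ℚ fun v => if (v : ι → ℚ) ∈ b₁ then L₀ v else 0, fun v hv => ?_⟩
    have h3 : v ∈ h2d.extend (Set.subset_univ _) := h2d.subset_extend _ hv
    have h4 : bb ⟨v, h3⟩ = v := Module.Basis.extend_apply_self h2d ⟨v, h3⟩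
    conv_lhs => rw [← h4]
    rw [Module.Basis.constr_basis]
  have hagree : ∀ v ∈ Submodule.span ℚ b₁, L v = L₀ v := by
    intro v hv
    have h3 : Set.EqOn L L₀ b₁ := fun v hv => by rw [hL v (h2a hv), if_pos hv]
    exact LinearMap.eqOn_span h3 hv
  obtain ⟨lam', hlam0, hlam'⟩ := Cram.exists_fn L o
  have hR' : ∀ a, ∑ i, (R a i : ℝ) * lam' i = 0 := by
    intro a
    have h3 : vq (R a) ∈ s₀ := ⟨a, rfl⟩
    rw [hlam' _ (Cram.sum_rel (hR a)), hagree _ (Submodule.subset_span (h1a h3)), hL₀R _ h3]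
  have hdv : ∀ a b, lam' a - lam' b = L (vq (dv a b)) := by
    intro a b
    rw [← Cram.pair_dv, hlam' _ (Cram.sum_dv a b)]
  have hdv₀ : ∀ a b, lam a - lam b = L₀ (vq (dv a b)) := by
    intro a b
    rw [← Cram.pair_dv, hL₀, Cram.fn_vq]
  have hB' : ∀ p ∈ 𝓑, lam' p.1 - lam' p.2 = lam p.1 - lam p.2 := by
    intro p hp
    rw [hdv, hdv₀]
    exact hagree _ (h1c (Or.inr ⟨p, hp, rfl⟩))
  refine ⟨lam', hlam0, hR', hB', ?_⟩
  -- pairs
  have hpair : ∀ v ∈ b₂, v ∉ s₀ → ∃ p : ι × ι, v = vq (dv p.1 p.2) ∧ |lam' p.1 - lam' p.2| ≤ 1 := by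
    intro v hv hvs
    by_cases hv1 : v ∈ b₁
    · rcases h1b hv1 with h3 | ⟨p, hp, rfl⟩
      · exact absurd h3 hvs
      · exact ⟨p, rfl, by rw [hB' p hp]; exact hB p hp⟩
    · rcases h2b hv with h3 | ⟨i, rfl⟩
      · exact absurd h3 hv1
      · refine ⟨(i.1, o), rfl, ?_⟩
        rw [hdv, hL _ hv, if_neg hv1, abs_zero]
        exact zero_le_one
  -- counting
  have hfin : b₂.Finite := by
    have h2d' : LinearIndependent ℚ ((↑) : b₂ → (ι → ℚ)) := h2d
    exact h2d'.setFinite
  letI : Fintype b₂ := hfin.fintype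
  have hcard2 : k + u ≤ Fintype.card b₂ := by
    have h3 : Module.finrank ℚ (Submodule.span ℚ b₂) = Fintype.card b₂ := by
      rw [finrank_span_set_eq_card (s := b₂) h2d, Set.toFinset_card]
    have h4 : Module.finrank ℚ (Submodule.span ℚ t₂) = Fintype.card {i : ι // i ≠ o} :=
      finrank_span_eq_card (Cram.indep_dv o)
    have h5 : Submodule.span ℚ t₂ ≤ Submodule.span ℚ b₂ :=
      Submodule.span_le.2 fun v hv => h2c (Or.inr hv)
    have h6 := Submodule.finrank_mono h5
    rw [h3, h4, Fintype.card_subtype_compl, Fintype.card_subtype_eq] at h6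
    omega
  let F : Finset (ι → ℚ) := b₂.toFinset \ (Finset.univ.image fun a => vq (R a))
  have hF : u ≤ F.card := by
    have h3 : (Finset.univ.image fun a => vq (R a)).card ≤ k :=
      Finset.card_image_le.trans (by rw [Finset.card_univ, Fintype.card_fin])
    have h4 := Finset.le_card_sdiff (Finset.univ.image fun a => vq (R a)) b₂.toFinset
    rw [Set.toFinset_card] at h4
    change _ ≤ F.card at h4
    omega
  obtain ⟨g⟩ : Nonempty (Fin u ↪ F) := Function.Embedding.nonempty_of_card_le (by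
    rw [Fintype.card_fin, Fintype.card_coe]
    exact hF)
  have hgF : ∀ b, (g b : ι → ℚ) ∈ b₂ ∧ (g b : ι → ℚ) ∉ s₀ := by
    intro b
    have h3 := (g b).2
    rw [Finset.mem_sdiff, Set.mem_toFinset] at h3
    refine ⟨h3.1, ?_⟩
    rintro ⟨a, ha⟩
    exact h3.2 (Finset.mem_image.2 ⟨a, Finset.mem_univ _, ha⟩)
  choose B hB1 hB2 using fun b => hpair (g b) (hgF b).1 (hgF b).2
  refine cramer_bound o hcard R hR B lam' hlam0 hR' hB2 ?_
  let G : Fin k ⊕ Fin u → b₂ := Sum.elim (fun a => ⟨vq (R a), h2a (h1a ⟨a, rfl⟩)⟩)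
    fun b => ⟨g b, (hgF b).1⟩
  have hG : Function.Injective G := by
    rintro (a | b) (a' | b') h
    · have h3 : vq (R a) = vq (R a') := congrArg Subtype.val h
      rw [hRi.injective h3]
    · exfalso
      have h3 : vq (R a) = g b' := congrArg Subtype.val h
      exact (hgF b').2 ⟨a, h3⟩
    · exfalso
      have h3 : (g b : ι → ℚ) = vq (R a') := congrArg Subtype.val h
      exact (hgF b).2 ⟨a', h3.symm⟩
    · have h3 : (g b : ι → ℚ) = g b' := congrArg (Subtype.val : b₂ → (ι → ℚ)) h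
      rw [g.injective (Subtype.ext h3)]
  have h3 : LinearIndependent ℚ ((↑) : b₂ → (ι → ℚ)) := h2d
  have h4 := h3.comp G hG
  convert h4 using 1
  funext r
  rcases r with a | b
  · rfl
  · exact (hB1 b).symm

end Pool.Agent.Tyz
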