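import Mathlib

/-!
Definitions for the proof of Q1 of MP_4c3a42_al (bounded solutions over `ℂ`).
-/

open MvPolynomial

namespace Pool.Agent.Tyz

section Height

variable {E U : Type} [AddCommGroup U] [Module ℚ U]

/-- Rank of a family of vectors. -/
noncomputable def rk (v : E → U) : ℕ := Module.finrank ℚ (Submodule.span ℚ (Set.range v))

/-- `Ω` is a normalised Plücker form of the family `v`: all Plücker coordinates
`Ω (v_σ)` are integers and they generate `ℤ`. -/
structure IsNF (v : E → U) (Ω : U [⋀^Fin (rk v)]→ₗ[ℚ] ℚ) : Prop where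
  int : ∀ σ : Fin (rk v) → E, ∃ n : ℤ, Ω (fun i => v (σ i)) = n
  one : (1 : ℚ) ∈ AddSubgroup.closure
    (Set.range fun σ : Fin (rk v) → E => Ω (fun i => v (σ i)))

/-- Height of a family of vectors: the largest Plücker coordinate divided by the gcd of all. -/
noncomputable def ht (v : E → U) : ℝ :=
  sInf {B : ℝ | 0 ≤ B ∧ ∃ Ω : U [⋀^Fin (rk v)]→ₗ[ℚ] ℚ, IsNF v Ω ∧
    ∀ σ : Fin (rk v) → E, |((Ω fun i => v (σ i) : ℚ) : ℝ)| ≤ B}

end Height

section Graded

/-- Exponent vectors of total degree `D`. -/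
abbrev Mon (ι : Type) [Fintype ι] [DecidableEq ι] (D : ℕ) : Type :=
  {m : ι →₀ ℕ // m ∈ (Finset.univ : Finset ι).finsuppAntidiag D}

variable {ι : Type} [Fintype ι] [DecidableEq ι]

/-- The family of monomials of degree `D` in `S ⧸ P`. -/
noncomputable def mv (P : Ideal (MvPolynomial ι ℚ)) (D : ℕ) (m : Mon ι D) :
    MvPolynomial ι ℚ ⧸ P :=
  Ideal.Quotient.mk P (monomial m.1 1)

/-- Hilbert function of `S ⧸ P`. -/
noncomputable def hf (P : Ideal (MvPolynomial ι ℚ)) (D : ℕ) : ℕ := rk (mv P D)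

/-- Logarithmic arithmetic Hilbert function of `S ⧸ P`. -/
noncomputable def lh (P : Ideal (MvPolynomial ι ℚ)) (D : ℕ) : ℝ := Real.log (ht (mv P D))

/-- Homogeneous ideals. -/
def HI (P : Ideal (MvPolynomial ι ℚ)) : Prop :=
  ∀ F ∈ P, ∀ n : ℕ, homogeneousComponent n F ∈ P

/-- Integer polynomials as rational polynomials. -/
noncomputable def toQ (θ : MvPolynomial ι ℤ) : MvPolynomial ι ℚ :=
  MvPolynomial.map (Int.castRingHom ℚ) θ

/-- `ℓ¹`-norm of an integer polynomial. -/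
noncomputable def l1 (θ : MvPolynomial ι ℤ) : ℝ := ∑ m ∈ θ.support, |((θ.coeff m : ℤ) : ℝ)|

/-- Summation operator. -/
noncomputable def SS (f : ℕ → ℝ) (D : ℕ) : ℝ := ∑ i ∈ Finset.range (D + 1), f i

/-- The homogeneous prime ideal of the point `x`. -/
noncomputable def mx (x : ι → ℂ) : Ideal (MvPolynomial ι ℚ) :=
  RingHom.ker (aeval (fun i => Polynomial.C (x i) * Polynomial.X) :
    MvPolynomial ι ℚ →ₐ[ℚ] Polynomial ℂ)

/-- The bookkeeping predicate of the induction: `P` has been reached from `P₀` in `s` steps,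
at total cost `c`. -/
structure Good (P₀ m : Ideal (MvPolynomial ι ℚ)) (u s : ℕ) (c : ℝ)
    (P : Ideal (MvPolynomial ι ℚ)) : Prop where
  prime : P.IsPrime
  hom : HI P
  ge : P₀ ≤ P
  le : P ≤ m
  cost : 0 ≤ c
  tr : ∀ n : ℕ, n + s = u + 1 → ∃ f : Fin n → MvPolynomial ι ℚ ⧸ P, AlgebraicIndependent ℚ f
  bd : ∃ δ : ℕ, ∃ C : ℝ, 0 ≤ C ∧ ∀ D : ℕ,
    SS^[s] (fun j => (hf P j : ℝ)) D ≤ hf P₀ (D + δ) ∧
    SS^[s] (lh P) D ≤ c * SS (fun j => (hf P₀ j : ℝ)) (D + δ) + C * hf P₀ (D + δ)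

/-- Additive linear forms with small coefficients. -/
def SmallForm (F : MvPolynomial ι ℤ) : Prop := F.IsHomogeneous 1 ∧ l1 F ≤ 3

end Graded

section Lattice

variable {ι : Type} [Fintype ι] [DecidableEq ι]

/-- Relation vectors. -/
def IsRel (x : ι → ℂ) (o : ι) (w : ι → ℤ) : Prop :=
  (∃ i j, x i = x j ∧ w = Pi.single i 1 - Pi.single j 1) ∨
  (∃ i j k, x i * x j = x k ∧
    w = Pi.single i 1 + Pi.single j 1 - Pi.single k 1 - Pi.single o 1)

/-- The integer vector as a rational vector. -/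
def vq (w : ι → ℤ) : ι → ℚ := fun i => (w i : ℚ)

/-- Lattice data of the point `x`: `k` independent relations spanning all of them, and a
homomorphism `Γ` from `ℤ^ι` to `ℤ^(u+1)` whose kernel is the saturation of the relations. -/
structure LatData (x : ι → ℂ) (o : ι) where
  k : ℕ
  u : ℕ
  card : k + u + 1 = Fintype.card ι
  rel : Fin k → ι → ℤ
  isRel : ∀ a, IsRel x o (rel a)
  indep : LinearIndependent ℚ (fun a => vq (rel a))
  all : ∀ w, IsRel x o w → vq w ∈ Submodule.span ℚ (Set.range fun a => vq (rel a))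
  Γ : ι → Fin (u + 1) → ℤ
  spanΓ : Submodule.span ℚ (Set.range fun i => (fun a => ((Γ i a : ℤ) : ℚ))) = ⊤
  ker : ∀ w : ι → ℤ, ∑ i, w i • Γ i = 0 ↔
    vq w ∈ Submodule.span ℚ (Set.range fun a => vq (rel a))

/-- Parametrisation of the torus coset of `x`. -/
noncomputable def psi (x : ι → ℂ) {o : ι} (d : LatData x o) :
    MvPolynomial ι ℚ →ₐ[ℚ] AddMonoidAlgebra ℂ (Fin (d.u + 1) → ℤ) :=
  aeval (fun i => AddMonoidAlgebra.single (d.Γ i) (x i))

/-- The toric prime ideal of `x`. -/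
noncomputable def P0 (x : ι → ℂ) {o : ι} (d : LatData x o) : Ideal (MvPolynomial ι ℚ) :=
  RingHom.ker (psi x d)

/-- `z` satisfies all the relations of `x`. -/
structure Pres (x z : ι → ℂ) : Prop where
  eq : ∀ i j, x i = x j → z i = z j
  mul : ∀ i j k, x i * x j = x k → z i * z j = z k
  add : ∀ i j k, x i + x j = x k → z i + z j = z k
  neg : ∀ i j, x i + x j = 0 → z i + z j = 0

end Lattice

end Pool.Agent.Tyz
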