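import Pool.Agent.Work.MP_4c3a42_al.HtSpec

open MvPolynomial

namespace Pool.Agent.Tyz

section aux

variable {U U₀ U₁ : Type} [AddCommGroup U] [Module ℚ U] [AddCommGroup U₀] [Module ℚ U₀]
  [AddCommGroup U₁] [Module ℚ U₁]

/-- A top form which is not identically zero does not vanish on independent families. -/
theorem ne_zero_of_li {κ : Type} [Fintype κ] (W : Submodule ℚ U)
    [FiniteDimensional ℚ W] (hW : Module.finrank ℚ W = Fintype.card κ) (F : U [⋀^κ]→ₗ[ℚ] ℚ)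
    (hF : ∃ w : κ → U, (∀ i, w i ∈ W) ∧ F w ≠ 0) (B : κ → U) (hB : ∀ i, B i ∈ W)
    (hli : LinearIndependent ℚ B) : F B ≠ 0 := by
  classical
  obtain ⟨w, hw, hne⟩ := hF
  intro h0
  let B' : κ → W := fun i => ⟨B i, hB i⟩
  have hB' : LinearIndependent ℚ B' := LinearIndependent.of_comp W.subtype hli
  let b : Module.Basis κ ℚ W := basisOfLinearIndependentOfCardEqFinrank' B' hB' hW.symm
  have hb : (fun i => (b i : U)) = B := by
    funext i
    simp only [b, coe_basisOfLinearIndependentOfCardEqFinrank', B']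
  have h1 := AlternatingMap.eq_smul_basis_det b (F.compLinearMap W.subtype)
  have h2 := congrArg (fun G : W [⋀^κ]→ₗ[ℚ] ℚ => G (fun i => (⟨w i, hw i⟩ : W))) h1
  have h3 : F w = F (fun i => (b i : U)) * b.det (fun i => (⟨w i, hw i⟩ : W)) := by
    simpa [AlternatingMap.compLinearMap_apply, Function.comp_def] using h2
  rw [hb, h0, zero_mul] at h3
  exact hne h3

/-- Fix the right arguments of a form. -/
noncomputable def leftForm {m n : Type} (F : U [⋀^(m ⊕ n)]→ₗ[ℚ] ℚ) (w : n → U) :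
    U [⋀^m]→ₗ[ℚ] ℚ where
  toFun y := F (Sum.elim y w)
  map_update_add' y i a b := by
    classical
    rw [← Sum.update_elim_inl, ← Sum.update_elim_inl, ← Sum.update_elim_inl]
    exact F.map_update_add _ _ _ _
  map_update_smul' y i a b := by
    classical
    rw [← Sum.update_elim_inl, ← Sum.update_elim_inl]
    exact F.map_update_smul _ _ _ _
  map_eq_zero_of_eq' y i j hij hne :=
    F.map_eq_zero_of_eq _ (i := Sum.inl i) (j := Sum.inl j) (by simpa using hij)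
      (fun h => hne (Sum.inl_injective h))

/-- Fix the left arguments of a form. -/
noncomputable def rightForm {m n : Type} (F : U [⋀^(m ⊕ n)]→ₗ[ℚ] ℚ) (y : m → U) :
    U [⋀^n]→ₗ[ℚ] ℚ where
  toFun w := F (Sum.elim y w)
  map_update_add' w i a b := by
    classical
    rw [← Sum.update_elim_inr, ← Sum.update_elim_inr, ← Sum.update_elim_inr]
    exact F.map_update_add _ _ _ _
  map_update_smul' w i a b := by
    classical
    rw [← Sum.update_elim_inr, ← Sum.update_elim_inr]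
    exact F.map_update_smul _ _ _ _
  map_eq_zero_of_eq' w i j hij hne :=
    F.map_eq_zero_of_eq _ (i := Sum.inr i) (j := Sum.inr j) (by simpa using hij)
      (fun h => hne (Sum.inr_injective h))

@[simp] theorem leftForm_apply {m n : Type} (F : U [⋀^(m ⊕ n)]→ₗ[ℚ] ℚ) (w : n → U) (y : m → U) :
    leftForm F w y = F (Sum.elim y w) := rfl

@[simp] theorem rightForm_apply {m n : Type} (F : U [⋀^(m ⊕ n)]→ₗ[ℚ] ℚ) (y : m → U) (w : n → U) :
    rightForm F y w = F (Sum.elim y w) := rfl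

/-- A form vanishing as soon as one argument is in `K` only depends on the arguments mod `K`. -/
theorem form_congr {n : Type} [Finite n] (G : U [⋀^n]→ₗ[ℚ] ℚ) (K : Submodule ℚ U)
    (hG : ∀ w : n → U, (∃ j, w j ∈ K) → G w = 0) (w w' : n → U)
    (h : ∀ i, w i - w' i ∈ K) : G w = G w' := by
  classical
  have := Fintype.ofFinite n
  have key : ∀ S : Finset n, G (S.piecewise w' w) = G w := by
    intro S
    induction S using Finset.induction_on with
    | empty => simp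
    | insert a S ha ih =>
      rw [Finset.piecewise_insert]
      have h1 : Function.update (S.piecewise w' w) a (w a) = S.piecewise w' w := by
        rw [Function.update_eq_iff]
        refine ⟨by rw [Finset.piecewise_eq_of_notMem _ _ _ ha], fun _ _ => rfl⟩
      have h2 : w' a = w a - (w a - w' a) := by abel
      have h3 : G (Function.update (S.piecewise w' w) a (w a - w' a)) = 0 :=
        hG _ ⟨a, by simpa using h a⟩
      rw [h2, G.map_update_sub, h1, ih, h3, sub_zero]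
  have h3 := key Finset.univ
  rw [Finset.piecewise_univ] at h3
  exact h3.symm

/-- The separation of variables behind the exchange lemma. -/
theorem sep {m n : ℕ} (W₀ : Submodule ℚ U₀) (W : Submodule ℚ U) (W₁ : Submodule ℚ U₁)
    [FiniteDimensional ℚ W₀] [FiniteDimensional ℚ W] [FiniteDimensional ℚ W₁]
    (Φ : U₀ →ₗ[ℚ] U) (π : U →ₗ[ℚ] U₁) (hΦW : ∀ y ∈ W₀, Φ y ∈ W)
    (hW₁ : W₁ = W.map π)
    (hinj : ∀ y ∈ W₀, Φ y = 0 → y = 0) (hker : ∀ y ∈ W, π y = 0 ↔ ∃ y₀ ∈ W₀, Φ y₀ = y)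
    (hm : Module.finrank ℚ W₀ = m) (hn : Module.finrank ℚ W₁ = n)
    (hW : Module.finrank ℚ W = m + n)
    (F : U [⋀^(Fin m ⊕ Fin n)]→ₗ[ℚ] ℚ) (hF : ∃ w, (∀ i, w i ∈ W) ∧ F w ≠ 0)
    (Ω₀ : U₀ [⋀^Fin m]→ₗ[ℚ] ℚ) (y0 : Fin m → U₀) (hy0 : ∀ i, y0 i ∈ W₀) (hΩ₀ : Ω₀ y0 ≠ 0)
    (Ω₁ : U₁ [⋀^Fin n]→ₗ[ℚ] ℚ) (z0 : Fin n → U) (hz0 : ∀ i, z0 i ∈ W)
    (hΩ₁ : Ω₁ (fun i => π (z0 i)) ≠ 0) :
    ∃ c : ℚ, c ≠ 0 ∧ ∀ (y : Fin m → U₀) (w : Fin n → U), (∀ i, y i ∈ W₀) → (∀ i, w i ∈ W) →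
      F (Sum.elim (fun i => Φ (y i)) w) = c * Ω₀ y * Ω₁ (fun i => π (w i)) := by
  classical
  have hy0li : LinearIndependent ℚ y0 := by
    by_contra h
    exact hΩ₀ (Ω₀.map_linearDependent y0 h)
  have hz0li : LinearIndependent ℚ (fun i => π (z0 i)) := by
    by_contra h
    exact hΩ₁ (Ω₁.map_linearDependent _ h)
  -- `y0` spans `W₀`
  have hy0span : ∀ y ∈ W₀, ∃ α : Fin m → ℚ, y = ∑ i, α i • y0 i := by
    intro y hy
    have h1 : Submodule.span ℚ (Set.range y0) = W₀ := by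
      apply Submodule.eq_of_le_of_finrank_eq
      · rw [Submodule.span_le]
        rintro _ ⟨i, rfl⟩
        exact hy0 i
      · rw [hm, finrank_span_eq_card hy0li, Fintype.card_fin]
    rw [← h1] at hy
    obtain ⟨α, hα⟩ := (Submodule.mem_span_range_iff_exists_fun ℚ).1 hy
    exact ⟨α, hα.symm⟩
  set G := rightForm F (fun i => Φ (y0 i)) with hGdef
  -- `G` vanishes on `Φ W₀`
  have hGK : ∀ w : Fin n → U, (∃ j, w j ∈ W₀.map Φ) → G w = 0 := by
    rintro w ⟨j, hj⟩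
    obtain ⟨y, hy, hyj⟩ := hj
    obtain ⟨α, hα⟩ := hy0span y hy
    have h1 : w = Function.update w j (∑ i, α i • Φ (y0 i)) := by
      rw [Function.eq_update_iff]
      refine ⟨?_, fun _ _ => rfl⟩
      rw [← hyj, hα, map_sum]
      simp
    rw [h1, G.map_update_sum]
    refine Finset.sum_eq_zero fun i _ => ?_
    rw [G.map_update_smul]
    have h2 : G (Function.update w j (Φ (y0 i))) = 0 := by
      rw [hGdef, rightForm_apply]
      exact F.map_eq_zero_of_eq _ (i := Sum.inl i) (j := Sum.inr j) (by simp) (by simp)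
    rw [h2, smul_zero]
  -- a section
  obtain ⟨s, hsW, hs⟩ : ∃ s : U₁ →ₗ[ℚ] U, (∀ z ∈ W₁, s z ∈ W) ∧ ∀ z ∈ W₁, π (s z) = z := by
    let f : W →ₗ[ℚ] U₁ := π.domRestrict W
    obtain ⟨t, ht⟩ := LinearMap.exists_rightInverse_of_surjective f.rangeRestrict
      (LinearMap.range_rangeRestrict f)
    obtain ⟨p, hp⟩ := LinearMap.exists_leftInverse_of_injective
      (LinearMap.range f).subtype (Submodule.ker_subtype _)
    refine ⟨W.subtype ∘ₗ t ∘ₗ p, fun z _ => (t (p z)).2, fun z hz => ?_⟩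
    have hzr : z ∈ LinearMap.range f := by
      rw [hW₁] at hz
      obtain ⟨w, hw, rfl⟩ := hz
      exact ⟨⟨w, hw⟩, rfl⟩
    have h1 : p z = ⟨z, hzr⟩ := by
      have := LinearMap.congr_fun hp ⟨z, hzr⟩
      simpa using this
    have h2 := LinearMap.congr_fun ht ⟨z, hzr⟩
    have h3 : f (t ⟨z, hzr⟩) = z := by
      have := congrArg Subtype.val h2
      simpa using this
    change π ((t (p z) : W) : U) = z
    rw [h1]
    exact h3
  have hπW : ∀ w ∈ W, π w ∈ W₁ := fun w hw => by rw [hW₁]; exact ⟨w, hw, rfl⟩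
  obtain ⟨c', hc'⟩ := top_prop W₁ hn Ω₁ (G.compLinearMap s) (fun i => π (z0 i))
    (fun i => hπW _ (hz0 i)) hΩ₁
  have hG : ∀ w : Fin n → U, (∀ i, w i ∈ W) → G w = c' * Ω₁ (fun i => π (w i)) := by
    intro w hw
    rw [← hc' _ fun i => hπW _ (hw i)]
    have h1 : (G.compLinearMap s) (fun i => π (w i)) = G (fun i => s (π (w i))) := rfl
    rw [h1]
    refine form_congr G (W₀.map Φ) hGK _ _ fun i => ?_
    have h2 : w i - s (π (w i)) ∈ W := W.sub_mem (hw i) (hsW _ (hπW _ (hw i)))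
    have h3 : π (w i - s (π (w i))) = 0 := by
      rw [map_sub, hs _ (hπW _ (hw i)), sub_self]
    obtain ⟨y₀, hy₀, h4⟩ := (hker _ h2).1 h3
    exact ⟨y₀, hy₀, h4⟩
  refine ⟨c' / Ω₀ y0, ?_, ?_⟩
  · -- nonvanishing
    have hli : LinearIndependent ℚ (Sum.elim (fun i => Φ (y0 i)) z0) := by
      rw [Fintype.linearIndependent_iff]
      intro g hg
      rw [Fintype.sum_sum_type] at hg
      simp only [Sum.elim_inl, Sum.elim_inr] at hg
      have h1 : ∀ i, g (Sum.inr i) = 0 := by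
        have h2 := congrArg π hg
        rw [map_add, map_sum, map_sum, map_zero] at h2
        have h3 : ∑ i, π (g (Sum.inl i) • Φ (y0 i)) = 0 :=
          Finset.sum_eq_zero fun i _ => by
            rw [map_smul, (hker _ (hΦW _ (hy0 i))).2 ⟨y0 i, hy0 i, rfl⟩, smul_zero]
        rw [h3, zero_add] at h2
        simp only [map_smul] at h2
        exact Fintype.linearIndependent_iff.1 hz0li _ h2
      have h4 : ∀ i, g (Sum.inl i) = 0 := by
        simp only [h1, zero_smul, Finset.sum_const_zero, add_zero] at hg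
        have h5 : Φ (∑ i, g (Sum.inl i) • y0 i) = 0 := by
          rw [map_sum]
          simpa using hg
        have h6 := hinj _ (W₀.sum_mem fun i _ => W₀.smul_mem _ (hy0 i)) h5
        exact Fintype.linearIndependent_iff.1 hy0li _ h6
      rintro (i | i)
      · exact h4 i
      · exact h1 i
    have h7 := ne_zero_of_li W (by rw [hW, Fintype.card_sum, Fintype.card_fin, Fintype.card_fin])
      F hF _ (by
        rintro (i | i)
        · exact hΦW _ (hy0 i)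
        · exact hz0 i) hli
    have h8 := hG z0 hz0
    rw [hGdef, rightForm_apply] at h8
    rw [h8] at h7
    exact div_ne_zero (left_ne_zero_of_mul h7) hΩ₀
  · intro y w hy hw
    obtain ⟨c'', hc''⟩ := top_prop W₀ hm Ω₀ ((leftForm F w).compLinearMap Φ) y0 hy0 hΩ₀
    have h1 : F (Sum.elim (fun i => Φ (y i)) w) = c'' * Ω₀ y := hc'' y hy
    have h2 : F (Sum.elim (fun i => Φ (y0 i)) w) = c'' * Ω₀ y0 := hc'' y0 hy0
    have h3 : F (Sum.elim (fun i => Φ (y0 i)) w) = c' * Ω₁ (fun i => π (w i)) := hG w hw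
    rw [h1]
    field_simp
    rw [h3] at h2
    linear_combination (-Ω₀ y) * h2

end aux

/-- **Exchange lemma.** -/
theorem exchange {E₀ E U₀ U U₁ : Type} [Fintype E₀] [Fintype E]
    [AddCommGroup U₀] [Module ℚ U₀] [AddCommGroup U] [Module ℚ U] [AddCommGroup U₁] [Module ℚ U₁]
    (v₀ : E₀ → U₀) (v : E → U) (Φ : U₀ →ₗ[ℚ] U) (π : U →ₗ[ℚ] U₁) (c : E₀ → E → ℤ) (M : ℝ)
    (hc : ∀ e, Φ (v₀ e) = ∑ e', ((c e e' : ℤ) : ℚ) • v e')
    (hM : ∀ e, ∑ e', |((c e e' : ℤ) : ℝ)| ≤ M)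
    (hinj : ∀ y ∈ Submodule.span ℚ (Set.range v₀), Φ y = 0 → y = 0)
    (hker : ∀ y ∈ Submodule.span ℚ (Set.range v),
      π y = 0 ↔ ∃ y₀ ∈ Submodule.span ℚ (Set.range v₀), Φ y₀ = y) :
    rk (fun e => π (v e)) + rk v₀ = rk v ∧
      ht (fun e => π (v e)) * ht v₀ ≤ ht v * M ^ rk v₀ := by
  classical
  have hΦv : ∀ e, Φ (v₀ e) ∈ Submodule.span ℚ (Set.range v) := fun e => by
    rw [hc e]
    exact Submodule.sum_mem _ fun e' _ => Submodule.smul_mem _ _ (Submodule.subset_span ⟨e', rfl⟩)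
  have hΦW : ∀ y ∈ Submodule.span ℚ (Set.range v₀), Φ y ∈ Submodule.span ℚ (Set.range v) := by
    intro y hy
    have h1 : (Submodule.span ℚ (Set.range v₀)).map Φ ≤ Submodule.span ℚ (Set.range v) := by
      rw [Submodule.map_span, Submodule.span_le]
      rintro _ ⟨_, ⟨e, rfl⟩, rfl⟩
      exact hΦv e
    exact h1 ⟨y, hy, rfl⟩
  have hW₁ : Submodule.span ℚ (Set.range fun e => π (v e)) =
      (Submodule.span ℚ (Set.range v)).map π := by
    rw [Submodule.map_span, ← Set.range_comp]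
    rfl
  have hrk : rk (fun e => π (v e)) + rk v₀ = rk v := by
    let f := π.domRestrict (Submodule.span ℚ (Set.range v))
    have h1 := LinearMap.finrank_range_add_finrank_ker f
    have h2 : LinearMap.range f = Submodule.span ℚ (Set.range fun e => π (v e)) := by
      rw [hW₁]
      exact LinearMap.range_domRestrict _ _
    have h3 : Module.finrank ℚ (LinearMap.ker f) = rk v₀ := by
      let g := (Φ.domRestrict (Submodule.span ℚ (Set.range v₀)))
      have hg : Function.Injective g := by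
        rw [← LinearMap.ker_eq_bot, LinearMap.ker_eq_bot']
        rintro ⟨y, hy⟩ hy0
        exact Subtype.ext (hinj y hy hy0)
      have h4 : (LinearMap.ker f).map (Submodule.span ℚ (Set.range v)).subtype =
          LinearMap.range g := by
        ext y
        constructor
        · rintro ⟨⟨z, hz⟩, hz0, rfl⟩
          obtain ⟨y₀, hy₀, h5⟩ := (hker z hz).1 hz0
          exact ⟨⟨y₀, hy₀⟩, h5⟩
        · rintro ⟨⟨y₀, hy₀⟩, rfl⟩
          exact ⟨⟨Φ y₀, hΦW _ hy₀⟩, (hker _ (hΦW _ hy₀)).2 ⟨y₀, hy₀, rfl⟩, rfl⟩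
      have h5 : Module.finrank ℚ (LinearMap.range g) = rk v₀ := LinearMap.finrank_range_of_inj hg
      rw [← h5, ← h4]
      exact (Submodule.finrank_map_subtype_eq _ _).symm
    rw [h2, h3] at h1
    exact h1
  refine ⟨hrk, ?_⟩
  obtain ⟨Ω₀, hΩ₀⟩ := exists_isNF v₀
  obtain ⟨Ω, hΩ⟩ := exists_isNF v
  obtain ⟨Ω₁, hΩ₁⟩ := exists_isNF (fun e => π (v e))
  obtain ⟨σ₀, hσ₀⟩ := hΩ₀.exists_ne
  obtain ⟨σ₁, hσ₁⟩ := hΩ₁.exists_ne
  let e : Fin (rk v) ≃ Fin (rk v₀) ⊕ Fin (rk fun e => π (v e)) :=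
    (finCongr (by omega)).trans finSumFinEquiv.symm
  set F : U [⋀^(Fin (rk v₀) ⊕ Fin (rk fun e => π (v e)))]→ₗ[ℚ] ℚ := Ω.domDomCongr e with hF
  have hFv : ∀ (ρ : Fin (rk v₀) → E) (τ : Fin (rk fun e => π (v e)) → E),
      F (Sum.elim (fun i => v (ρ i)) (fun i => v (τ i))) =
        Ω (fun i => v (Sum.elim ρ τ (e i))) := by
    intro ρ τ
    rw [hF, AlternatingMap.domDomCongr_apply]
    congr 1
    funext i
    change Sum.elim (fun i => v (ρ i)) (fun i => v (τ i)) (e i) = v (Sum.elim ρ τ (e i))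
    rcases e i with j | j <;> rfl
  obtain ⟨σ, hσ⟩ := hΩ.exists_ne
  obtain ⟨a, ha0, ha⟩ := sep (m := rk v₀) (n := rk fun e => π (v e))
    (Submodule.span ℚ (Set.range v₀)) (Submodule.span ℚ (Set.range v))
    (Submodule.span ℚ (Set.range fun e => π (v e))) Φ π hΦW hW₁ hinj hker rfl rfl
    (by change rk v = rk v₀ + rk _; omega) F
    ⟨fun i => v (σ (e.symm i)), fun i => Submodule.subset_span ⟨_, rfl⟩, by
      rw [hF, AlternatingMap.domDomCongr_apply]
      have : (fun i => v (σ (e.symm i))) ∘ e = fun i => v (σ i) := by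
        funext i
        simp only [Function.comp_apply, Equiv.symm_apply_apply]
      rw [this]
      exact hσ⟩ Ω₀ (fun i => v₀ (σ₀ i)) (fun i => Submodule.subset_span ⟨_, rfl⟩) hσ₀
    Ω₁ (fun i => v (σ₁ i)) (fun i => Submodule.subset_span ⟨_, rfl⟩) hσ₁
  -- expansion
  have hexp : ∀ (τ₀ : Fin (rk v₀) → E₀) (τ : Fin (rk fun e => π (v e)) → E),
      F (Sum.elim (fun i => Φ (v₀ (τ₀ i))) (fun i => v (τ i))) =
        ∑ ρ : Fin (rk v₀) → E, (∏ i, ((c (τ₀ i) (ρ i) : ℤ) : ℚ)) *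
          Ω (fun i => v (Sum.elim ρ τ (e i))) := by
    intro τ₀ τ
    have h1 : F (Sum.elim (fun i => Φ (v₀ (τ₀ i))) (fun i => v (τ i))) =
        (leftForm F (fun i => v (τ i))).toMultilinearMap
          (fun i => ∑ e', ((c (τ₀ i) e' : ℤ) : ℚ) • v e') := by
      simp only [hc]
      rfl
    rw [h1, MultilinearMap.map_sum]
    refine Finset.sum_congr rfl fun ρ _ => ?_
    rw [MultilinearMap.map_smul_univ, smul_eq_mul]
    congr 1
    exact hFv ρ τ
  have hval : ∀ (τ₀ : Fin (rk v₀) → E₀) (τ : Fin (rk fun e => π (v e)) → E),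
      a * Ω₀ (fun i => v₀ (τ₀ i)) * Ω₁ (fun i => π (v (τ i))) =
        ∑ ρ : Fin (rk v₀) → E, (∏ i, ((c (τ₀ i) (ρ i) : ℤ) : ℚ)) *
          Ω (fun i => v (Sum.elim ρ τ (e i))) := by
    intro τ₀ τ
    rw [← hexp, ha _ _ (fun i => Submodule.subset_span ⟨_, rfl⟩)
      fun i => Submodule.subset_span ⟨_, rfl⟩]
  have hvalint : ∀ (τ₀ : Fin (rk v₀) → E₀) (τ : Fin (rk fun e => π (v e)) → E),
      ∃ n : ℤ, a * Ω₀ (fun i => v₀ (τ₀ i)) * Ω₁ (fun i => π (v (τ i))) = n := by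
    intro τ₀ τ
    choose N hN using hΩ.int
    refine ⟨∑ ρ : Fin (rk v₀) → E, (∏ i, c (τ₀ i) (ρ i)) * N (fun i => Sum.elim ρ τ (e i)), ?_⟩
    rw [hval]
    push_cast
    refine Finset.sum_congr rfl fun ρ _ => ?_
    rw [← hN]
  have haint : ∃ n : ℤ, a = n := by
    refine int_of_mul_closure hΩ₀.one ?_
    rintro _ ⟨τ₀, rfl⟩
    refine int_of_mul_closure hΩ₁.one ?_
    rintro _ ⟨τ, rfl⟩
    exact hvalint τ₀ τ
  have ha1 : (1 : ℝ) ≤ |(a : ℝ)| := by
    obtain ⟨n, hn⟩ := haint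
    have h0 : n ≠ 0 := by
      rintro rfl
      exact ha0 (by simpa using hn)
    have : (1 : ℤ) ≤ |n| := Int.one_le_abs h0
    rw [hn]
    push_cast
    exact_mod_cast this
  obtain ⟨τ₀, hτ₀⟩ := hΩ₀.exists_eq_ht
  obtain ⟨τ, hτ⟩ := hΩ₁.exists_eq_ht
  have hM0 : ∀ i, 0 ≤ ∑ e', |((c (τ₀ i) e' : ℤ) : ℝ)| :=
    fun i => Finset.sum_nonneg fun _ _ => abs_nonneg _
  have hht0 : 0 ≤ ht v := zero_le_one.trans (one_le_ht v)
  calc ht (fun e => π (v e)) * ht v₀
      = 1 * (|((Ω₀ fun i => v₀ (τ₀ i) : ℚ) : ℝ)| * |((Ω₁ fun i => π (v (τ i)) : ℚ) : ℝ)|) := by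
        rw [hτ₀, hτ]; ring
    _ ≤ |(a : ℝ)| * (|((Ω₀ fun i => v₀ (τ₀ i) : ℚ) : ℝ)| *
          |((Ω₁ fun i => π (v (τ i)) : ℚ) : ℝ)|) :=
        mul_le_mul_of_nonneg_right ha1 (by positivity)
    _ = |((a * Ω₀ (fun i => v₀ (τ₀ i)) * Ω₁ (fun i => π (v (τ i))) : ℚ) : ℝ)| := by
        push_cast
        rw [abs_mul, abs_mul]; ring
    _ = |∑ ρ : Fin (rk v₀) → E, (∏ i, ((c (τ₀ i) (ρ i) : ℤ) : ℝ)) *
          ((Ω (fun i => v (Sum.elim ρ τ (e i))) : ℚ) : ℝ)| := by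
        rw [hval]
        push_cast
        rfl
    _ ≤ ∑ ρ : Fin (rk v₀) → E, |(∏ i, ((c (τ₀ i) (ρ i) : ℤ) : ℝ)) *
          ((Ω (fun i => v (Sum.elim ρ τ (e i))) : ℚ) : ℝ)| := Finset.abs_sum_le_sum_abs _ _
    _ ≤ ∑ ρ : Fin (rk v₀) → E, (∏ i, |((c (τ₀ i) (ρ i) : ℤ) : ℝ)|) * ht v := by
        refine Finset.sum_le_sum fun ρ _ => ?_
        rw [abs_mul, Finset.abs_prod]
        exact mul_le_mul_of_nonneg_left (hΩ.le_ht _)
          (Finset.prod_nonneg fun _ _ => abs_nonneg _)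
    _ = (∏ i, ∑ e', |((c (τ₀ i) e' : ℤ) : ℝ)|) * ht v := by
        rw [← Finset.sum_mul, Finset.prod_univ_sum, Fintype.piFinset_univ]
    _ ≤ M ^ rk v₀ * ht v := by
        refine mul_le_mul_of_nonneg_right ?_ hht0
        calc (∏ i, ∑ e', |((c (τ₀ i) e' : ℤ) : ℝ)|) ≤ ∏ _i : Fin (rk v₀), M :=
              Finset.prod_le_prod (fun i _ => hM0 i) fun i _ => hM (τ₀ i)
          _ = M ^ rk v₀ := by simp
    _ = ht v * M ^ rk v₀ := mul_comm _ _

end Pool.Agent.Tyz
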