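import Pool.Agent.Work.MP_4c3a42_al.Exch

open MvPolynomial

namespace Pool.Agent.Tyz

variable {ι : Type} [Fintype ι] [DecidableEq ι]

theorem lh_nonneg (P : Ideal (MvPolynomial ι ℚ)) (D : ℕ) : 0 ≤ lh P D :=
  Real.log_nonneg (one_le_ht _)

section aux

attribute [local instance] MvPolynomial.gradedAlgebra

omit [Fintype ι] [DecidableEq ι] in
theorem gm_decompose (r : MvPolynomial ι ℚ) (i : ℕ) :
    ((DirectSum.decompose (homogeneousSubmodule ι ℚ) r i : homogeneousSubmodule ι ℚ i) :
      MvPolynomial ι ℚ) = homogeneousComponent i r :=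
  decomposition.decompose'_apply r i

omit [Fintype ι] [DecidableEq ι] in
theorem gm_comp_mul (a t : MvPolynomial ι ℚ) (D e : ℕ) (ht : t.IsHomogeneous e) :
    homogeneousComponent (D + e) (a * t) = homogeneousComponent D a * t := by
  have h := DirectSum.coe_decompose_mul_add_of_right_mem (homogeneousSubmodule ι ℚ) (i := D)
    (a := a) ((mem_homogeneousSubmodule e t).2 ht)
  rwa [gm_decompose, gm_decompose] at h

end aux

theorem mem_mon_iff {D : ℕ} {m : ι →₀ ℕ} :
    m ∈ (Finset.univ : Finset ι).finsuppAntidiag D ↔ m.degree = D := by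
  rw [Finset.mem_finsuppAntidiag, Finsupp.degree_eq_sum]
  simp

omit [Fintype ι] [DecidableEq ι] in
theorem coeff_toQ (θ : MvPolynomial ι ℤ) (m : ι →₀ ℕ) :
    (toQ θ).coeff m = ((θ.coeff m : ℤ) : ℚ) := by
  simp [toQ, coeff_map]

/-- The span of the monomials of degree `D` in `S ⧸ P`. -/
theorem mem_span_mv (P : Ideal (MvPolynomial ι ℚ)) (D : ℕ) (y : MvPolynomial ι ℚ ⧸ P) :
    y ∈ Submodule.span ℚ (Set.range (mv P D)) ↔
      ∃ F : MvPolynomial ι ℚ, F.IsHomogeneous D ∧ Ideal.Quotient.mk P F = y := by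
  constructor
  · intro hy
    have h1 : Submodule.span ℚ (Set.range (mv P D)) ≤
        (homogeneousSubmodule ι ℚ D).map (Ideal.Quotient.mkₐ ℚ P).toLinearMap := by
      rw [Submodule.span_le]
      rintro _ ⟨m, rfl⟩
      refine ⟨monomial m.1 1, ?_, rfl⟩
      rw [SetLike.mem_coe, mem_homogeneousSubmodule]
      exact isHomogeneous_monomial _ (mem_mon_iff.1 m.2)
    obtain ⟨F, hF, hy'⟩ := h1 hy
    exact ⟨F, hF, hy'⟩
  · rintro ⟨F, hF, rfl⟩
    rw [F.as_sum, map_sum]
    refine Submodule.sum_mem _ fun m hm => ?_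
    have hd : m.degree = D := by
      by_contra hne
      exact (mem_support_iff.1 hm) (hF.coeff_eq_zero hne)
    have h2 : Ideal.Quotient.mk P (monomial m (F.coeff m)) =
        F.coeff m • mv P D ⟨m, mem_mon_iff.2 hd⟩ := by
      have h3 : monomial m (F.coeff m) = F.coeff m • monomial m (1 : ℚ) := by
        rw [smul_monomial, smul_eq_mul, mul_one]
      rw [h3]
      rfl
    rw [h2]
    exact Submodule.smul_mem _ _ (Submodule.subset_span ⟨_, rfl⟩)

/-- Expansion of a homogeneous polynomial in the family of monomials. -/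
theorem mk_eq_sum_mv (P : Ideal (MvPolynomial ι ℚ)) (D : ℕ) (F : MvPolynomial ι ℚ)
    (hF : F.IsHomogeneous D) :
    Ideal.Quotient.mk P F = ∑ m : Mon ι D, F.coeff m.1 • mv P D m := by
  have h1 : F = ∑ m : Mon ι D, F.coeff m.1 • monomial m.1 (1 : ℚ) := by
    ext n
    rw [coeff_sum]
    by_cases hn : n.degree = D
    · rw [Finset.sum_eq_single (⟨n, mem_mon_iff.2 hn⟩ : Mon ι D)]
      · simp
      · intro b _ hb
        have : b.1 ≠ n := fun h => hb (Subtype.ext h)
        simp [coeff_smul, coeff_monomial, this]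
      · simp
    · rw [hF.coeff_eq_zero hn, Finset.sum_eq_zero]
      intro b _
      have : b.1 ≠ n := fun h => hn (by rw [← h]; exact mem_mon_iff.1 b.2)
      simp [coeff_smul, coeff_monomial, this]
  conv_lhs => rw [h1]
  rw [map_sum]
  rfl

/-- Multiplication by an integral homogeneous polynomial. -/
theorem mult_step (J P : Ideal (MvPolynomial ι ℚ)) (hJ : HI J) (θ : MvPolynomial ι ℤ) (e : ℕ)
    (hθ : θ.IsHomogeneous e) (hP : ∀ g, g * toQ θ ∈ J ↔ g ∈ P) (D : ℕ) :
    hf (J ⊔ Ideal.span {toQ θ}) (D + e) + hf P D = hf J (D + e) ∧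
    lh (J ⊔ Ideal.span {toQ θ}) (D + e) + lh P D ≤
      lh J (D + e) + hf P D * Real.log (l1 θ) := by
  classical
  set J' := J ⊔ Ideal.span {toQ θ} with hJ'
  have hθQ : (toQ θ).IsHomogeneous e := hθ.map _
  -- the maps
  let Φ₀ : MvPolynomial ι ℚ →ₗ[ℚ] MvPolynomial ι ℚ ⧸ J :=
    (Ideal.Quotient.mkₐ ℚ J).toLinearMap ∘ₗ LinearMap.mulRight ℚ (toQ θ)
  have hΦ₀ : ∀ g, Φ₀ g = Ideal.Quotient.mk J (g * toQ θ) := fun g => rfl
  let Φ : (MvPolynomial ι ℚ ⧸ P) →ₗ[ℚ] MvPolynomial ι ℚ ⧸ J :=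
    (Submodule.liftQ (P.restrictScalars ℚ) Φ₀ (by
      intro g hg
      rw [LinearMap.mem_ker, hΦ₀, Ideal.Quotient.eq_zero_iff_mem]
      exact (hP g).2 hg))
  have hΦ : ∀ g, Φ (Ideal.Quotient.mk P g) = Ideal.Quotient.mk J (g * toQ θ) := fun g => rfl
  let π : (MvPolynomial ι ℚ ⧸ J) →ₗ[ℚ] MvPolynomial ι ℚ ⧸ J' :=
    (Ideal.Quotient.factorₐ ℚ (le_sup_left : J ≤ J')).toLinearMap
  have hπ : ∀ g, π (Ideal.Quotient.mk J g) = Ideal.Quotient.mk J' g := fun g => rfl
  let c : Mon ι D → Mon ι (D + e) → ℤ := fun m m' => (monomial m.1 1 * θ).coeff m'.1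
  have hl1 : ∀ m : Mon ι D, ∑ m' : Mon ι (D + e), |((c m m' : ℤ) : ℝ)| ≤ l1 θ := by
    intro m
    have h1 : ∀ m' : Mon ι (D + e), |((c m m' : ℤ) : ℝ)| =
        if m.1 ≤ m'.1 then |((θ.coeff (m'.1 - m.1) : ℤ) : ℝ)| else 0 := by
      intro m'
      simp only [c]
      rw [coeff_monomial_mul']
      split_ifs with h
      · simp
      · simp
    simp only [h1]
    rw [← Finset.sum_filter, l1]
    calc ∑ m' ∈ Finset.univ.filter (fun m' : Mon ι (D + e) => m.1 ≤ m'.1),
          |((θ.coeff (m'.1 - m.1) : ℤ) : ℝ)|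
        = ∑ n ∈ (Finset.univ.filter (fun m' : Mon ι (D + e) => m.1 ≤ m'.1)).image
            (fun m' => m'.1 - m.1), |((θ.coeff n : ℤ) : ℝ)| := by
          rw [Finset.sum_image]
          intro a ha b hb hab
          have ha' := (Finset.mem_filter.1 ha).2
          have hb' := (Finset.mem_filter.1 hb).2
          have h2 : a.1 - m.1 = b.1 - m.1 := hab
          apply Subtype.ext
          rw [← tsub_add_cancel_of_le ha', h2, tsub_add_cancel_of_le hb']
      _ ≤ ∑ n ∈ θ.support, |((θ.coeff n : ℤ) : ℝ)| := by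
          rw [← Finset.sum_filter_add_sum_filter_not _ (fun n => n ∈ θ.support)
            (fun n => |((θ.coeff n : ℤ) : ℝ)|)]
          have h3 : ∑ n ∈ ((Finset.univ.filter (fun m' : Mon ι (D + e) => m.1 ≤ m'.1)).image
            (fun m' => m'.1 - m.1)).filter (fun n => ¬ n ∈ θ.support),
              |((θ.coeff n : ℤ) : ℝ)| = 0 := by
            refine Finset.sum_eq_zero fun n hn => ?_
            have := (Finset.mem_filter.1 hn).2
            rw [notMem_support_iff.1 this]
            simp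
          rw [h3, add_zero]
          refine Finset.sum_le_sum_of_subset_of_nonneg ?_ fun _ _ _ => abs_nonneg _
          intro n hn
          exact (Finset.mem_filter.1 hn).2
  have hex := exchange (mv P D) (mv J (D + e)) Φ π c (l1 θ) (by
      intro m
      have h1 : Φ (mv P D m) = Ideal.Quotient.mk J (monomial m.1 1 * toQ θ) := rfl
      have h2 : (monomial m.1 (1 : ℚ) * toQ θ).IsHomogeneous (D + e) :=
        (isHomogeneous_monomial _ (mem_mon_iff.1 m.2)).mul hθQ
      rw [h1, mk_eq_sum_mv J (D + e) _ h2]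
      refine Finset.sum_congr rfl fun m' _ => ?_
      congr 1
      simp only [c]
      rw [coeff_monomial_mul', coeff_monomial_mul']
      split_ifs
      · rw [coeff_toQ]; push_cast; ring
      · simp) hl1 (by
      intro y _ hy0
      obtain ⟨g, rfl⟩ := Ideal.Quotient.mk_surjective y
      rw [hΦ, Ideal.Quotient.eq_zero_iff_mem, hP] at hy0
      exact Ideal.Quotient.eq_zero_iff_mem.2 hy0) (by
      intro y hy
      rw [mem_span_mv] at hy
      obtain ⟨G, hG, rfl⟩ := hy
      constructor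
      · intro h0
        rw [hπ, Ideal.Quotient.eq_zero_iff_mem, hJ', Submodule.mem_sup] at h0
        obtain ⟨j, hj, b, hb, hjb⟩ := h0
        obtain ⟨a, rfl⟩ := Ideal.mem_span_singleton'.1 hb
        refine ⟨Ideal.Quotient.mk P (homogeneousComponent D a), ?_, ?_⟩
        · exact (mem_span_mv _ _ _).2 ⟨_, homogeneousComponent_isHomogeneous _ _, rfl⟩
        · rw [hΦ, ← gm_comp_mul _ _ _ _ hθQ]
          have h1 : homogeneousComponent (D + e) G = G := homogeneousComponent_eq_self hG
          rw [← hjb, map_add] at h1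
          rw [← hjb, ← h1, map_add, (Ideal.Quotient.eq_zero_iff_mem (I := J)).2 (hJ j hj _),
            zero_add]
      · rintro ⟨y₀, hy₀, h1⟩
        obtain ⟨g, rfl⟩ := Ideal.Quotient.mk_surjective y₀
        rw [← h1, hΦ, hπ, Ideal.Quotient.eq_zero_iff_mem, hJ']
        exact Ideal.mem_sup_right (Ideal.mul_mem_left _ _ (Ideal.subset_span rfl)))
  have hmv : (fun m => π (mv J (D + e) m)) = mv J' (D + e) := rfl
  rw [hmv] at hex
  refine ⟨hex.1, ?_⟩
  have h1 := hex.2
  have ha := one_le_ht (mv J' (D + e))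
  have hb := one_le_ht (mv P D)
  have hc := one_le_ht (mv J (D + e))
  have hM : l1 θ ^ rk (mv P D) ≠ 0 := by
    intro h0
    rw [h0, mul_zero] at h1
    nlinarith
  have hM0 : 0 ≤ l1 θ := Finset.sum_nonneg fun _ _ => abs_nonneg _
  have h2 := Real.log_le_log (by positivity) h1
  rw [Real.log_mul (by positivity) (by positivity), Real.log_mul (by positivity) hM,
    Real.log_pow] at h2
  exact h2

end Pool.Agent.Tyz
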