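import Pool.Agent.Work.MP_4c3a42_al.HtSpec

open MvPolynomial

namespace Pool.Agent.Tyz

/-- Hadamard's inequality. -/
theorem hadamard_fin {N : ℕ} (A : Matrix (Fin N) (Fin N) ℝ) :
    |A.det| ≤ ∏ i, Real.sqrt (∑ k, A i k ^ 2) := by
  haveI : Fact (Module.finrank ℝ (EuclideanSpace ℝ (Fin N)) = N) := ⟨by simp⟩
  let b := EuclideanSpace.basisFun (Fin N) ℝ
  let o := b.toBasis.orientation
  have h1 := o.volumeForm_robust b rfl
  have h2 := o.abs_volumeForm_apply_le (fun i => WithLp.toLp 2 (A i))
  rw [h1, Module.Basis.det_apply] at h2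
  have h3 : b.toBasis.toMatrix (fun i => WithLp.toLp 2 (A i)) = A.transpose := by
    ext i j
    rw [Module.Basis.toMatrix_apply]
    simp [b]
  rw [h3, Matrix.det_transpose] at h2
  refine h2.trans (le_of_eq ?_)
  refine Finset.prod_congr rfl fun i _ => ?_
  rw [EuclideanSpace.norm_eq]
  simp

theorem hadamard_gen {K : Type} [Fintype K] [DecidableEq K] (A : Matrix K K ℝ) :
    |A.det| ≤ ∏ i, Real.sqrt (∑ k, A i k ^ 2) := by
  let e : K ≃ Fin (Fintype.card K) := Fintype.equivFin K
  have h1 := hadamard_fin (A.submatrix e.symm e.symm)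
  rw [Matrix.det_submatrix_equiv_self] at h1
  refine h1.trans (le_of_eq ?_)
  rw [← Equiv.prod_comp e.symm (fun i => Real.sqrt (∑ k, A i k ^ 2))]
  refine Finset.prod_congr rfl fun i _ => ?_
  rw [← Equiv.sum_comp e.symm (fun k => A (e.symm i) k ^ 2)]
  rfl

/-- Changing the last rows by combinations of the first rows does not change the determinant. -/
theorem det_shear {n m : ℕ} (c : Fin n → (Fin n ⊕ Fin m) → ℚ) (w w' : Fin m → (Fin n ⊕ Fin m) → ℚ)
    (L : Fin m → Fin n → ℚ) (hw : ∀ i, w' i = w i + ∑ a, L i a • c a) :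
    Matrix.det (Matrix.of (Sum.elim c w')) = Matrix.det (Matrix.of (Sum.elim c w)) := by
  have h1 : Matrix.of (Sum.elim c w') =
      Matrix.fromBlocks (1 : Matrix (Fin n) (Fin n) ℚ) 0 (Matrix.of L) (1 : Matrix (Fin m) (Fin m) ℚ) *
        Matrix.of (Sum.elim c w) := by
    ext i k
    rw [Matrix.mul_apply, Fintype.sum_sum_type]
    rcases i with a | i
    · simp [Matrix.one_apply]
    · simp [Matrix.one_apply, hw, add_comm]
  rw [h1, Matrix.det_mul, Matrix.det_fromBlocks_zero₁₂]
  simp

/-- Hadamard's inequality for heights of quotients of a coordinate space. -/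
theorem ht_hadamard {E U U₁ J : Type} [Finite E] [Fintype J] [AddCommGroup U] [Module ℚ U]
    [AddCommGroup U₁] [Module ℚ U₁]
    (b : J → U) (hb : LinearIndependent ℚ b) (v : E → U)
    (hv : ∀ e, ∃ j, v e = b j ∨ v e = -b j) (hv' : ∀ j, ∃ e, v e = b j ∨ v e = -b j)
    {n : ℕ} (r : Fin n → U) (c : Fin n → J → ℤ) (hr : ∀ a, r a = ∑ j, ((c a j : ℤ) : ℚ) • b j)
    (M : ℝ) (hM0 : 0 ≤ M) (hM : ∀ a, ∑ j, ((c a j : ℤ) : ℝ) ^ 2 ≤ M ^ 2)
    (hri : LinearIndependent ℚ r) (π : U →ₗ[ℚ] U₁)
    (hπ : ∀ y ∈ Submodule.span ℚ (Set.range b),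
      π y = 0 ↔ y ∈ Submodule.span ℚ (Set.range r)) :
    ht (fun e => π (v e)) ≤ M ^ n := by
  classical
  set B : (J → ℚ) →ₗ[ℚ] U := Fintype.linearCombination ℚ b with hBdef
  have hB : ∀ x : J → ℚ, B x = ∑ j, x j • b j := fun x => by
    rw [hBdef, Fintype.linearCombination_apply]
  have hBinj : ∀ x, B x = 0 → x = 0 := by
    intro x hx
    rw [hB] at hx
    funext j
    exact Fintype.linearIndependent_iff.1 hb x hx j
  have hBmem : ∀ x, B x ∈ Submodule.span ℚ (Set.range b) := by
    intro x
    rw [hB]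
    exact Submodule.sum_mem _ fun j _ => Submodule.smul_mem _ _ (Submodule.subset_span ⟨j, rfl⟩)
  let φ : (J → ℚ) →ₗ[ℚ] U₁ := π.comp B
  have hφ : ∀ x, φ x = π (B x) := fun x => rfl
  let cq : Fin n → J → ℚ := fun a j => (c a j : ℚ)
  have hBcq : ∀ a, B (cq a) = r a := fun a => by rw [hB, hr]
  have hcq : LinearIndependent ℚ cq := by
    apply LinearIndependent.of_comp B
    have : B ∘ cq = r := funext hBcq
    rw [this]
    exact hri
  have hker : LinearMap.ker φ = Submodule.span ℚ (Set.range cq) := by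
    apply le_antisymm
    · intro x hx
      rw [LinearMap.mem_ker, hφ, hπ _ (hBmem x)] at hx
      obtain ⟨α, hα⟩ := (Submodule.mem_span_range_iff_exists_fun ℚ).1 hx
      have h1 : B (∑ a, α a • cq a - x) = 0 := by
        rw [map_sub, map_sum]
        simp only [map_smul, hBcq]
        rw [hα, sub_self]
      have h2 := sub_eq_zero.1 (hBinj _ h1)
      rw [← h2]
      exact Submodule.sum_mem _ fun a _ => Submodule.smul_mem _ _ (Submodule.subset_span ⟨a, rfl⟩)
    · rw [Submodule.span_le]
      rintro _ ⟨a, rfl⟩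
      show φ (cq a) = 0
      rw [hφ, hπ _ (hBmem _), hBcq]
      exact Submodule.subset_span ⟨a, rfl⟩
  have hkerdim : Module.finrank ℚ (LinearMap.ker φ) = n := by
    rw [hker, finrank_span_eq_card hcq, Fintype.card_fin]
  -- signs
  choose jj hjj using hv
  have hsg : ∀ e, ∃ ε : ℤ, (ε = 1 ∨ ε = -1) ∧ v e = (ε : ℚ) • b (jj e) := by
    intro e
    rcases hjj e with h | h
    · exact ⟨1, Or.inl rfl, by rw [h]; simp⟩
    · exact ⟨-1, Or.inr rfl, by rw [h]; simp⟩
  choose ε hε1 hε2 using hsg
  let u : E → J → ℚ := fun e => (ε e : ℚ) • Pi.single (jj e) 1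
  have hBu : ∀ e, B (u e) = v e := by
    intro e
    rw [hε2, hB]
    simp only [u, Pi.smul_apply, smul_eq_mul]
    rw [Finset.sum_eq_single (jj e)]
    · simp
    · intro j _ hj
      simp [Pi.single_eq_of_ne hj]
    · intro h
      exact absurd (Finset.mem_univ _) h
  have hφu : ∀ e, φ (u e) = π (v e) := fun e => by rw [hφ, hBu]
  have hrange : LinearMap.range φ = Submodule.span ℚ (Set.range fun e => π (v e)) := by
    apply le_antisymm
    · rintro _ ⟨x, rfl⟩
      rw [hφ, hB, map_sum]
      refine Submodule.sum_mem _ fun j _ => ?_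
      rw [map_smul]
      refine Submodule.smul_mem _ _ ?_
      obtain ⟨e, he | he⟩ := hv' j
      · rw [← he]
        exact Submodule.subset_span ⟨e, rfl⟩
      · have : b j = -v e := by rw [he, neg_neg]
        rw [this, map_neg]
        exact Submodule.neg_mem _ (Submodule.subset_span ⟨e, rfl⟩)
    · rw [Submodule.span_le]
      rintro _ ⟨e, rfl⟩
      exact ⟨u e, hφu e⟩
  set m : ℕ := rk (fun e => π (v e)) with hm
  have hmdim : Module.finrank ℚ (LinearMap.range φ) = m := by
    rw [hrange]
    rfl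
  have hcard : m + n = Fintype.card J := by
    have h1 := LinearMap.finrank_range_add_finrank_ker φ
    rw [hmdim, hkerdim, Module.finrank_fintype_fun_eq_card] at h1
    exact h1
  -- section
  obtain ⟨s, hs⟩ : ∃ s : U₁ →ₗ[ℚ] (J → ℚ), ∀ x, φ (s (φ x)) = φ x := by
    obtain ⟨s', hs'⟩ := LinearMap.exists_rightInverse_of_surjective φ.rangeRestrict
      (LinearMap.range_rangeRestrict φ)
    obtain ⟨s, hs⟩ := LinearMap.exists_extend s'
    refine ⟨s, fun x => ?_⟩
    have h1 : s (φ x) = s' (φ.rangeRestrict x) := by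
      rw [← hs]
      rfl
    rw [h1]
    have h2 := LinearMap.congr_fun hs' (φ.rangeRestrict x)
    exact congrArg Subtype.val h2
  have hsk : ∀ x, s (φ x) - x ∈ Submodule.span ℚ (Set.range cq) := by
    intro x
    rw [← hker, LinearMap.mem_ker, map_sub, hs, sub_self]
  let e : (Fin n ⊕ Fin m) ≃ J := Fintype.equivOfCardEq (by
    rw [Fintype.card_sum, Fintype.card_fin, Fintype.card_fin]; omega)
  let F : (J → ℚ) →ₗ[ℚ] ((Fin n ⊕ Fin m) → ℚ) := LinearMap.funLeft ℚ ℚ e
  have hF : ∀ x k, F x k = x (e k) := fun x k => rfl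
  have hFinj : ∀ x, F x = 0 → x = 0 := by
    intro x hx
    funext j
    have := congrFun hx (e.symm j)
    rw [hF] at this
    simpa using this
  let D : (J → ℚ) [⋀^(Fin n ⊕ Fin m)]→ₗ[ℚ] ℚ :=
    (Matrix.detRowAlternating (n := Fin n ⊕ Fin m) (R := ℚ)).compLinearMap F
  have hD : ∀ y : (Fin n ⊕ Fin m) → (J → ℚ), D y = Matrix.det (Matrix.of fun i => F (y i)) :=
    fun y => rfl
  let Ω : U₁ [⋀^Fin m]→ₗ[ℚ] ℚ :=
    { toFun := fun w => D (Sum.elim cq (fun i => s (w i)))
      map_update_add' := by
        intro inst w i x y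
        have h1 : ∀ z, Sum.elim cq (fun k => s (Function.update w i z k)) =
            Function.update (Sum.elim cq (fun k => s (w k))) (Sum.inr i) (s z) := by
          intro z
          funext k
          rcases k with a | k
          · simp
          · by_cases hk : k = i
            · subst hk
              simp
            · rw [Function.update_of_ne (by simpa using hk)]
              simp [Function.update_of_ne hk]
        rw [h1, h1, h1, map_add, D.map_update_add]
      map_update_smul' := by
        intro inst w i q x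
        have h1 : ∀ z, Sum.elim cq (fun k => s (Function.update w i z k)) =
            Function.update (Sum.elim cq (fun k => s (w k))) (Sum.inr i) (s z) := by
          intro z
          funext k
          rcases k with a | k
          · simp
          · by_cases hk : k = i
            · subst hk
              simp
            · rw [Function.update_of_ne (by simpa using hk)]
              simp [Function.update_of_ne hk]
        rw [h1, h1, map_smul, D.map_update_smul]
      map_eq_zero_of_eq' := by
        intro w i j hij hne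
        refine D.map_eq_zero_of_eq _ (i := Sum.inr i) (j := Sum.inr j) ?_ ?_
        · simp [hij]
        · simpa using hne }
  have hΩ : ∀ w, Ω w = D (Sum.elim cq (fun i => s (w i))) := fun w => rfl
  -- the values on the family
  have hval : ∀ σ : Fin m → E, Ω (fun i => π (v (σ i))) =
      Matrix.det (Matrix.of (Sum.elim (fun a => F (cq a)) (fun i => F (u (σ i))))) := by
    intro σ
    rw [hΩ, hD]
    have h1 : ∀ i, ∃ L : Fin n → ℚ, F (s (π (v (σ i)))) = F (u (σ i)) + ∑ a, L a • F (cq a) := by
      intro i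
      have h2 := hsk (u (σ i))
      obtain ⟨L, hL⟩ := (Submodule.mem_span_range_iff_exists_fun ℚ).1 h2
      refine ⟨L, ?_⟩
      rw [← hφu, ← sub_eq_iff_eq_add', ← map_sub, ← hL, map_sum]
      simp only [map_smul]
    choose L hL using h1
    rw [← det_shear (fun a => F (cq a)) (fun i => F (u (σ i)))
      (fun i => F (s (π (v (σ i))))) L hL]
    congr 1
    ext i k
    rcases i with a | i <;> rfl
  -- integrality of the rows
  have hFcq : ∀ a k, F (cq a) k = ((c a (e k) : ℤ) : ℚ) := fun a k => rfl
  have hFu : ∀ x k, F (u x) k = ((if e k = jj x then ε x else 0 : ℤ) : ℚ) := by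
    intro x k
    rw [hF]
    simp only [u, Pi.smul_apply, smul_eq_mul]
    by_cases h : e k = jj x
    · rw [if_pos h, h]
      simp
    · rw [if_neg h, Pi.single_eq_of_ne h]
      simp
  have hval2 : ∀ σ : Fin m → E, Ω (fun i => π (v (σ i))) = ((Matrix.det (Matrix.of
      (Sum.elim (fun a k => c a (e k)) (fun i k => if e k = jj (σ i) then ε (σ i) else 0)) :
        Matrix (Fin n ⊕ Fin m) (Fin n ⊕ Fin m) ℤ) : ℤ) : ℚ) := by
    intro σ
    rw [hval, Int.cast_det]
    congr 1
    ext i k
    rcases i with a | i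
    · simp [hFcq]
    · simp only [Matrix.of_apply, Sum.elim_inr, Matrix.map_apply]
      rw [hFu]
  refine ht_le_of_form _ Ω (fun σ => ⟨_, hval2 σ⟩) ?_ ?_
  · haveI : Module.Finite ℚ (Submodule.span ℚ (Set.range fun e => π (v e))) :=
      FiniteDimensional.span_of_finite ℚ (Set.finite_range _)
    obtain ⟨f, hf, -, hfi⟩ :=
      Submodule.exists_fun_fin_finrank_span_eq ℚ (Set.range fun e => π (v e))
    choose σ hσ using hf
    change Fin m → E at σ
    refine ⟨σ, ?_⟩
    have hσ' : (fun i : Fin m => π (v (σ i))) = f := funext hσ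
    rw [hσ', hΩ, hD]
    have hφsf : ∀ i, φ (s (f i)) = f i := by
      intro i
      have h1 : f i = φ (u (σ i)) := by rw [hφu]; exact (hσ i).symm
      rw [h1, hs]
    have hsf : LinearIndependent ℚ (fun i => s (f i)) := by
      apply LinearIndependent.of_comp φ
      have h1 : (φ ∘ fun i => s (f i)) = f := funext hφsf
      rw [h1]
      exact hfi
    have hdis : Disjoint (Submodule.span ℚ (Set.range cq))
        (Submodule.span ℚ (Set.range fun i => s (f i))) := by
      rw [Submodule.disjoint_def]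
      intro x hx1 hx2
      rw [← hker, LinearMap.mem_ker] at hx1
      obtain ⟨β, hβ⟩ := (Submodule.mem_span_range_iff_exists_fun ℚ).1 hx2
      rw [← hβ, map_sum] at hx1
      simp only [map_smul, hφsf] at hx1
      have h1 := Fintype.linearIndependent_iff.1 hfi β hx1
      rw [← hβ]
      exact Finset.sum_eq_zero fun i _ => by rw [h1 i, zero_smul]
    have hall : LinearIndependent ℚ (Sum.elim cq (fun i => s (f i))) := hcq.sum_type hsf hdis
    have hrows : LinearIndependent ℚ
        (Matrix.of fun i => F (Sum.elim cq (fun i => s (f i)) i)).row := by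
      have h1 := hall.map' F (by
        rw [LinearMap.ker_eq_bot']
        exact hFinj)
      exact h1
    have hu := Matrix.linearIndependent_rows_iff_isUnit.1 hrows
    exact ((Matrix.isUnit_iff_isUnit_det _).1 hu).ne_zero
  · intro σ
    rw [hval2]
    have h1 : ((((Matrix.det (Matrix.of
        (Sum.elim (fun a k => c a (e k)) (fun i k => if e k = jj (σ i) then ε (σ i) else 0)) :
        Matrix (Fin n ⊕ Fin m) (Fin n ⊕ Fin m) ℤ) : ℤ) : ℚ) : ℝ)) =
        Matrix.det (Matrix.of (Sum.elim (fun a k => ((c a (e k) : ℤ) : ℝ))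
          (fun i k => ((if e k = jj (σ i) then ε (σ i) else 0 : ℤ) : ℝ)))) := by
      rw [Rat.cast_intCast, Int.cast_det]
      congr 1
      ext i k
      rcases i with a | i <;> rfl
    rw [h1]
    refine (hadamard_gen _).trans ?_
    rw [Fintype.prod_sum_type]
    have h2 : ∀ a : Fin n, Real.sqrt (∑ k, (Matrix.of (Sum.elim (fun a k => ((c a (e k) : ℤ) : ℝ))
          (fun i k => ((if e k = jj (σ i) then ε (σ i) else 0 : ℤ) : ℝ)))) (Sum.inl a) k ^ 2) ≤ M := by
      intro a
      refine Real.sqrt_le_iff.2 ⟨hM0, ?_⟩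
      simp only [Matrix.of_apply, Sum.elim_inl]
      rw [Equiv.sum_comp e (fun j => ((c a j : ℤ) : ℝ) ^ 2)]
      exact hM a
    have h3 : ∀ i : Fin m, Real.sqrt (∑ k, (Matrix.of (Sum.elim (fun a k => ((c a (e k) : ℤ) : ℝ))
          (fun i k => ((if e k = jj (σ i) then ε (σ i) else 0 : ℤ) : ℝ)))) (Sum.inr i) k ^ 2) ≤ 1 := by
      intro i
      refine Real.sqrt_le_iff.2 ⟨zero_le_one, ?_⟩
      simp only [Matrix.of_apply, Sum.elim_inr]
      rw [Equiv.sum_comp e (fun j => ((if j = jj (σ i) then ε (σ i) else 0 : ℤ) : ℝ) ^ 2)]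
      rw [Finset.sum_eq_single (jj (σ i))]
      · rw [if_pos rfl]
        rcases hε1 (σ i) with h | h <;> rw [h] <;> norm_num
      · intro j _ hj
        rw [if_neg hj]
        norm_num
      · intro h
        exact absurd (Finset.mem_univ _) h
    calc _ ≤ (∏ _a : Fin n, M) * ∏ _i : Fin m, (1 : ℝ) := by
          refine mul_le_mul (Finset.prod_le_prod (fun _ _ => Real.sqrt_nonneg _) fun a _ => h2 a)
            (Finset.prod_le_prod (fun _ _ => Real.sqrt_nonneg _) fun i _ => h3 i)
            (Finset.prod_nonneg fun _ _ => Real.sqrt_nonneg _)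
            (Finset.prod_nonneg fun _ _ => hM0)
      _ = M ^ n := by simp

end Pool.Agent.Tyz
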