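import Pool.Agent.Work.MP_4c3a42_al.HtSpec

open MvPolynomial

namespace Pool.Agent.Tyz

namespace HtLowAux

theorem rk_eq {E U : Type} [AddCommGroup U] [Module ℚ U] (v : E → U) (wt : E → ℕ) (j : ℕ) :
    rk (fun e : {e : E // wt e ≤ j} => v e) =
      Module.finrank ℚ (Submodule.span ℚ (v '' {e | wt e ≤ j})) := by
  rw [rk, Set.image_eq_range]
  rfl

theorem ncard_eq {E U : Type} [Fintype E] [AddCommGroup U] [Module ℚ U] (v : E → U)
    (s : Set E) (hs : LinearIndepOn ℚ v s) :
    s.ncard = Module.finrank ℚ (Submodule.span ℚ (v '' s)) := by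
  classical
  have h := finrank_span_eq_card (R := ℚ) (b := fun x : s => v x) hs
  rw [Set.image_eq_range, h, Set.ncard_eq_toFinset_card', Set.toFinset_card]

theorem greedy {E U : Type} [Fintype E] [AddCommGroup U] [Module ℚ U] (v : E → U) (wt : E → ℕ)
    (j : ℕ) :
    ∃ s : Set E, (∀ e ∈ s, wt e ≤ j) ∧ LinearIndepOn ℚ v s ∧
      Submodule.span ℚ (v '' s) = Submodule.span ℚ (v '' {e | wt e ≤ j}) ∧
      ∀ i ≤ j, rk (fun e : {e : E // wt e ≤ i} => v e) ≤ (s ∩ {e | wt e ≤ i}).ncard := by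
  induction j with
  | zero =>
    obtain ⟨b, hb1, -, hb2, hb3⟩ := exists_linearIndepOn_extension (K := ℚ) (v := v)
      (s := ∅) (t := {e | wt e ≤ 0}) (linearIndepOn_empty ℚ v) (Set.empty_subset _)
    have hsp : Submodule.span ℚ (v '' b) = Submodule.span ℚ (v '' {e | wt e ≤ 0}) :=
      le_antisymm (Submodule.span_mono (Set.image_mono hb1)) (Submodule.span_le.2 hb2)
    refine ⟨b, fun e he => hb1 he, hb3, hsp, ?_⟩
    intro i hi
    obtain rfl : i = 0 := by omega
    rw [rk_eq, Set.inter_eq_left.2 hb1, ncard_eq v b hb3, hsp]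
  | succ j ih =>
    obtain ⟨s, hs1, hs2, hs3, hs4⟩ := ih
    obtain ⟨b, hb1, hb0, hb2, hb3⟩ := exists_linearIndepOn_extension (K := ℚ) (v := v)
      (s := s) (t := {e | wt e ≤ j + 1}) hs2 (fun e he => (hs1 e he).trans (Nat.le_succ j))
    have hsp : Submodule.span ℚ (v '' b) = Submodule.span ℚ (v '' {e | wt e ≤ j + 1}) :=
      le_antisymm (Submodule.span_mono (Set.image_mono hb1)) (Submodule.span_le.2 hb2)
    refine ⟨b, fun e he => hb1 he, hb3, hsp, ?_⟩
    intro i hi
    rcases Nat.lt_or_ge j i with h | h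
    · obtain rfl : i = j + 1 := by omega
      rw [rk_eq, Set.inter_eq_left.2 hb1, ncard_eq v b hb3, hsp]
    · refine (hs4 i h).trans (Set.ncard_le_ncard ?_ (Set.toFinite _))
      exact Set.inter_subset_inter_left _ hb0

theorem exists_ne {E U : Type} [AddCommGroup U] [Module ℚ U] {v : E → U}
    {Ω : U [⋀^Fin (rk v)]→ₗ[ℚ] ℚ} (h : IsNF v Ω) :
    ∃ σ : Fin (rk v) → E, Ω (fun i => v (σ i)) ≠ 0 := by
  by_contra hcon
  push Not at hcon
  have h1 := h.one
  have h2 : (Set.range fun σ : Fin (rk v) → E => Ω (fun i => v (σ i))) ⊆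
      ((⊥ : AddSubgroup ℚ) : Set ℚ) := by
    rintro _ ⟨σ, rfl⟩
    simp [hcon σ]
  have h3 := (AddSubgroup.closure_le _).2 h2 h1
  rw [AddSubgroup.mem_bot] at h3
  norm_num at h3

/-- the good family -/
theorem exists_star {E U : Type} [Fintype E] [AddCommGroup U] [Module ℚ U]
    (v : E → U) (wt : E → ℕ) (D : ℕ) (hwt : ∀ e, wt e ≤ D)
    {Ω : U [⋀^Fin (rk v)]→ₗ[ℚ] ℚ} (h : IsNF v Ω) :
    ∃ σ : Fin (rk v) → E, 1 ≤ |((Ω (fun i => v (σ i)) : ℚ) : ℝ)| ∧
      (∑ i, wt (σ i)) + ∑ j ∈ Finset.range D, rk (fun e : {e : E // wt e ≤ j} => v e) ≤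
        D * rk v := by
  classical
  obtain ⟨s, hs1, hs2, hs3, hs4⟩ := greedy v wt D
  have hall : {e | wt e ≤ D} = Set.univ := by
    ext e
    simp [hwt e]
  rw [hall, Set.image_univ] at hs3
  have hcard : s.ncard = rk v := by
    rw [ncard_eq v s hs2, hs3, rk]
  have hfc : Fintype.card s = rk v := by
    rw [← hcard, Set.ncard_eq_toFinset_card', Set.toFinset_card]
  let eq : Fin (rk v) ≃ s := (finCongr hfc.symm).trans (Fintype.equivFin s).symm
  refine ⟨fun i => (eq i : E), ?_, ?_⟩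
  · -- nonvanishing
    have hli : LinearIndependent ℚ (fun i : Fin (rk v) => v (eq i : E)) :=
      LinearIndependent.comp hs2 eq eq.injective
    have hspan : Submodule.span ℚ (Set.range fun i : Fin (rk v) => v (eq i : E)) =
        Submodule.span ℚ (Set.range v) := by
      rw [← hs3, Set.image_eq_range]
      congr 1
      exact eq.surjective.range_comp (fun x : s => v x)
    have hmem : ∀ e, v e ∈ Submodule.span ℚ (Set.range fun i : Fin (rk v) => v (eq i : E)) := by
      intro e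
      rw [hspan]
      exact Submodule.subset_span ⟨e, rfl⟩
    have hne : Ω (fun i => v (eq i : E)) ≠ 0 := by
      intro h0
      obtain ⟨τ, hτ⟩ := exists_ne h
      apply hτ
      let b := Module.Basis.span hli
      let Ω' : (Submodule.span ℚ (Set.range fun i : Fin (rk v) => v (eq i : E)))
          [⋀^Fin (rk v)]→ₗ[ℚ] ℚ := Ω.compLinearMap (Submodule.subtype _)
      have h1 : Ω' = Ω' b • b.det := AlternatingMap.eq_smul_basis_det b Ω'
      have h2 : Ω' b = 0 := by
        have : (fun i => ((b i : Submodule.span ℚ (Set.range fun i : Fin (rk v) =>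
            v (eq i : E))) : U)) = fun i => v (eq i : E) := by
          funext i
          exact congrArg Subtype.val (Module.Basis.span_apply hli i)
        show Ω (fun i => ((b i : Submodule.span ℚ (Set.range fun i : Fin (rk v) =>
            v (eq i : E))) : U)) = 0
        rw [this, h0]
      have h3 : Ω' (fun i => ⟨v (τ i), hmem (τ i)⟩) = 0 := by
        rw [h1, h2, zero_smul]
        rfl
      exact h3
    obtain ⟨n, hn⟩ := h.int (fun i => (eq i : E))
    rw [hn] at hne ⊢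
    have hn0 : n ≠ 0 := by
      rintro rfl
      exact hne (by simp)
    have : (1 : ℤ) ≤ |n| := Int.one_le_abs hn0
    have h4 : ((|n| : ℤ) : ℝ) = |(((n : ℤ) : ℚ) : ℝ)| := by
      push_cast
      rfl
    rw [← h4]
    exact_mod_cast this
  · -- the weights
    have h1 : ∑ i, wt (eq i : E) = ∑ x : s, wt (x : E) := Equiv.sum_comp eq (fun x : s => wt x)
    have h2 : ∀ x : s, wt (x : E) = ∑ j ∈ Finset.range D, if wt (x : E) ≤ j then 0 else 1 := by
      intro x
      rw [Finset.sum_ite, Finset.sum_const_zero, zero_add, Finset.sum_const, smul_eq_mul, mul_one]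
      have : (Finset.range D).filter (fun j => ¬ wt (x : E) ≤ j) = Finset.range (wt (x : E)) := by
        ext j
        have := hwt x
        simp only [Finset.mem_filter, Finset.mem_range]
        omega
      rw [this, Finset.card_range]
    have h3 : ∑ x : s, wt (x : E) =
        ∑ j ∈ Finset.range D, ∑ x : s, if wt (x : E) ≤ j then 0 else 1 := by
      rw [Finset.sum_congr rfl fun x _ => h2 x, Finset.sum_comm]
    have h4 : ∀ j ∈ Finset.range D, (∑ x : s, if wt (x : E) ≤ j then 0 else 1) +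
        rk (fun e : {e : E // wt e ≤ j} => v e) ≤ rk v := by
      intro j hj
      rw [Finset.mem_range] at hj
      have h5 := hs4 j hj.le
      have h6 : (s ∩ {e | wt e ≤ j}).ncard = ∑ x : s, if wt (x : E) ≤ j then 1 else 0 := by
        rw [Set.ncard_eq_toFinset_card', ← Finset.card_filter]
        symm
        refine Finset.card_bij (fun (x : s) _ => (x : E)) ?_ ?_ ?_
        · intro x hx
          rw [Finset.mem_filter] at hx
          simp only [Set.mem_toFinset, Set.mem_inter_iff, Set.mem_setOf_eq]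
          exact ⟨x.2, hx.2⟩
        · intro x _ y _ hxy
          exact Subtype.ext hxy
        · intro e he
          simp only [Set.mem_toFinset, Set.mem_inter_iff, Set.mem_setOf_eq] at he
          exact ⟨⟨e, he.1⟩, by simp [he.2], rfl⟩
      have h7 : (∑ x : s, if wt (x : E) ≤ j then 0 else 1) +
          (∑ x : s, if wt (x : E) ≤ j then 1 else 0) = rk v := by
        rw [← Finset.sum_add_distrib, ← hfc, ← Finset.card_univ, Finset.card_eq_sum_ones]
        refine Finset.sum_congr rfl fun x _ => ?_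
        split_ifs <;> rfl
      omega
    rw [h1, h3, ← Finset.sum_add_distrib]
    calc _ ≤ ∑ j ∈ Finset.range D, rk v := Finset.sum_le_sum h4
      _ = D * rk v := by rw [Finset.sum_const, Finset.card_range, smul_eq_mul]

end HtLowAux

open HtLowAux

/-- Lower bound for the height of a weighted family in which all elements of small weight are
small combinations. -/
theorem ht_lower {E U : Type} [Fintype E] [AddCommGroup U] [Module ℚ U]
    (v : E → U) (wt : E → ℕ) (D δ : ℕ) (hwt : ∀ e, wt e ≤ D) (ρ : ℝ) (hρ : 1 ≤ ρ)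
    (hq : ∀ e, wt e + δ ≤ D → ∃ q : E → ℂ,
      (∀ ℓ : U →ₗ[ℚ] ℂ, ℓ (v e) = ∑ e', q e' * ℓ (v e')) ∧
      ∑ e', ‖q e'‖ * ρ ^ (wt e') < ρ ^ (wt e)) :
    Real.log ρ * ((∑ j ∈ Finset.range D, (rk (fun e : {e : E // wt e ≤ j} => v e) : ℝ))
      - δ * rk v) ≤ Real.log (ht v) := by
  classical
  have hρ0 : (0 : ℝ) < ρ := lt_of_lt_of_le one_pos hρ
  obtain ⟨Ω, hΩ⟩ := exists_isNF v
  obtain ⟨τ, hτ1, hτ2⟩ := exists_star v wt D hwt hΩ
  have : Nonempty (Fin (rk v) → E) := ⟨τ⟩
  obtain ⟨σ, hσ⟩ := Finite.exists_max (fun σ : Fin (rk v) → E =>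
    |((Ω (fun i => v (σ i)) : ℚ) : ℝ)| / ρ ^ (∑ i, wt (σ i)))
  have hmax : ∀ κ : Fin (rk v) → E, |((Ω (fun i => v (κ i)) : ℚ) : ℝ)| * ρ ^ (∑ i, wt (σ i)) ≤
      |((Ω (fun i => v (σ i)) : ℚ) : ℝ)| * ρ ^ (∑ i, wt (κ i)) := by
    intro κ
    have := hσ κ
    rwa [div_le_div_iff₀ (pow_pos hρ0 _) (pow_pos hρ0 _)] at this
  have hpos : 0 < |((Ω (fun i => v (σ i)) : ℚ) : ℝ)| := by
    have h1 := hmax τ
    by_contra hcon
    have h2 : |((Ω (fun i => v (σ i)) : ℚ) : ℝ)| = 0 :=
      le_antisymm (not_lt.1 hcon) (abs_nonneg _)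
    rw [h2, zero_mul] at h1
    have h3 : 0 < |((Ω (fun i => v (τ i)) : ℚ) : ℝ)| * ρ ^ (∑ i, wt (σ i)) :=
      mul_pos (lt_of_lt_of_le one_pos hτ1) (pow_pos hρ0 _)
    linarith
  -- the weights of `σ` are large
  have hlarge : ∀ i, D ≤ wt (σ i) + δ := by
    intro i
    by_contra hcon
    push Not at hcon
    obtain ⟨q, hq1, hq2⟩ := hq (σ i) hcon.le
    let ℓ : U →ₗ[ℚ] ℂ :=
      (Algebra.linearMap ℚ ℂ) ∘ₗ (Ω.toMultilinearMap.toLinearMap (fun j => v (σ j)) i)
    have hℓ : ∀ e', ℓ (v e') = ((Ω (fun j => v (Function.update σ i e' j)) : ℚ) : ℂ) := by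
      intro e'
      have h1 : Function.update (fun j => v (σ j)) i (v e') =
          fun j => v (Function.update σ i e' j) := by
        funext j
        by_cases hj : j = i
        · subst hj
          simp
        · simp [hj]
      show algebraMap ℚ ℂ (Ω (Function.update (fun j => v (σ j)) i (v e'))) = _
      rw [h1]
      rfl
    have h2 := hq1 ℓ
    have h3 : ℓ (v (σ i)) = ((Ω (fun j => v (σ j)) : ℚ) : ℂ) := by
      rw [hℓ, Function.update_eq_self]
    rw [h3] at h2
    have h4 : |((Ω (fun j => v (σ j)) : ℚ) : ℝ)| ≤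
        ∑ e', ‖q e'‖ * |((Ω (fun j => v (Function.update σ i e' j)) : ℚ) : ℝ)| := by
      have h5 : ‖((Ω (fun j => v (σ j)) : ℚ) : ℂ)‖ = |((Ω (fun j => v (σ j)) : ℚ) : ℝ)| := by
        rw [← Complex.ofReal_ratCast, Complex.norm_real, Real.norm_eq_abs]
      rw [← h5, h2]
      refine (norm_sum_le _ _).trans (Finset.sum_le_sum fun e' _ => ?_)
      rw [norm_mul, hℓ, ← Complex.ofReal_ratCast, Complex.norm_real, Real.norm_eq_abs]
    have h6 : ∀ e', |((Ω (fun j => v (Function.update σ i e' j)) : ℚ) : ℝ)| * ρ ^ (wt (σ i)) ≤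
        |((Ω (fun j => v (σ j)) : ℚ) : ℝ)| * ρ ^ (wt e') := by
      intro e'
      have h7 := hmax (Function.update σ i e')
      have h8 : (∑ j, wt (Function.update σ i e' j)) + wt (σ i) = (∑ j, wt (σ j)) + wt e' := by
        rw [← Finset.add_sum_erase _ (fun j => wt (Function.update σ i e' j)) (Finset.mem_univ i),
          ← Finset.add_sum_erase _ (fun j => wt (σ j)) (Finset.mem_univ i),
          Function.update_self]
        have h9 : ∑ j ∈ Finset.univ.erase i, wt (Function.update σ i e' j) =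
            ∑ j ∈ Finset.univ.erase i, wt (σ j) := by
          refine Finset.sum_congr rfl fun j hj => ?_
          rw [Function.update_of_ne (Finset.ne_of_mem_erase hj)]
        rw [h9]
        omega
      have h10 := mul_le_mul_of_nonneg_right h7 (pow_nonneg hρ0.le (wt (σ i)))
      rw [mul_assoc, mul_assoc, ← pow_add ρ (∑ j, wt (Function.update σ i e' j)), h8, pow_add,
        mul_comm (ρ ^ (∑ i, wt (σ i))) (ρ ^ wt (σ i)), ← mul_assoc,
        mul_comm (ρ ^ (∑ i, wt (σ i))) (ρ ^ wt e'), ← mul_assoc] at h10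
      exact le_of_mul_le_mul_right h10 (pow_pos hρ0 _)
    have h11 : |((Ω (fun j => v (σ j)) : ℚ) : ℝ)| * ρ ^ (wt (σ i)) ≤
        |((Ω (fun j => v (σ j)) : ℚ) : ℝ)| * ∑ e', ‖q e'‖ * ρ ^ (wt e') := by
      refine (mul_le_mul_of_nonneg_right h4 (pow_nonneg hρ0.le _)).trans ?_
      rw [Finset.sum_mul, Finset.mul_sum]
      refine Finset.sum_le_sum fun e' _ => ?_
      have := mul_le_mul_of_nonneg_left (h6 e') (norm_nonneg (q e'))
      linarith
    have h12 := mul_lt_mul_of_pos_left hq2 hpos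
    linarith
  -- conclusion
  have h1 := hmax τ
  have h2 : ρ ^ (∑ i, wt (σ i)) ≤
      |((Ω (fun i => v (σ i)) : ℚ) : ℝ)| * ρ ^ (∑ i, wt (τ i)) := by
    refine le_trans ?_ h1
    have := mul_le_mul_of_nonneg_right hτ1 (pow_nonneg hρ0.le (∑ i, wt (σ i)))
    linarith
  have h3 := Real.log_le_log (pow_pos hρ0 _) h2
  rw [Real.log_mul hpos.ne' (pow_pos hρ0 _).ne', Real.log_pow, Real.log_pow] at h3
  have h4 : Real.log |((Ω (fun i => v (σ i)) : ℚ) : ℝ)| ≤ Real.log (ht v) :=
    Real.log_le_log hpos (hΩ.le_ht σ)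
  have h5 : (D : ℝ) * rk v ≤ ((∑ i, wt (σ i) : ℕ) : ℝ) + δ * rk v := by
    have : ∑ _i : Fin (rk v), D ≤ ∑ i, (wt (σ i) + δ) := Finset.sum_le_sum fun i _ => hlarge i
    rw [Finset.sum_add_distrib, Finset.sum_const, Finset.sum_const, Finset.card_univ,
      Fintype.card_fin, smul_eq_mul, smul_eq_mul] at this
    have h6 : ((rk v * D : ℕ) : ℝ) ≤ ((∑ i, wt (σ i) + rk v * δ : ℕ) : ℝ) := by
      exact_mod_cast this
    push_cast at h6 ⊢
    linarith
  have h7 : ((∑ i, wt (τ i) : ℕ) : ℝ) +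
      ∑ j ∈ Finset.range D, (rk (fun e : {e : E // wt e ≤ j} => v e) : ℝ) ≤ D * rk v := by
    exact_mod_cast hτ2
  have h8 : 0 ≤ Real.log ρ := Real.log_nonneg hρ
  have h9 : (∑ j ∈ Finset.range D, (rk (fun e : {e : E // wt e ≤ j} => v e) : ℝ)) - δ * rk v ≤
      ((∑ i, wt (σ i) : ℕ) : ℝ) - ((∑ i, wt (τ i) : ℕ) : ℝ) := by
    linarith
  have h10 := mul_le_mul_of_nonneg_left h9 h8
  nlinarith [h10, h3, h4]

end Pool.Agent.Tyz
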