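import Pool.Agent.Work.MP_4c3a42_al.Defs

open MvPolynomial

namespace Pool.Agent.Tyz

variable {E U : Type} [AddCommGroup U] [Module ℚ U]

/-- Top forms on a finite dimensional space are proportional. -/
theorem top_prop (W : Submodule ℚ U) [FiniteDimensional ℚ W] {h : ℕ}
    (hW : Module.finrank ℚ W = h) (Ω Ω' : U [⋀^Fin h]→ₗ[ℚ] ℚ) (w₀ : Fin h → U)
    (hw₀ : ∀ i, w₀ i ∈ W) (hne : Ω w₀ ≠ 0) :
    ∃ c : ℚ, ∀ w : Fin h → U, (∀ i, w i ∈ W) → Ω' w = c * Ω w := by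
  classical
  let b : Module.Basis (Fin h) ℚ W := Module.finBasisOfFinrankEq ℚ W hW
  have key : ∀ (F : U [⋀^Fin h]→ₗ[ℚ] ℚ) (w : Fin h → U) (hw : ∀ i, w i ∈ W),
      F w = F (fun i => (b i : U)) * b.det (fun i => (⟨w i, hw i⟩ : W)) := by
    intro F w hw
    have h1 := AlternatingMap.eq_smul_basis_det b (F.compLinearMap W.subtype)
    have h2 := congrArg (fun G : W [⋀^Fin h]→ₗ[ℚ] ℚ => G (fun i => (⟨w i, hw i⟩ : W))) h1
    simpa [AlternatingMap.compLinearMap_apply, Function.comp_def] using h2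
  have hb : Ω (fun i => (b i : U)) ≠ 0 := by
    intro h0
    apply hne
    rw [key Ω w₀ hw₀, h0, zero_mul]
  refine ⟨Ω' (fun i => (b i : U)) / Ω (fun i => (b i : U)), fun w hw => ?_⟩
  rw [key Ω w hw, key Ω' w hw]
  field_simp

instance finDim_span_range [Finite E] (v : E → U) :
    FiniteDimensional ℚ (Submodule.span ℚ (Set.range v)) :=
  FiniteDimensional.span_of_finite ℚ (Set.finite_range v)

theorem IsNF.exists_ne {v : E → U} {Ω : U [⋀^Fin (rk v)]→ₗ[ℚ] ℚ} (h : IsNF v Ω) :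
    ∃ σ : Fin (rk v) → E, Ω (fun i => v (σ i)) ≠ 0 := by
  by_contra hcon
  push Not at hcon
  have h1 : AddSubgroup.closure (Set.range fun σ : Fin (rk v) → E => Ω (fun i => v (σ i))) ≤ ⊥ := by
    rw [AddSubgroup.closure_le]
    rintro _ ⟨σ, rfl⟩
    simp [hcon σ]
  have h2 := h1 h.one
  simp at h2

/-- The scaling argument: if `1` is in the subgroup generated by the values `a`, and `c * a` is
an integer for all the values, `c` is an integer. -/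
theorem int_of_mul_closure {V : Set ℚ} (h1 : (1 : ℚ) ∈ AddSubgroup.closure V) {c : ℚ}
    (hc : ∀ a ∈ V, ∃ n : ℤ, c * a = n) : ∃ n : ℤ, c = n := by
  have h2 : AddSubgroup.closure V ≤
      ((Int.castAddHom ℚ).range).comap (AddMonoidHom.mulLeft c) := by
    rw [AddSubgroup.closure_le]
    intro a ha
    obtain ⟨n, hn⟩ := hc a ha
    exact ⟨n, by simpa using hn.symm⟩
  obtain ⟨n, hn⟩ := h2 h1
  exact ⟨n, by simpa using hn.symm⟩

theorem exists_isNF_aux [Finite E] (v : E → U) :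
    ∃ (Ω : U [⋀^Fin (rk v)]→ₗ[ℚ] ℚ) (σ : Fin (rk v) → E), Ω (fun i => v (σ i)) ≠ 0 := by
  classical
  -- a basis of the span inside the family
  obtain ⟨f, hf1, hf2, hf3⟩ : ∃ f : Fin (rk v) → U, (∀ i, f i ∈ Set.range v) ∧
      Submodule.span ℚ (Set.range f) = Submodule.span ℚ (Set.range v) ∧ LinearIndependent ℚ f :=
    Submodule.exists_fun_fin_finrank_span_eq ℚ (Set.range v)
  choose σ hσ using hf1
  have hmem : ∀ i, f i ∈ Submodule.span ℚ (Set.range v) := fun i => by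
    rw [← hσ i]
    exact Submodule.subset_span ⟨σ i, rfl⟩
  let f' : Fin (rk v) → Submodule.span ℚ (Set.range v) := fun i => ⟨f i, hmem i⟩
  have hf' : LinearIndependent ℚ f' := by
    refine LinearIndependent.of_comp (Submodule.span ℚ (Set.range v)).subtype ?_
    exact hf3
  let b : Module.Basis (Fin (rk v)) ℚ (Submodule.span ℚ (Set.range v)) :=
    basisOfLinearIndependentOfCardEqFinrank' f' hf' (by rw [Fintype.card_fin]; rfl)
  have hb : ∀ i, b i = f' i := fun i => by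
    simp only [b, coe_basisOfLinearIndependentOfCardEqFinrank']
  obtain ⟨g, hg⟩ := LinearMap.exists_leftInverse_of_injective
    (Submodule.span ℚ (Set.range v)).subtype (Submodule.ker_subtype _)
  refine ⟨b.det.compLinearMap g, σ, ?_⟩
  have h1 : (fun i => g (v (σ i))) = b := by
    funext i
    rw [hb i, hσ i]
    have := LinearMap.congr_fun hg (f' i)
    simpa using this
  have h2 : (b.det.compLinearMap g) (fun i => v (σ i)) = b.det (fun i => g (v (σ i))) := rfl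
  rw [h2, h1, Module.Basis.det_self]
  exact one_ne_zero

/-- Existence of a normalised form. -/
theorem exists_isNF [Finite E] (v : E → U) :
    ∃ Ω : U [⋀^Fin (rk v)]→ₗ[ℚ] ℚ, IsNF v Ω := by
  classical
  obtain ⟨Ω₀, σ₀, hσ₀⟩ := exists_isNF_aux v
  have : Fintype (Fin (rk v) → E) := Fintype.ofFinite _
  set a : (Fin (rk v) → E) → ℚ := fun σ => Ω₀ (fun i => v (σ i)) with ha
  set N : ℕ := ∏ σ, (a σ).den with hN
  have hNpos : 0 < N := Finset.prod_pos fun σ _ => (a σ).den_pos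
  have hNint : ∀ σ, ∃ n : ℤ, (N : ℚ) * a σ = n := by
    intro σ
    obtain ⟨k, hk⟩ : (a σ).den ∣ N := Finset.dvd_prod_of_mem _ (Finset.mem_univ σ)
    refine ⟨k * (a σ).num, ?_⟩
    have h1 : ((a σ).den : ℚ) * a σ = (a σ).num := Rat.den_mul_eq_num (a σ)
    rw [hk]
    push_cast
    rw [mul_comm ((a σ).den : ℚ) (k : ℚ), mul_assoc, h1]
  set V : Set ℚ := Set.range fun σ => (N : ℚ) * a σ with hV
  obtain ⟨d, hd⟩ := Int.subgroup_cyclic ((AddSubgroup.closure V).comap (Int.castAddHom ℚ))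
  have hcl : ∀ q ∈ AddSubgroup.closure V, ∃ n : ℤ, q = n * (d : ℚ) := by
    intro q hq
    have h1 : AddSubgroup.closure V ≤ (Int.castAddHom ℚ).range := by
      rw [AddSubgroup.closure_le]
      rintro _ ⟨σ, rfl⟩
      obtain ⟨n, hn⟩ := hNint σ
      exact ⟨n, by simpa using hn.symm⟩
    obtain ⟨m, hm⟩ := h1 hq
    have h2 : m ∈ (AddSubgroup.closure V).comap (Int.castAddHom ℚ) := by
      rw [AddSubgroup.mem_comap, hm]; exact hq
    rw [hd, AddSubgroup.mem_closure_singleton] at h2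
    obtain ⟨n, hn⟩ := h2
    refine ⟨n, ?_⟩
    rw [← hm, ← hn]
    simp
  have hdmem : (d : ℚ) ∈ AddSubgroup.closure V := by
    have h2 : d ∈ (AddSubgroup.closure V).comap (Int.castAddHom ℚ) := by
      rw [hd]; exact AddSubgroup.mem_closure_singleton_self d
    simpa using h2
  have hd0 : (d : ℚ) ≠ 0 := by
    intro h0
    obtain ⟨n, hn⟩ := hcl ((N : ℚ) * a σ₀) (AddSubgroup.subset_closure ⟨σ₀, rfl⟩)
    rw [h0, mul_zero] at hn
    rcases mul_eq_zero.1 hn with h | h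
    · exact hNpos.ne' (by exact_mod_cast h)
    · exact hσ₀ h
  refine ⟨((N : ℚ) / d) • Ω₀, ?_, ?_⟩
  · intro σ
    obtain ⟨n, hn⟩ := hcl ((N : ℚ) * a σ) (AddSubgroup.subset_closure ⟨σ, rfl⟩)
    refine ⟨n, ?_⟩
    have : (((N : ℚ) / d) • Ω₀) (fun i => v (σ i)) = (N : ℚ) * a σ / d := by
      simp only [AlternatingMap.smul_apply, smul_eq_mul, ha]
      ring
    rw [this, hn, mul_div_assoc, div_self hd0, mul_one]
  · have h3 : AddSubgroup.closure V ≤ (AddSubgroup.closure (Set.range fun σ : Fin (rk v) → E =>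
        (((N : ℚ) / d) • Ω₀) (fun i => v (σ i)))).comap (AddMonoidHom.mulLeft (d : ℚ)⁻¹) := by
      rw [AddSubgroup.closure_le]
      rintro _ ⟨σ, rfl⟩
      rw [SetLike.mem_coe, AddSubgroup.mem_comap]
      refine AddSubgroup.subset_closure ⟨σ, ?_⟩
      simp only [AlternatingMap.smul_apply, smul_eq_mul, ha, AddMonoidHom.coe_mulLeft]
      ring
    have h4 := h3 hdmem
    rw [AddSubgroup.mem_comap] at h4
    simpa [inv_mul_cancel₀ hd0] using h4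

/-- Any integral form on the family is an integral multiple of a normalised form. -/
theorem IsNF.exists_int_mul [Finite E] {v : E → U} {Ω : U [⋀^Fin (rk v)]→ₗ[ℚ] ℚ} (h : IsNF v Ω)
    (Ω' : U [⋀^Fin (rk v)]→ₗ[ℚ] ℚ)
    (hint : ∀ σ : Fin (rk v) → E, ∃ n : ℤ, Ω' (fun i => v (σ i)) = n) :
    ∃ c : ℤ, ∀ σ : Fin (rk v) → E, Ω' (fun i => v (σ i)) = c * Ω (fun i => v (σ i)) := by
  obtain ⟨σ₀, hσ₀⟩ := h.exists_ne
  obtain ⟨c, hc⟩ := top_prop (Submodule.span ℚ (Set.range v)) (h := rk v) rfl Ω Ω'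
    (fun i => v (σ₀ i)) (fun i => Submodule.subset_span ⟨σ₀ i, rfl⟩) hσ₀
  obtain ⟨n, hn⟩ := int_of_mul_closure h.one (c := c) (by
    rintro _ ⟨σ, rfl⟩
    obtain ⟨m, hm⟩ := hint σ
    refine ⟨m, ?_⟩
    rw [← hm, hc _ fun i => Submodule.subset_span ⟨σ i, rfl⟩])
  refine ⟨n, fun σ => ?_⟩
  rw [hc _ fun i => Submodule.subset_span ⟨σ i, rfl⟩, hn]

/-- Bounding an integral form bounds a normalised form. -/
theorem IsNF.abs_le_of_form [Finite E] {v : E → U} {Ω : U [⋀^Fin (rk v)]→ₗ[ℚ] ℚ} (h : IsNF v Ω)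
    (Ω' : U [⋀^Fin (rk v)]→ₗ[ℚ] ℚ)
    (hint : ∀ σ : Fin (rk v) → E, ∃ n : ℤ, Ω' (fun i => v (σ i)) = n)
    (hne : ∃ σ : Fin (rk v) → E, Ω' (fun i => v (σ i)) ≠ 0) (σ : Fin (rk v) → E) :
    |((Ω fun i => v (σ i) : ℚ) : ℝ)| ≤ |((Ω' fun i => v (σ i) : ℚ) : ℝ)| := by
  obtain ⟨c, hc⟩ := h.exists_int_mul Ω' hint
  obtain ⟨σ₁, hσ₁⟩ := hne
  have hc0 : c ≠ 0 := by
    rintro rfl
    apply hσ₁
    rw [hc σ₁]
    simp
  have h1 : (1 : ℝ) ≤ |(c : ℝ)| := by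
    have : (1 : ℤ) ≤ |c| := Int.one_le_abs hc0
    exact_mod_cast this
  rw [hc σ]
  push_cast
  rw [abs_mul]
  nlinarith [abs_nonneg (((Ω fun i => v (σ i)) : ℚ) : ℝ)]

theorem IsNF.abs_eq [Finite E] {v : E → U} {Ω Ω' : U [⋀^Fin (rk v)]→ₗ[ℚ] ℚ} (h : IsNF v Ω)
    (h' : IsNF v Ω') (σ : Fin (rk v) → E) :
    |((Ω fun i => v (σ i) : ℚ) : ℝ)| = |((Ω' fun i => v (σ i) : ℚ) : ℝ)| :=
  le_antisymm (h.abs_le_of_form Ω' h'.int h'.exists_ne σ)
    (h'.abs_le_of_form Ω h.int h.exists_ne σ)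

theorem bddBelow_ht (v : E → U) :
    BddBelow {B : ℝ | 0 ≤ B ∧ ∃ Ω : U [⋀^Fin (rk v)]→ₗ[ℚ] ℚ, IsNF v Ω ∧
      ∀ σ : Fin (rk v) → E, |((Ω fun i => v (σ i) : ℚ) : ℝ)| ≤ B} :=
  ⟨0, fun _ hB => hB.1⟩

/-- To bound the height it is enough to bound one normalised form. -/
theorem IsNF.ht_le [Finite E] {v : E → U} {Ω : U [⋀^Fin (rk v)]→ₗ[ℚ] ℚ} (h : IsNF v Ω)
    {B : ℝ} (hB : ∀ σ : Fin (rk v) → E, |((Ω fun i => v (σ i) : ℚ) : ℝ)| ≤ B) : ht v ≤ B := by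
  obtain ⟨σ, -⟩ := h.exists_ne
  exact csInf_le (bddBelow_ht v) ⟨(abs_nonneg _).trans (hB σ), Ω, h, hB⟩

/-- Every Plücker coordinate of a normalised form is bounded by the height. -/
theorem IsNF.le_ht [Finite E] {v : E → U} {Ω : U [⋀^Fin (rk v)]→ₗ[ℚ] ℚ} (h : IsNF v Ω)
    (σ : Fin (rk v) → E) : |((Ω fun i => v (σ i) : ℚ) : ℝ)| ≤ ht v := by
  have : Fintype (Fin (rk v) → E) := Fintype.ofFinite _
  refine le_csInf ?_ ?_
  · refine ⟨∑ σ : Fin (rk v) → E, |((Ω fun i => v (σ i) : ℚ) : ℝ)|, Finset.sum_nonneg fun _ _ => abs_nonneg _, Ω, h,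
      fun σ => ?_⟩
    exact Finset.single_le_sum (f := fun σ : Fin (rk v) → E => |((Ω fun i => v (σ i) : ℚ) : ℝ)|)
      (fun _ _ => abs_nonneg _) (Finset.mem_univ σ)
  · rintro B ⟨-, Ω', h', hB⟩
    rw [h.abs_eq h' σ]
    exact hB σ

/-- The height is attained. -/
theorem IsNF.exists_eq_ht [Finite E] {v : E → U} {Ω : U [⋀^Fin (rk v)]→ₗ[ℚ] ℚ} (h : IsNF v Ω) :
    ∃ σ : Fin (rk v) → E, |((Ω fun i => v (σ i) : ℚ) : ℝ)| = ht v := by
  have : Nonempty (Fin (rk v) → E) := ⟨h.exists_ne.choose⟩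
  obtain ⟨σ, hσ⟩ := Finite.exists_max fun σ : Fin (rk v) → E => |((Ω fun i => v (σ i) : ℚ) : ℝ)|
  exact ⟨σ, le_antisymm (h.le_ht σ) (h.ht_le hσ)⟩

theorem one_le_ht [Finite E] (v : E → U) : 1 ≤ ht v := by
  obtain ⟨Ω, h⟩ := exists_isNF v
  obtain ⟨σ, hσ⟩ := h.exists_ne
  refine le_trans ?_ (h.le_ht σ)
  obtain ⟨n, hn⟩ := h.int σ
  rw [hn] at hσ ⊢
  have h0 : n ≠ 0 := by
    rintro rfl
    exact hσ (by simp)
  have : (1 : ℤ) ≤ |n| := Int.one_le_abs h0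
  push_cast
  exact_mod_cast this

/-- If `Ω` is any top form with integer Plücker coordinates, not all zero, bounded by `B`,
then the height is at most `B`. -/
theorem ht_le_of_form [Finite E] (v : E → U) (Ω : U [⋀^Fin (rk v)]→ₗ[ℚ] ℚ)
    (hint : ∀ σ : Fin (rk v) → E, ∃ n : ℤ, Ω (fun i => v (σ i)) = n)
    (hne : ∃ σ : Fin (rk v) → E, Ω (fun i => v (σ i)) ≠ 0)
    {B : ℝ} (hB : ∀ σ : Fin (rk v) → E, |((Ω fun i => v (σ i) : ℚ) : ℝ)| ≤ B) : ht v ≤ B := by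
  obtain ⟨Ω', h'⟩ := exists_isNF v
  exact h'.ht_le fun σ => (h'.abs_le_of_form Ω hint hne σ).trans (hB σ)

end Pool.Agent.Tyz
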