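import Pool.Agent.Work.MP_4c3a42_al.Chain
import Pool.Agent.Work.MP_4c3a42_al.BaseLh
import Pool.Agent.Work.MP_4c3a42_al.Count

open MvPolynomial

namespace Pool.Agent.Tyz

variable {ι : Type} [Fintype ι] [DecidableEq ι]

/-- The statement to be proved for the nonzero part of a point. -/
def Target (x : ι → ℂ) (o : ι) : Prop :=
  ∃ z : ι → ℂ, z o = 1 ∧ (∀ i, ‖z i‖ ≤ (2 : ℝ) ^ (2 ^ (Fintype.card ι - 2))) ∧ Pres x z

/-- The additive relations of `x` as linear forms. -/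
def TT (x : ι → ℂ) : Set (MvPolynomial ι ℤ) :=
  {F | (∃ i j k, x i + x j = x k ∧ F = X i + X j - X k) ∨ (∃ i j, x i + x j = 0 ∧ F = X i + X j)}

theorem l1_add (F G : MvPolynomial ι ℤ) : l1 (F + G) ≤ l1 F + l1 G := by
  classical
  unfold l1
  have h1 : ∑ m ∈ (F + G).support, |(((F + G).coeff m : ℤ) : ℝ)| ≤
      ∑ m ∈ F.support ∪ G.support, |(((F + G).coeff m : ℤ) : ℝ)| := by
    apply Finset.sum_le_sum_of_subset_of_nonneg support_add
    intro _ _ _; exact abs_nonneg _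
  have h2 : ∑ m ∈ F.support ∪ G.support, |(((F + G).coeff m : ℤ) : ℝ)| ≤
      ∑ m ∈ F.support ∪ G.support, (|((F.coeff m : ℤ) : ℝ)| + |((G.coeff m : ℤ) : ℝ)|) := by
    apply Finset.sum_le_sum
    intro m _
    rw [coeff_add]; push_cast; exact abs_add_le _ _
  have h3 : ∑ m ∈ F.support ∪ G.support, |((F.coeff m : ℤ) : ℝ)| =
      ∑ m ∈ F.support, |((F.coeff m : ℤ) : ℝ)| := by
    symm
    apply Finset.sum_subset Finset.subset_union_left
    intro m _ hm
    rw [notMem_support_iff.1 hm]; simp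
  have h4 : ∑ m ∈ F.support ∪ G.support, |((G.coeff m : ℤ) : ℝ)| =
      ∑ m ∈ G.support, |((G.coeff m : ℤ) : ℝ)| := by
    symm
    apply Finset.sum_subset Finset.subset_union_right
    intro m _ hm
    rw [notMem_support_iff.1 hm]; simp
  rw [Finset.sum_add_distrib, h3, h4] at h2
  exact h1.trans h2

theorem l1_neg (F : MvPolynomial ι ℤ) : l1 (-F) = l1 F := by
  unfold l1; simp

theorem l1_X (i : ι) : l1 (X i : MvPolynomial ι ℤ) = 1 := by
  classical
  unfold l1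
  rw [support_X, Finset.sum_singleton, coeff_X]
  simp

theorem TT_small (x : ι → ℂ) (F : MvPolynomial ι ℤ) (hF : F ∈ TT x) : SmallForm F := by
  rcases hF with ⟨i, j, k, -, rfl⟩ | ⟨i, j, -, rfl⟩
  · refine ⟨((isHomogeneous_X ℤ i).add (isHomogeneous_X ℤ j)).sub (isHomogeneous_X ℤ k), ?_⟩
    have h1 := l1_add (X i + X j : MvPolynomial ι ℤ) (-X k)
    have h2 := l1_add (X i : MvPolynomial ι ℤ) (X j)
    rw [l1_neg, l1_X, ← sub_eq_add_neg] at h1
    rw [l1_X, l1_X] at h2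
    linarith
  · refine ⟨(isHomogeneous_X ℤ i).add (isHomogeneous_X ℤ j), ?_⟩
    have h2 := l1_add (X i : MvPolynomial ι ℤ) (X j)
    rw [l1_X, l1_X] at h2
    linarith

theorem TT_mx (x : ι → ℂ) (F : MvPolynomial ι ℤ) (hF : F ∈ TT x) : toQ F ∈ mx x := by
  rw [mx, RingHom.mem_ker]
  rcases hF with ⟨i, j, k, h, rfl⟩ | ⟨i, j, h, rfl⟩
  · simp only [toQ, map_sub, map_add, map_X, aeval_X]
    rw [← h, map_add]; ring
  · simp only [toQ, map_add, map_X, aeval_X]
    rw [← add_mul, ← map_add, h, map_zero, zero_mul]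

theorem pres_of_zero (x : ι → ℂ) {o : ι} (d : LatData x o) (hxo : x o = 1)
    (P : Ideal (MvPolynomial ι ℚ)) (hP : P0 x d ≤ P) (hT : ∀ F ∈ TT x, toQ F ∈ P)
    (z : ι → ℂ) (hzo : z o = 1) (hz : ∀ F ∈ P, aeval z F = 0) : Pres x z where
  eq i j h := by
    have := hz _ (hP (P0_eq x d i j h))
    simpa [sub_eq_zero] using this
  mul i j k h := by
    have := hz _ (hP (P0_mul x d hxo i j k h))
    simpa [sub_eq_zero, hzo] using this
  add i j k h := by
    have := hz _ (hT _ (Or.inl ⟨i, j, k, h, rfl⟩))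
    simpa [toQ, sub_eq_zero] using this
  neg i j h := by
    have := hz _ (hT _ (Or.inr ⟨i, j, h, rfl⟩))
    simpa [toQ] using this

theorem good_zero (x : ι → ℂ) {o : ι} (d : LatData x o) (hx0 : ∀ i, x i ≠ 0) (hxo : x o = 1) :
    Good (P0 x d) (mx x) d.u 0 0 (P0 x d) := by
  obtain ⟨C, hC, hlh⟩ := P0_lh x d hx0 hxo
  refine ⟨P0_prime x d, P0_HI x d, le_rfl, P0_le_mx x d, le_rfl, ?_, 0, C, hC, fun D => ⟨?_, ?_⟩⟩
  · intro n hn
    obtain rfl : n = d.u + 1 := by omega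
    exact P0_tr x d hx0
  · simp
  · have := hlh D
    simpa using this

theorem target_of_good (x : ι → ℂ) {o : ι} (d : LatData x o) (hx0 : ∀ i, x i ≠ 0) (hxo : x o = 1)
    {s : ℕ} {c : ℝ} {P : Ideal (MvPolynomial ι ℚ)} (hG : Good (P0 x d) (mx x) d.u s c P)
    (hs : s ≤ d.u) (hT : ∀ F ∈ TT x, toQ F ∈ P) (η : ℝ) (hη : 0 ≤ η)
    (hd : ∀ D, η * ((D + (d.u - s)).choose (d.u - s) : ℝ) ≤ hf P (D + 1))
    (hlt : c * 2 ^ d.k < η * (2 ^ (d.k + d.u - 1) * Real.log 2)) : Target x o := by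
  have hcard : Fintype.card ι - 2 = d.k + d.u - 1 := by have := d.card; omega
  obtain ⟨z, hzo, hzb, hz⟩ := machine hG hs o (X_notMem_mx x o (hx0 o)) (count x d hx0 hxo)
    η ((2 : ℝ) ^ (2 ^ (Fintype.card ι - 2))) hη (one_le_pow₀ (by norm_num)) hd (by
      rw [Real.log_pow, hcard]; push_cast; exact hlt)
  exact ⟨z, hzo, hzb, pres_of_zero x d hxo P hG.ge hT z hzo hz⟩

theorem num1 : ∀ v : ℕ, (v : ℝ) * Real.log 3 < 2 ^ v * Real.log 2 := by
  have key : ∀ v : ℕ, 3 ^ v < 2 ^ 2 ^ v := by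
    intro v
    induction v with
    | zero => norm_num
    | succ n ih =>
      rcases Nat.lt_or_ge n 1 with h | h
      · interval_cases n; norm_num
      · have h4 : 3 ≤ 2 ^ 2 ^ n := by
          calc 3 ≤ 2 ^ 2 := by norm_num
            _ ≤ 2 ^ 2 ^ n := Nat.pow_le_pow_right (by norm_num) (by
              calc 2 = 2 ^ 1 := rfl
                _ ≤ 2 ^ n := Nat.pow_le_pow_right (by norm_num) h)
        calc 3 ^ (n + 1) = 3 ^ n * 3 := pow_succ _ _
          _ < 2 ^ 2 ^ n * 2 ^ 2 ^ n := by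
            apply Nat.mul_lt_mul_of_lt_of_le ih h4 (by norm_num)
          _ = 2 ^ 2 ^ (n + 1) := by rw [← pow_add, pow_succ, mul_two]
  intro v
  have h := key v
  have h2 : ((3 : ℝ) ^ v) < 2 ^ 2 ^ v := by exact_mod_cast h
  have h3 := Real.log_lt_log (by positivity) h2
  rw [Real.log_pow, Real.log_pow] at h3
  exact_mod_cast h3

theorem num2 (v : ℕ) (hv : 3 ≤ v) : ((v + 1 : ℕ) : ℝ) * Real.log 3 < 2 ^ v * Real.log 2 := by
  have key : ∀ v : ℕ, 3 ≤ v → 3 ^ (v + 1) < 2 ^ 2 ^ v := by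
    intro v hv
    induction v, hv using Nat.le_induction with
    | base => norm_num
    | succ n hn ih =>
      have h4 : 3 ≤ 2 ^ 2 ^ n := by
        calc 3 ≤ 2 ^ 2 := by norm_num
          _ ≤ 2 ^ 2 ^ n := Nat.pow_le_pow_right (by norm_num) (by
            calc 2 = 2 ^ 1 := rfl
              _ ≤ 2 ^ n := Nat.pow_le_pow_right (by norm_num) (by omega))
      calc 3 ^ (n + 1 + 1) = 3 ^ (n + 1) * 3 := pow_succ _ _
        _ < 2 ^ 2 ^ n * 2 ^ 2 ^ n := by
          apply Nat.mul_lt_mul_of_lt_of_le ih h4 (by norm_num)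
        _ = 2 ^ 2 ^ (n + 1) := by rw [← pow_add, pow_succ, mul_two]
  have h := key v hv
  have h2 : ((3 : ℝ) ^ (v + 1)) < 2 ^ 2 ^ v := by exact_mod_cast h
  have h3 := Real.log_lt_log (by positivity) h2
  rw [Real.log_pow, Real.log_pow] at h3
  exact_mod_cast h3

/-- Lower bound for the Hilbert function with `η = 1`. -/
theorem hd_one {P₀ m P : Ideal (MvPolynomial ι ℚ)} {u s : ℕ} {c : ℝ}
    (hG : Good P₀ m u s c P) (hs : s ≤ u) (D : ℕ) :
    (1 : ℝ) * ((D + (u - s)).choose (u - s) : ℝ) ≤ hf P (D + 1) := by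
  obtain ⟨f, hf'⟩ := hG.tr (u - s + 1) (by omega)
  have h1 := choose_le_hf P hG.prime (u - s) f hf' (D + 1)
  have h2 : (D + (u - s)).choose (u - s) ≤ (D + 1 + (u - s)).choose (u - s) :=
    Nat.choose_le_choose _ (by omega)
  rw [one_mul]
  exact_mod_cast h2.trans h1

/-- Chain from the toric ideal. -/
theorem chain0 (x : ι → ℂ) {o : ι} (d : LatData x o) (hx0 : ∀ i, x i ≠ 0) (hxo : x o = 1) :
    ∃ s P, s ≤ d.u ∧ Good (P0 x d) (mx x) d.u s (s * Real.log 3) P ∧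
      ∀ F ∈ TT x, toQ F ∈ P := by
  obtain ⟨s, P, -, h2, h3, h4⟩ := chain (mx_prime x) o (X_notMem_mx x o (hx0 o))
    (count x d hx0 hxo) (TT x) (fun F hF => ⟨TT_small x F hF, TT_mx x F hF⟩) d.u 0 0 (P0 x d)
    (by omega) (good_zero x d hx0 hxo)
  exact ⟨s, P, h2, by simpa using h3, h4⟩

theorem irrational_case (x : ι → ℂ) (o : ι) (hx0 : ∀ i, x i ≠ 0) (hxo : x o = 1)
    (hcard : 2 ≤ Fintype.card ι) (i : ι) (hi : ∀ q : ℚ, x i ≠ q) : Target x o := by
  obtain ⟨d⟩ := exists_latData x o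
  obtain ⟨s, P, hs, hG, hT⟩ := chain0 x d hx0 hxo
  have hdc := d.card
  have hlog2 : 0 < Real.log 2 := Real.log_pos (by norm_num)
  have h2k : (0 : ℝ) < 2 ^ d.k := by positivity
  rcases hs.eq_or_lt with hsu | hsu
  · -- s = u, η = 2
    refine target_of_good x d hx0 hxo hG hs hT 2 (by norm_num) (fun D => ?_) ?_
    · have h2 := two_le_hf x P hG.le o i hxo hi D
      have : d.u - s = 0 := by omega
      rw [this, Nat.choose_zero_right]
      simpa using (by exact_mod_cast h2 : (2 : ℝ) ≤ hf P (D + 1))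
    · have h1 := num1 d.u
      have h3 : (2 : ℝ) * (2 ^ (d.k + d.u - 1) * Real.log 2) = 2 ^ d.k * (2 ^ d.u * Real.log 2) := by
        have : (2 : ℝ) * 2 ^ (d.k + d.u - 1) = 2 ^ d.k * 2 ^ d.u := by
          rw [← pow_succ', ← pow_add]; congr 1; omega
        rw [← mul_assoc, this, mul_assoc]
      rw [h3, hsu, mul_comm]
      exact mul_lt_mul_of_pos_left h1 h2k
  · refine target_of_good x d hx0 hxo hG hs hT 1 (by norm_num) (hd_one hG hs) ?_
    have h1 := num1 (d.u - 1)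
    have h3 : (2 : ℝ) ^ (d.k + d.u - 1) = 2 ^ d.k * 2 ^ (d.u - 1) := by
      rw [← pow_add]; congr 1; omega
    have h4 : (s : ℝ) * Real.log 3 ≤ ((d.u - 1 : ℕ) : ℝ) * Real.log 3 := by
      apply mul_le_mul_of_nonneg_right _ (Real.log_nonneg (by norm_num))
      exact_mod_cast (by omega : s ≤ d.u - 1)
    rw [h3, one_mul, mul_comm, mul_assoc]
    exact mul_lt_mul_of_pos_left (h4.trans_lt h1) h2k

/-- The machine for rational points of rank `0` or `≥ 4`. -/
theorem big_case (x : ι → ℂ) (o : ι) (d : LatData x o) (hx0 : ∀ i, x i ≠ 0) (hxo : x o = 1)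
    (hcard : 2 ≤ Fintype.card ι) (hu : d.u = 0 ∨ 4 ≤ d.u) : Target x o := by
  obtain ⟨s, P, hs, hG, hT⟩ := chain0 x d hx0 hxo
  have hdc := d.card
  have hlog2 : 0 < Real.log 2 := Real.log_pos (by norm_num)
  have h2k : (0 : ℝ) < 2 ^ d.k := by positivity
  refine target_of_good x d hx0 hxo hG hs hT 1 (by norm_num) (hd_one hG hs) ?_
  rcases hu with hu | hu
  · have : s = 0 := by omega
    subst this
    simp only [Nat.cast_zero, zero_mul, one_mul]
    positivity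
  · obtain ⟨v, hv⟩ : ∃ v, d.u = v + 1 := ⟨d.u - 1, by omega⟩
    have h1 := num2 v (by omega)
    have h3 : (2 : ℝ) ^ (d.k + d.u - 1) = 2 ^ d.k * 2 ^ v := by
      rw [← pow_add]; congr 1; omega
    have h4 : (s : ℝ) * Real.log 3 ≤ ((v + 1 : ℕ) : ℝ) * Real.log 3 := by
      apply mul_le_mul_of_nonneg_right _ (Real.log_nonneg (by norm_num))
      exact_mod_cast (by omega : s ≤ v + 1)
    rw [h3, one_mul, mul_comm, mul_assoc]
    exact mul_lt_mul_of_pos_left (h4.trans_lt h1) h2k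

end Pool.Agent.Tyz
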