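import Pool.Agent.Work.MP_4c3a42_al.Defs

open MvPolynomial

namespace Pool.Agent.Tyz

variable {ι : Type} [Fintype ι] [DecidableEq ι]

namespace LatExAux

theorem common_den {κ : Type} [Fintype κ] (q : κ → ℚ) :
    ∃ r : ℕ, 0 < r ∧ ∃ m : κ → ℤ, ∀ p, (r : ℚ) * q p = m p := by
  classical
  refine ⟨∏ p, (q p).den, Finset.prod_pos fun p _ => (q p).den_pos,
    fun p => (∏ s ∈ Finset.univ.erase p, ((q s).den : ℤ)) * (q p).num, fun p => ?_⟩
  rw [← Finset.mul_prod_erase Finset.univ (fun p => (q p).den) (Finset.mem_univ p)]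
  push_cast
  have h : ((q p).den : ℚ) * q p = (q p).num := by
    rw [mul_comm]
    exact Rat.mul_den_eq_num (q p)
  rw [← h]
  ring

omit [Fintype ι] [DecidableEq ι] in
theorem vq_apply (w : ι → ℤ) (i : ι) : vq w i = (w i : ℚ) := rfl

theorem isRel_sum {x : ι → ℂ} {o : ι} {w : ι → ℤ} (h : IsRel x o w) : ∑ i, w i = 0 := by
  rcases h with ⟨i, j, _, rfl⟩ | ⟨i, j, k, _, rfl⟩
  · simp [Finset.sum_sub_distrib, Finset.sum_pi_single']
  · simp [Finset.sum_sub_distrib, Finset.sum_add_distrib, Finset.sum_pi_single']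

omit [DecidableEq ι] in
theorem prod_zpow_add {x : ι → ℂ} (hx : ∀ i, x i ≠ 0) (v w : ι → ℤ) :
    ∏ i, x i ^ ((v + w) i) = (∏ i, x i ^ (v i)) * ∏ i, x i ^ (w i) := by
  rw [← Finset.prod_mul_distrib]
  exact Finset.prod_congr rfl fun i _ => by rw [Pi.add_apply, zpow_add₀ (hx i)]

theorem prod_single {x : ι → ℂ} (i : ι) : ∏ s, x s ^ ((Pi.single i 1 : ι → ℤ) s) = x i := by
  rw [Finset.prod_eq_single i]
  · simp
  · intro b _ hb
    simp [Pi.single_eq_of_ne hb]
  · simp

omit [DecidableEq ι] in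
theorem prod_neg {x : ι → ℂ} (v : ι → ℤ) :
    ∏ i, x i ^ ((-v) i) = (∏ i, x i ^ (v i))⁻¹ := by
  rw [← Finset.prod_inv_distrib]
  exact Finset.prod_congr rfl fun i _ => by rw [Pi.neg_apply, zpow_neg]

theorem isRel_prod {x : ι → ℂ} {o : ι} (hx : ∀ i, x i ≠ 0) (hxo : x o = 1) {w : ι → ℤ}
    (h : IsRel x o w) : ∏ i, x i ^ (w i) = 1 := by
  rcases h with ⟨i, j, hij, rfl⟩ | ⟨i, j, k, hijk, rfl⟩
  · rw [sub_eq_add_neg, prod_zpow_add hx, prod_neg, prod_single, prod_single, hij,
      mul_inv_cancel₀ (hx j)]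
  · rw [sub_eq_add_neg, sub_eq_add_neg, prod_zpow_add hx, prod_zpow_add hx, prod_zpow_add hx,
      prod_neg, prod_neg, prod_single, prod_single, prod_single, prod_single, hijk, hxo,
      mul_inv_cancel₀ (hx k), inv_one, mul_one]

end LatExAux

open LatExAux

/-- Existence of lattice data. -/
theorem exists_latData (x : ι → ℂ) (o : ι) : Nonempty (LatData x o) := by
  classical
  obtain ⟨b, hb1, hb2, hb3⟩ := exists_linearIndependent ℚ (vq '' {w : ι → ℤ | IsRel x o w})
  have hfin : Finite b := hb3.finite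
  have : Fintype b := Fintype.ofFinite b
  set k := Fintype.card b with hk
  let eqv : Fin k ≃ b := (Fintype.equivFin b).symm
  have hpre : ∀ a : Fin k, ∃ w : ι → ℤ, IsRel x o w ∧ vq w = (eqv a : ι → ℚ) := by
    intro a
    obtain ⟨w, hw, h⟩ := hb1 (eqv a).2
    exact ⟨w, hw, h⟩
  choose rel hrel hrelv using hpre
  have hind : LinearIndependent ℚ (fun a => vq (rel a)) := by
    have h1 : (fun a => vq (rel a)) = (fun y : b => (y : ι → ℚ)) ∘ eqv := by
      funext a
      exact hrelv a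
    rw [h1]
    exact hb3.comp _ eqv.injective
  have hspan : Submodule.span ℚ (Set.range fun a => vq (rel a)) =
      Submodule.span ℚ (vq '' {w : ι → ℤ | IsRel x o w}) := by
    rw [← hb2]
    congr 1
    ext v
    constructor
    · rintro ⟨a, rfl⟩
      simp only [hrelv a]
      exact (eqv a).2
    · intro hv
      refine ⟨eqv.symm ⟨v, hv⟩, ?_⟩
      simp only [hrelv]
      rw [Equiv.apply_symm_apply]
  set W := Submodule.span ℚ (Set.range fun a => vq (rel a)) with hW
  have hdimW : Module.finrank ℚ W = k := by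
    rw [hW, finrank_span_eq_card hind, Fintype.card_fin]
  -- the sum functional
  let sm : (ι → ℚ) →ₗ[ℚ] ℚ := ∑ i, LinearMap.proj i
  have hsm : ∀ v, sm v = ∑ i, v i := fun v => by simp [sm]
  have hWle : W ≤ LinearMap.ker sm := by
    rw [hW, Submodule.span_le]
    rintro _ ⟨a, rfl⟩
    rw [SetLike.mem_coe, LinearMap.mem_ker, hsm]
    have := isRel_sum (hrel a)
    simp only [vq_apply]
    exact_mod_cast this
  have hne : LinearMap.ker sm ≠ ⊤ := by
    intro h
    have h1 : (Pi.single o 1 : ι → ℚ) ∈ LinearMap.ker sm := by rw [h]; trivial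
    rw [LinearMap.mem_ker, hsm] at h1
    simp at h1
  have hklt : k < Fintype.card ι := by
    rw [← hdimW, ← Module.finrank_pi (ι := ι) ℚ]
    exact (Submodule.finrank_mono hWle).trans_lt (Submodule.finrank_lt hne)
  obtain ⟨u, hu⟩ : ∃ u, k + u + 1 = Fintype.card ι := ⟨Fintype.card ι - 1 - k, by omega⟩
  have hq : Module.finrank ℚ ((ι → ℚ) ⧸ W) = Module.finrank ℚ (Fin (u + 1) → ℚ) := by
    have := Submodule.finrank_quotient_add_finrank W
    rw [hdimW, Module.finrank_pi] at this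
    rw [Module.finrank_fin_fun]
    omega
  let L : (ι → ℚ) →ₗ[ℚ] (Fin (u + 1) → ℚ) :=
    (LinearEquiv.ofFinrankEq _ _ hq).toLinearMap.comp W.mkQ
  have hLker : ∀ v, L v = 0 ↔ v ∈ W := by
    intro v
    simp [L]
  have hLsurj : Function.Surjective L := by
    intro y
    obtain ⟨v, hv⟩ := Submodule.mkQ_surjective W ((LinearEquiv.ofFinrankEq _ _ hq).symm y)
    refine ⟨v, ?_⟩
    simp [L, hv]
  obtain ⟨r, hr, m, hm⟩ := common_den (fun p : ι × Fin (u + 1) => L (Pi.single p.1 1) p.2)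
  let Γ : ι → Fin (u + 1) → ℤ := fun i a => m (i, a)
  have hΓ : ∀ i, (fun a => ((Γ i a : ℤ) : ℚ)) = (r : ℚ) • L (Pi.single i 1) := by
    intro i
    funext a
    rw [Pi.smul_apply, smul_eq_mul]
    exact (hm (i, a)).symm
  have hr0 : (r : ℚ) ≠ 0 := by exact_mod_cast hr.ne'
  have hLsum : ∀ v : ι → ℚ, L v = ∑ i, v i • L (Pi.single i 1) := by
    intro v
    conv_lhs => rw [← Finset.univ_sum_single v, map_sum]
    refine Finset.sum_congr rfl fun i _ => ?_
    have : Pi.single i (v i) = v i • (Pi.single i (1 : ℚ) : ι → ℚ) := by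
      rw [← Pi.single_smul, smul_eq_mul, mul_one]
    rw [this, map_smul]
  refine ⟨{ k := k, u := u, card := hu, rel := rel, isRel := hrel, indep := hind
            all := ?_, Γ := Γ, spanΓ := ?_, ker := ?_ }⟩
  · intro w hw
    rw [← hW, hspan]
    exact Submodule.subset_span ⟨w, hw, rfl⟩
  · rw [eq_top_iff]
    intro y _
    obtain ⟨v, rfl⟩ := hLsurj y
    rw [hLsum]
    refine Submodule.sum_mem _ fun i _ => Submodule.smul_mem _ _ ?_
    have : L (Pi.single i 1) = (r : ℚ)⁻¹ • (fun a => ((Γ i a : ℤ) : ℚ)) := by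
      rw [hΓ, inv_smul_smul₀ hr0]
    rw [this]
    exact Submodule.smul_mem _ _ (Submodule.subset_span ⟨i, rfl⟩)
  · intro w
    rw [← hW, ← hLker, hLsum]
    have h1 : (r : ℚ) • ∑ i, vq w i • L (Pi.single i 1) =
        fun a => (((∑ i, w i • Γ i) a : ℤ) : ℚ) := by
      rw [Finset.smul_sum]
      funext a
      rw [Finset.sum_apply, Finset.sum_apply]
      push_cast
      refine Finset.sum_congr rfl fun i _ => ?_
      rw [smul_comm, ← hΓ i]
      simp [vq_apply]
    constructor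
    · intro h
      rw [h] at h1
      have h2 : (r : ℚ) • ∑ i, vq w i • L (Pi.single i 1) = 0 := by
        rw [h1]; funext a; simp
      exact (smul_eq_zero.1 h2).resolve_left hr0
    · intro h
      rw [h, smul_zero] at h1
      funext a
      have := congrFun h1 a
      simp only [Pi.zero_apply] at this
      exact_mod_cast this.symm

/-- a multiple of a kernel vector is an integer combination of the relations -/
theorem LatData.rep {x : ι → ℂ} {o : ι} (d : LatData x o) :
    ∃ r : ℕ, 0 < r ∧ ∀ w : ι → ℤ, ∑ i, w i • d.Γ i = 0 →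
      ∃ c : Fin d.k → ℤ, ∀ i, (r : ℤ) * w i = ∑ a, c a * d.rel a i := by
  classical
  let R : (Fin d.k → ℚ) →ₗ[ℚ] (ι → ℚ) := Fintype.linearCombination ℚ (fun a => vq (d.rel a))
  have hR : ∀ c, R c = ∑ a, c a • vq (d.rel a) := fun c => rfl
  have hinj : LinearMap.ker R = ⊥ := by
    rw [LinearMap.ker_eq_bot']
    intro c hc
    funext a
    exact Fintype.linearIndependent_iff.1 d.indep c hc a
  obtain ⟨C, hC⟩ := LinearMap.exists_leftInverse_of_injective R hinj
  obtain ⟨r, hr, m, hm⟩ := common_den (fun p : ι × Fin d.k => C (Pi.single p.1 1) p.2)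
  refine ⟨r, hr, fun w hw => ⟨fun a => ∑ i, w i * m (i, a), fun i => ?_⟩⟩
  have h1 := (d.ker w).1 hw
  obtain ⟨c, hc⟩ := (Submodule.mem_span_range_iff_exists_fun ℚ).1 h1
  have h2 : C (vq w) = c := by
    rw [← hc]
    have := LinearMap.congr_fun hC c
    simpa [hR] using this
  have hCsum : ∀ v : ι → ℚ, C v = ∑ i, v i • C (Pi.single i 1) := by
    intro v
    conv_lhs => rw [← Finset.univ_sum_single v, map_sum]
    refine Finset.sum_congr rfl fun i _ => ?_
    have : Pi.single i (v i) = v i • (Pi.single i (1 : ℚ) : ι → ℚ) := by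
      rw [← Pi.single_smul, smul_eq_mul, mul_one]
    rw [this, map_smul]
  have h3 : ∀ a, (r : ℚ) * c a = ((∑ i, w i * m (i, a) : ℤ) : ℚ) := by
    intro a
    rw [← h2, hCsum, Finset.sum_apply, Finset.mul_sum]
    push_cast
    refine Finset.sum_congr rfl fun i _ => ?_
    rw [Pi.smul_apply, smul_eq_mul, ← hm (i, a), vq_apply]
    ring
  have h4 : (r : ℚ) * w i = ∑ a, ((∑ i, w i * m (i, a) : ℤ) : ℚ) * d.rel a i := by
    have h5 := congrFun hc i
    rw [Finset.sum_apply, vq_apply] at h5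
    rw [← h5, Finset.mul_sum]
    refine Finset.sum_congr rfl fun a _ => ?_
    rw [← h3 a, Pi.smul_apply, smul_eq_mul, vq_apply]
    ring
  exact_mod_cast h4

/-- Kernel vectors have coordinate sum zero. -/
theorem LatData.sum_eq_zero {x : ι → ℂ} {o : ι} (d : LatData x o) (w : ι → ℤ)
    (hw : ∑ i, w i • d.Γ i = 0) : ∑ i, w i = 0 := by
  obtain ⟨r, hr, h⟩ := d.rep
  obtain ⟨c, hc⟩ := h w hw
  have h1 : (r : ℤ) * ∑ i, w i = 0 := by
    rw [Finset.mul_sum, Finset.sum_congr rfl fun i _ => hc i, Finset.sum_comm]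
    refine Finset.sum_eq_zero fun a _ => ?_
    rw [← Finset.mul_sum, isRel_sum (d.isRel a), mul_zero]
  rcases mul_eq_zero.1 h1 with h2 | h2
  · exact absurd h2 (by exact_mod_cast hr.ne')
  · exact h2

/-- The character `x` has bounded finite order on kernel vectors. -/
theorem LatData.tors {x : ι → ℂ} {o : ι} (d : LatData x o) (hx0 : ∀ i, x i ≠ 0)
    (hxo : x o = 1) :
    ∃ r : ℕ, 0 < r ∧ ∀ w : ι → ℤ, ∑ i, w i • d.Γ i = 0 → (∏ i, x i ^ (w i)) ^ r = 1 := by
  obtain ⟨r, hr, h⟩ := d.rep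
  refine ⟨r, hr, fun w hw => ?_⟩
  obtain ⟨c, hc⟩ := h w hw
  rw [← Finset.prod_pow]
  have h1 : ∀ i, (x i ^ w i) ^ r = ∏ a, (x i ^ d.rel a i) ^ (c a) := by
    intro i
    rw [← zpow_natCast, ← zpow_mul, mul_comm, hc i]
    simp only [← zpow_mul]
    have : ∀ s : Finset (Fin d.k), x i ^ (∑ a ∈ s, c a * d.rel a i) =
        ∏ a ∈ s, x i ^ (d.rel a i * c a) := by
      intro s
      classical
      induction s using Finset.induction_on with
      | empty => simp
      | insert a s ha ih =>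
        rw [Finset.sum_insert ha, Finset.prod_insert ha, zpow_add₀ (hx0 i), ih,
          mul_comm (c a)]
    exact this _
  rw [Finset.prod_congr rfl fun i _ => h1 i, Finset.prod_comm]
  refine Finset.prod_eq_one fun a _ => ?_
  rw [Finset.prod_zpow, isRel_prod hx0 hxo (d.isRel a), one_zpow]

/-- A real functional killing the relations kills the kernel of `Γ`. -/
theorem LatData.real_ker {x : ι → ℂ} {o : ι} (d : LatData x o) (lam : ι → ℝ)
    (h : ∀ a, ∑ i, (d.rel a i : ℝ) * lam i = 0) (w : ι → ℤ) (hw : ∑ i, w i • d.Γ i = 0) :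
    ∑ i, (w i : ℝ) * lam i = 0 := by
  obtain ⟨r, hr, h'⟩ := d.rep
  obtain ⟨c, hc⟩ := h' w hw
  have h1 : (r : ℝ) * ∑ i, (w i : ℝ) * lam i = 0 := by
    rw [Finset.mul_sum]
    have h2 : ∀ i, (r : ℝ) * ((w i : ℝ) * lam i) = ∑ a, (c a : ℝ) * ((d.rel a i : ℝ) * lam i) := by
      intro i
      have h3 : ((r : ℤ) * w i : ℤ) = ∑ a, c a * d.rel a i := hc i
      have h4 : (r : ℝ) * (w i : ℝ) = ∑ a, (c a : ℝ) * (d.rel a i : ℝ) := by exact_mod_cast h3
      rw [← mul_assoc, h4, Finset.sum_mul]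
      exact Finset.sum_congr rfl fun a _ => by ring
    rw [Finset.sum_congr rfl fun i _ => h2 i, Finset.sum_comm]
    refine Finset.sum_eq_zero fun a _ => ?_
    rw [← Finset.mul_sum, h a, mul_zero]
  rcases mul_eq_zero.1 h1 with h2 | h2
  · exact absurd h2 (by exact_mod_cast hr.ne')
  · exact h2

end Pool.Agent.Tyz
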