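import Pool.Agent.Work.MP_4c3a42_al.Rat3

open MvPolynomial

namespace Pool.Agent.Tyz

section

variable {ι : Type} [Fintype ι] [DecidableEq ι]

theorem trinomial_notMem (x : ι → ℂ) {o : ι} (d : LatData x o) (hx0 : ∀ i, x i ≠ 0)
    (i j k : ι) (hij : d.Γ i ≠ d.Γ j) (hik : d.Γ i ≠ d.Γ k) :
    toQ (X i + X j - X k : MvPolynomial ι ℤ) ∉ P0 x d := by
  intro h
  rw [P0, RingHom.mem_ker] at h
  have h1 : psi x d (toQ (X i + X j - X k : MvPolynomial ι ℤ)) =
      AddMonoidAlgebra.single (d.Γ i) (x i) + AddMonoidAlgebra.single (d.Γ j) (x j)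
        - AddMonoidAlgebra.single (d.Γ k) (x k) := by
    simp [toQ, psi]
  have h1' : psi x d (toQ (X i + X j - X k : MvPolynomial ι ℤ)) = 0 := h
  rw [h1, sub_eq_zero] at h1'
  have h2 := congrArg (fun f : AddMonoidAlgebra ℂ (Fin (d.u + 1) → ℤ) => f.coeff (d.Γ i)) h1'
  simp only [AddMonoidAlgebra.coeff_add, AddMonoidAlgebra.coeff_single, Finsupp.add_apply] at h2
  rw [Finsupp.single_eq_same, Finsupp.single_eq_of_ne hij, Finsupp.single_eq_of_ne hik,
    add_zero] at h2
  exact hx0 i h2

/-- First step with Hadamard's inequality. -/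
theorem good_first (x : ι → ℂ) {o : ι} (d : LatData x o) (hx0 : ∀ i, x i ≠ 0) (hxo : x o = 1)
    (q : ι → ℚ) (hq : ∀ i, x i = (q i : ℂ)) (i j k : ι) (h : x i + x j = x k)
    (hij : d.Γ i ≠ d.Γ j) (hik : d.Γ i ≠ d.Γ k) (hjk : d.Γ j ≠ d.Γ k) :
    ∃ P', Good (P0 x d) (mx x) d.u 1 (Real.log 3 / 2) P' := by
  set F : MvPolynomial ι ℤ := X i + X j - X k with hF
  have hFT : F ∈ TT x := Or.inl ⟨i, j, k, h, rfl⟩
  have hFs := TT_small x F hFT
  have hFm := TT_mx x F hFT
  have hFP : toQ F ∉ P0 x d := trinomial_notMem x d hx0 i j k hij hik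
  have hG := good_zero x d hx0 hxo
  have hJm : P0 x d ⊔ Ideal.span {toQ F} ≤ mx x :=
    sup_le hG.le ((Ideal.span_singleton_le_iff_mem _).2 hFm)
  haveI := mx_prime x
  obtain ⟨P', hP', hP'm⟩ := Ideal.exists_minimalPrimes_le hJm
  have hPP' : P0 x d ≤ P' := le_sup_left.trans hP'.1.2
  have hoP' : X o ∉ P' := fun h => X_notMem_mx x o (hx0 o) (hP'm h)
  obtain ⟨hH', e, C', hC', hh1, hl1, hh2, hl2⟩ :=
    step_data _ hG.prime hG.hom F hFs.1 hFP P' hP' o hoP'
  have hlog3 : 0 ≤ Real.log 3 := Real.log_nonneg (by norm_num)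
  have hstep_h : ∀ D, (hf P' D : ℝ) + hf (P0 x d) (D + e) ≤ hf (P0 x d) (D + e + 1) := fun D => by
    have := hh1 (D + e)
    have := hh2 D
    linarith
  refine ⟨P', ⟨hP'.1.1, hH', hPP', hP'm, by positivity, ?_, ?_⟩⟩
  · intro n hn
    exact dim_drop _ hG.prime (toQ F) hFP P' hP' n (hG.tr (n + 1) (by omega))
  · refine ⟨0 + e + 1, 0 + C', by simpa using hC', fun D => ⟨?_, ?_⟩⟩
    · exact step_seq_h 0 e 0 (fun j => (hf (P0 x d) j : ℝ)) (fun j => (hf P' j : ℝ))
        (fun j => (hf (P0 x d) j : ℝ)) (fun _ => Nat.cast_nonneg _) (fun _ => Nat.cast_nonneg _)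
        hstep_h (fun D => by simp) D
    · have := step_seq_l 0 e 0 (fun j => (hf (P0 x d) j : ℝ)) (fun j => (hf P' j : ℝ))
        (fun j => (hf (P0 x d) j : ℝ)) (fun _ => 0) (lh P') 0 0 (Real.log 3 / 2) C'
        (fun _ => Nat.cast_nonneg _) (fun _ => Nat.cast_nonneg _) (fun _ => le_rfl)
        (fun _ => Nat.cast_nonneg _) (lh_nonneg P') le_rfl le_rfl (by positivity) hC'
        hstep_h (fun D => by
          have h1 := had_first x d hx0 hxo q hq i j k hij hik hjk (D + e)
          have h2 := hl2 D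
          show lh P' D + 0 ≤ 0 + Real.log 3 / 2 * (hf (P0 x d) (D + e) : ℝ)
            + C' * (hf P' D : ℝ)
          rw [← hF] at h1
          linarith) (fun D => by simp) (fun D => by simp) D
      rw [zero_add (Real.log 3 / 2)] at this
      exact this

/-- Rank three. -/
theorem rank_three (x : ι → ℂ) (o : ι) (d : LatData x o) (q : ι → ℚ)
    (hx : ∀ i, x i = (q i : ℂ)) (hq0 : ∀ i, q i ≠ 0) (hqo : q o = 1)
    (hcard : 2 ≤ Fintype.card ι) (hu : d.u = 3) : Target x o := by
  by_cases hall : ∀ A B C, Al q A B C → d.Γ A = d.Γ B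
  · exact binom_case x o d q hx hq0 hqo hcard hall
  · push Not at hall
    obtain ⟨A, B, C, h, hAB⟩ := hall
    have hx0 : ∀ i, x i ≠ 0 := fun i => by rw [hx]; exact_mod_cast hq0 i
    have hxo : x o = 1 := by rw [hx, hqo]; simp
    have hrel : ∀ a, ∑ i, (d.rel a i : ℝ) * lamq q i = 0 := fun a =>
      lamq_rel x q hx hq0 o hqo _ (d.isRel a)
    have hne : ∀ a b, d.Γ a = d.Γ b → lamq q a = lamq q b := by
      intro a b hab
      have := fl_span d (lamq q) hrel _ ((dv_mem_of_gamma d a b).1 hab)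
      rw [fl_dv, sub_eq_zero] at this
      exact this
    have hCA : d.Γ C ≠ d.Γ A := fun hh => by
      have := Al.lam_pos q hq0 h
      rw [hne _ _ hh] at this
      simp at this
    have hBA : lamq q B ≤ lamq q A := by
      unfold lamq
      exact Real.logb_le_logb_of_le (by norm_num) (abs_pos.2 (by exact_mod_cast hq0 B))
        (by exact_mod_cast h.2.1)
    have hCB : d.Γ C ≠ d.Γ B := fun hh => by
      have h1 := Al.lam_pos q hq0 h
      have h2 := hne _ _ hh
      linarith
    have hP : ∃ P', Good (P0 x d) (mx x) d.u 1 (Real.log 3 / 2) P' := by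
      rcases h.2.2 with h1 | h1 | h1
      · exact good_first x d hx0 hxo q hx A B C
          (by rw [hx, hx, hx, ← h1]; push_cast; rfl) hAB hCA.symm hCB.symm
      · exact good_first x d hx0 hxo q hx C A B
          (by rw [hx, hx, hx, ← h1]; push_cast; rfl) hCA hCB hAB
      · exact good_first x d hx0 hxo q hx C B A
          (by rw [hx, hx, hx, ← h1]; push_cast; rfl) hCB hCA hAB.symm
    obtain ⟨P', hG⟩ := hP
    obtain ⟨s, P, hs1, hs, hG', hT⟩ := chain (mx_prime x) o (X_notMem_mx x o (hx0 o))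
      (count x d hx0 hxo) (TT x) (fun F hF => ⟨TT_small x F hF, TT_mx x F hF⟩) d.u 1
      (Real.log 3 / 2) P' (by omega) hG
    refine target_of_good x d hx0 hxo hG' hs hT 1 (by norm_num) (hd_one hG' hs) ?_
    have h2k : (0 : ℝ) < 2 ^ d.k := by positivity
    have hlog3 : 0 ≤ Real.log 3 := Real.log_nonneg (by norm_num)
    have h35 : 5 * Real.log 3 < 8 * Real.log 2 := by
      have h1 : Real.log ((3 : ℝ) ^ 5) < Real.log ((2 : ℝ) ^ 8) :=
        Real.log_lt_log (by norm_num) (by norm_num)
      rw [Real.log_pow, Real.log_pow] at h1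
      exact_mod_cast h1
    have h3 : (2 : ℝ) ^ (d.k + d.u - 1) = 2 ^ d.k * 4 := by
      rw [hu, show d.k + 3 - 1 = d.k + 2 by omega, pow_add]; norm_num
    have hs3 : (s : ℝ) ≤ 3 := by exact_mod_cast (by omega : s ≤ 3)
    have h4 : ((s : ℝ) - ((1 : ℕ) : ℝ)) * Real.log 3 ≤ 2 * Real.log 3 := by
      apply mul_le_mul_of_nonneg_right _ hlog3
      push_cast; linarith
    have h5 : Real.log 3 / 2 + ((s : ℝ) - ((1 : ℕ) : ℝ)) * Real.log 3 < 4 * Real.log 2 := by
      calc Real.log 3 / 2 + ((s : ℝ) - ((1 : ℕ) : ℝ)) * Real.log 3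
          ≤ Real.log 3 / 2 + 2 * Real.log 3 := by gcongr
        _ < 4 * Real.log 2 := by linarith
    rw [h3, one_mul, mul_comm, mul_assoc]
    exact mul_lt_mul_of_pos_left h5 h2k

/-- The core theorem. -/
theorem core (x : ι → ℂ) (o : ι) (hx0 : ∀ i, x i ≠ 0) (hxo : x o = 1)
    (hcard : 2 ≤ Fintype.card ι) : Target x o := by
  by_cases hirr : ∃ i, ∀ q : ℚ, x i ≠ q
  · obtain ⟨i, hi⟩ := hirr
    exact irrational_case x o hx0 hxo hcard i hi
  · push Not at hirr
    choose q hq using hirr
    have hq0 : ∀ i, q i ≠ 0 := fun i h => by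
      apply hx0 i; rw [hq, h]; simp
    have hqo : q o = 1 := by
      have := hq o
      rw [hxo] at this
      exact_mod_cast this.symm
    obtain ⟨d⟩ := exists_latData x o
    rcases Nat.lt_or_ge d.u 4 with hu | hu
    · interval_cases hdu : d.u
      · exact big_case x o d hx0 hxo hcard (Or.inl hdu)
      · exact rank_one x o d q hq hq0 hqo hcard hdu
      · exact rank_two x o d q hq hq0 hqo hcard hdu
      · exact rank_three x o d q hq hq0 hqo hcard hdu
    · exact big_case x o d hx0 hxo hcard (Or.inr hu)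

end

/-- Bounded solutions over `ℂ`. -/
theorem bounded_image (n : ℕ) (hn : 1 ≤ n) (x : Fin n → ℂ) :
    ∃ y : Fin n → ℂ,
      (∀ i, ‖y i‖ ≤ (2 : ℝ) ^ ((2 : ℝ) ^ ((n : ℝ) - 2))) ∧
      (∀ i, x i = 1 → y i = 1) ∧
      (∀ i j k, x i + x j = x k → y i + y j = y k) ∧
      (∀ i j k, x i * x j = x k → y i * y j = y k) := by
  classical
  by_cases h1 : ∃ o, x o = 1
  · obtain ⟨o, ho⟩ := h1
    let ι : Type := {i : Fin n // x i ≠ 0}
    let o' : ι := ⟨o, by rw [ho]; exact one_ne_zero⟩
    have hcardn : Fintype.card ι ≤ n := by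
      have := Fintype.card_subtype_le (fun i : Fin n => x i ≠ 0)
      rw [Fintype.card_fin] at this
      exact this
    rcases Nat.lt_or_ge (Fintype.card ι) 2 with hc | hc
    · -- only one nonzero coordinate
      have hsub : ∀ i, x i = 0 ∨ x i = 1 := by
        intro i
        by_cases hi : x i = 0
        · exact Or.inl hi
        · right
          have hs : Subsingleton ι := by
            rw [← Fintype.card_le_one_iff_subsingleton]; omega
          have := hs.elim ⟨i, hi⟩ o'
          have := congrArg Subtype.val this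
          simp only [o'] at this
          rw [this, ho]
      refine ⟨x, fun i => ?_, fun _ h => h, fun _ _ _ h => h, fun _ _ _ h => h⟩
      have h2 : ‖x i‖ ≤ 1 := by
        rcases hsub i with h | h <;> rw [h] <;> simp
      refine h2.trans ?_
      exact Real.one_le_rpow (by norm_num) (by positivity)
    · obtain ⟨z, hz1, hz2, hz3⟩ := core (fun i : ι => x i.1) o' (fun i => i.2) ho hc
      refine ⟨fun i => if h : x i ≠ 0 then z ⟨i, h⟩ else 0, fun i => ?_, fun i hi => ?_,
        fun i j k h => ?_, fun i j k h => ?_⟩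
      · have hb : (2 : ℝ) ^ (2 ^ (Fintype.card ι - 2)) ≤ (2 : ℝ) ^ ((2 : ℝ) ^ ((n : ℝ) - 2)) := by
          rw [← Real.rpow_natCast 2 (2 ^ (Fintype.card ι - 2))]
          apply Real.rpow_le_rpow_of_exponent_le (by norm_num)
          push_cast
          rw [← Real.rpow_natCast 2 (Fintype.card ι - 2)]
          apply Real.rpow_le_rpow_of_exponent_le (by norm_num)
          rw [Nat.cast_sub hc]
          push_cast
          have : (Fintype.card ι : ℝ) ≤ n := by exact_mod_cast hcardn
          linarith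
        show ‖if h : x i ≠ 0 then z ⟨i, h⟩ else 0‖ ≤ _
        split_ifs with h
        · exact (hz2 ⟨i, h⟩).trans hb
        · simp only [norm_zero]; positivity
      · have hne : x i ≠ 0 := by rw [hi]; exact one_ne_zero
        simp only [dif_pos hne]
        rw [← hz1]
        exact hz3.eq ⟨i, hne⟩ o' (by show x i = x o; rw [hi, ho])
      · by_cases hi : x i = 0
        · by_cases hj : x j = 0
          · have hk : x k = 0 := by rw [← h, hi, hj, add_zero]
            simp [hi, hj, hk]
          · have hk : x k ≠ 0 := by rw [← h, hi, zero_add]; exact hj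
            have := hz3.eq ⟨j, hj⟩ ⟨k, hk⟩ (by show x j = x k; rw [← h, hi, zero_add])
            simp only [ne_eq, hi, hj, hk, not_true_eq_false, not_false_eq_true, dif_pos, dif_neg,
              zero_add]
            exact this
        · by_cases hj : x j = 0
          · have hk : x k ≠ 0 := by rw [← h, hj, add_zero]; exact hi
            have := hz3.eq ⟨i, hi⟩ ⟨k, hk⟩ (by show x i = x k; rw [← h, hj, add_zero])
            simp only [ne_eq, hi, hj, hk, not_true_eq_false, not_false_eq_true, dif_pos, dif_neg,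
              add_zero]
            exact this
          · by_cases hk : x k = 0
            · have := hz3.neg ⟨i, hi⟩ ⟨j, hj⟩ (by show x i + x j = 0; rw [h, hk])
              simp only [ne_eq, hi, hj, hk, not_true_eq_false, not_false_eq_true, dif_pos,
                dif_neg]
              exact this
            · have := hz3.add ⟨i, hi⟩ ⟨j, hj⟩ ⟨k, hk⟩ h
              simp only [ne_eq, hi, hj, hk, not_false_eq_true, dif_pos]
              exact this
      · by_cases hi : x i = 0
        · have hk : x k = 0 := by rw [← h, hi, zero_mul]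
          simp [hi, hk]
        · by_cases hj : x j = 0
          · have hk : x k = 0 := by rw [← h, hj, mul_zero]
            simp [hj, hk]
          · have hk : x k ≠ 0 := by rw [← h]; exact mul_ne_zero hi hj
            have := hz3.mul ⟨i, hi⟩ ⟨j, hj⟩ ⟨k, hk⟩ h
            simp only [ne_eq, hi, hj, hk, not_false_eq_true, dif_pos]
            exact this
  · refine ⟨fun _ => 0, fun i => ?_, fun i hi => (h1 ⟨i, hi⟩).elim, fun _ _ _ _ => by simp,
      fun _ _ _ _ => by simp⟩
    simp only [norm_zero]; positivity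

end Pool.Agent.Tyz
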