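import Mathlib

namespace Pool.Agent.Tyz

/-- a prime dividing the numerator of `t` -/
theorem ntq_num (t : ℚ) {π : ℕ} (hπ : π.Prime) (h0 : t ≠ 0) (h1 : t ≠ 1)
    (hd : (π : ℤ) ∣ t.num) :
    0 < padicValRat π t ∧ padicValRat π (t - 1) = 0 := by
  haveI : Fact π.Prime := ⟨hπ⟩
  have hv : 0 < padicValRat π t := by
    rw [padicValRat_def]
    have h2 : ¬ (π ∣ t.den) := by
      intro h
      have h3 : π ∣ t.num.natAbs := Int.natCast_dvd.1 hd
      have h4 := t.reduced
      exact hπ.one_lt.ne' (Nat.dvd_one.1 (h4 ▸ Nat.dvd_gcd h3 h))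
    rw [padicValNat.eq_zero_of_not_dvd h2]
    have h5 : 0 < padicValInt π t.num := by
      rw [padicValInt, Nat.pos_iff_ne_zero]
      have h6 : t.num.natAbs ≠ 0 := by simpa using h0
      have := (dvd_iff_padicValNat_ne_zero h6).1 (Int.natCast_dvd.1 hd)
      exact this
    omega
  refine ⟨hv, ?_⟩
  have h6 : padicValRat π (1 : ℚ) = 0 := padicValRat.one
  have h7 : padicValRat π (-1 : ℚ) = 0 := by rw [padicValRat.neg, h6]
  have h8 : t - 1 = -1 + t := by ring
  rw [h8, padicValRat.add_eq_of_lt (by rw [← h8]; exact sub_ne_zero.2 h1) (by norm_num) h0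
    (by rw [h7]; exact hv), h7]

/-- a prime dividing the denominator of `t` -/
theorem ntq_den (t : ℚ) {π : ℕ} (hπ : π.Prime) (h0 : t ≠ 0) (h1 : t ≠ 1)
    (hd : π ∣ t.den) :
    padicValRat π t < 0 ∧ padicValRat π (t - 1) = padicValRat π t := by
  haveI : Fact π.Prime := ⟨hπ⟩
  have hv : padicValRat π t < 0 := by
    rw [padicValRat_def]
    have h2 : ¬ ((π : ℤ) ∣ t.num) := by
      intro h
      have h3 : π ∣ t.num.natAbs := Int.natCast_dvd.1 h
      have h4 := t.reduced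
      exact hπ.one_lt.ne' (Nat.dvd_one.1 (h4 ▸ Nat.dvd_gcd h3 hd))
    have h3 : padicValInt π t.num = 0 := padicValInt.eq_zero_of_not_dvd h2
    rw [h3]
    have h5 : 0 < padicValNat π t.den := by
      rw [Nat.pos_iff_ne_zero]
      exact (dvd_iff_padicValNat_ne_zero t.den_ne_zero).1 hd
    omega
  refine ⟨hv, ?_⟩
  have h6 : padicValRat π (1 : ℚ) = 0 := padicValRat.one
  have h7 : padicValRat π (-1 : ℚ) = 0 := by rw [padicValRat.neg, h6]
  have h8 : t - 1 = t + -1 := by ring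
  rw [h8, padicValRat.add_eq_of_lt (by rw [← h8]; exact sub_ne_zero.2 h1) h0 (by norm_num)
    (by rw [h7]; exact hv)]

theorem ntq_primes {t : ℚ} (h1 : 1 < t) (h2 : t < 2) :
    (∃ π : ℕ, π.Prime ∧ (π : ℤ) ∣ t.num) ∧ ∃ π : ℕ, π.Prime ∧ π ∣ t.den := by
  have h3 : t.den ≠ 1 := by
    intro h
    have h4 : (t.num : ℚ) = t := Rat.coe_int_num_of_den_eq_one h
    rw [← h4] at h1 h2
    have h5 : (1 : ℤ) < t.num := by exact_mod_cast h1
    have h6 : t.num < (2 : ℤ) := by exact_mod_cast h2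
    omega
  have h4 : t.num.natAbs ≠ 1 := by
    intro h
    have h5 : (0 : ℚ) < t := by linarith
    have h6 : 0 < t.num := Rat.num_pos.2 h5
    have h7 : t.num = 1 := by omega
    have h8 : t = 1 / t.den := by
      conv_lhs => rw [← Rat.num_div_den t, h7]
      simp
    have h9 : (1 : ℚ) ≤ t.den := by exact_mod_cast t.den_pos
    have h10 : (1 : ℚ) / t.den ≤ 1 := by
      rw [div_le_one (by linarith)]
      exact h9
    linarith
  refine ⟨?_, ?_⟩
  · obtain ⟨π, hπ, hd⟩ := Nat.exists_prime_and_dvd h4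
    exact ⟨π, hπ, Int.natCast_dvd.2 hd⟩
  · exact Nat.exists_prime_and_dvd h3

theorem ntq_zpow {π : ℕ} [Fact π.Prime] {t : ℚ} (h : t ≠ 0) (p : ℤ) :
    padicValRat π (t ^ p) = p * padicValRat π t := padicValRat.zpow t

/-- `t` and `t - 1` are multiplicatively independent for rational `1 < t < 2`. -/
theorem nt_indep (t : ℚ) (h1 : 1 < t) (h2 : t < 2) (p p' : ℤ)
    (h : t ^ p * (t - 1) ^ p' = 1) : p = 0 ∧ p' = 0 := by
  have h0 : t ≠ 0 := by linarith
  have h01 : t - 1 ≠ 0 := by linarith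
  obtain ⟨⟨π, hπ, hd⟩, ⟨ρ, hρ, hd'⟩⟩ := ntq_primes h1 h2
  have hp : p = 0 := by
    haveI : Fact π.Prime := ⟨hπ⟩
    have h3 := congrArg (padicValRat π) h
    obtain ⟨h4, h5⟩ := ntq_num t hπ h0 h1.ne' hd
    rw [padicValRat.mul (zpow_ne_zero _ h0) (zpow_ne_zero _ h01), ntq_zpow h0, ntq_zpow h01,
      h5, mul_zero, add_zero, padicValRat.one] at h3
    rcases mul_eq_zero.1 h3 with h6 | h6
    · exact h6
    · omega
  refine ⟨hp, ?_⟩
  haveI : Fact ρ.Prime := ⟨hρ⟩
  have h3 := congrArg (padicValRat ρ) h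
  obtain ⟨h4, h5⟩ := ntq_den t hρ h0 h1.ne' hd'
  rw [padicValRat.mul (zpow_ne_zero _ h0) (zpow_ne_zero _ h01), ntq_zpow h0, ntq_zpow h01,
    h5, hp, zero_mul, zero_add, padicValRat.one] at h3
  rcases mul_eq_zero.1 h3 with h6 | h6
  · exact h6
  · omega

/-- The main number theoretic lemma. -/
theorem nt_main (t t' : ℚ) (h1 : 1 < t) (h2 : t < 2) (h1' : 1 < t') (h2' : t' ≤ 2)
    (a b : ℕ) (ha : 0 < a) (hb : 0 < b) (hab : t ^ a = t' ^ b) (q p p' : ℤ)
    (hne : ¬ (q = 0 ∧ p = 0 ∧ p' = 0)) (h : (t' - 1) ^ q = t ^ p * (t - 1) ^ p') :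
    t = t' ∧ p = 0 ∧ q = p' ∧ a = b := by
  have h0 : t ≠ 0 := by linarith
  have h0' : t' ≠ 0 := by linarith
  have h01 : t - 1 ≠ 0 := by linarith
  have h01' : t' - 1 ≠ 0 := by linarith
  have haR : (0 : ℤ) < a := by exact_mod_cast ha
  have hbR : (0 : ℤ) < b := by exact_mod_cast hb
  obtain ⟨⟨π, hπ, hd⟩, ⟨ρ, hρ, hd'⟩⟩ := ntq_primes h1 h2
  -- valuations of `t'`
  have hval : ∀ π : ℕ, π.Prime → a * padicValRat π t = b * padicValRat π t' := by
    intro π hπ
    haveI : Fact π.Prime := ⟨hπ⟩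
    have := congrArg (padicValRat π) hab
    rwa [padicValRat.pow t, padicValRat.pow t'] at this
  have hp : p = 0 := by
    haveI : Fact π.Prime := ⟨hπ⟩
    have h3 := congrArg (padicValRat π) h
    obtain ⟨h4, h5⟩ := ntq_num t hπ h0 h1.ne' hd
    have h6 : 0 < padicValRat π t' := by
      have h7 := hval π hπ
      by_contra hc
      push Not at hc
      nlinarith [mul_pos haR h4]
    have hdt' : (π : ℤ) ∣ t'.num := by
      by_contra hc
      have h7 : padicValInt π t'.num = 0 := padicValInt.eq_zero_of_not_dvd hc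
      rw [padicValRat_def, h7] at h6
      omega
    obtain ⟨-, h5'⟩ := ntq_num t' hπ h0' h1'.ne' hdt'
    rw [padicValRat.mul (zpow_ne_zero _ h0) (zpow_ne_zero _ h01), ntq_zpow h0, ntq_zpow h01,
      ntq_zpow h01', h5, h5', mul_zero, mul_zero, add_zero] at h3
    rcases mul_eq_zero.1 h3.symm with h6 | h6
    · exact h6
    · omega
  subst hp
  rw [zpow_zero, one_mul] at h
  have hqa : q * a = p' * b := by
    haveI : Fact ρ.Prime := ⟨hρ⟩
    have h3 := congrArg (padicValRat ρ) h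
    obtain ⟨h4, h5⟩ := ntq_den t hρ h0 h1.ne' hd'
    have h7 := hval ρ hρ
    have h6 : padicValRat ρ t' < 0 := by
      by_contra hc
      push Not at hc
      nlinarith [mul_neg_of_pos_of_neg haR h4, mul_nonneg hbR.le hc]
    have hdt' : ρ ∣ t'.den := by
      by_contra hc
      have h7 : padicValNat ρ t'.den = 0 := padicValNat.eq_zero_of_not_dvd hc
      rw [padicValRat_def, h7] at h6
      omega
    obtain ⟨-, h5'⟩ := ntq_den t' hρ h0' h1'.ne' hdt'
    rw [ntq_zpow h01, ntq_zpow h01', h5, h5'] at h3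
    -- q v' = p' v, a v = b v'
    have h8 : (q * a - p' * b) * padicValRat ρ t' = 0 := by
      have : (q * a - p' * b) * padicValRat ρ t' =
          a * (q * padicValRat ρ t') - p' * (b * padicValRat ρ t') := by ring
      rw [this, h3, ← h7]
      ring
    rcases mul_eq_zero.1 h8 with h9 | h9
    · omega
    · omega
  have hq0 : q ≠ 0 := by
    intro hq
    subst hq
    rw [zero_mul] at hqa
    rcases mul_eq_zero.1 hqa.symm with h9 | h9
    · exact hne ⟨rfl, rfl, h9⟩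
    · omega
  have hpos : 0 < t - 1 := by linarith
  have hpos' : 0 < t' - 1 := by linarith
  -- `(t'-1)^b = (t-1)^a`
  have hpow : (t' - 1) ^ b = (t - 1) ^ a := by
    have h3 : ((t' - 1) ^ b) ^ q = ((t - 1) ^ a) ^ q := by
      have e1 : ((t' - 1) ^ b) ^ q = ((t' - 1) ^ q) ^ b := by
        rw [← zpow_natCast, ← zpow_natCast, ← zpow_mul, ← zpow_mul, mul_comm]
      have e2 : ((t - 1) ^ a) ^ q = ((t - 1) ^ p') ^ b := by
        rw [← zpow_natCast, ← zpow_natCast, ← zpow_mul, ← zpow_mul]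
        congr 1
        rw [mul_comm, hqa]
      rw [e1, e2, h]
    exact zpow_left_injOn₀ hq0 (le_of_lt (pow_pos hpos' b)) (le_of_lt (pow_pos hpos a)) h3
  have hab2 : a = b := by
    by_contra hne2
    have hy : (t⁻¹) ^ a = (t'⁻¹) ^ b := by rw [inv_pow, inv_pow, hab]
    have hz : ((t - 1) / t) ^ a = ((t' - 1) / t') ^ b := by rw [div_pow, div_pow, hab, hpow]
    have ht : 0 < t := by linarith
    have ht' : 0 < t' := by linarith
    have y0 : 0 < t⁻¹ := inv_pos.2 ht
    have y1 : t⁻¹ < 1 := inv_lt_one_of_one_lt₀ h1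
    have y0' : 0 < t'⁻¹ := inv_pos.2 ht'
    have y1' : t'⁻¹ < 1 := inv_lt_one_of_one_lt₀ h1'
    have z : (t - 1) / t = 1 - t⁻¹ := by field_simp
    have z' : (t' - 1) / t' = 1 - t'⁻¹ := by field_simp
    rw [z, z'] at hz
    rcases lt_or_gt_of_ne hne2 with hlt | hlt
    · -- a < b
      have e1 : (t'⁻¹) ^ b < (t'⁻¹) ^ a := pow_lt_pow_right_of_lt_one₀ y0' y1' hlt
      have e2 : (1 - t'⁻¹) ^ b < (1 - t'⁻¹) ^ a :=
        pow_lt_pow_right_of_lt_one₀ (by linarith) (by linarith) hlt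
      rw [← hy] at e1
      rw [← hz] at e2
      have e3 := lt_of_pow_lt_pow_left₀ a y0'.le e1
      have e4 := lt_of_pow_lt_pow_left₀ a (by linarith) e2
      linarith
    · have e1 : (t⁻¹) ^ a < (t⁻¹) ^ b := pow_lt_pow_right_of_lt_one₀ y0 y1 hlt
      have e2 : (1 - t⁻¹) ^ a < (1 - t⁻¹) ^ b :=
        pow_lt_pow_right_of_lt_one₀ (by linarith) (by linarith) hlt
      rw [hy] at e1
      rw [hz] at e2
      have e3 := lt_of_pow_lt_pow_left₀ b y0.le e1
      have e4 := lt_of_pow_lt_pow_left₀ b (by linarith) e2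
      linarith
  subst hab2
  refine ⟨?_, rfl, ?_, rfl⟩
  · exact (pow_left_inj₀ (by linarith) (by linarith) ha.ne').1 hab
  · exact mul_right_cancel₀ haR.ne' hqa

end Pool.Agent.Tyz
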