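import Pool.Agent.Work.MP_4c3a42_al.BaseP
import Pool.Agent.Work.MP_4c3a42_al.HtHad

open MvPolynomial

namespace Pool.Agent.Tyz

variable {ι : Type} [Fintype ι] [DecidableEq ι]

namespace RatHadAux

/-- image of an exponent -/
def gm {x : ι → ℂ} {o : ι} (d : LatData x o) (m : ι →₀ ℕ) : Fin (d.u + 1) → ℤ :=
  ∑ i, (m i : ℤ) • d.Γ i

/-- value of a monomial -/
noncomputable def xm (x : ι → ℂ) (m : ι →₀ ℕ) : ℂ := ∏ i, x i ^ (m i)

omit [DecidableEq ι] in
theorem xm_ne {x : ι → ℂ} (hx0 : ∀ i, x i ≠ 0) (m : ι →₀ ℕ) : xm x m ≠ 0 :=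
  Finset.prod_ne_zero_iff.2 fun i _ => pow_ne_zero _ (hx0 i)

theorem psi_mono (x : ι → ℂ) {o : ι} (d : LatData x o) (m : ι →₀ ℕ) :
    psi x d (monomial m 1) = AddMonoidAlgebra.single (gm d m) (xm x m) := by
  unfold psi
  rw [basep_aeval_monomial]
  simp [gm, xm]

theorem mk_eq_iff (x : ι → ℂ) {o : ι} (d : LatData x o) (F G : MvPolynomial ι ℚ) :
    Ideal.Quotient.mk (P0 x d) F = Ideal.Quotient.mk (P0 x d) G ↔ psi x d F = psi x d G := by
  rw [Ideal.Quotient.eq, ← sub_eq_zero (a := psi x d F), ← map_sub]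
  exact RingHom.mem_ker

theorem sign (x : ι → ℂ) {o : ι} (d : LatData x o) (hx0 : ∀ i, x i ≠ 0) (hxo : x o = 1)
    (q : ι → ℚ) (hq : ∀ i, x i = (q i : ℂ)) (m m' : ι →₀ ℕ) (h : gm d m = gm d m') :
    xm x m = xm x m' ∨ xm x m = -xm x m' := by
  obtain ⟨r, hr, htors⟩ := d.tors hx0 hxo
  have h1 := htors (fun i => (m i : ℤ) - (m' i : ℤ)) (by
    simp only [sub_smul, Finset.sum_sub_distrib]
    exact sub_eq_zero.2 h)
  have h2 : ∏ i, x i ^ ((m i : ℤ) - (m' i : ℤ)) = xm x m * (xm x m')⁻¹ := by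
    simp only [xm]
    rw [← Finset.prod_inv_distrib, ← Finset.prod_mul_distrib]
    refine Finset.prod_congr rfl fun i _ => ?_
    rw [zpow_sub₀ (hx0 i), zpow_natCast, zpow_natCast, div_eq_mul_inv]
  have h3 : ∏ i, x i ^ ((m i : ℤ) - (m' i : ℤ)) =
      ((∏ i, q i ^ ((m i : ℤ) - (m' i : ℤ)) : ℚ) : ℂ) := by
    push_cast
    refine Finset.prod_congr rfl fun i _ => ?_
    rw [hq i]
  set ρ : ℚ := ∏ i, q i ^ ((m i : ℤ) - (m' i : ℤ)) with hρ
  have h4 : ρ ^ r = 1 := by
    rw [h3] at h1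
    exact_mod_cast h1
  have h5 : |ρ| = 1 := by
    have h6 : |ρ| ^ r = 1 := by
      rw [← abs_pow, h4, abs_one]
    exact (pow_eq_one_iff_of_nonneg (abs_nonneg ρ) hr.ne').1 h6
  have h7 : xm x m = (ρ : ℂ) * xm x m' := by
    rw [← h3, h2, inv_mul_cancel_right₀ (xm_ne hx0 m')]
  rcases abs_eq (zero_le_one) |>.1 h5 with h8 | h8
  · left
    rw [h7, h8]
    simp
  · right
    rw [h7, h8]
    simp

theorem mk_sign (x : ι → ℂ) {o : ι} (d : LatData x o) (hx0 : ∀ i, x i ≠ 0) (hxo : x o = 1)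
    (q : ι → ℚ) (hq : ∀ i, x i = (q i : ℂ)) (m m' : ι →₀ ℕ) (h : gm d m = gm d m') :
    Ideal.Quotient.mk (P0 x d) (monomial m 1) = Ideal.Quotient.mk (P0 x d) (monomial m' 1) ∨
    Ideal.Quotient.mk (P0 x d) (monomial m 1) =
      -Ideal.Quotient.mk (P0 x d) (monomial m' 1) := by
  rw [← map_neg, mk_eq_iff, mk_eq_iff, map_neg, psi_mono, psi_mono, h]
  rcases sign x d hx0 hxo q hq m m' h with h1 | h1
  · left
    rw [h1]
  · right
    rw [h1]
    simp

theorem basis (x : ι → ℂ) {o : ι} (d : LatData x o) (hx0 : ∀ i, x i ≠ 0) (hxo : x o = 1)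
    (q : ι → ℚ) (hq : ∀ i, x i = (q i : ℂ)) (D : ℕ) :
    ∃ (J : Type) (_ : Fintype J) (rep : J → Mon ι D),
      LinearIndependent ℚ (fun c => mv (P0 x d) D (rep c)) ∧
      (∀ m : Mon ι D, ∃ c, gm d m.1 = gm d (rep c).1 ∧
        (mv (P0 x d) D m = mv (P0 x d) D (rep c) ∨ mv (P0 x d) D m = -mv (P0 x d) D (rep c))) := by
  classical
  let g : Mon ι D → (Fin (d.u + 1) → ℤ) := fun m => gm d m.1
  have hJ0 : Finite (Set.range g) := Set.finite_range g
  let rep : Set.range g → Mon ι D := fun c => c.2.choose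
  have hrep : ∀ c : Set.range g, gm d (rep c).1 = c.1 := fun c => c.2.choose_spec
  refine ⟨Set.range g, Fintype.ofFinite _, rep, ?_, ?_⟩
  · let Φ : (MvPolynomial ι ℚ ⧸ P0 x d) →ₐ[ℚ] AddMonoidAlgebra ℂ (Fin (d.u + 1) → ℤ) :=
      Ideal.Quotient.liftₐ (P0 x d) (psi x d) (fun F hF => (RingHom.mem_ker).1 hF)
    apply LinearIndependent.of_comp Φ.toLinearMap
    have : Fintype (Set.range g) := Fintype.ofFinite _
    rw [Fintype.linearIndependent_iff]
    intro a ha c
    have h1 : ∀ c : Set.range g, (Φ.toLinearMap ∘ fun c => mv (P0 x d) D (rep c)) c =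
        AddMonoidAlgebra.single c.1 (xm x (rep c).1) := by
      intro c
      have h2 : (Φ.toLinearMap ∘ fun c => mv (P0 x d) D (rep c)) c =
        psi x d (monomial (rep c).1 1) := rfl
      rw [h2, psi_mono, hrep]
    simp only [h1] at ha
    have h3 := congrArg (fun F : AddMonoidAlgebra ℂ (Fin (d.u + 1) → ℤ) => F.coeff c.1) ha
    simp only [AddMonoidAlgebra.coeff_sum, Finsupp.finsetSum_apply, AddMonoidAlgebra.coeff_smul,
      Finsupp.smul_apply, AddMonoidAlgebra.coeff_single, Finsupp.single_apply] at h3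
    rw [Finset.sum_eq_single c] at h3
    · rw [if_pos rfl] at h3
      have h4 : a c • xm x (rep c).1 = 0 := h3
      rw [smul_eq_zero] at h4
      exact h4.resolve_right (xm_ne hx0 _)
    · intro c' _ hc'
      rw [if_neg, smul_zero]
      intro h4
      exact hc' (Subtype.ext h4)
    · intro h4
      exact absurd (Finset.mem_univ _) h4
  · intro m
    exact ⟨⟨g m, m, rfl⟩, (hrep ⟨g m, m, rfl⟩).symm,
      mk_sign x d hx0 hxo q hq _ _ (hrep ⟨g m, m, rfl⟩).symm⟩

omit [Fintype ι] [DecidableEq ι] in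
theorem degree_single (t : ι) : (Finsupp.single t 1 : ι →₀ ℕ).degree = 1 := by
  simp

theorem mon_degree {D : ℕ} (m : Mon ι D) : m.1.degree = D := by
  have h := (Finset.mem_finsuppAntidiag.1 m.2).1
  rw [Finsupp.degree_eq_sum]
  exact h

theorem mem_mon {D : ℕ} {m : ι →₀ ℕ} (h : m.degree = D) :
    m ∈ (Finset.univ : Finset ι).finsuppAntidiag D := by
  rw [Finset.mem_finsuppAntidiag]
  rw [Finsupp.degree_eq_sum] at h
  exact ⟨h, Finset.subset_univ _⟩

/-- multiplication of an exponent by a variable -/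
noncomputable def up {D : ℕ} (m : Mon ι D) (t : ι) : Mon ι (D + 1) :=
  ⟨m.1 + Finsupp.single t 1, mem_mon (by rw [map_add, mon_degree, degree_single])⟩

theorem mv_up (P : Ideal (MvPolynomial ι ℚ)) {D : ℕ} (m : Mon ι D) (t : ι) :
    Ideal.Quotient.mk P (X t) * mv P D m = mv P (D + 1) (up m t) := by
  unfold mv up
  rw [← map_mul, X, monomial_mul, add_comm, mul_one]

theorem gm_up {x : ι → ℂ} {o : ι} (d : LatData x o) {D : ℕ} (m : Mon ι D) (t : ι) :
    gm d (up m t).1 = gm d m.1 + d.Γ t := by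
  unfold gm up
  simp only [Finsupp.add_apply, Nat.cast_add, add_smul, Finset.sum_add_distrib]
  congr 1
  rw [Finset.sum_eq_single t]
  · simp
  · intro b _ hb
    rw [Finsupp.single_apply, if_neg (Ne.symm hb)]
    simp
  · intro h
    exact absurd (Finset.mem_univ _) h

theorem hom_mem (P : Ideal (MvPolynomial ι ℚ)) {D : ℕ} {G : MvPolynomial ι ℚ}
    (hG : G.IsHomogeneous D) :
    Ideal.Quotient.mk P G ∈ Submodule.span ℚ (Set.range (mv P D)) := by
  rw [G.as_sum, map_sum]
  refine Submodule.sum_mem _ fun m hm => ?_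
  have h1 : m.degree = D := by
    rw [mem_support_iff] at hm
    rw [Finsupp.degree_eq_weight_one]
    exact hG hm
  have h2 : Ideal.Quotient.mk P (monomial m (coeff m G)) =
      (coeff m G) • mv P D ⟨m, mem_mon h1⟩ := by
    have h3 : (monomial m (coeff m G) : MvPolynomial ι ℚ) = (coeff m G) • monomial m 1 := by
      rw [smul_monomial, smul_eq_mul, mul_one]
    rw [h3]
    rfl
  rw [h2]
  exact Submodule.smul_mem _ _ (Submodule.subset_span ⟨_, rfl⟩)

theorem mem_hom (P : Ideal (MvPolynomial ι ℚ)) {D : ℕ} {y : MvPolynomial ι ℚ ⧸ P}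
    (hy : y ∈ Submodule.span ℚ (Set.range (mv P D))) :
    ∃ G : MvPolynomial ι ℚ, G.IsHomogeneous D ∧ Ideal.Quotient.mk P G = y := by
  induction hy using Submodule.span_induction with
  | mem z hz =>
    obtain ⟨m, rfl⟩ := hz
    refine ⟨monomial m.1 1, ?_, rfl⟩
    exact isHomogeneous_monomial _ (mon_degree m)
  | zero => exact ⟨0, isHomogeneous_zero _ _ _, map_zero _⟩
  | add z w _ _ h1 h2 =>
    obtain ⟨G, hG, rfl⟩ := h1
    obtain ⟨H, hH, rfl⟩ := h2
    exact ⟨G + H, hG.add hH, map_add _ _ _⟩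
  | smul a z _ h1 =>
    obtain ⟨G, hG, rfl⟩ := h1
    refine ⟨a • G, ?_, rfl⟩
    rw [smul_eq_C_mul]
    have := (isHomogeneous_C ι a).mul hG
    rwa [zero_add] at this

omit [Fintype ι] [DecidableEq ι] in
theorem hc_mul {F : MvPolynomial ι ℚ} (hF : F.IsHomogeneous 1) (h : MvPolynomial ι ℚ) (D : ℕ) :
    homogeneousComponent (D + 1) (h * F) = homogeneousComponent D h * F := by
  have h1 : ∀ n, homogeneousComponent (D + 1) (homogeneousComponent n h * F) =
      if n = D then homogeneousComponent n h * F else 0 := by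
    intro n
    have h2 : (homogeneousComponent n h * F).IsHomogeneous (n + 1) :=
      (homogeneousComponent_isHomogeneous n h).mul hF
    rw [homogeneousComponent_of_mem ((mem_homogeneousSubmodule _ _).2 h2)]
    by_cases h3 : n = D
    · rw [if_pos (by rw [h3]), if_pos h3]
    · rw [if_neg (by omega), if_neg h3]
  conv_lhs => rw [← sum_homogeneousComponent h]
  rw [Finset.sum_mul, map_sum, Finset.sum_congr rfl fun n _ => h1 n, Finset.sum_ite_eq']
  by_cases h4 : D ∈ Finset.range (h.totalDegree + 1)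
  · rw [if_pos h4]
  · rw [if_neg h4, homogeneousComponent_eq_zero, zero_mul]
    rw [Finset.mem_range] at h4
    omega

end RatHadAux

open RatHadAux

/-- First cut of the toric ideal of a rational point by a true trinomial: Hadamard. -/
theorem had_first (x : ι → ℂ) {o : ι} (d : LatData x o) (hx0 : ∀ i, x i ≠ 0) (hxo : x o = 1)
    (q : ι → ℚ) (hq : ∀ i, x i = (q i : ℂ)) (i j k : ι) (hij : d.Γ i ≠ d.Γ j)
    (hik : d.Γ i ≠ d.Γ k) (hjk : d.Γ j ≠ d.Γ k) (D : ℕ) :
    lh (P0 x d ⊔ Ideal.span {toQ (X i + X j - X k)}) (D + 1) ≤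
      Real.log 3 / 2 * hf (P0 x d) D := by
  classical
  set P := P0 x d with hP
  have hPprime : P.IsPrime := P0_prime x d
  have hPH : HI P := P0_HI x d
  have hF : toQ (X i + X j - X k : MvPolynomial ι ℤ) = X i + X j - X k := by
    simp [toQ]
  rw [hF]
  set F : MvPolynomial ι ℚ := X i + X j - X k with hFdef
  have hFh : F.IsHomogeneous 1 := ((isHomogeneous_X ℚ i).add (isHomogeneous_X ℚ j)).sub
    (isHomogeneous_X ℚ k)
  set J := P ⊔ Ideal.span {F} with hJ
  have hle : P ≤ J := le_sup_left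
  have hFJ : F ∈ J := Ideal.mem_sup_right (Ideal.subset_span rfl)
  let π : (MvPolynomial ι ℚ ⧸ P) →ₗ[ℚ] (MvPolynomial ι ℚ ⧸ J) :=
    (Ideal.Quotient.factorₐ ℚ hle).toLinearMap
  have hπmk : ∀ G, π (Ideal.Quotient.mk P G) = Ideal.Quotient.mk J G := fun G => rfl
  have hFP : Ideal.Quotient.mk P F ≠ 0 := by
    intro h
    have h1 : psi x d F = psi x d 0 := (mk_eq_iff x d F 0).1 (by rw [h, map_zero])
    rw [map_zero, hFdef, map_sub, map_add] at h1
    have h2 : ∀ t, psi x d (X t) = AddMonoidAlgebra.single (d.Γ t) (x t) := by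
      intro t
      simp [psi]
    rw [h2, h2, h2] at h1
    have h3 := congrArg (fun F : AddMonoidAlgebra ℂ (Fin (d.u + 1) → ℤ) => F.coeff (d.Γ i)) h1
    simp only [AddMonoidAlgebra.coeff_sub, AddMonoidAlgebra.coeff_add, Finsupp.sub_apply,
      Finsupp.add_apply, AddMonoidAlgebra.coeff_single, Finsupp.single_apply] at h3
    rw [if_neg (Ne.symm hij), if_neg (Ne.symm hik)] at h3
    apply hx0 i
    simpa using h3
  obtain ⟨J1, _, rep1, hli1, hcov1⟩ := RatHadAux.basis x d hx0 hxo q hq (D + 1)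
  obtain ⟨J0, _, rep0, hli0, hcov0⟩ := RatHadAux.basis x d hx0 hxo q hq D
  have hspan : ∀ (D : ℕ) (J' : Type) (rep : J' → Mon ι D),
      (∀ m : Mon ι D, ∃ c, gm d m.1 = gm d (rep c).1 ∧
        (mv (P0 x d) D m = mv (P0 x d) D (rep c) ∨
          mv (P0 x d) D m = -mv (P0 x d) D (rep c))) →
      Submodule.span ℚ (Set.range (mv P D)) =
        Submodule.span ℚ (Set.range fun c => mv P D (rep c)) := by
    intro D J' rep hcov
    apply le_antisymm
    · rw [Submodule.span_le]
      rintro _ ⟨m, rfl⟩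
      obtain ⟨c, -, h | h⟩ := hcov m
      · rw [h]
        exact Submodule.subset_span ⟨c, rfl⟩
      · rw [h]
        exact Submodule.neg_mem _ (Submodule.subset_span ⟨c, rfl⟩)
    · rw [Submodule.span_le]
      rintro _ ⟨c, rfl⟩
      exact Submodule.subset_span ⟨rep c, rfl⟩
  have hcard : hf P D = Fintype.card J0 := by
    unfold hf rk
    rw [hspan D J0 rep0 hcov0]
    exact finrank_span_eq_card hli0
  let e : Fin (hf P D) ≃ J0 := (Fintype.equivFinOfCardEq hcard.symm).symm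
  -- classes and signs
  have hcs : ∀ (m : Mon ι D) (t : ι), ∃ (c : J1) (s : ℤ), s ^ 2 = 1 ∧
      gm d (up m t).1 = gm d (rep1 c).1 ∧
      mv P (D + 1) (up m t) = (s : ℚ) • mv P (D + 1) (rep1 c) := by
    intro m t
    obtain ⟨c, hc, h | h⟩ := hcov1 (up m t)
    · exact ⟨c, 1, by norm_num, hc, by rw [h, Int.cast_one, one_smul]⟩
    · exact ⟨c, -1, by norm_num, hc, by rw [h, Int.cast_neg, Int.cast_one, neg_one_smul]⟩
  choose ct sg hsg hct hmv using hcs
  have hne : ∀ (m : Mon ι D) (t t' : ι), d.Γ t ≠ d.Γ t' → ct m t ≠ ct m t' := by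
    intro m t t' h h'
    apply h
    have h1 := hct m t
    rw [h', ← hct m t', gm_up, gm_up] at h1
    exact add_left_cancel h1
  let cc : Fin (hf P D) → J1 → ℤ := fun a =>
    Pi.single (ct (rep0 (e a)) i) (sg (rep0 (e a)) i) +
      Pi.single (ct (rep0 (e a)) j) (sg (rep0 (e a)) j) -
      Pi.single (ct (rep0 (e a)) k) (sg (rep0 (e a)) k)
  let r : Fin (hf P D) → MvPolynomial ι ℚ ⧸ P := fun a =>
    Ideal.Quotient.mk P F * mv P D (rep0 (e a))
  have hr : ∀ a, r a = ∑ c, ((cc a c : ℤ) : ℚ) • mv P (D + 1) (rep1 c) := by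
    intro a
    have h1 : r a = (sg (rep0 (e a)) i : ℚ) • mv P (D + 1) (rep1 (ct (rep0 (e a)) i)) +
        (sg (rep0 (e a)) j : ℚ) • mv P (D + 1) (rep1 (ct (rep0 (e a)) j)) -
        (sg (rep0 (e a)) k : ℚ) • mv P (D + 1) (rep1 (ct (rep0 (e a)) k)) := by
      rw [← hmv, ← hmv, ← hmv, ← mv_up, ← mv_up, ← mv_up]
      simp only [r, hFdef]
      rw [map_sub, map_add]
      ring
    have h2 : ∀ (c0 : J1) (s0 : ℤ), ∑ c, (((Pi.single c0 s0 : J1 → ℤ) c : ℤ) : ℚ) •
        mv P (D + 1) (rep1 c) = (s0 : ℚ) • mv P (D + 1) (rep1 c0) := by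
      intro c0 s0
      rw [Finset.sum_eq_single c0]
      · rw [Pi.single_eq_same]
      · intro c _ hc
        rw [Pi.single_eq_of_ne hc]
        simp
      · intro h
        exact absurd (Finset.mem_univ _) h
    rw [h1]
    simp only [cc, Pi.sub_apply, Pi.add_apply, Int.cast_sub, Int.cast_add, sub_smul, add_smul,
      Finset.sum_sub_distrib, Finset.sum_add_distrib, h2]
  have hM : ∀ a, ∑ c, ((cc a c : ℤ) : ℝ) ^ 2 ≤ (√3) ^ 2 := by
    intro a
    have h1 : ∑ c, (cc a c) ^ 2 = 3 := by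
      have hA := hne (rep0 (e a)) i j hij
      have hB := hne (rep0 (e a)) i k hik
      have hC := hne (rep0 (e a)) j k hjk
      have h2 : ∀ c, (cc a c) ^ 2 =
          (Pi.single (ct (rep0 (e a)) i) ((sg (rep0 (e a)) i) ^ 2) : J1 → ℤ) c +
          (Pi.single (ct (rep0 (e a)) j) ((sg (rep0 (e a)) j) ^ 2) : J1 → ℤ) c +
          (Pi.single (ct (rep0 (e a)) k) ((sg (rep0 (e a)) k) ^ 2) : J1 → ℤ) c := by
        intro c
        simp only [cc, Pi.sub_apply, Pi.add_apply, Pi.single_apply]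
        by_cases h3 : c = ct (rep0 (e a)) i
        · have h4 : c ≠ ct (rep0 (e a)) j := h3 ▸ hA
          have h5 : c ≠ ct (rep0 (e a)) k := h3 ▸ hB
          rw [if_pos h3, if_neg h4, if_neg h5, if_pos h3, if_neg h4, if_neg h5]
          ring
        · by_cases h4 : c = ct (rep0 (e a)) j
          · have h5 : c ≠ ct (rep0 (e a)) k := h4 ▸ hC
            rw [if_neg h3, if_pos h4, if_neg h5, if_neg h3, if_pos h4, if_neg h5]
            ring
          · by_cases h5 : c = ct (rep0 (e a)) k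
            · rw [if_neg h3, if_neg h4, if_pos h5, if_neg h3, if_neg h4, if_pos h5]
              ring
            · rw [if_neg h3, if_neg h4, if_neg h5, if_neg h3, if_neg h4, if_neg h5]
              ring
      rw [Finset.sum_congr rfl fun c _ => h2 c, Finset.sum_add_distrib, Finset.sum_add_distrib,
        Finset.sum_pi_single', Finset.sum_pi_single', Finset.sum_pi_single']
      simp [hsg]
    rw [Real.sq_sqrt (by norm_num)]
    have h3 : ∑ c, ((cc a c : ℤ) : ℝ) ^ 2 = ((∑ c, (cc a c) ^ 2 : ℤ) : ℝ) := by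
      push_cast
      rfl
    rw [h3, h1]
    norm_num
  have hinj : Function.Injective (LinearMap.mulLeft ℚ (Ideal.Quotient.mk P F)) := by
    intro y z h
    exact mul_left_cancel₀ hFP h
  have hri : LinearIndependent ℚ r := by
    have h1 : LinearIndependent ℚ (fun a => mv P D (rep0 (e a))) := hli0.comp e e.injective
    exact h1.map' (LinearMap.mulLeft ℚ (Ideal.Quotient.mk P F)) (LinearMap.ker_eq_bot.2 hinj)
  have hspr : Submodule.span ℚ (Set.range r) =
      (Submodule.span ℚ (Set.range (mv P D))).map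
        (LinearMap.mulLeft ℚ (Ideal.Quotient.mk P F)) := by
    rw [hspan D J0 rep0 hcov0, Submodule.map_span, ← Set.range_comp]
    congr 1
    ext y
    constructor
    · rintro ⟨a, rfl⟩
      exact ⟨e a, rfl⟩
    · rintro ⟨c, rfl⟩
      exact ⟨e.symm c, by simp [r]⟩
  have hπ : ∀ y ∈ Submodule.span ℚ (Set.range fun c => mv P (D + 1) (rep1 c)),
      π y = 0 ↔ y ∈ Submodule.span ℚ (Set.range r) := by
    intro y hy
    rw [← hspan (D + 1) J1 rep1 hcov1] at hy
    obtain ⟨G, hG, rfl⟩ := mem_hom P hy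
    rw [hspr, hπmk, Ideal.Quotient.eq_zero_iff_mem]
    constructor
    · intro h
      obtain ⟨p, hp, f, hf, hsum⟩ := Submodule.mem_sup.1 h
      obtain ⟨h', rfl⟩ := Ideal.mem_span_singleton'.1 hf
      have h1 : homogeneousComponent (D + 1) G = G := by
        rw [homogeneousComponent_of_mem ((mem_homogeneousSubmodule _ _).2 hG), if_pos rfl]
      have h2 : G = homogeneousComponent (D + 1) p + homogeneousComponent D h' * F := by
        rw [← hc_mul hFh, ← map_add, hsum, h1]
      refine ⟨Ideal.Quotient.mk P (homogeneousComponent D h'),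
        hom_mem P (homogeneousComponent_isHomogeneous _ _), ?_⟩
      have h3 : Ideal.Quotient.mk P G = Ideal.Quotient.mk P (homogeneousComponent D h' * F) := by
        rw [Ideal.Quotient.eq]
        have h4 : G - homogeneousComponent D h' * F = homogeneousComponent (D + 1) p := by
          rw [h2]
          ring
        rw [h4]
        exact hPH p hp _
      rw [h3, map_mul, mul_comm]
      rfl
    · rintro ⟨z, hz, hzG⟩
      obtain ⟨H, hH, rfl⟩ := mem_hom P hz
      have h1 : Ideal.Quotient.mk P G = Ideal.Quotient.mk P (F * H) := by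
        rw [map_mul]
        exact hzG.symm
      have h2 : G - F * H ∈ P := Ideal.Quotient.eq.1 h1
      have h3 : G = (G - F * H) + F * H := by ring
      rw [h3]
      exact J.add_mem (hle h2) (J.mul_mem_right _ hFJ)
  have hmain := ht_hadamard (fun c => mv P (D + 1) (rep1 c)) hli1 (mv P (D + 1))
    (fun m => by
      obtain ⟨c, -, h⟩ := hcov1 m
      exact ⟨c, h⟩)
    (fun c => ⟨rep1 c, Or.inl rfl⟩) r cc hr (√3) (Real.sqrt_nonneg 3) hM hri π hπ
  have hmv' : (fun m => π (mv P (D + 1) m)) = mv J (D + 1) := rfl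
  rw [hmv'] at hmain
  unfold lh
  have h1 := Real.log_le_log (lt_of_lt_of_le one_pos (one_le_ht _)) hmain
  rw [Real.log_pow, Real.log_sqrt (by norm_num)] at h1
  linarith

end Pool.Agent.Tyz
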