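import Pool.Agent.Work.MP_4c3a42_al.Irr
import Pool.Agent.Work.MP_4c3a42_al.Cram
import Pool.Agent.Work.MP_4c3a42_al.NTq
import Pool.Agent.Work.MP_4c3a42_al.RatHad

open MvPolynomial

namespace Pool.Agent.Tyz

variable {ι : Type} [Fintype ι] [DecidableEq ι]

theorem Pres.comp {x y z : ι → ℂ} (h : Pres x y) (h' : Pres y z) : Pres x z :=
  ⟨fun i j e => h'.eq i j (h.eq i j e), fun i j k e => h'.mul i j k (h.mul i j k e),
    fun i j k e => h'.add i j k (h.add i j k e), fun i j e => h'.neg i j (h.neg i j e)⟩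

theorem IsRel.shape {x : ι → ℂ} {o : ι} {w : ι → ℤ} (h : IsRel x o w) : RelShape o w := by
  rcases h with ⟨i, j, -, h⟩ | ⟨i, j, k, -, h⟩
  · exact Or.inl ⟨i, j, h⟩
  · exact Or.inr ⟨i, j, k, h⟩

/-- Additive triples in absolute values. -/
def Al (q : ι → ℚ) (A B C : ι) : Prop :=
  |q C| = |q A| + |q B| ∧ |q B| ≤ |q A| ∧
    (q A + q B = q C ∨ q C + q A = q B ∨ q C + q B = q A)

/-- Sign. -/
noncomputable def sg (q : ι → ℚ) (i : ι) : ℝ := if 0 < q i then 1 else -1

theorem sg_mul_abs (q : ι → ℚ) (i : ι) (h : q i ≠ 0) : sg q i * |((q i : ℚ) : ℝ)| = q i := by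
  unfold sg
  rcases lt_or_gt_of_ne h with h | h
  · rw [if_neg (not_lt.2 h.le), abs_of_neg (by exact_mod_cast h)]; ring
  · rw [if_pos h, abs_of_pos (by exact_mod_cast h), one_mul]

theorem abs_sg (q : ι → ℚ) (i : ι) : |sg q i| = 1 := by
  unfold sg; split_ifs <;> simp

/-- Transfer of relations through signs. -/
theorem pres_of_sign (x : ι → ℂ) (q : ι → ℚ) (hx : ∀ i, x i = (q i : ℂ)) (hq0 : ∀ i, q i ≠ 0)
    (y : ι → ℝ) (hy : ∀ i, 0 < y i)
    (hy_eq : ∀ i j, (q i = q j ∨ q i + q j = 0) → y i = y j)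
    (hy_mul : ∀ i j k, q i * q j = q k → y i * y j = y k)
    (hy_add : ∀ A B C, Al q A B C → y C = y A + y B) :
    Pres x (fun i => ((sg q i * y i : ℝ) : ℂ)) := by
  have key : ∀ i j : ι, (q i : ℂ) = (q j : ℂ) ↔ q i = q j := fun i j => by norm_cast
  have hsym : ∀ A B C, |q C| = |q A| + |q B| →
      (q A + q B = q C ∨ q C + q A = q B ∨ q C + q B = q A) → y C = y A + y B := by
    intro A B C h1 h2
    rcases le_total |q B| |q A| with h | h
    · exact hy_add A B C ⟨h1, h, h2⟩
    · rw [add_comm]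
      refine hy_add B A C ⟨by rw [h1, add_comm], h, ?_⟩
      rcases h2 with h2 | h2 | h2
      · exact Or.inl (by rw [← h2, add_comm])
      · exact Or.inr (Or.inr h2)
      · exact Or.inr (Or.inl h2)
  refine ⟨fun i j h => ?_, fun i j k h => ?_, fun i j k h => ?_, fun i j h => ?_⟩
  · rw [hx, hx] at h
    have h' : q i = q j := by exact_mod_cast h
    have hs : sg q i = sg q j := by unfold sg; rw [h']
    simp only [hs, hy_eq i j (Or.inl h')]
  · rw [hx, hx, hx] at h
    have h' : q i * q j = q k := by exact_mod_cast h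
    have hs : sg q i * sg q j = sg q k := by
      unfold sg
      rcases lt_or_gt_of_ne (hq0 i) with hi | hi <;> rcases lt_or_gt_of_ne (hq0 j) with hj | hj
      · have : 0 < q k := by rw [← h']; exact mul_pos_of_neg_of_neg hi hj
        rw [if_neg hi.le.not_gt, if_neg hj.le.not_gt, if_pos this]; norm_num
      · have : q k < 0 := by rw [← h']; exact mul_neg_of_neg_of_pos hi hj
        rw [if_neg hi.le.not_gt, if_pos hj, if_neg this.le.not_gt]; norm_num
      · have : q k < 0 := by rw [← h']; exact mul_neg_of_pos_of_neg hi hj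
        rw [if_pos hi, if_neg hj.le.not_gt, if_neg this.le.not_gt]; norm_num
      · have : 0 < q k := by rw [← h']; exact mul_pos hi hj
        rw [if_pos hi, if_pos hj, if_pos this]; norm_num
    have := hy_mul i j k h'
    show ((sg q i * y i : ℝ) : ℂ) * ((sg q j * y j : ℝ) : ℂ) = ((sg q k * y k : ℝ) : ℂ)
    rw [← Complex.ofReal_mul]
    congr 1
    rw [← hs, ← this]; ring
  · rw [hx, hx, hx] at h
    have h' : q i + q j = q k := by exact_mod_cast h
    show ((sg q i * y i : ℝ) : ℂ) + ((sg q j * y j : ℝ) : ℂ) = ((sg q k * y k : ℝ) : ℂ)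
    rw [← Complex.ofReal_add]
    congr 1
    unfold sg
    rcases lt_or_gt_of_ne (hq0 i) with hi | hi <;> rcases lt_or_gt_of_ne (hq0 j) with hj | hj <;>
      rcases lt_or_gt_of_ne (hq0 k) with hk | hk
    · have := hsym i j k (by rw [abs_of_neg hi, abs_of_neg hj, abs_of_neg hk]; linarith)
        (Or.inl h')
      rw [if_neg hi.le.not_gt, if_neg hj.le.not_gt, if_neg hk.le.not_gt, this]; ring
    · exfalso; linarith
    · -- i<0, j>0, k<0 : |i| = |j| + |k|
      have := hsym j k i (by rw [abs_of_neg hi, abs_of_pos hj, abs_of_neg hk]; linarith)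
        (Or.inr (Or.inl h'))
      rw [if_neg hi.le.not_gt, if_pos hj, if_neg hk.le.not_gt, this]; ring
    · -- i<0, j>0, k>0 : |j| = |i| + |k|
      have := hsym i k j (by rw [abs_of_neg hi, abs_of_pos hj, abs_of_pos hk]; linarith)
        (Or.inr (Or.inl (by rw [add_comm]; exact h')))
      rw [if_neg hi.le.not_gt, if_pos hj, if_pos hk, this]; ring
    · -- i>0, j<0, k<0 : |j| = |i|+|k|
      have := hsym i k j (by rw [abs_of_pos hi, abs_of_neg hj, abs_of_neg hk]; linarith)
        (Or.inr (Or.inl (by rw [add_comm]; exact h')))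
      rw [if_pos hi, if_neg hj.le.not_gt, if_neg hk.le.not_gt, this]; ring
    · -- i>0,j<0,k>0 : |i| = |j|+|k|
      have := hsym j k i (by rw [abs_of_pos hi, abs_of_neg hj, abs_of_pos hk]; linarith)
        (Or.inr (Or.inl h'))
      rw [if_pos hi, if_neg hj.le.not_gt, if_pos hk, this]; ring
    · exfalso; linarith
    · have := hsym i j k (by rw [abs_of_pos hi, abs_of_pos hj, abs_of_pos hk]; linarith)
        (Or.inl h')
      rw [if_pos hi, if_pos hj, if_pos hk, this]; ring
  · rw [hx, hx] at h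
    have h' : q i + q j = 0 := by exact_mod_cast h
    show ((sg q i * y i : ℝ) : ℂ) + ((sg q j * y j : ℝ) : ℂ) = 0
    rw [← Complex.ofReal_add, hy_eq i j (Or.inr h')]
    have : sg q i + sg q j = 0 := by
      unfold sg
      rcases lt_or_gt_of_ne (hq0 i) with hi | hi
      · rw [if_neg hi.le.not_gt, if_pos (by linarith)]; norm_num
      · rw [if_pos hi, if_neg (by linarith)]; norm_num
    rw [← add_mul, this]; simp

/-- Logarithms. -/
noncomputable def lamq (q : ι → ℚ) (i : ι) : ℝ := Real.logb 2 |((q i : ℚ) : ℝ)|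

theorem rpow_lamq (q : ι → ℚ) (i : ι) (h : q i ≠ 0) : (2 : ℝ) ^ lamq q i = |((q i : ℚ) : ℝ)| := by
  unfold lamq
  exact Real.rpow_logb (by norm_num) (by norm_num) (abs_pos.2 (by exact_mod_cast h))

/-- A functional on `ι → ℚ` given by its coordinates. -/
noncomputable def fl (lam : ι → ℝ) : (ι → ℚ) →ₗ[ℚ] ℝ where
  toFun w := ∑ i, ((w i : ℚ) : ℝ) * lam i
  map_add' w w' := by
    simp only [Pi.add_apply, Rat.cast_add, add_mul, Finset.sum_add_distrib]
  map_smul' c w := by
    simp only [Pi.smul_apply, smul_eq_mul, Rat.cast_mul, mul_assoc, RingHom.id_apply]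
    rw [← Finset.mul_sum]
    rw [Rat.smul_def]

theorem fl_vq (lam : ι → ℝ) (w : ι → ℤ) : fl lam (vq w) = ∑ i, (w i : ℝ) * lam i := by
  simp [fl, vq]

theorem fl_dv (lam : ι → ℝ) (a b : ι) : fl lam (vq (dv a b)) = lam a - lam b := by
  rw [fl_vq]
  simp only [dv, Pi.sub_apply, Int.cast_sub, sub_mul, Finset.sum_sub_distrib]
  congr 1
  · rw [Finset.sum_eq_single a]
    · simp
    · intro i _ hi; simp [Pi.single_apply, hi]
    · simp
  · rw [Finset.sum_eq_single b]
    · simp
    · intro i _ hi; simp [Pi.single_apply, hi]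
    · simp

/-- `lamq` kills all relation vectors. -/
theorem lamq_rel (x : ι → ℂ) (q : ι → ℚ) (hx : ∀ i, x i = (q i : ℂ)) (hq0 : ∀ i, q i ≠ 0)
    (o : ι) (hqo : q o = 1) (w : ι → ℤ) (hw : IsRel x o w) :
    ∑ i, (w i : ℝ) * lamq q i = 0 := by
  have hs : ∀ a : ι, ∑ i, (((Pi.single a 1 : ι → ℤ) i : ℤ) : ℝ) * lamq q i = lamq q a := by
    intro a
    rw [Finset.sum_eq_single a]
    · simp
    · intro i _ hi; simp [Pi.single_apply, hi]
    · simp
  rcases hw with ⟨i, j, h, rfl⟩ | ⟨i, j, k, h, rfl⟩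
  · simp only [Pi.sub_apply, Int.cast_sub, sub_mul, Finset.sum_sub_distrib, hs]
    rw [hx, hx] at h
    have h' : q i = q j := by exact_mod_cast h
    unfold lamq; rw [h']; ring
  · simp only [Pi.sub_apply, Pi.add_apply, Int.cast_sub, Int.cast_add, sub_mul, add_mul,
      Finset.sum_sub_distrib, Finset.sum_add_distrib, hs]
    rw [hx, hx, hx] at h
    have h' : q i * q j = q k := by exact_mod_cast h
    unfold lamq
    rw [hqo, ← h']
    push_cast
    rw [abs_mul, Real.logb_mul (abs_ne_zero.2 (by exact_mod_cast hq0 i))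
      (abs_ne_zero.2 (by exact_mod_cast hq0 j))]
    simp

/-- No additive triple: signs. -/
theorem sign_case (x : ι → ℂ) (o : ι) (q : ι → ℚ) (hx : ∀ i, x i = (q i : ℂ))
    (hq0 : ∀ i, q i ≠ 0) (hqo : q o = 1) (h : ∀ A B C, ¬ Al q A B C) : Target x o := by
  refine ⟨_, ?_, ?_, pres_of_sign x q hx hq0 (fun _ => 1) (fun _ => one_pos) (fun _ _ _ => rfl)
    (fun _ _ _ _ => by norm_num) (fun A B C hh => (h A B C hh).elim)⟩
  · have : sg q o = 1 := by unfold sg; rw [if_pos (by rw [hqo]; norm_num)]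
    simp [this]
  · intro i
    have : ‖((sg q i * 1 : ℝ) : ℂ)‖ = 1 := by
      rw [Complex.norm_real, Real.norm_eq_abs, mul_one, abs_sg]
    rw [this]
    exact one_le_pow₀ (by norm_num)

theorem u_le_pow (k u : ℕ) (h : 1 ≤ k + u) : (u : ℝ) * 2 ^ k ≤ ((2 ^ (k + u - 1) : ℕ) : ℝ) := by
  rcases Nat.eq_zero_or_pos u with rfl | hu
  · simp
  · have h1 : u ≤ 2 ^ (u - 1) := by
      obtain ⟨v, rfl⟩ : ∃ v, u = v + 1 := ⟨u - 1, by omega⟩
      simpa using Nat.lt_two_pow_self (n := v)
    have h2 : 2 ^ (k + u - 1) = 2 ^ (u - 1) * 2 ^ k := by rw [← pow_add]; congr 1; omega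
    rw [h2]
    push_cast
    exact mul_le_mul_of_nonneg_right (by exact_mod_cast h1) (by positivity)

/-- Any functional killing the relations kills the `ℚ`-span. -/
theorem fl_span {x : ι → ℂ} {o : ι} (d : LatData x o) (lam : ι → ℝ)
    (h : ∀ a, ∑ i, (d.rel a i : ℝ) * lam i = 0) (w : ι → ℚ)
    (hw : w ∈ Submodule.span ℚ (Set.range fun a => vq (d.rel a))) : fl lam w = 0 := by
  have : Submodule.span ℚ (Set.range fun a => vq (d.rel a)) ≤ LinearMap.ker (fl lam) := by
    rw [Submodule.span_le]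
    rintro _ ⟨a, rfl⟩
    show fl lam (vq (d.rel a)) = 0
    rw [fl_vq]; exact h a
  exact this hw

theorem dv_mem_of_gamma {x : ι → ℂ} {o : ι} (d : LatData x o) (a b : ι) :
    d.Γ a = d.Γ b ↔ vq (dv a b) ∈ Submodule.span ℚ (Set.range fun a => vq (d.rel a)) := by
  rw [← d.ker]
  have hs : ∀ a : ι, ∑ i, ((Pi.single a 1 : ι → ℤ) i) • d.Γ i = d.Γ a := by
    intro a
    rw [Finset.sum_eq_single a]
    · simp
    · intro i _ hi; simp [Pi.single_apply, hi]
    · simp
  simp only [dv, Pi.sub_apply, sub_smul, Finset.sum_sub_distrib, hs, sub_eq_zero]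

/-- Binomial case. -/
theorem binom_case (x : ι → ℂ) (o : ι) (d : LatData x o) (q : ι → ℚ)
    (hx : ∀ i, x i = (q i : ℂ)) (hq0 : ∀ i, q i ≠ 0) (hqo : q o = 1)
    (hcard : 2 ≤ Fintype.card ι) (h : ∀ A B C, Al q A B C → d.Γ A = d.Γ B) : Target x o := by
  have hdc := d.card
  have hlo : lamq q o = 0 := by unfold lamq; rw [hqo]; simp
  have hrel : ∀ a, ∑ i, (d.rel a i : ℝ) * lamq q i = 0 := fun a =>
    lamq_rel x q hx hq0 o hqo _ (d.isRel a)
  have hAB : ∀ A B C, Al q A B C → |q A| = |q B| := by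
    intro A B C hh
    have h1 := fl_span d (lamq q) hrel _ ((dv_mem_of_gamma d A B).1 (h A B C hh))
    rw [fl_dv, sub_eq_zero] at h1
    have h2 := rpow_lamq q A (hq0 A)
    have h3 := rpow_lamq q B (hq0 B)
    rw [h1, h3] at h2
    exact_mod_cast h2.symm
  obtain ⟨lam', h1, h2, h3, h4⟩ := cramer_exists o d.card d.rel (fun a => (d.isRel a).shape)
    d.indep {p : ι × ι | (∃ B, Al q p.2 B p.1) ∨ q p.1 + q p.2 = 0} (lamq q) hlo hrel (by
      rintro ⟨a, b⟩ (⟨B, hB⟩ | hab)
      · have e1 := hB.1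
        rw [← hAB _ _ _ hB] at e1
        simp only at e1 ⊢
        have e2 : lamq q a = lamq q b + 1 := by
          unfold lamq
          have e3 : |((q a : ℚ) : ℝ)| = |((q b : ℚ) : ℝ)| * 2 := by
            have : ((|q a| : ℚ) : ℝ) = ((|q b| + |q b| : ℚ) : ℝ) := by rw [e1]
            push_cast at this
            rw [this]; ring
          rw [e3, Real.logb_mul (abs_ne_zero.2 (by exact_mod_cast hq0 b)) (by norm_num)]
          simp
        rw [e2]; simp
      · simp only at hab ⊢
        have e2 : lamq q a = lamq q b := by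
          unfold lamq
          have : ((q a : ℚ) : ℝ) = - ((q b : ℚ) : ℝ) := by
            have : q a = - q b := by linarith
            rw [this]; push_cast; rfl
          rw [this, abs_neg]
        rw [e2]; simp)
  have hker : ∀ w : ι → ℚ, w ∈ Submodule.span ℚ (Set.range fun a => vq (d.rel a)) →
      fl lam' w = 0 := fun w hw => fl_span d lam' h2 w hw
  refine ⟨_, ?_, ?_, pres_of_sign x q hx hq0 (fun i => (2 : ℝ) ^ lam' i)
    (fun i => by positivity) ?_ ?_ ?_⟩
  · have : sg q o = 1 := by unfold sg; rw [if_pos (by rw [hqo]; norm_num)]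
    simp [this, h1]
  · intro i
    have e1 : ‖((sg q i * (2 : ℝ) ^ lam' i : ℝ) : ℂ)‖ = (2 : ℝ) ^ lam' i := by
      rw [Complex.norm_real, Real.norm_eq_abs, abs_mul, abs_sg, one_mul,
        abs_of_pos (by positivity)]
    rw [e1]
    have e2 : Fintype.card ι - 2 = d.k + d.u - 1 := by omega
    rw [e2, ← Real.rpow_natCast 2 (2 ^ (d.k + d.u - 1))]
    apply Real.rpow_le_rpow_of_exponent_le (by norm_num)
    exact (le_abs_self _).trans ((h4 i).trans (u_le_pow d.k d.u (by omega)))
  · rintro i j (hij | hij)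
    · have e1 : vq (dv i j) ∈ Submodule.span ℚ (Set.range fun a => vq (d.rel a)) :=
        d.all _ (Or.inl ⟨i, j, by rw [hx, hx, hij], rfl⟩)
      have e2 := hker _ e1
      rw [fl_dv, sub_eq_zero] at e2
      simp only [e2]
    · have e1 := h3 (i, j) (Or.inr hij)
      have e2 : lamq q i = lamq q j := by
        unfold lamq
        have : ((q i : ℚ) : ℝ) = - ((q j : ℚ) : ℝ) := by
          have : q i = - q j := by linarith
          rw [this]; push_cast; rfl
        rw [this, abs_neg]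
      have e3 : lam' i = lam' j := by
        have : lam' i - lam' j = lamq q i - lamq q j := e1
        rw [e2] at this
        linarith
      simp only [e3]
  · intro i j k hijk
    have e1 := hker _ (d.all _ (Or.inr ⟨i, j, k, by rw [hx, hx, hx, ← hijk]; push_cast; rfl, rfl⟩))
    rw [fl_vq] at e1
    have hs : ∀ a : ι, ∑ i, (((Pi.single a 1 : ι → ℤ) i : ℤ) : ℝ) * lam' i = lam' a := by
      intro a
      rw [Finset.sum_eq_single a]
      · simp
      · intro i _ hi; simp [Pi.single_apply, hi]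
      · simp
    simp only [Pi.sub_apply, Pi.add_apply, Int.cast_sub, Int.cast_add, sub_mul, add_mul,
      Finset.sum_sub_distrib, Finset.sum_add_distrib, hs, h1] at e1
    show (2 : ℝ) ^ lam' i * (2 : ℝ) ^ lam' j = (2 : ℝ) ^ lam' k
    rw [← Real.rpow_add (by norm_num)]
    congr 1; linarith
  · intro A B C hh
    have e1 := hker _ ((dv_mem_of_gamma d A B).1 (h A B C hh))
    rw [fl_dv, sub_eq_zero] at e1
    have e2 : lam' C - lam' A = lamq q C - lamq q A := h3 (C, A) (Or.inl ⟨B, hh⟩)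
    have e3 : lamq q C = lamq q A + 1 := by
      unfold lamq
      have e4 := hh.1
      rw [← hAB _ _ _ hh] at e4
      have e5 : |((q C : ℚ) : ℝ)| = |((q A : ℚ) : ℝ)| * 2 := by
        have : ((|q C| : ℚ) : ℝ) = ((|q A| + |q A| : ℚ) : ℝ) := by rw [e4]
        push_cast at this
        rw [this]; ring
      rw [e5, Real.logb_mul (abs_ne_zero.2 (by exact_mod_cast hq0 A)) (by norm_num)]
      simp
    show (2 : ℝ) ^ lam' C = (2 : ℝ) ^ lam' A + (2 : ℝ) ^ lam' B
    have e6 : lam' C = lam' A + 1 := by linarith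
    rw [e6, ← e1, Real.rpow_add (by norm_num), Real.rpow_one]; ring

end Pool.Agent.Tyz
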