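import Pool.Agent.Work.MP_4c3a42_al.Rat

open MvPolynomial

namespace Pool.Agent.Tyz

variable {ι : Type} [Fintype ι] [DecidableEq ι]

/-- Span of the relations. -/
def WW {x : ι → ℂ} {o : ι} (d : LatData x o) : Submodule ℚ (ι → ℚ) :=
  Submodule.span ℚ (Set.range fun a => vq (d.rel a))

theorem pres_refl (x : ι → ℂ) : Pres x x :=
  ⟨fun _ _ h => h, fun _ _ _ h => h, fun _ _ _ h => h, fun _ _ h => h⟩

/-- Cramer bound for the point itself. -/
theorem cram_x (x : ι → ℂ) (o : ι) (d : LatData x o) (q : ι → ℚ)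
    (hx : ∀ i, x i = (q i : ℂ)) (hq0 : ∀ i, q i ≠ 0) (hqo : q o = 1)
    (hcard : 2 ≤ Fintype.card ι) (u : ℕ) (hu : d.u = u) (B : Fin u → ι × ι)
    (hB : ∀ b, |lamq q (B b).1 - lamq q (B b).2| ≤ 1)
    (hind : LinearIndependent ℚ (fun b => (WW d).mkQ (vq (dv (B b).1 (B b).2)))) :
    Target x o := by
  subst hu
  have hdc := d.card
  have hlo : lamq q o = 0 := by unfold lamq; rw [hqo]; simp
  have hrel : ∀ a, ∑ i, (d.rel a i : ℝ) * lamq q i = 0 := fun a =>
    lamq_rel x q hx hq0 o hqo _ (d.isRel a)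
  have hli : LinearIndependent ℚ
      (Sum.elim (fun a => vq (d.rel a)) (fun b => vq (dv (B b).1 (B b).2))) := by
    have h1 : LinearIndependent ℚ (fun a => (⟨vq (d.rel a), Submodule.subset_span ⟨a, rfl⟩⟩ :
        WW d)) := by
      apply LinearIndependent.of_comp (WW d).subtype
      exact d.indep
    exact LinearIndependent.sumElim_of_quotient h1 _ hind
  have hb := cramer_bound o d.card d.rel (fun a => (d.isRel a).shape) B (lamq q) hlo hrel hB hli
  refine ⟨x, by rw [hx, hqo]; simp, fun i => ?_, pres_refl x⟩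
  have e1 : ‖x i‖ = (2 : ℝ) ^ lamq q i := by
    rw [rpow_lamq q i (hq0 i), hx]; simp
  rw [e1]
  have e2 : Fintype.card ι - 2 = d.k + d.u - 1 := by omega
  rw [e2, ← Real.rpow_natCast 2 (2 ^ (d.k + d.u - 1))]
  apply Real.rpow_le_rpow_of_exponent_le (by norm_num)
  exact (le_abs_self _).trans ((hb i).trans (u_le_pow d.k d.u (by omega)))

section AlFacts

variable (q : ι → ℚ) (hq0 : ∀ i, q i ≠ 0) {A B C : ι} (h : Al q A B C)

include hq0 h

theorem Al.t_gt : 1 < |q C| / |q A| := by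
  rw [lt_div_iff₀ (abs_pos.2 (hq0 A)), one_mul, h.1]
  linarith [abs_pos.2 (hq0 B)]

theorem Al.t_le : |q C| / |q A| ≤ 2 := by
  rw [div_le_iff₀ (abs_pos.2 (hq0 A)), h.1]
  linarith [h.2.1]

theorem Al.t_sub : |q B| / |q A| = |q C| / |q A| - 1 := by
  rw [h.1]
  have := abs_pos.2 (hq0 A)
  field_simp
  ring

theorem Al.lamC : lamq q C - lamq q A = Real.logb 2 (((|q C| / |q A| : ℚ)) : ℝ) := by
  unfold lamq
  push_cast
  rw [Real.logb_div (abs_ne_zero.2 (by exact_mod_cast hq0 C))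
    (abs_ne_zero.2 (by exact_mod_cast hq0 A))]

theorem Al.lamB : lamq q B - lamq q A = Real.logb 2 (((|q C| / |q A| - 1 : ℚ)) : ℝ) := by
  rw [← Al.t_sub q hq0 h]
  unfold lamq
  push_cast
  rw [Real.logb_div (abs_ne_zero.2 (by exact_mod_cast hq0 B))
    (abs_ne_zero.2 (by exact_mod_cast hq0 A))]

theorem Al.lam_pos : 0 < lamq q C - lamq q A := by
  rw [Al.lamC q hq0 h]
  exact Real.logb_pos (by norm_num) (by exact_mod_cast Al.t_gt q hq0 h)

theorem Al.lam_le : |lamq q C - lamq q A| ≤ 1 := by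
  rw [abs_of_pos (Al.lam_pos q hq0 h), Al.lamC q hq0 h]
  rw [Real.logb_le_iff_le_rpow (by norm_num)
    (by exact_mod_cast lt_trans one_pos (Al.t_gt q hq0 h)), Real.rpow_one]
  exact_mod_cast Al.t_le q hq0 h

end AlFacts

theorem logb_zpow' (a : ℝ) (m : ℤ) : Real.logb 2 (a ^ m) = m * Real.logb 2 a := by
  unfold Real.logb
  rw [Real.log_zpow]; ring

/-- Integral linear relations between logarithms are multiplicative relations. -/
theorem zpow_of_logb (a b c : ℚ) (ha : 0 < a) (hb : 0 < b) (hc : 0 < c) (m n r : ℤ)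
    (h : (m : ℝ) * Real.logb 2 (a : ℝ) = (n : ℝ) * Real.logb 2 (b : ℝ)
      + (r : ℝ) * Real.logb 2 (c : ℝ)) :
    a ^ m = b ^ n * c ^ r := by
  have ha' : (0 : ℝ) < a := by exact_mod_cast ha
  have hb' : (0 : ℝ) < b := by exact_mod_cast hb
  have hc' : (0 : ℝ) < c := by exact_mod_cast hc
  have h1 : Real.logb 2 ((a : ℝ) ^ m) = Real.logb 2 ((b : ℝ) ^ n * (c : ℝ) ^ r) := by
    rw [Real.logb_mul (by positivity) (by positivity), logb_zpow', logb_zpow', logb_zpow']
    exact h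
  have h2 := Real.logb_injOn_pos (by norm_num : (1 : ℝ) < 2)
    (Set.mem_Ioi.2 (by positivity : (0 : ℝ) < (a : ℝ) ^ m))
    (Set.mem_Ioi.2 (by positivity : (0 : ℝ) < (b : ℝ) ^ n * (c : ℝ) ^ r)) h1
  exact_mod_cast h2

/-- Clearing denominators. -/
theorem clear_den (s t : ℚ) (hst : s ≠ 0 ∨ t ≠ 0) {V : Type} [AddCommGroup V] [Module ℚ V]
    (W : Submodule ℚ V) (v w : V) (h : s • v + t • w ∈ W) :
    ∃ a b : ℤ, (a ≠ 0 ∨ b ≠ 0) ∧ (a : ℚ) • v + (b : ℚ) • w ∈ W := by
  refine ⟨s.num * t.den, t.num * s.den, ?_, ?_⟩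
  · rcases hst with hs | ht
    · left
      exact mul_ne_zero (Rat.num_ne_zero.2 hs) (by exact_mod_cast t.den_nz)
    · right
      exact mul_ne_zero (Rat.num_ne_zero.2 ht) (by exact_mod_cast s.den_nz)
  · have h1 := W.smul_mem ((s.den : ℚ) * t.den) h
    rw [smul_add, smul_smul, smul_smul] at h1
    have e1 : (s.den : ℚ) * t.den * s = ((s.num * t.den : ℤ) : ℚ) := by
      push_cast
      have := Rat.mul_den_eq_num s
      rw [← this]; ring
    have e2 : (s.den : ℚ) * t.den * t = ((t.num * s.den : ℤ) : ℚ) := by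
      push_cast
      have := Rat.mul_den_eq_num t
      rw [← this]; ring
    rw [e1, e2] at h1
    exact h1

/-- Dependence of two short pairs. -/
theorem dep (x : ι → ℂ) (o : ι) (d : LatData x o) (q : ι → ℚ)
    (hx : ∀ i, x i = (q i : ℂ)) (hq0 : ∀ i, q i ≠ 0) (hqo : q o = 1)
    (hcard : 2 ≤ Fintype.card ι) (hu : d.u = 2) (hT : ¬ Target x o) (a b a' b' : ι)
    (h1 : |lamq q a - lamq q b| ≤ 1) (h2 : |lamq q a' - lamq q b'| ≤ 1) :
    ∃ s t : ℤ, (s ≠ 0 ∨ t ≠ 0) ∧ (s : ℚ) • vq (dv a b) + (t : ℚ) • vq (dv a' b') ∈ WW d ∧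
      (s : ℝ) * (lamq q a - lamq q b) + (t : ℝ) * (lamq q a' - lamq q b') = 0 := by
  have hrel : ∀ a, ∑ i, (d.rel a i : ℝ) * lamq q i = 0 := fun a =>
    lamq_rel x q hx hq0 o hqo _ (d.isRel a)
  have key : ∃ s t : ℚ, (s ≠ 0 ∨ t ≠ 0) ∧ s • vq (dv a b) + t • vq (dv a' b') ∈ WW d := by
    by_contra hcon
    push Not at hcon
    apply hT
    refine cram_x x o d q hx hq0 hqo hcard 2 hu ![(a, b), (a', b')] ?_ ?_
    · intro c
      fin_cases c
      · simpa using h1
      · simpa using h2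
    · have e1 : (fun c : Fin 2 => (WW d).mkQ (vq (dv (![(a, b), (a', b')] c).1
          (![(a, b), (a', b')] c).2))) = ![(WW d).mkQ (vq (dv a b)), (WW d).mkQ (vq (dv a' b'))] := by
        funext c; fin_cases c <;> rfl
      rw [e1, LinearIndependent.pair_iff]
      intro s t hst
      by_contra hne
      have hne' : s ≠ 0 ∨ t ≠ 0 := by
        by_contra h'
        push Not at h'
        exact hne h'
      refine hcon s t hne' ?_
      rw [← map_smul, ← map_smul, ← map_add, Submodule.mkQ_apply,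
        Submodule.Quotient.mk_eq_zero] at hst
      exact hst
  obtain ⟨s, t, hst, hmem⟩ := key
  obtain ⟨s', t', hst', hmem'⟩ := clear_den s t hst (WW d) _ _ hmem
  refine ⟨s', t', hst', hmem', ?_⟩
  have := fl_span d (lamq q) hrel _ hmem'
  rw [map_add, map_smul, map_smul, fl_dv, fl_dv, Rat.smul_def, Rat.smul_def] at this
  exact_mod_cast this

theorem mem_of_smul {V : Type} [AddCommGroup V] [Module ℚ V] (W : Submodule ℚ V) (v : V) (s : ℤ)
    (hs : s ≠ 0) (h : (s : ℚ) • v ∈ W) : v ∈ W := by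
  have h1 := W.smul_mem ((s : ℚ)⁻¹) h
  rw [smul_smul, inv_mul_cancel₀ (by exact_mod_cast hs), one_smul] at h1
  exact h1

theorem nt_two (t : ℚ) (h1 : 1 < t) (h2 : t ≤ 2) (a b : ℕ) (ha : 0 < a) (h : t ^ a = 2 ^ b) :
    t = 2 := by
  have hden : t.den = 1 := by
    have e1 : (t ^ a).den = t.den ^ a := Rat.den_pow t a
    have e2 : ((2 : ℚ) ^ b).den = 1 := by
      have : ((2 : ℚ) ^ b) = ((2 ^ b : ℕ) : ℚ) := by push_cast; rfl
      rw [this]; exact Rat.den_natCast _
    rw [h, e2] at e1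
    exact (Nat.pow_eq_one.1 e1.symm).resolve_right ha.ne'
  have ht : t = t.num := by
    have := Rat.num_div_den t
    rw [hden] at this
    simpa using this.symm
  rw [ht] at h1 h2 ⊢
  have h3 : 1 < t.num := by exact_mod_cast h1
  have h4 : t.num ≤ 2 := by exact_mod_cast h2
  have : t.num = 2 := by omega
  rw [this]; norm_num

end Pool.Agent.Tyz
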