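import Pool.Agent.Work.MP_4c3a42_al.Rat2

open MvPolynomial

namespace Pool.Agent.Tyz

variable {ι : Type} [Fintype ι] [DecidableEq ι]

/-- Rank one. -/
theorem rank_one (x : ι → ℂ) (o : ι) (d : LatData x o) (q : ι → ℚ)
    (hx : ∀ i, x i = (q i : ℂ)) (hq0 : ∀ i, q i ≠ 0) (hqo : q o = 1)
    (hcard : 2 ≤ Fintype.card ι) (hu : d.u = 1) : Target x o := by
  by_cases hall : ∀ A B C, ¬ Al q A B C
  · exact sign_case x o q hx hq0 hqo hall
  · push Not at hall
    obtain ⟨A, B, C, h⟩ := hall
    have hrel : ∀ a, ∑ i, (d.rel a i : ℝ) * lamq q i = 0 := fun a =>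
      lamq_rel x q hx hq0 o hqo _ (d.isRel a)
    refine cram_x x o d q hx hq0 hqo hcard 1 hu (fun _ => (C, A)) (fun _ => Al.lam_le q hq0 h) ?_
    rw [linearIndependent_unique_iff]
    intro h0
    rw [Submodule.mkQ_apply, Submodule.Quotient.mk_eq_zero] at h0
    have := fl_span d (lamq q) hrel _ h0
    rw [fl_dv] at this
    exact (Al.lam_pos q hq0 h).ne' this

/-- Sum of coordinates. -/
noncomputable def sumL : (ι → ℚ) →ₗ[ℚ] ℚ := ∑ i, LinearMap.proj i

theorem sumL_apply (w : ι → ℚ) : sumL w = ∑ i, w i := by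
  simp [sumL]

theorem sum_single_cast (a : ι) : ∑ i, (((Pi.single a 1 : ι → ℤ) i : ℤ) : ℚ) = 1 := by
  rw [Finset.sum_eq_single a]
  · simp
  · intro i _ hi; simp [hi]
  · simp

theorem sumL_dv (a b : ι) : sumL (vq (dv a b)) = 0 := by
  rw [sumL_apply]
  simp only [vq, dv, Pi.sub_apply, Int.cast_sub, Finset.sum_sub_distrib, sum_single_cast, sub_self]

theorem sumL_WW {x : ι → ℂ} {o : ι} (d : LatData x o) (w : ι → ℚ) (hw : w ∈ WW d) :
    sumL w = 0 := by
  have : WW d ≤ LinearMap.ker (sumL : (ι → ℚ) →ₗ[ℚ] ℚ) := by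
    unfold WW
    rw [Submodule.span_le]
    rintro _ ⟨a, rfl⟩
    show sumL (vq (d.rel a)) = 0
    rw [sumL_apply]
    rcases d.isRel a with ⟨i, j, -, h⟩ | ⟨i, j, k, -, h⟩
    · simp only [vq, h, Pi.sub_apply, Int.cast_sub, Finset.sum_sub_distrib, sum_single_cast,
        sub_self]
    · simp only [vq, h, Pi.sub_apply, Pi.add_apply, Int.cast_sub, Int.cast_add,
        Finset.sum_sub_distrib, Finset.sum_add_distrib, sum_single_cast]
      norm_num
  exact this hw

theorem finrank_quot {x : ι → ℂ} {o : ι} (d : LatData x o) :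
    Module.finrank ℚ ((ι → ℚ) ⧸ WW d) = d.u + 1 := by
  have h1 := Submodule.finrank_quotient_add_finrank (WW d)
  have h2 : Module.finrank ℚ (WW d) = d.k := by
    unfold WW
    rw [finrank_span_eq_card d.indep, Fintype.card_fin]
  rw [h2, Module.finrank_fintype_fun_eq_card] at h1
  have := d.card
  omega

/-- Case II of rank two: all triples are equivalent; twisting gives an irrational point. -/
theorem rank_two (x : ι → ℂ) (o : ι) (d : LatData x o) (q : ι → ℚ)
    (hx : ∀ i, x i = (q i : ℂ)) (hq0 : ∀ i, q i ≠ 0) (hqo : q o = 1)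
    (hcard : 2 ≤ Fintype.card ι) (hu : d.u = 2) : Target x o := by
  by_contra hT
  have hrel : ∀ a, ∑ i, (d.rel a i : ℝ) * lamq q i = 0 := fun a =>
    lamq_rel x q hx hq0 o hqo _ (d.isRel a)
  have hall : ∃ A B C, Al q A B C := by
    by_contra hcon
    push Not at hcon
    exact hT (sign_case x o q hx hq0 hqo hcon)
  obtain ⟨A0, B0, C0, h0⟩ := hall
  have hposA : ∀ i, 0 < |q i| := fun i => abs_pos.2 (hq0 i)
  -- positive exponents
  have pos_exp : ∀ (t t' : ℚ), 1 < t → 1 < t' → ∀ s s' : ℤ, (s ≠ 0 ∨ s' ≠ 0) →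
      (s : ℝ) * Real.logb 2 (t : ℝ) + (s' : ℝ) * Real.logb 2 (t' : ℝ) = 0 →
      ∃ a b : ℕ, 0 < a ∧ 0 < b ∧ t ^ a = t' ^ b ∧ ((s = a ∧ s' = -b) ∨ (s = -a ∧ s' = b)) := by
    intro t t' ht ht' s s' hss h
    have l1 : 0 < Real.logb 2 (t : ℝ) := Real.logb_pos (by norm_num) (by exact_mod_cast ht)
    have l2 : 0 < Real.logb 2 (t' : ℝ) := Real.logb_pos (by norm_num) (by exact_mod_cast ht')
    have hz : t ^ s = t' ^ (-s') := by
      have := zpow_of_logb t t' 1 (by linarith) (by linarith) one_pos s (-s') 0 (by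
        push_cast; simp only [zero_mul, add_zero]; linarith)
      simpa using this
    rcases lt_trichotomy s 0 with hs | hs | hs
    · have hs' : 0 < s' := by
        by_contra hcon
        push Not at hcon
        have e1 : (s : ℝ) * Real.logb 2 (t : ℝ) < 0 :=
          mul_neg_of_neg_of_pos (by exact_mod_cast hs) l1
        have e2 : (s' : ℝ) * Real.logb 2 (t' : ℝ) ≤ 0 :=
          mul_nonpos_of_nonpos_of_nonneg (by exact_mod_cast hcon) l2.le
        linarith
      refine ⟨s.natAbs, s'.natAbs, by omega, by omega, ?_, Or.inr ⟨by omega, by omega⟩⟩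
      have e3 : t ^ (-s) = t' ^ s' := by
        rw [zpow_neg, hz, zpow_neg, inv_inv]
      have e4 : (-s) = ((s.natAbs : ℕ) : ℤ) := by omega
      have e5 : s' = ((s'.natAbs : ℕ) : ℤ) := by omega
      rw [e4, e5, zpow_natCast, zpow_natCast] at e3
      exact e3
    · exfalso
      subst hs
      have : (s' : ℝ) * Real.logb 2 (t' : ℝ) = 0 := by simpa using h
      rcases mul_eq_zero.1 this with h' | h'
      · rcases hss with h'' | h''
        · exact h'' rfl
        · exact h'' (by exact_mod_cast h')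
      · exact l2.ne' h'
    · have hs' : s' < 0 := by
        by_contra hcon
        push Not at hcon
        have e1 : 0 < (s : ℝ) * Real.logb 2 (t : ℝ) :=
          mul_pos (by exact_mod_cast hs) l1
        have e2 : 0 ≤ (s' : ℝ) * Real.logb 2 (t' : ℝ) :=
          mul_nonneg (by exact_mod_cast hcon) l2.le
        linarith
      refine ⟨s.natAbs, s'.natAbs, by omega, by omega, ?_, Or.inl ⟨by omega, by omega⟩⟩
      have e4 : s = ((s.natAbs : ℕ) : ℤ) := by omega
      have e5 : (-s') = ((s'.natAbs : ℕ) : ℤ) := by omega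
      rw [e4, e5, zpow_natCast, zpow_natCast] at hz
      exact hz
  by_cases hI : ∃ A B C, Al q A B C ∧ |q A| = |q B|
  · -- Case I
    obtain ⟨A1, B1, C1, h1, hAB1⟩ := hI
    have ht1 : |q C1| / |q A1| = 2 := by
      rw [h1.1, ← hAB1]
      have := (hposA A1).ne'
      field_simp
      ring
    have hallAB : ∀ A B C, Al q A B C → |q A| = |q B| := by
      intro A B C h
      obtain ⟨s, s', hss, -, hlin⟩ := dep x o d q hx hq0 hqo hcard hu hT C A C1 A1
        (Al.lam_le q hq0 h) (Al.lam_le q hq0 h1)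
      rw [Al.lamC q hq0 h, Al.lamC q hq0 h1, ht1] at hlin
      obtain ⟨a, b, ha, hb, hab, -⟩ := pos_exp _ _ (Al.t_gt q hq0 h) (by norm_num) s s' hss hlin
      have ht : |q C| / |q A| = 2 := nt_two _ (Al.t_gt q hq0 h) (Al.t_le q hq0 h) a b ha hab
      rw [div_eq_iff (hposA A).ne', h.1] at ht
      linarith
    apply hT
    apply binom_case x o d q hx hq0 hqo hcard
    intro A B C h
    have hlam : lamq q A - lamq q B = 0 := by
      have : |((q A : ℚ) : ℝ)| = |((q B : ℚ) : ℝ)| := by exact_mod_cast hallAB A B C h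
      unfold lamq; rw [this]; ring
    obtain ⟨s, s', hss, hmem, hlin⟩ := dep x o d q hx hq0 hqo hcard hu hT A B C A
      (by rw [hlam]; simp) (Al.lam_le q hq0 h)
    rw [hlam, mul_zero, zero_add] at hlin
    have hs' : s' = 0 := by
      rcases mul_eq_zero.1 hlin with h' | h'
      · exact_mod_cast h'
      · exact absurd h' (Al.lam_pos q hq0 h).ne'
    have hs : s ≠ 0 := by
      rcases hss with h' | h'
      · exact h'
      · exact absurd hs' h'
    rw [dv_mem_of_gamma]
    rw [hs', Int.cast_zero, zero_smul, add_zero] at hmem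
    exact mem_of_smul _ _ s hs hmem
  · -- Case II
    push Not at hI
    have hlt : ∀ A B C, Al q A B C → |q C| / |q A| < 2 := by
      intro A B C h
      rw [div_lt_iff₀ (hposA A), h.1]
      have := lt_of_le_of_ne h.2.1 (Ne.symm (hI A B C h))
      linarith
    set t0 : ℚ := |q C0| / |q A0| with ht0
    have ht0gt : 1 < t0 := Al.t_gt q hq0 h0
    have ht0lt : t0 < 2 := hlt _ _ _ h0
    have hsub : ∀ A B C, Al q A B C → 0 < |q C| / |q A| - 1 := fun A B C h => by
      have := Al.t_gt q hq0 h; linarith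
    -- independence of the two vectors of the first triple
    have hind0 : ∀ s s' : ℤ, (s : ℚ) • vq (dv C0 A0) + (s' : ℚ) • vq (dv B0 A0) ∈ WW d →
        s = 0 ∧ s' = 0 := by
      intro s s' hmem
      have := fl_span d (lamq q) hrel _ hmem
      rw [map_add, map_smul, map_smul, fl_dv, fl_dv, Rat.smul_def, Rat.smul_def,
        Al.lamC q hq0 h0, Al.lamB q hq0 h0] at this
      have h2 := zpow_of_logb 1 t0 (t0 - 1) one_pos (by linarith) (by linarith) 0 s s' (by
        simp only [Rat.cast_intCast] at this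
        rw [Int.cast_zero, zero_mul]
        exact this.symm)
      exact nt_indep t0 ht0gt ht0lt s s' (by simpa using h2.symm)
    have hli : LinearIndependent ℚ ![(WW d).mkQ (vq (dv C0 A0)), (WW d).mkQ (vq (dv B0 A0)),
        (WW d).mkQ (Pi.single o 1)] := by
      rw [Fintype.linearIndependent_iff]
      intro g hg
      rw [Fin.sum_univ_three] at hg
      simp only [Matrix.cons_val_zero, Matrix.cons_val_one, Matrix.cons_val] at hg
      rw [← map_smul, ← map_smul, ← map_smul, ← map_add, ← map_add, Submodule.mkQ_apply,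
        Submodule.Quotient.mk_eq_zero] at hg
      have e1 := sumL_WW d _ hg
      rw [map_add, map_add, map_smul, map_smul, map_smul, sumL_dv, sumL_dv] at e1
      have e2 : sumL (Pi.single o (1 : ℚ)) = 1 := by rw [sumL_apply]; simp
      rw [e2] at e1
      have e3 : g 2 = 0 := by simpa using e1
      rw [e3, zero_smul, add_zero] at hg
      by_contra hcon
      have hne : g 0 ≠ 0 ∨ g 1 ≠ 0 := by
        by_contra h'
        push Not at h'
        apply hcon
        intro i
        fin_cases i
        · exact h'.1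
        · exact h'.2
        · exact e3
      obtain ⟨a, b, hab, hmem⟩ := clear_den (g 0) (g 1) hne (WW d) _ _ hg
      have := hind0 a b hmem
      rcases hab with h' | h'
      · exact h' this.1
      · exact h' this.2
    have hcardq : Fintype.card (Fin 3) = Module.finrank ℚ ((ι → ℚ) ⧸ WW d) := by
      rw [finrank_quot, hu]; rfl
    let bas := basisOfLinearIndependentOfCardEqFinrank hli hcardq
    have hbas : ∀ i, bas i = ![(WW d).mkQ (vq (dv C0 A0)), (WW d).mkQ (vq (dv B0 A0)),
        (WW d).mkQ (Pi.single o 1)] i := fun i => by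
      simp [bas]
    -- every difference vector is a combination
    have hcomb : ∀ a b : ι, ∃ α β : ℚ,
        vq (dv a b) - (α • vq (dv C0 A0) + β • vq (dv B0 A0)) ∈ WW d := by
      intro a b
      have e1 := bas.sum_repr ((WW d).mkQ (vq (dv a b)))
      rw [Fin.sum_univ_three, hbas, hbas, hbas] at e1
      simp only [Matrix.cons_val_zero, Matrix.cons_val_one, Matrix.cons_val] at e1
      set α := bas.repr ((WW d).mkQ (vq (dv a b))) 0
      set β := bas.repr ((WW d).mkQ (vq (dv a b))) 1
      set γ := bas.repr ((WW d).mkQ (vq (dv a b))) 2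
      have e2 : vq (dv a b) - (α • vq (dv C0 A0) + β • vq (dv B0 A0) + γ • Pi.single o 1)
          ∈ WW d := by
        rw [← Submodule.Quotient.mk_eq_zero (WW d), ← Submodule.mkQ_apply, map_sub, map_add,
          map_add, map_smul, map_smul, map_smul, e1, sub_self]
      have e3 := sumL_WW d _ e2
      rw [map_sub, map_add, map_add, map_smul, map_smul, map_smul, sumL_dv, sumL_dv,
        sumL_dv] at e3
      have e4 : sumL (Pi.single o (1 : ℚ)) = 1 := by rw [sumL_apply]; simp
      rw [e4] at e3
      have e5 : γ = 0 := by simpa using e3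
      rw [e5, zero_smul, add_zero] at e2
      exact ⟨α, β, e2⟩
    -- all triples equivalent
    have hequiv : ∀ A B C, Al q A B C →
        vq (dv C A) - vq (dv C0 A0) ∈ WW d ∧ vq (dv B A) - vq (dv B0 A0) ∈ WW d := by
      intro A B C h
      obtain ⟨s, s', hss, hmem, hlin⟩ := dep x o d q hx hq0 hqo hcard hu hT C0 A0 C A
        (Al.lam_le q hq0 h0) (Al.lam_le q hq0 h)
      rw [Al.lamC q hq0 h, Al.lamC q hq0 h0] at hlin
      obtain ⟨a, b, ha, hb, hab, hsign⟩ := pos_exp _ _ ht0gt (Al.t_gt q hq0 h) s s' hss hlin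
      obtain ⟨α, β, hαβ⟩ := hcomb B A
      -- integers
      have hint : ∃ n p p' : ℤ, n ≠ 0 ∧ (n : ℚ) • vq (dv B A)
          - ((p : ℚ) • vq (dv C0 A0) + (p' : ℚ) • vq (dv B0 A0)) ∈ WW d := by
        refine ⟨(α.den : ℤ) * β.den, α.num * β.den, β.num * α.den, ?_, ?_⟩
        · exact mul_ne_zero (by exact_mod_cast α.den_nz) (by exact_mod_cast β.den_nz)
        · have h1 := (WW d).smul_mem ((α.den : ℚ) * β.den) hαβ
          rw [smul_sub, smul_add, smul_smul, smul_smul] at h1
          have e1 : (α.den : ℚ) * β.den * α = ((α.num * β.den : ℤ) : ℚ) := by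
            push_cast
            have := Rat.mul_den_eq_num α
            rw [← this]; ring
          have e2 : (α.den : ℚ) * β.den * β = ((β.num * α.den : ℤ) : ℚ) := by
            push_cast
            have := Rat.mul_den_eq_num β
            rw [← this]; ring
          rw [e1, e2] at h1
          push_cast at h1 ⊢
          exact h1
      obtain ⟨n, p, p', hn, hmem2⟩ := hint
      have hlin2 := fl_span d (lamq q) hrel _ hmem2
      rw [map_sub, map_add, map_smul, map_smul, map_smul, fl_dv, fl_dv, fl_dv, Rat.smul_def,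
        Rat.smul_def, Rat.smul_def, Al.lamC q hq0 h0, Al.lamB q hq0 h0, Al.lamB q hq0 h] at hlin2
      have hz := zpow_of_logb (|q C| / |q A| - 1) t0 (t0 - 1) (hsub A B C h) (by linarith)
        (by linarith) n p p' (by
          simp only [Rat.cast_intCast] at hlin2
          linarith)
      obtain ⟨r1, r2, r3, r4⟩ := nt_main t0 (|q C| / |q A|) ht0gt ht0lt (Al.t_gt q hq0 h)
        (Al.t_le q hq0 h) a b ha hb hab n p p' (fun hh => hn hh.1) hz
      constructor
      · have hs0 : s ≠ 0 := by
          rcases hsign with ⟨h1, h2⟩ | ⟨h1, h2⟩ <;> omega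
        have hs' : s' = -s := by
          rcases hsign with ⟨h1, h2⟩ | ⟨h1, h2⟩ <;> omega
        rw [hs', Int.cast_neg, neg_smul, ← sub_eq_add_neg, ← smul_sub] at hmem
        have h3 := mem_of_smul _ _ s hs0 hmem
        have h4 := (WW d).neg_mem h3
        rwa [neg_sub] at h4
      · rw [r2, ← r3, Int.cast_zero, zero_smul, zero_add, ← smul_sub] at hmem2
        exact mem_of_smul _ _ n hn hmem2
    -- the twisted point
    let L : ((ι → ℚ) ⧸ WW d) →ₗ[ℚ] ℝ :=
      bas.constr ℚ ![Real.logb 2 (Real.sqrt 2), Real.logb 2 (Real.sqrt 2 - 1), 0]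
    have hL0 : L ((WW d).mkQ (vq (dv C0 A0))) = Real.logb 2 (Real.sqrt 2) := by
      have e1 : L (bas 0) = _ := bas.constr_basis ℚ ![Real.logb 2 (Real.sqrt 2),
        Real.logb 2 (Real.sqrt 2 - 1), (0 : ℝ)] 0
      rw [hbas] at e1
      exact e1
    have hL1 : L ((WW d).mkQ (vq (dv B0 A0))) = Real.logb 2 (Real.sqrt 2 - 1) := by
      have e1 : L (bas 1) = _ := bas.constr_basis ℚ ![Real.logb 2 (Real.sqrt 2),
        Real.logb 2 (Real.sqrt 2 - 1), (0 : ℝ)] 1
      rw [hbas] at e1
      exact e1
    have hL2 : L ((WW d).mkQ (Pi.single o 1)) = 0 := by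
      have e1 : L (bas 2) = _ := bas.constr_basis ℚ ![Real.logb 2 (Real.sqrt 2),
        Real.logb 2 (Real.sqrt 2 - 1), (0 : ℝ)] 2
      rw [hbas] at e1
      exact e1
    let mu : ι → ℝ := fun i => L ((WW d).mkQ (Pi.single i 1))
    have hmu : ∀ w : ι → ℤ, L ((WW d).mkQ (vq w)) = ∑ i, (w i : ℝ) * mu i := by
      intro w
      have e1 : vq w = ∑ i, ((w i : ℤ) : ℚ) • (Pi.single i (1 : ℚ) : ι → ℚ) := by
        funext j
        simp [vq, Finset.sum_apply, Pi.single_apply]
      rw [e1, map_sum, map_sum]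
      apply Finset.sum_congr rfl
      intro i _
      rw [map_smul, map_smul, Rat.smul_def]
      simp [mu]
    have hmu_dv : ∀ a b : ι, L ((WW d).mkQ (vq (dv a b))) = mu a - mu b := by
      intro a b
      have e1 : vq (dv a b) = (Pi.single a (1 : ℚ) : ι → ℚ) - Pi.single b 1 := by
        funext j
        simp only [vq, dv, Pi.sub_apply, Int.cast_sub, Pi.single_apply]
        split_ifs <;> simp
      rw [e1, map_sub, map_sub]
    have hLW : ∀ w ∈ WW d, L ((WW d).mkQ w) = 0 := by
      intro w hw
      rw [Submodule.mkQ_apply, (Submodule.Quotient.mk_eq_zero _).2 hw, map_zero]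
    have hsq : 1 < Real.sqrt 2 := by
      rw [show (1 : ℝ) = Real.sqrt 1 by simp]
      exact Real.sqrt_lt_sqrt (by norm_num) (by norm_num)
    have hpres : Pres x (fun i => ((sg q i * (2 : ℝ) ^ mu i : ℝ) : ℂ)) := by
      refine pres_of_sign x q hx hq0 (fun i => (2 : ℝ) ^ mu i) (fun i => by positivity) ?_ ?_ ?_
      · rintro i j (hij | hij)
        · have e1 : vq (dv i j) ∈ WW d :=
            d.all _ (Or.inl ⟨i, j, by rw [hx, hx, hij], rfl⟩)
          have e2 := hLW _ e1
          rw [hmu_dv, sub_eq_zero] at e2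
          simp only [e2]
        · have hlam : lamq q i - lamq q j = 0 := by
            unfold lamq
            have : ((q i : ℚ) : ℝ) = - ((q j : ℚ) : ℝ) := by
              have : q i = - q j := by linarith
              rw [this]; push_cast; rfl
            rw [this, abs_neg, sub_self]
          obtain ⟨s, s', hss, hmem, hlin⟩ := dep x o d q hx hq0 hqo hcard hu hT i j C0 A0
            (by rw [hlam]; simp) (Al.lam_le q hq0 h0)
          rw [hlam, mul_zero, zero_add] at hlin
          have hs' : s' = 0 := by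
            rcases mul_eq_zero.1 hlin with h' | h'
            · exact_mod_cast h'
            · exact absurd h' (Al.lam_pos q hq0 h0).ne'
          have hs : s ≠ 0 := by
            rcases hss with h' | h'
            · exact h'
            · exact absurd hs' h'
          rw [hs', Int.cast_zero, zero_smul, add_zero] at hmem
          have e2 := hLW _ (mem_of_smul _ _ s hs hmem)
          rw [hmu_dv, sub_eq_zero] at e2
          simp only [e2]
      · intro i j k hijk
        have e1 := hLW _ (d.all _ (Or.inr ⟨i, j, k, by rw [hx, hx, hx, ← hijk]; push_cast; rfl,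
          rfl⟩))
        rw [hmu] at e1
        have hs : ∀ a : ι, ∑ i, (((Pi.single a 1 : ι → ℤ) i : ℤ) : ℝ) * mu i = mu a := by
          intro a
          rw [Finset.sum_eq_single a]
          · simp
          · intro i _ hi; simp [hi]
          · simp
        simp only [Pi.sub_apply, Pi.add_apply, Int.cast_sub, Int.cast_add, sub_mul, add_mul,
          Finset.sum_sub_distrib, Finset.sum_add_distrib, hs] at e1
        have e2 : mu o = 0 := hL2
        show (2 : ℝ) ^ mu i * (2 : ℝ) ^ mu j = (2 : ℝ) ^ mu k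
        rw [← Real.rpow_add (by norm_num)]
        congr 1; linarith
      · intro A B C hh
        obtain ⟨e1, e2⟩ := hequiv A B C hh
        have e3 := hLW _ e1
        have e4 := hLW _ e2
        rw [map_sub, map_sub, hmu_dv, hL0] at e3
        rw [map_sub, map_sub, hmu_dv, hL1] at e4
        show (2 : ℝ) ^ mu C = (2 : ℝ) ^ mu A + (2 : ℝ) ^ mu B
        have e5 : mu C = mu A + Real.logb 2 (Real.sqrt 2) := by linarith
        have e6 : mu B = mu A + Real.logb 2 (Real.sqrt 2 - 1) := by linarith
        rw [e5, e6, Real.rpow_add (by norm_num), Real.rpow_add (by norm_num),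
          Real.rpow_logb (by norm_num) (by norm_num) (by linarith),
          Real.rpow_logb (by norm_num) (by norm_num) (by linarith)]
        ring
    -- irrational coordinate
    have hirr : ∃ i, ∀ r : ℚ, ((sg q i * (2 : ℝ) ^ mu i : ℝ) : ℂ) ≠ r := by
      by_contra hcon
      push Not at hcon
      obtain ⟨r1, hr1⟩ := hcon C0
      obtain ⟨r2, hr2⟩ := hcon A0
      have hr1' : sg q C0 * (2 : ℝ) ^ mu C0 = r1 := by exact_mod_cast hr1
      have hr2' : sg q A0 * (2 : ℝ) ^ mu A0 = r2 := by exact_mod_cast hr2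
      have e1 : |(r1 : ℝ)| = (2 : ℝ) ^ mu C0 := by
        rw [← hr1', abs_mul, abs_sg, one_mul, abs_of_pos (by positivity)]
      have e2 : |(r2 : ℝ)| = (2 : ℝ) ^ mu A0 := by
        rw [← hr2', abs_mul, abs_sg, one_mul, abs_of_pos (by positivity)]
      have e3 : mu C0 = mu A0 + Real.logb 2 (Real.sqrt 2) := by
        have := hmu_dv C0 A0
        rw [hL0] at this
        linarith
      have e4 : |(r1 : ℝ)| = |(r2 : ℝ)| * Real.sqrt 2 := by
        rw [e1, e2, e3, Real.rpow_add (by norm_num),
          Real.rpow_logb (by norm_num) (by norm_num) (by linarith)]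
      have e5 : 0 < |(r2 : ℝ)| := by rw [e2]; positivity
      have e6 : Real.sqrt 2 = ((|r1| / |r2| : ℚ) : ℝ) := by
        push_cast
        rw [e4]; field_simp
      exact irrational_sqrt_two ⟨_, e6.symm⟩
    obtain ⟨i, hi⟩ := hirr
    have hTx' : Target (fun i => ((sg q i * (2 : ℝ) ^ mu i : ℝ) : ℂ)) o := by
      refine irrational_case _ o (fun i => ?_) ?_ hcard i hi
      · have h1 : sg q i ≠ 0 := by
          intro h; have := abs_sg q i; rw [h] at this; simp at this
        have h2 : ((2 : ℝ) ^ mu i) ≠ 0 := by positivity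
        exact_mod_cast mul_ne_zero h1 h2
      · have h1 : sg q o = 1 := by unfold sg; rw [if_pos (by rw [hqo]; norm_num)]
        have h2 : mu o = 0 := hL2
        show ((sg q o * (2 : ℝ) ^ mu o : ℝ) : ℂ) = 1
        rw [h1, h2]; simp
    obtain ⟨z, hz1, hz2, hz3⟩ := hTx'
    exact hT ⟨z, hz1, hz2, hpres.comp hz3⟩

end Pool.Agent.Tyz
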